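import Pool.Agent.Work.MP_da2620_ag.ZG2
import Pool.Agent.Work.MP_da2620_ag.Reg

/-!
# Tangent spaces at generic points, weighted degeneration, independence of rows
-/

namespace GM

open MvPolynomial PR0 PR0.Z

universe u

variable {k : Type u} [Field k] {K K' : Type u} [Field K] [Field K'] [Algebra k K] [Algebra k K']
  {I R : Type}

open scoped IntermediateField.algebraAdjoinAdjoin in
/-- Derivations with prescribed values. -/
theorem exists_der [CharZero k] {n : ℕ} {y : Fin n → K} (hy : AlgebraicIndependent k y)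
    (δ : Fin n → K) : ∃ D : Derivation k K K, ∀ a, D (y a) = δ a := by
  classical
  obtain ⟨t, hyt, ht⟩ := exists_isTranscendenceBasis_superset hy.to_subtype_range
  let w : t → K := fun b => if h : ∃ a, y a = b then δ h.choose else 0
  let A := Algebra.adjoin k (Set.range ((↑) : t → K))
  let F := IntermediateField.adjoin k (Set.range ((↑) : t → K))
  let θ : A →ₐ[k] TrivSqZeroExt K K := (aeval fun b : t =>
    (TrivSqZeroExt.inl b.1 + TrivSqZeroExt.inr (w b) : TrivSqZeroExt K K)).comp
      ht.1.aevalEquiv.symm.toAlgHom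
  have hθ : ∀ b : t, θ ⟨b, Algebra.subset_adjoin ⟨b, rfl⟩⟩ =
      TrivSqZeroExt.inl b.1 + TrivSqZeroExt.inr (w b) := fun b => by
    have h1 : ht.1.aevalEquiv.symm ⟨b, Algebra.subset_adjoin ⟨b, rfl⟩⟩ = X b :=
      ht.1.aevalEquiv.symm_apply_eq.2 (Subtype.ext (by simp))
    exact (congrArg (aeval _) h1).trans (aeval_X _ _)
  have hfst : ∀ a : A, (θ a).fst = a := fun a => by
    have h1 : (TrivSqZeroExt.fstHom k K K).comp θ = A.val :=
      AlgHom.ext_of_adjoin_eq_top (s := Subtype.val ⁻¹' Set.range ((↑) : t → K))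
        (Algebra.adjoin_adjoin_coe_preimage) (by
          rintro ⟨_, _⟩ ⟨b, rfl⟩
          simp [hθ])
    exact DFunLike.congr_fun h1 a
  let B := TrivSqZeroExt K K
  let _ : Algebra A B := θ.toRingHom.toAlgebra
  have h1 : Algebra.FormallySmooth A F := .of_isLocalization (nonZeroDivisors _)
  have h2 : Algebra.IsAlgebraic F K := ht.isAlgebraic_field
  have h3 : Algebra.FormallyEtale F K := Algebra.FormallyEtale.of_isSeparable _ K
  have h4 : Algebra.FormallySmooth A K := .comp A F K
  let g : B →ₐ[A] K := { (TrivSqZeroExt.fstHom k K K).toRingHom with commutes' := hfst }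
  have hg : Function.Surjective g := fun x => ⟨TrivSqZeroExt.inl x, rfl⟩
  have hn : IsNilpotent (RingHom.ker (g : B →+* K)) := ⟨2, by
    rw [Submodule.pow_succ, Submodule.pow_one, Ideal.zero_eq_bot, eq_bot_iff, Ideal.mul_le]
    intro a ha b hb
    have ha' : a.fst = 0 := ha
    have hb' : b.fst = 0 := hb
    exact TrivSqZeroExt.ext (by rw [TrivSqZeroExt.fst_mul, ha', zero_mul]; rfl)
      (by rw [DualNumber.snd_mul, ha', hb', zero_mul, mul_zero, add_zero]; rfl)⟩
  let s := Algebra.FormallySmooth.liftOfSurjective (AlgHom.id A K) g hg hn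
  have hs : ∀ x, (s x).fst = x := Algebra.FormallySmooth.liftOfSurjective_apply _ g hg hn
  have hs' : ∀ a : A, s a = θ a := s.commutes
  let D : K →ₗ[k] K :=
    { toFun := fun x => (s x).snd
      map_add' := fun a b => by
        rw [map_add]
        rfl
      map_smul' := fun a b => by
        have h5 : s (algebraMap k K a) = algebraMap k B a :=
          (hs' (algebraMap k A a)).trans (θ.commutes a)
        rw [Algebra.smul_def, map_mul, h5, ← Algebra.smul_def]
        rfl }
  refine ⟨Derivation.mk' D fun a b => ?_, fun a => ?_⟩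
  · change (s (a * b)).snd = a • (s b).snd + b • (s a).snd
    rw [map_mul, DualNumber.snd_mul, hs, hs, smul_eq_mul, smul_eq_mul, mul_comm b]
  · have h5 := (hs' _).trans (hθ ⟨y a, hyt ⟨a, rfl⟩⟩)
    change (s (y a)).snd = _
    have h6 : ∃ a', y a' = y a := ⟨a, rfl⟩
    rw [h5]
    simp only [TrivSqZeroExt.snd_add, TrivSqZeroExt.snd_inl, TrivSqZeroExt.snd_inr, zero_add, w,
      dif_pos h6, hy.injective h6.choose_spec]

/-- The tangent space bounds the dimension. -/
theorem tan [CharZero k] [Finite I] (S : Set K) (z : I → K) (W : Submodule K (I → K))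
    (h : ∀ D : Derivation k K K, (∀ s ∈ S, D s = 0) → (fun i => D (z i)) ∈ W) :
    rk k (S ∪ Set.range z) ≤ rk k S + Module.finrank K W := by
  classical
  rw [rk_union]
  refine add_le_add_right ?_ _
  set E := IntermediateField.adjoin k S
  obtain ⟨n, hn⟩ := ENat.ne_top_iff_exists.1 (FG.of_finite (k := E) z).dm_ne_top
  rw [dm] at hn
  obtain ⟨y, hy, hi⟩ := exists_indep_of_le_rk hn.le
  rw [← hn, Nat.cast_le]
  choose D hD using fun a => exists_der hi (Pi.single a 1)
  choose e he using hy
  let v : Fin n → W := fun a => ⟨fun i => D a (z i), h ((D a).restrictScalars k) fun s hs =>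
    (D a).map_algebraMap ⟨s, IntermediateField.subset_adjoin _ _ hs⟩⟩
  have hv : LinearIndependent K v := Fintype.linearIndependent_iff.2 fun g hg b => by
    have h1 := congrArg (fun w : W => w.1 (e b)) hg
    simpa [v, he, hD, Pi.single_apply] using h1
  simpa using hv.fintype_card_le_finrank

theorem der_aeval [Fintype I] {A : Type u} [CommRing A] [Algebra k A] (D : Derivation k A A)
    (x : I → A) (P : MvPolynomial I k) :
    D (aeval x P) = ∑ i, aeval x (pderiv i P) * D (x i) := by
  classical
  induction P using MvPolynomial.induction_on with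
  | C a => simp
  | add f g hf hg => simp [hf, hg, add_mul, Finset.sum_add_distrib]
  | mul_X f j hf =>
    simp only [map_mul, aeval_X, Derivation.leibniz, smul_eq_mul, hf, pderiv_X, map_add, add_mul,
      Finset.sum_add_distrib, Finset.mul_sum, mul_assoc]
    congr 1
    rw [Finset.sum_eq_single j] <;> simp +contextual [eq_comm]

/-- Independence of the rows. -/
def Ind [Fintype R] (M : R → I → K) : Prop := ∀ μ : R → K, (∀ i, ∑ r, μ r * M r i = 0) → μ = 0

variable [Fintype R]

theorem ind_iff {M : R → I → K} : Ind M ↔ LinearIndependent K M := by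
  rw [Fintype.linearIndependent_iff]
  refine forall_congr' fun μ => ?_
  simp [funext_iff]

theorem ind_iff_det [DecidableEq R] [Fintype I] {M : R → I → K} :
    Ind M ↔ ∃ g : R → I, (Matrix.of fun r r' => M r (g r')).det ≠ 0 := by
  refine ⟨fun h => ?_, ?_⟩
  · have h1 := (ind_iff.1 h).rank_matrix (M := Matrix.of M)
    rw [Matrix.rank_eq_finrank_span_cols] at h1
    obtain ⟨κ, a, ha, h2, h3⟩ := exists_linearIndependent' K (Matrix.of M).col
    have := Finite.of_injective a ha
    have := Fintype.ofFinite κ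
    have h4 := finrank_span_eq_card h3
    rw [h2, h1] at h4
    let e := Fintype.equivOfCardEq h4
    refine ⟨a ∘ e, ((Matrix.isUnit_iff_isUnit_det _).1
      (Matrix.linearIndependent_cols_iff_isUnit.1 (h3.comp e e.injective))).ne_zero⟩
  · rintro ⟨g, hg⟩ μ hμ
    exact ind_iff.2 (Matrix.linearIndependent_rows_of_det_ne_zero hg) μ fun r' => hμ (g r')

/-- Independence of rows generises. -/
theorem Ind.gen [Fintype I] {A : Type u} [CommRing A] (ψ : A →+* K) (φ : A →+* K')
    (h : ∀ a, ψ a = 0 → φ a = 0) {M : R → I → A} (hM : Ind fun r i => φ (M r i)) :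
    Ind fun r i => ψ (M r i) := by
  classical
  obtain ⟨g, hg⟩ := ind_iff_det.1 hM
  refine ind_iff_det.2 ⟨g, fun h1 => hg ?_⟩
  have h2 := h (Matrix.of fun r r' => M r (g r')).det (by rw [RingHom.map_det]; exact h1)
  rw [RingHom.map_det] at h2
  exact h2

theorem Ind.rat [IsAlgClosed k] [Fintype I] {J : Type} [Finite J] {c : J → K}
    {M : R → I → MvPolynomial J k} (hM : Ind fun r i => aeval c (M r i)) :
    ∃ c₀ : J → k, Spc k c c₀ ∧ Ind fun r i => aeval c₀ (M r i) := by
  classical
  obtain ⟨g, hg⟩ := ind_iff_det.1 hM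
  obtain ⟨c₀, h1, h2⟩ := exists_rat (k := k) (FG.of_finite c)
    (g := (Matrix.of fun r r' => M r (g r')).det) (by rw [AlgHom.map_det]; exact hg)
  rw [AlgHom.map_det] at h2
  exact ⟨c₀, h1, ind_iff_det.2 ⟨g, h2⟩⟩

omit [Fintype R] in
theorem finrank_ker [Fintype I] (M : Matrix R I K) :
    Module.finrank K (LinearMap.ker M.mulVecLin) + M.rank = Fintype.card I := by
  rw [add_comm, Matrix.rank, LinearMap.finrank_range_add_finrank_ker]
  simp

theorem Ind.rank [Fintype I] {M : R → I → K} (h : Ind M) :
    (Matrix.of M).rank = Fintype.card R := (ind_iff.1 h).rank_matrix (M := Matrix.of M)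

/-- A relation between the rows with few coefficients. -/
theorem exists_rel [Fintype I] {M : R → I → K} (h : ¬ Ind M) :
    ∃ μ : R → K, μ ≠ 0 ∧ (∀ i, ∑ r, μ r * M r i = 0) ∧ dm k μ ≤ (Matrix.of M).rank := by
  classical
  have h1 : (Matrix.of M).rank + 1 ≤ Fintype.card R := by
    by_contra h2
    refine h (ind_iff.2 (linearIndependent_iff_card_le_finrank_span.2 ?_))
    rw [Matrix.rank_eq_finrank_span_row] at h2
    exact Nat.le_of_lt_succ (not_le.1 h2)
  obtain ⟨T, -, hT⟩ := Finset.exists_subset_card_eq (s := Finset.univ) h1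
  have h2 : ¬ LinearIndependent K fun r : T => M r := fun h3 => by
    have h4 := finrank_span_eq_card h3
    have h5 := Submodule.finrank_mono (Submodule.span_mono (R := K)
      (Set.range_comp_subset_range ((↑) : T → R) (Matrix.of M).row))
    rw [← Matrix.rank_eq_finrank_span_row] at h5
    have h6 := h4.ge.trans h5
    rw [Fintype.card_coe] at h6
    omega
  obtain ⟨g, hg, r₀, hr₀⟩ := Fintype.not_linearIndependent_iff.1 h2
  let μ : R → K := fun r => if hr : r ∈ T then g ⟨r, hr⟩ / g r₀ else 0
  refine ⟨μ, fun h3 => ?_, fun i => ?_, ?_⟩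
  · simpa [μ, hr₀] using congrFun h3 r₀
  · have h3 := congrFun hg i
    rw [← Finset.sum_subset (Finset.subset_univ T) fun r _ hr => by simp [μ, hr],
      ← Finset.sum_coe_sort]
    simp only [Finset.sum_apply, Pi.smul_apply, smul_eq_mul, Pi.zero_apply] at h3
    simp only [μ, dif_pos (Subtype.prop _), div_mul_eq_mul_div, ← Finset.sum_div]
    rw [h3, zero_div]
  · refine (rk_le_of_mem (s := μ '' (T.erase r₀)) ?_).trans ((rk_le_encard _).trans
      ((Set.encard_image_le _ _).trans ?_))
    · rintro _ ⟨r, rfl⟩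
      by_cases hr : r ∈ T
      · by_cases hr' : r = r₀
        · subst hr'
          simp [μ, hr₀]
        · exact IntermediateField.subset_adjoin _ _ ⟨r, by simp [hr, hr'], rfl⟩
      · simp [μ, hr]
    · rw [Set.encard_coe_eq_coe_finsetCard, Finset.card_erase_of_mem r₀.2, hT]
      simp

/-- A point with one more coordinate. -/
def ext1 (η : K) (t : I → K) : Option I → K := fun o => o.elim η t

/-- Weighted degeneration. -/
theorem asym [Finite I] (x : I → K) (v : I → ℕ) :
    ∃ (L : Type u) (_ : Field L) (_ : Algebra k L) (ψ : K →ₐ[k] L) (τ : L) (Ω : Type u)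
      (_ : Field Ω) (_ : Algebra k Ω) (x' : I → Ω), τ ≠ 0 ∧
      Spc k (ext1 τ fun i => τ ^ v i * ψ (x i)) (ext1 0 x') ∧ dm k x ≤ dm k x' := by
  obtain ⟨L, _, _, _, _, -, y, hy⟩ := exists_generic (k := k) K Unit
  have hτ : Transcendental K (y ()) := hy.transcendental ()
  generalize y () = τ at hτ
  have h0 : τ ≠ 0 := fun h => hτ (h ▸ isAlgebraic_zero)
  let ψ := IsScalarTower.toAlgHom k K L
  let c := ext1 τ fun i => τ ^ v i * ψ (x i)
  let b : Option I → Polynomial K := fun o => o.elim Polynomial.X fun i =>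
    Polynomial.X ^ v i * Polynomial.C (x i)
  have h1 := Spc.of_map b ((Polynomial.aeval τ).restrictScalars k) (transcendental_iff_injective.1 hτ)
  have h2 : (fun o => (Polynomial.aeval τ).restrictScalars k (b o)) = c := by
    ext (_ | i)
    · simp [b, c, ext1]
    · change Polynomial.aeval τ (Polynomial.X ^ v i * Polynomial.C (x i)) = τ ^ v i * ψ (x i)
      rw [map_mul, map_pow, Polynomial.aeval_X, Polynomial.aeval_C]
      rfl
  rw [h2] at h1
  obtain ⟨Ω, _, _, -, c', h3, -, h4, h5⟩ := krull (FG.of_finite c)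
    (h1.trans (Spc.map b ((Polynomial.aeval (0 : K)).restrictScalars k)))
    (fun _ : Unit => X none) fun _ => by simp [b]
  have h6 : c' = ext1 0 (c' ∘ some) := by
    ext (_ | i)
    · simpa [ext1] using h4 ()
    · rfl
  refine ⟨L, _, _, ψ, τ, Ω, _, _, c' ∘ some, h0, h6 ▸ h3, ?_⟩
  have h7 : dm k c' ≤ dm k (c' ∘ some) := rk_le_of_mem (by
    rintro _ ⟨_ | i, rfl⟩
    · rw [h6]
      exact zero_mem _
    · exact IntermediateField.subset_adjoin _ _ ⟨i, rfl⟩)
  have h8 : dm k x + 1 ≤ dm k c := by
    have h9 : Transcendental (Algebra.adjoin k (ψ '' Set.range x)) τ := by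
      have h10 : Transcendental ψ.range τ := fun h => hτ (h.of_ringHom_of_comp_eq
        (AlgEquiv.ofInjective ψ ψ.injective).toRingEquiv.toRingHom (RingHom.id _)
        (AlgEquiv.ofInjective ψ ψ.injective).surjective Function.injective_id rfl)
      refine fun h => h10 (h.tower_top_of_subalgebra_le (Algebra.adjoin_le ?_))
      rintro _ ⟨x, -, rfl⟩
      exact ⟨x, rfl⟩
    rw [dm, ← rk_image ψ, ← rk_insert h9]
    have h10 : τ ∈ IntermediateField.adjoin k (Set.range c) :=
      IntermediateField.subset_adjoin _ _ ⟨none, rfl⟩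
    refine rk_le_of_mem ?_
    rintro _ (rfl | ⟨_, ⟨i, rfl⟩, rfl⟩)
    · exact h10
    · have h11 := div_mem (IntermediateField.subset_adjoin k (Set.range c) ⟨some i, rfl⟩)
        (pow_mem h10 (v i))
      rwa [show c (some i) = τ ^ v i * ψ (x i) from rfl, mul_div_cancel_left₀ _ (pow_ne_zero _ h0)]
        at h11
  rw [Nat.card_unique, Nat.cast_one] at h5
  exact ((WithTop.add_le_add_iff_right ENat.one_ne_top).1 (h8.trans h5)).trans h7

end GM
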