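import Pool.Agent.Work.MP_64a944_ag.N6

/-!
# Derivations, canonical divisors, `a`-invariants
-/

namespace GMC

open MvPolynomial PR0 PR0.Z GM

variable {K K' L : Type} [Field K] [Field K'] [Field L] [Algebra ℂ K] [Algebra ℂ K'] [Algebra ℂ L]
  {ι κ σ : Type} {V : ValuationSubring K} {z : ι → K} {p : ι → ℂ} {x : ι → L} {a b : K}
  {D : (ι → ℂ) → K} {y y' φ : σ → K} {δ δ' : σ → Derivation ℂ K K}

theorem der_zero {M : Type} [AddCommGroup M] [Module K M] [Module ℂ M] (d : Derivation ℂ K M)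
    (h : ∀ i, d (y i) = 0) (ha : IsAlgebraic (Algebra.adjoin ℂ (Set.range y)) a) : d a = 0 := by
  let F := IntermediateField.adjoin ℂ (Set.range y)
  have h1 : ∀ c ∈ F, d c = 0 := fun c hc => by
    induction hc using IntermediateField.adjoin_induction with
    | mem _ h' => exact h'.elim fun i hi => hi ▸ h i
    | algebraMap c => exact d.map_algebraMap c
    | add _ _ _ _ h h' => rw [map_add, h, h', add_zero]
    | mul _ _ _ _ h h' => rw [d.leibniz, h, h', smul_zero, smul_zero, add_zero]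
    | inv _ _ h => rw [d.leibniz_inv, h, smul_zero]
  have h2 : IsIntegral F a := (IntermediateField.isAlgebraic_adjoin_iff.2 ha).isIntegral
  let d' : Derivation F K M := Derivation.mk'
    { toFun := d
      map_add' := map_add d
      map_smul' := fun c x => by
        rw [RingHom.id_apply, IntermediateField.smul_def, IntermediateField.smul_def, smul_eq_mul,
          d.leibniz, h1 c c.2, smul_zero, add_zero] } d.leibniz
  have h3 := d'.map_aeval (minpoly F a) a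
  rw [minpoly.aeval, map_zero] at h3
  exact (smul_eq_zero.1 h3.symm).resolve_left
    ((minpoly.irreducible h2).separable.aeval_derivative_ne_zero (minpoly.aeval F a))

/-- The field is algebraic over the `y i`. -/
def Alg (y : σ → K) : Prop := ∀ a : K, IsAlgebraic (Algebra.adjoin ℂ (Set.range y)) a

theorem Co.alg (h : Co y) : Alg y := fun a => IntermediateField.isAlgebraic_adjoin_iff.1
  (isAlgebraic_algebraMap (⟨a, h.2.ge IntermediateField.mem_top⟩ :
    IntermediateField.adjoin ℂ (Set.range y)))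

/-- The local ring. -/
def regS (z : ι → K) (x : ι → L) : Subalgebra ℂ K where
  carrier := {φ | Reg z x φ}
  mul_mem' := Reg.mul
  add_mem' h h' := h.elim fun _ h => h'.elim fun _ h' => ⟨_, h.add h'⟩
  algebraMap_mem' c := ⟨_, Val.const c⟩

theorem Reg.sub (h : Reg z x a) (h' : Reg z x b) : Reg z x (a - b) :=
  (regS z x).sub_mem h h'

theorem der_sum {M : Type} [AddCommGroup M] [Module K M] [Module ℂ M] (s : Finset σ)
    (d : σ → Derivation ℂ K M) (a : K) : (∑ k ∈ s, d k) a = ∑ k ∈ s, d k a :=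
  (congrFun (map_sum Derivation.coeFnAddMonoidHom d s) a).trans (Finset.sum_apply _ _ _)

variable [Fintype σ] [DecidableEq σ]

/-- Dual derivations. -/
def Dual (δ : σ → Derivation ℂ K K) (y : σ → K) : Prop := ∀ i j, δ i (y j) = if i = j then 1 else 0

/-- The Jacobian determinant. -/
noncomputable def vol (δ : σ → Derivation ℂ K K) (φ : σ → K) : K :=
  (Matrix.of fun i j => δ i (φ j)).det

theorem exists_dual (hy : AlgebraicIndependent ℂ y) : ∃ δ, Dual δ y := by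
  let e := Fintype.equivFin σ
  choose d hd using fun i => exists_der (hy.comp _ e.symm.injective)
    fun j => if i = e.symm j then 1 else 0
  exact ⟨d, fun i j => by simpa using hd i (e j)⟩

theorem chain (hy : Alg y) (hδ : Dual δ y) (χ : K →ₐ[ℂ] K') (d : Derivation ℂ K' K') (a : K) :
    d (χ a) = ∑ k, d (χ (y k)) * χ (δ k a) := by
  let _ := χ.toRingHom.toAlgebra
  have : IsScalarTower ℂ K K' := .of_algebraMap_eq fun c => (χ.commutes c).symm
  let E : σ → Derivation ℂ K K' := fun k => d (χ (y k)) • (Algebra.linearMap K K').compDer (δ k)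
  have h1 : ∀ a, (d.compAlgebraMap K - ∑ k, E k) a = d (χ a) - ∑ k, d (χ (y k)) * χ (δ k a) :=
    fun a => by
      rw [Derivation.sub_apply, der_sum]
      rfl
  exact sub_eq_zero.1 ((h1 a).symm.trans (der_zero _ (fun i => by
    rw [h1]; simp [hδ _ i, apply_ite χ]) (hy a)))

theorem Dual.vol (hδ : Dual δ y) : vol δ y = 1 := by
  rw [GMC.vol, show (Matrix.of fun i j => δ i (y j)) = 1 from
    Matrix.ext fun i j => by simp [hδ i j, Matrix.one_apply], Matrix.det_one]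

theorem vol_chain (hy : Alg y) (hδ : Dual δ y) (χ : K →ₐ[ℂ] K') (d : σ → Derivation ℂ K' K')
    (φ : σ → K) : vol d (fun j => χ (φ j)) = vol d (fun j => χ (y j)) * χ (vol δ φ) := by
  rw [vol, vol, vol, AlgHom.map_det, ← Matrix.det_mul]
  exact congrArg _ (Matrix.ext fun i j => chain hy hδ χ (d i) (φ j))

theorem vol_mul (hy : Alg y) (hδ : Dual δ y) (d : σ → Derivation ℂ K K) (φ : σ → K) :
    vol d φ = vol d y * vol δ φ := vol_chain hy hδ (AlgHom.id ℂ K) d φ

theorem vol_update (hδ : Dual δ y) (k : σ) (a : K) : vol δ (Function.update y k a) = δ k a := by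
  have h1 := Matrix.cramer_apply (1 : Matrix σ σ K) (fun i => δ i a) k
  rw [Matrix.cramer_one] at h1
  refine Eq.trans (congrArg Matrix.det (Matrix.ext fun i j => ?_)) h1.symm
  by_cases h : j = k <;> simp [h, hδ i j, Matrix.one_apply]

omit [Algebra ℂ K] in
theorem det_mem {S : Type} [SetLike S K] [SubringClass S K] (s : S) {M : Matrix σ σ K}
    (h : ∀ i j, M i j ∈ s) : M.det ∈ s := by
  rw [Matrix.det_apply']
  exact sum_mem fun _ _ => mul_mem (intCast_mem s _) (prod_mem fun _ _ => h _ _)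

theorem exists_basis (hy : Alg y) (hδ : Dual δ y) :
    ∃ b : Module.Basis σ K (Derivation ℂ K K), ⇑b = δ := by
  refine ⟨.mk (v := δ) (Fintype.linearIndependent_iff.2 fun g hg j => ?_) fun d _ => ?_,
    Module.Basis.coe_mk _ _⟩
  · simpa [der_sum, hδ _ j] using congrArg (fun d : Derivation ℂ K K => d (y j)) hg
  · rw [show d = ∑ k, d (y k) • δ k from Derivation.ext fun a => by
      rw [der_sum]; exact chain hy hδ (AlgHom.id ℂ K) d a]
    exact sum_mem fun k _ => Submodule.smul_mem _ _ (Submodule.subset_span ⟨k, rfl⟩)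

/-- `D` is the divisor of the top form dual to `δ`. -/
def Can (z : ι → K) (D : (ι → ℂ) → K) (δ : σ → Derivation ℂ K K) : Prop := ∀ p, IsPt z p →
  (∀ φ : σ → K, (∀ j, Reg z p (φ j)) → Reg z p (vol δ φ * D p)) ∧
    ∃ φ : σ → K, (∀ j, Reg z p (φ j)) ∧ IsU z p (vol δ φ * D p)

theorem IsCanonical.can [Finite ι] {n : ℕ} {y : Fin n → K} {δ : Fin n → Derivation ℂ K K}
    (h : IsCanonical z D) (h0 : z ≠ 0) (hy : Alg y) (hδ : Dual δ y) :
    ∃ c, c ≠ 0 ∧ Can z (fun p => c * D p) δ := by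
  obtain ⟨-, m, b, h⟩ := h
  obtain ⟨b', -⟩ := exists_basis hy hδ
  obtain rfl : m = n := by simpa using Fintype.card_congr (b.indexEquiv b')
  have h1 : ∀ p φ, vol δ φ * (vol b y * D p) = vol b φ * D p := fun p φ => by
    rw [vol_mul hy hδ b φ]
    ring
  refine ⟨vol b y, fun h2 => ?_, fun p hp => by simp only [h1]; exact h p hp⟩
  obtain ⟨p, hp, -⟩ := IsPt.closed h0 (H := 1) (by simp)
  obtain ⟨φ, -, h3⟩ := (h p hp).2
  exact h3.ne hp ((h1 p φ).symm.trans (by simp [h2]))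

omit [Fintype σ] [DecidableEq σ] in
theorem der_mem {d : Derivation ℂ K K} {s : K} (ha : d a ∈ V) (hs : d s ∈ V) (hb : b ∈ V)
    (h1 : V.valuation s = 1) (h2 : b * s = a) : d b ∈ V := by
  refine mem_of_mul h1 ?_
  rw [← h2, d.leibniz, smul_eq_mul, smul_eq_mul] at ha
  simpa [mul_comm] using sub_mem ha (mul_mem hb hs)

theorem Can.der (h : Can z D δ) (hV : LocV z V p) (hφ : ∀ j, Reg z p (φ j)) (hy : Alg φ)
    (hδ : Dual δ' φ) (h1 : V.valuation (vol δ φ * D p) = 1) (k : σ) (hb : b ∈ V) : δ' k b ∈ V := by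
  have h2 : ∀ a, Reg z p a → δ' k a ∈ V := fun a ha => mem_of_mul h1 (by
    have h2 := hV.mem _ ((h p hV.pt).1 (Function.update φ k a) fun j => by
      by_cases h : j = k <;> simp [h, ha, hφ])
    rwa [vol_mul hy hδ, vol_update hδ, mul_comm (vol δ φ), mul_assoc] at h2)
  obtain ⟨a, s, h3, h4, h5, h6⟩ := hV.loc b hb
  exact der_mem (h2 a h3) (h2 s h4) hb h5 h6

theorem Can.inv (h : Can z D δ) (hp : IsPt z p) (hV : ∀ φ, Reg z p φ → φ ∈ V) (hy : Alg φ)
    (hδ : Dual δ' φ) (h1 : ∀ k, ∀ b ∈ V, δ' k b ∈ V) : (vol δ φ * D p)⁻¹ ∈ V := by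
  obtain ⟨ψ, h2, h3⟩ := (h p hp).2
  refine mem_of_mul (unit_of_reg hp hV h3) ?_
  have h4 := h3.ne hp
  rw [vol_mul hy hδ δ ψ, mul_right_comm] at h4 ⊢
  rw [inv_mul_cancel_left₀ (left_ne_zero_of_mul h4)]
  exact det_mem V fun i j => h1 i _ (hV _ (h2 j))

/-- An affine chart that is an affine space. -/
structure Chart (z : ι → K) (i : ι) (y : σ → K) : Prop where
  co : Co y
  rat : ∀ k, ∃ b, y k = z b / z i
  pol : ∀ b, ∃ G : MvPolynomial σ ℂ, z b / z i = aeval y G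

variable {i i' : ι}

omit [Fintype σ] [DecidableEq σ] in
theorem Chart.reg (h : Chart z i y) (hx : IsPt z x) (hi : x i ≠ 0) (k : σ) : Reg z x (y k) :=
  let ⟨b, hb⟩ := h.rat k
  ⟨_, hb ▸ Val.ratio hx hi b⟩

omit [DecidableEq σ] in
theorem Chart.smooth (h : Chart z i y) :
    Algebra.Smooth ℂ (Algebra.adjoin ℂ (Set.range fun j => z j / z i)) := by
  rw [show Algebra.adjoin ℂ (Set.range fun j => z j / z i) = Algebra.adjoin ℂ (Set.range y) from
    le_antisymm (Algebra.adjoin_le (by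
      rintro _ ⟨b, rfl⟩
      exact (Algebra.adjoin_range_eq_range_aeval ℂ y).ge ((h.pol b).imp fun _ h => h.symm)))
    (Algebra.adjoin_mono (by
      rintro _ ⟨k, rfl⟩
      exact (h.rat k).imp fun _ h => h.symm))]
  have : Algebra.Smooth ℂ (MvPolynomial σ ℂ) := {}
  exact .of_equiv h.co.1.aevalEquiv

theorem Chart.der (h : Chart z i y) (hδ : Dual δ y) (hx : IsPt z x) (hi : x i ≠ 0) (k : σ)
    (ha : Reg z x a) : Reg z x (δ k a) := by
  obtain ⟨G, H, h1, h2⟩ := ha.chart hx hi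
  choose P hP using h.pol
  simp only [hP, ← comp_aeval_apply] at h1 h2
  have h3 := congrArg (δ k) h2
  rw [Derivation.leibniz, der_pd (hδ k), der_pd (hδ k), smul_eq_mul, smul_eq_mul] at h3
  rw [← inv_mul_cancel_left₀ (h1.ne hx) (δ k a), eq_sub_of_add_eq' h3]
  exact (h1.inv hx).reg.mul ((Reg.aev (h.reg hx hi) _).sub (ha.mul (Reg.aev (h.reg hx hi) _)))

theorem Chart.vol (h : Chart z i y) (hδ : Dual δ y) (hx : IsPt z x) (hi : x i ≠ 0)
    (hφ : ∀ j, Reg z x (φ j)) : Reg z x (vol δ φ) :=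
  det_mem (regS z x) fun k j => h.der hδ hx hi k (hφ j)

theorem exists_can {y₀ : σ → K} (hδ : Dual δ y₀)
    (h : ∀ p : ι → ℂ, IsPt z p → ∃ (i : ι) (y : σ → K), p i ≠ 0 ∧ Chart z i y) :
    ∃ D, IsDiv z D ∧ Can z D δ ∧ ∀ (L : Type) [Field L] [Algebra ℂ L] (x : ι → L) p i (y : σ → K),
      IsPt z x → IsPt x p → x i ≠ 0 → Chart z i y → IsU z x (vol δ y * D p) := by
  by_cases h0 : ∃ p : ι → ℂ, IsPt z p
  swap
  · exact ⟨1, fun p hp => absurd ⟨p, hp⟩ h0, fun p hp => absurd ⟨p, hp⟩ h0,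
      fun _ _ _ _ p _ _ hx hp => absurd ⟨p, hx.trans hp⟩ h0⟩
  have : Nonempty ι := h0.elim fun p hp => hp.ex.elim fun i _ => ⟨i⟩
  choose! c y h1 h2 using h
  have h3 : ∀ {i : ι} {y : σ → K}, Chart z i y → vol δ y ≠ 0 := fun h => by
    obtain ⟨δ', h3⟩ := exists_dual h.co.1
    exact left_ne_zero_of_mul ((vol_mul h.co.alg h3 δ y₀).symm.trans_ne
      (hδ.vol.trans_ne one_ne_zero))
  have h4 : ∀ (L : Type) [Field L] [Algebra ℂ L] (x : ι → L) {i i' : ι} {y y' : σ → K}, IsPt z x →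
      x i ≠ 0 → x i' ≠ 0 → Chart z i y → Chart z i' y' → Reg z x (vol δ y / vol δ y') :=
    fun L _ _ x i i' y y' hx hi hi' h h' => by
      obtain ⟨δ', h4⟩ := exists_dual h'.co.1
      rw [vol_mul h'.co.alg h4 δ y, mul_div_cancel_left₀ _ (h3 h')]
      exact h'.vol h4 hx hi' (h.reg hx hi)
  have h5 : ∀ (L : Type) [Field L] [Algebra ℂ L] (x : ι → L) {i i' : ι} {y y' : σ → K}, IsPt z x →
      x i ≠ 0 → x i' ≠ 0 → Chart z i y → Chart z i' y' → IsU z x (vol δ y * (vol δ y')⁻¹) :=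
    fun L _ _ x i i' y y' hx hi hi' h h' => div_eq_mul_inv (vol δ y) _ ▸ .of_inv hx
      (div_ne_zero (h3 h) (h3 h')) (h4 L x hx hi hi' h h') (inv_div (vol δ y) _ ▸ h4 L x hx hi' hi h' h)
  refine ⟨fun p => (vol δ (y p))⁻¹, fun p hp => ⟨1, X (c p), isHomogeneous_X _ _,
    by simpa using h1 p hp, fun q hq h => ?_⟩, fun p hp => ⟨fun φ hφ => ?_, y p,
      (h2 p hp).reg hp (h1 p hp), h5 _ p hp (h1 p hp) (h1 p hp) (h2 p hp) (h2 p hp)⟩,
    fun L _ _ x p i y' hx hp hi h => h5 L x hx hi (hp.ne' (h1 p (hx.trans hp))) h (h2 p (hx.trans hp))⟩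
  · rw [div_inv_eq_mul, mul_comm]
    exact h5 _ q hq (by simpa using h) (h1 q hq) (h2 p hp) (h2 q hq)
  · obtain ⟨δ', h6⟩ := exists_dual (h2 p hp).co.1
    rw [vol_mul (h2 p hp).co.alg h6 δ φ, mul_right_comm, mul_inv_cancel₀ (h3 (h2 p hp)), one_mul]
    exact (h2 p hp).vol h6 hp (h1 p hp) hφ

omit [Fintype σ] [DecidableEq σ] in
theorem Cen.ne [Finite ι] (h : Cen V z x) (hi : z i ≠ 0) (h1 : ∀ b, z b / z i ∈ V) : x i ≠ 0 := by
  obtain ⟨j, hj⟩ := h.pt.ex
  intro h2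
  have h3 := val_mul_lt ((h.val (Val.ratio h.pt hj i)).2.1 (by rw [h2, zero_div])) (h1 j)
  rw [div_mul_div_cancel₀ (h.pt.ne' hj), div_self hi, map_one] at h3
  exact lt_irrefl _ h3

theorem vol_tri {n : ℕ} {δ : Fin n → Derivation ℂ K K} {φ : Fin n → K}
    (h : ∀ i j, j < i → δ i (φ j) = 0) : vol δ φ = ∏ i, δ i (φ i) :=
  Matrix.det_of_isUpperTriangular fun i j hj => h i j hj

/-! ### The relative canonical divisor -/

theorem Can.rel [Finite ι] [Finite κ] {w : κ → K'} {f : κ → K} {χ : K' →ₐ[ℂ] K} {y : σ → K'}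
    {δ' : σ → Derivation ℂ K' K'} {D' : (κ → ℂ) → K'} (hf : IsPt w f) (hm : IsMor z f)
    (hχ : ∀ φ, Val w f φ (χ φ)) (hy : Alg y) (hδ' : Dual δ' y) (hδ : Dual δ fun j => χ (y j))
    (hp : IsPt z p) {φ : σ → K'} (h : IsU w (img z f p) (vol δ' φ * D' (img z f p))) :
    ∃ u, IsU z p u ∧ D p / χ (D' (img z f p)) * u = vol δ (fun j => χ (φ j)) * D p := by
  obtain ⟨a, h1, h2⟩ := h
  have h3 : IsU z p _ := ⟨a, h1, (hm.img hp).val' hf hχ hp h2⟩
  refine ⟨_, h3, ?_⟩
  have h4 := h3.ne hp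
  rw [map_mul] at h4
  rw [vol_chain hy hδ' χ δ φ, hδ.vol, one_mul, map_mul, mul_comm (χ _), ← mul_assoc,
    div_mul_cancel₀ _ (right_ne_zero_of_mul h4), mul_comm]

theorem Can.eff [Finite ι] [Finite κ] {w : κ → K'} {f : κ → K} {χ : K' →ₐ[ℂ] K} {y : σ → K'}
    {δ' : σ → Derivation ℂ K' K'} {D' : (κ → ℂ) → K'} (hf : IsPt w f) (hm : IsMor z f)
    (hχ : ∀ φ, Val w f φ (χ φ)) (hy : Alg y) (hδ' : Dual δ' y) (hδ : Dual δ fun j => χ (y j))
    (hD : IsDiv z D) (hD' : IsDiv w D') (h : Can z D δ) (h' : Can w D' δ') :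
    IsEff z fun p => D p / χ (D' (img z f p)) := by
  refine ⟨by simpa only [div_eq_mul_inv] using hD.mul (hD'.pull hf hm hχ).inv, fun p hp => ?_⟩
  obtain ⟨φ, h1, h2⟩ := (h' _ (hf.trans ((hm.img hp).pt hp))).2
  obtain ⟨u, h3, h4⟩ := Can.rel (D := D) hf hm hχ hy hδ' hδ hp h2
  beta_reduce
  rw [eq_div_of_mul_eq (h3.ne hp) h4, div_eq_mul_inv]
  exact ((h p hp).1 _ fun j => (h1 j).imp fun _ h => (hm.img hp).val' hf hχ hp h).mul
    (h3.inv hp).reg

/-! ### `a`-invariants -/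

variable {X Y : Var} {KX : (X.ι → ℂ) → X.K} {KY R : (Y.ι → ℂ) → Y.K} {f : X.ι → Y.K}
  {χ : X.K →ₐ[ℂ] Y.K}

theorem num_pull (hf : IsPt X.z f) (hm : IsMor Y.z f) (hχ : ∀ φ, Val X.z f φ (χ φ))
    {D : (X.ι → ℂ) → X.K} (hD : IsDiv X.z D) :
    num Y (fun p => χ (D (img Y.z f p))) = pullNum Y X f D :=
  funext fun C => congrArg Int.cast (deg_pull hf hm hχ hD C.pt)

theorem aInv_le (hf : IsPt X.z f) (hm : IsMor Y.z f) (hχ : ∀ φ, Val X.z f φ (χ φ))
    (hR : IsEff Y.z R) (h : num Y KY = num Y R + pullNum Y X f KX) :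
    aInv Y KY (-pullNum Y X f KX) ≤ aInv X KX (-num X KX) := by
  let π : Crv Y → Crv X := fun C =>
    ⟨C.L, C.ff, img Y.z f C.x, hf.trans ((hm.img C.pt).pt C.pt)⟩
  refine sInf_le_sInf (Set.image_mono fun t ht => ?_)
  have h1 := map_mem_closure (f := fun ν : Crv X → ℝ => num Y R + ν ∘ π) (by fun_prop) ht
    (t := AddSubmonoid.closure {ν | ∃ (r : ℝ) (D : (Y.ι → ℂ) → Y.K),
      0 ≤ r ∧ IsEff Y.z D ∧ ν = r • num Y D}) fun ν hν => add_mem
        (AddSubmonoid.subset_closure ⟨1, R, zero_le_one, hR, (one_smul _ _).symm⟩) (by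
      induction hν using AddSubmonoid.closure_induction with
      | mem _ h =>
        obtain ⟨r, D, h1, h2, rfl⟩ := h
        exact AddSubmonoid.subset_closure ⟨r, _, h1, h2.pull hf hm hχ,
          by rw [num_pull hf hm hχ h2.1]; rfl⟩
      | zero => exact zero_mem _
      | add _ _ _ _ h h' => exact add_mem h h')
  rw [Set.mem_ofPred_eq, h, add_assoc]
  exact h1

theorem aInv_one (C : Crv X) (h : ∀ D, IsEff X.z D → 0 ≤ num X D C) (h' : num X KX C < 0) :
    aInv X KX (-num X KX) = 1 := by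
  refine le_antisymm (sInf_le ⟨1, ?_, rfl⟩) (le_sInf ?_)
  · rw [Set.mem_ofPred_eq, one_smul, add_neg_cancel]
    exact subset_closure (zero_mem _)
  · rintro _ ⟨t, ht, rfl⟩
    have h1 : Psef X ⊆ {ν | 0 ≤ ν C} := closure_minimal (fun ν hν => by
      induction hν using AddSubmonoid.closure_induction with
      | mem _ h1 =>
        obtain ⟨r, D, h1, h2, rfl⟩ := h1
        exact mul_nonneg h1 (h D h2)
      | zero => exact le_refl (0 : ℝ)
      | add _ _ _ _ h h' => exact add_nonneg (α := ℝ) h h') (isClosed_le continuous_const (continuous_apply C))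
    have h2 : 0 ≤ num X KX C + t * -num X KX C := h1 ht
    exact EReal.coe_le_coe_iff.2 (by nlinarith : (1 : ℝ) ≤ t)

end GMC
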