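import Pool.Agent.Work.MP_64a944_ag.A

/-!
# Complete intersection cones that are regular in codimension one are irreducible
-/

namespace GM

open MvPolynomial PR0 PR0.Z

universe u

attribute [local instance] MvPolynomial.gradedAlgebra

variable {k : Type u} [Field k] {σ : Type}

theorem gr_indD {τ : Type} [Finite τ] {δ : ℕ} (hδ : δ ≠ 0) {l : τ → MvPolynomial σ k}
    (hl : ∀ j, (l j).IsHomogeneous δ) {μ₀ : σ →₀ ℕ}
    (hM : ∀ i, X i ^ μ₀ i ∈ Ideal.span (Set.range l)) (N : ℕ → Submodule k (MvPolynomial σ k))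
    (h1 : ∀ J, ∀ μ ≤ μ₀, monomial μ 1 ∈ N J) (h2 : ∀ J j, ∀ f ∈ N J, l j * f ∈ N (J + δ))
    (J : ℕ) : ∀ f : MvPolynomial σ k, f.IsHomogeneous J → f ∈ N J := by
  have := Fintype.ofFinite τ
  induction J using Nat.strong_induction_on with
  | _ J ih =>
  intro f hf
  rw [f.as_sum]
  refine sum_mem fun μ hμ => ?_
  have hd : μ.degree = J := by
    by_contra h
    exact mem_support_iff.1 hμ (hf.coeff_eq_zero h)
  rw [← mul_one (coeff μ f), ← smul_eq_mul, ← smul_monomial]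
  refine Submodule.smul_mem _ _ ?_
  by_cases hb : μ ≤ μ₀
  · exact h1 J μ hb
  · obtain ⟨i, hi⟩ : ∃ i, μ₀ i < μ i := by simpa [Finsupp.le_def] using hb
    have h3 : monomial μ (1 : k) ∈ Ideal.span (Set.range l) := by
      refine Ideal.mem_of_dvd _ ?_ (hM i)
      rw [X_pow_eq_monomial]
      exact monomial_dvd_monomial.2 ⟨.inr (Finsupp.single_le_iff.2 hi.le), dvd_rfl⟩
    obtain ⟨g, h4⟩ := Ideal.mem_span_range_iff_exists_fun.1 h3
    have h6 := congrArg (homogeneousComponent J) h4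
    rw [homogeneousComponent_eq_self (isHomogeneous_monomial _ hd), map_sum] at h6
    rw [← h6]
    refine sum_mem fun j _ => ?_
    rw [mul_comm, ← decomposition.decompose'_apply]
    by_cases hJ : δ ≤ J
    · obtain ⟨J, rfl⟩ : ∃ J', J = δ + J' := ⟨J - δ, by omega⟩
      have h7 := DirectSum.coe_decompose_mul_add_of_left_mem (homogeneousSubmodule σ k) (i := δ)
        (j := J) (b := g j) (hl j)
      refine (congrArg (· ∈ N (δ + J)) h7).mpr ?_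
      rw [add_comm]
      exact h2 _ _ _ (ih J (by omega) _
        (DirectSum.decompose (homogeneousSubmodule σ k) (g j) J).2)
    · have h7 := DirectSum.coe_decompose_mul_of_left_mem_of_not_le (homogeneousSubmodule σ k)
        (b := g j) (hl j) hJ
      exact (congrArg (· ∈ N J) h7).mpr (zero_mem _)

variable [Finite σ]

theorem dI_bot : dI (⊥ : Ideal (MvPolynomial σ k)) = Nat.card σ := by
  rw [dI_eq, AlgEquiv.trdeg_eq (AlgEquiv.quotientBot k (MvPolynomial σ k))]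
  have := Fintype.ofFinite σ
  simp

theorem gcD {ι : Type} [Finite ι] {δ : ℕ} (hδ : δ ≠ 0) {𝔞 𝔟 𝔮₁ 𝔮₂ : Ideal (MvPolynomial σ k)}
    {l : ι ⊕ Fin 2 → MvPolynomial σ k} (hl : ∀ j, (l j).IsHomogeneous δ)
    (hd : Nat.card (ι ⊕ Fin 2) ≤ Nat.card σ) (h0 : Dle (Ideal.span (Set.range l)) 0)
    (ha : Hom 𝔞) (hb : Hom 𝔟)
    (hab : ∀ 𝔮 : Ideal (MvPolynomial σ k), 𝔮.IsPrime → (∀ i, l (.inl i) ∈ 𝔮) → 𝔞 ≤ 𝔮 ∨ 𝔟 ≤ 𝔮)
    (h1 : Dle (𝔞 ⊔ 𝔟 ⊔ Ideal.span (Set.range fun i => l (.inl i))) 0)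
    (hq₁ : 𝔮₁.IsPrime) (hq₂ : 𝔮₂.IsPrime) (hl₁ : ∀ i, l (.inl i) ∈ 𝔮₁)
    (hl₂ : ∀ i, l (.inl i) ∈ 𝔮₂) (ha₁ : 𝔞 ≤ 𝔮₁) (hb₂ : 𝔟 ≤ 𝔮₂) : dI 𝔮₁ = 0 ∨ dI 𝔮₂ = 0 := by
  classical
  let P := MvPolynomial (ι ⊕ Fin 2) k
  let R := MvPolynomial σ k
  let θ₀ : P →ₐ[k] R := aeval l
  let _ : Algebra P R := θ₀.toRingHom.toAlgebra
  have hX : ∀ j, algebraMap P R (X j) = l j := fun j => aeval_X (R := k) l j
  have : IsScalarTower k P R := IsScalarTower.of_algebraMap_eq fun c =>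
    (θ₀.commutes c).symm
  have hrad := h0.vx_le (hom_span (n := δ) (by rintro _ ⟨j, rfl⟩; exact hl j))
  choose M hM using fun i => hrad (mem_vx_of (isHomogeneous_X k i) one_ne_zero)
  let μ₀ : σ →₀ ℕ := Finsupp.equivFunOnFinite.symm M
  have hbox : (Set.Iic μ₀).Finite := Set.finite_Iic μ₀
  have hfin : Module.Finite P R := by
    let N := Submodule.span P ((fun μ => (monomial μ 1 : R)) '' Set.Iic μ₀)
    refine ⟨(Submodule.fg_def).2 ⟨_, hbox.image fun μ => (monomial μ 1 : R), ?_⟩⟩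
    rw [eq_top_iff]
    intro f _
    rw [← sum_homogeneousComponent f]
    refine sum_mem fun J _ => gr_indD hδ hl (μ₀ := μ₀) hM (fun _ => N.restrictScalars k)
      (fun _ μ hμ => Submodule.subset_span ⟨μ, hμ, rfl⟩) (fun _ j f hf => ?_) J _
      (homogeneousComponent_isHomogeneous _ _)
    change l j * f ∈ N
    rw [← hX, ← Algebra.smul_def]
    exact N.smul_mem _ hf
  have hinj : FaithfulSMul P R := by
    rw [faithfulSMul_iff_algebraMap_injective]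
    let K := FractionRing R
    let ψ : R →ₐ[k] K := IsScalarTower.toAlgHom k R K
    have hψ : Function.Injective ψ := IsFractionRing.injective R K
    have h2 : Pt2_id k (fun i => ψ (X i)) = ⊥ := by
      rw [← (RingHom.injective_iff_ker_eq_bot ψ).1 hψ]
      exact congrArg RingHom.ker (algHom_ext fun i => by simp : aeval _ = ψ)
    have h3 : AlgebraicIndependent k fun j => ψ (l j) := by
      refine indep_of_rk ((Nat.cast_le.2 hd).trans (dI_bot (k := k)).ge |>.trans ?_)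
      refine ((congrArg dI h2).symm.trans (dI_pt _)).le.trans (rk_le_of_alg ?_)
      rintro _ ⟨i, rfl⟩
      obtain ⟨g, hg, hg'⟩ := Algebra.IsIntegral.isIntegral (R := P) (X i : R)
      let θ : P →ₐ[k] Algebra.adjoin k (Set.range fun j => ψ (l j)) :=
        aeval fun j => ⟨_, Algebra.subset_adjoin ⟨j, rfl⟩⟩
      refine IsIntegral.isAlgebraic ⟨g.map θ.toRingHom, hg.map _, ?_⟩
      have h4 := congrArg ψ hg'
      rw [map_zero] at h4
      rw [Polynomial.eval₂_map, ← h4]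
      refine Eq.trans ?_ (Polynomial.hom_eval₂ g _ ψ.toRingHom _).symm
      congr 1
      have h5 : (Subalgebra.val _).comp θ = ψ.comp θ₀ := algHom_ext fun j => by simp [θ, θ₀]
      exact congrArg AlgHom.toRingHom h5
    have h4 : (aeval fun j => ψ (l j)) = ψ.comp θ₀ := algHom_ext fun j => by simp [θ₀]
    have h5 : Function.Injective (ψ.comp θ₀) := h4 ▸ h3
    exact Function.Injective.of_comp (f := ψ) h5
  let G : ℕ → AddSubgroup R := fun J => (homogeneousSubmodule σ k (δ * J)).toAddSubgroup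
  have : SetLike.GradedMonoid G :=
    { one_mem := isHomogeneous_one σ k
      mul_mem := fun i j f g hf hg => by
        change IsHomogeneous _ _
        rw [mul_add]
        exact IsHomogeneous.mul hf hg }
  have hG : ∀ φ : R →ₗ[P] P, ∃ d, ∀ J, ∀ w ∈ G J, (φ w).totalDegree ≤ J + d := by
    intro φ
    obtain ⟨d, hd⟩ := (hbox.image fun μ => (φ (monomial μ 1)).totalDegree).bddAbove
    refine ⟨d, fun J f hf => ?_⟩
    have h2 := (mem_restrictTotalDegree _ _ _).1 (gr_indD hδ hl (μ₀ := μ₀) hM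
      (fun J => (restrictTotalDegree _ k (J / δ + d)).comap (φ.restrictScalars k))
      (fun J μ hμ => (mem_restrictTotalDegree _ _ _).2
        ((hd ⟨μ, hμ, rfl⟩).trans (Nat.le_add_left _ _))) (fun J j f hf => ?_) (δ * J) f hf)
    · rwa [Nat.mul_div_cancel_left _ (Nat.pos_of_ne_zero hδ)] at h2
    · change φ (l j * f) ∈ restrictTotalDegree (ι ⊕ Fin 2) k _
      rw [← hX, ← Algebra.smul_def, map_smul, smul_eq_mul, mem_restrictTotalDegree,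
        Nat.add_div_right _ (Nat.pos_of_ne_zero hδ)]
      have h2 : (φ f).totalDegree ≤ J / δ + d := (mem_restrictTotalDegree _ _ _).1 hf
      have h3 := totalDegree_mul (X j : P) (φ f)
      rw [totalDegree_X] at h3
      omega
  set I := Ideal.span (Set.range fun i => l (.inl i))
  have hI : Hom I := hom_span (n := δ) (by rintro _ ⟨j, rfl⟩; exact hl _)
  have hrad' := h1.vx_le ((ha.sup hb).sup hI)
  choose N hN using fun j => hrad' (mem_vx_of (hl (.inr j)) hδ)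
  have hsplit : ∀ j, ∃ a b : R, a.IsHomogeneous (δ * (N 0 + N 1)) ∧
      b.IsHomogeneous (δ * (N 0 + N 1)) ∧ a ∈ 𝔞 ⊔ I ∧ b ∈ 𝔟 ∧
      l (.inr j) ^ (N 0 + N 1) = a + b := by
    intro j
    have h2 : l (.inr j) ^ (N 0 + N 1) ∈ (𝔞 ⊔ I) ⊔ 𝔟 := by
      rw [sup_right_comm]
      exact Ideal.pow_mem_of_pow_mem _ (hN j) (by fin_cases j <;> simp)
    obtain ⟨a, h3, b, h4, h5⟩ := Submodule.mem_sup.1 h2
    refine ⟨_, _, homogeneousComponent_isHomogeneous _ a, homogeneousComponent_isHomogeneous _ b,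
      (ha.sup hI).comp h3 _, hb.comp h4 _, ?_⟩
    rw [← map_add, h5, homogeneousComponent_eq_self ((hl _).pow (N 0 + N 1))]
  choose a b h2 h3 h4 h5 h6 using hsplit
  have hIle : ∀ {𝔮 : Ideal R}, (∀ i, l (.inl i) ∈ 𝔮) → I ≤ 𝔮 := fun h =>
    Ideal.span_le.2 (by rintro _ ⟨i, rfl⟩; exact h i)
  have key := gc_core G hG (N := N 0 + N 1) h2 h3 (fun j => by rw [hX, h6])
    (fun i j => by
      rw [Ideal.radical_eq_sInf, Ideal.mem_sInf]
      rintro 𝔯 ⟨h7, h8⟩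
      have h10 : ∀ i, l (.inl i) ∈ 𝔯 := fun i => h7 (Ideal.subset_span ⟨i, hX _⟩)
      rcases hab 𝔯 h8 h10 with h | h
      · exact Ideal.mul_mem_right _ _ (sup_le h (hIle h10) (h4 i))
      · exact Ideal.mul_mem_left _ _ (h (h5 j)))
    (𝔭 := 𝔮₁) (𝔮 := 𝔮₂) (fun i => hX _ ▸ hl₁ i) (fun i => hX _ ▸ hl₂ i)
    (fun j => sup_le ha₁ (hIle hl₁) (h4 j)) fun j => hb₂ (h5 j)
  have hend : ∀ 𝔮 : Ideal R, 𝔮.IsPrime → (∀ i, l (.inl i) ∈ 𝔮) →
      (∀ j, algebraMap P R (X (.inr j)) ∈ 𝔮) → dI 𝔮 = 0 := by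
    intro 𝔮 hq h8 h9
    refine le_antisymm (h0 𝔮 hq (Ideal.span_le.2 ?_)) zero_le
    rintro _ ⟨i | j, rfl⟩
    · exact h8 i
    · exact hX _ ▸ h9 j
  exact key.imp (hend _ hq₁ hl₁) (hend _ hq₂ hl₂)

omit [Finite σ] in
theorem dd_eq [Fintype σ] (q v : σ → k) (f : MvPolynomial σ k) :
    dd q v f = ∑ i, aeval q (pderiv i f) * v i := by
  classical
  induction f using MvPolynomial.induction_on with
  | C a => simp [Reg_dd_C]
  | add f g hf hg => simp [Reg_dd_add, hf, hg, add_mul, Finset.sum_add_distrib]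
  | mul_X f j hf =>
    simp only [Reg_dd_mul, Reg_dd_X, hf, Derivation.leibniz, smul_eq_mul, pderiv_X, map_add,
      map_mul, aeval_X, add_mul, Finset.sum_add_distrib, Finset.sum_mul]
    congr 1
    · rw [Finset.sum_eq_single j] <;> simp +contextual [eq_comm]
    · exact Finset.sum_congr rfl fun i _ => by ring

omit [Finite σ] in
theorem dm_le_of_ind [CharZero k] [Fintype σ] {R : Type} [Fintype R] {P : R → MvPolynomial σ k}
    {K : Type u} [Field K] [Algebra k K] {x : σ → K} (hx : ∀ r, aeval x (P r) = 0)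
    (h : Ind fun r i => aeval x (pderiv i (P r))) :
    dm k x + Fintype.card R ≤ Fintype.card σ := by
  have h1 := tan (k := k) ∅ x (LinearMap.ker
    (Matrix.of fun r i => aeval x (pderiv i (P r))).mulVecLin) fun D _ => funext fun r =>
      (der_aeval D x (P r)).symm.trans (by rw [hx, map_zero]; rfl)
  rw [Set.empty_union, show rk k (∅ : Set K) = 0 from Matroid.eRk_empty _, zero_add] at h1
  rw [← finrank_ker (Matrix.of fun r i => aeval x (pderiv i (P r))), h.rank, Nat.cast_add]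
  exact add_le_add_left h1 _

omit [Finite σ] in
theorem ci [IsAlgClosed k] [CharZero k] [Fintype σ] {R : Type} [Fintype R]
    {P : R → MvPolynomial σ k} {δ : R → ℕ} (hδ : ∀ r, δ r ≠ 0)
    (hP : ∀ r, (P r).IsHomogeneous (δ r)) {μ : ℕ}
    (hμ : Fintype.card σ = Fintype.card R + (μ + 2))
    (H : ∀ (K : Type u) [Field K] [Algebra k K] (x : σ → K), (∀ r, aeval x (P r) = 0) →
      ¬ Ind (fun r i => aeval x (pderiv i (P r))) → dm k x ≤ μ) :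
    ∃ 𝔭 : Ideal (MvPolynomial σ k), 𝔭.IsPrime ∧ (∀ r, P r ∈ 𝔭) ∧ dI 𝔭 = (μ + 2 : ℕ) ∧
      ∀ 𝔮 : Ideal (MvPolynomial σ k), 𝔮.IsPrime → (∀ r, P r ∈ 𝔮) → 𝔭 ≤ 𝔮 := by
  classical
  set J := Ideal.span (Set.range P)
  have hJ : ∀ {𝔮 : Ideal (MvPolynomial σ k)}, J ≤ 𝔮 ↔ ∀ r, P r ∈ 𝔮 := by
    intro 𝔮
    rw [Ideal.span_le, Set.range_subset_iff]
    rfl
  have hJ' : Hom J := Ideal.homogeneous_span _ _ (by rintro _ ⟨r, rfl⟩; exact ⟨_, hP r⟩)
  have hup : Dle J (2 + μ) := fun 𝔮 hq hle => by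
    obtain ⟨K, _, _, _, x, rfl⟩ := Pt2_pt 𝔮
    rw [dI_pt]
    by_cases h : Ind fun r i => aeval x (pderiv i (P r))
    · have h1 := dm_le_of_ind (hJ.1 hle) h
      rw [hμ, add_comm (Fintype.card R), add_comm μ, Nat.cast_add (2 + μ)] at h1
      exact (ENat.add_le_add_iff_right (by simp)).1 h1
    · exact (H K x (hJ.1 hle) h).trans (Nat.cast_le.2 (by omega))
  let T : Ideal (MvPolynomial σ k) → Prop := fun 𝔯 => 𝔯.IsPrime ∧ J ≤ 𝔯 ∧ (2 + μ : ℕ) ≤ dI 𝔯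
  have hex : ∀ 𝔮 : Ideal (MvPolynomial σ k), 𝔮.IsPrime → J ≤ 𝔮 → ∃ 𝔯, T 𝔯 ∧ 𝔯 ≤ 𝔮 := by
    intro 𝔮 hq hle
    obtain ⟨𝔯, h1, -, h2, h3, h4⟩ := dI_krull Ideal.isPrime_bot hq bot_le
      (fun j => P ((Fintype.equivFin R).symm j)) fun j => hJ.1 hle _
    refine ⟨𝔯, ⟨h1, hJ.2 fun r => by simpa using h3 (Fintype.equivFin R r), ?_⟩, h2⟩
    rw [dI_bot, Nat.card_eq_fintype_card, hμ, add_comm (Fintype.card R), add_comm μ,
      Nat.cast_add (2 + μ)] at h4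
    exact (ENat.add_le_add_iff_right (by simp)).1 h4
  have hmin : ∀ 𝔯, T 𝔯 → 𝔯 ∈ J.minimalPrimes := fun 𝔯 h => ⟨⟨h.1, h.2.1⟩, by
    rintro 𝔯' ⟨h1, h2⟩ h3
    by_contra h4
    exact lt_irrefl _ ((ENat.add_one_le_iff (dI_ne_top h.1)).1
      (((dI_lt h1 h.1 h3 h4).trans (hup _ h1 h2)).trans h.2.2))⟩
  have hhom : ∀ 𝔯, T 𝔯 → Hom 𝔯 := fun 𝔯 h => by
    obtain ⟨𝔯', h2, h3, h4, h5⟩ := hJ'.core h.1 h.2.1
    exact le_antisymm h5 ((hmin 𝔯 h).2 ⟨h2, h4⟩ h5) ▸ h3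
  have hloc : ∀ 𝔯₁ 𝔯₂ 𝔡 : Ideal (MvPolynomial σ k), T 𝔯₁ → T 𝔯₂ → 𝔡.IsPrime → 𝔯₁ ≤ 𝔡 → 𝔯₂ ≤ 𝔡 →
      𝔯₂ ≠ 𝔯₁ → dI 𝔡 ≤ μ := by
    rintro 𝔯₁ 𝔯₂ 𝔡 ⟨h1, h2, h3⟩ ⟨h4, h5, h6⟩ h7 h8 h9 h10
    obtain ⟨K, _, _, _, x, rfl⟩ := Pt2_pt 𝔡
    obtain ⟨K₁, _, _, _, x₁, rfl⟩ := Pt2_pt 𝔯₁
    obtain ⟨K₂, _, _, _, x₂, rfl⟩ := Pt2_pt 𝔯₂
    rw [dI_pt] at h3 h6 ⊢
    refine H K x (hJ.1 (h2.trans h8)) fun h => h10 ?_
    obtain ⟨q, h11, h12⟩ := h.rat
    have hF : FGI J := ⟨Finset.univ, fun i => ⟨X i, Algebra.subset_adjoin ⟨i, by simp, rfl⟩,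
      by simp⟩⟩
    have hT : Module.finrank k (Tan J q) ≤ 2 + μ := by
      have h13 := finrank_ker (Matrix.of fun r i => aeval q (pderiv i (P r)))
      have h14 : Tan J q ≤ LinearMap.ker
          (Matrix.of fun r i => aeval q (pderiv i (P r))).mulVecLin := fun v hv =>
        funext fun r => (dd_eq q v (P r)).symm.trans (hv _ (hJ.1 le_rfl r))
      have h15 := Submodule.finrank_mono h14
      rw [h12.rank] at h13
      omega
    exact le_antisymm (reg hF hT h5 h2 (Spc.trans h9 h11) (Spc.trans h8 h11) h6)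
      (reg hF hT h2 h5 (Spc.trans h8 h11) (Spc.trans h9 h11) h3)
  obtain ⟨𝔭, hp, -⟩ := hex (vx k σ) inferInstance (hJ.2 fun r => mem_vx_of (hP r) (hδ r))
  refine ⟨𝔭, hp.1, hJ.1 hp.2.1, add_comm μ 2 ▸ le_antisymm (hup _ hp.1 hp.2.1) hp.2.2,
    fun 𝔮 hq hle => ?_⟩
  obtain ⟨𝔭', hp', h1⟩ := hex 𝔮 hq (hJ.2 hle)
  refine le_of_eq_of_le ?_ h1
  by_contra hne
  have hf : {𝔯 | T 𝔯 ∧ 𝔯 ≠ 𝔭}.Finite :=
    (J.finite_minimalPrimes_of_isNoetherianRing _).subset fun _ h => hmin _ h.1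
  have hb : Hom (sInf {𝔯 | T 𝔯 ∧ 𝔯 ≠ 𝔭}) := Ideal.IsHomogeneous.sInf fun _ h => hhom _ h.1
  have hb' : ∀ 𝔮 : Ideal (MvPolynomial σ k), 𝔮.IsPrime →
      (sInf {𝔯 | T 𝔯 ∧ 𝔯 ≠ 𝔭} ≤ 𝔮 ↔ ∃ 𝔯, T 𝔯 ∧ 𝔯 ≠ 𝔭 ∧ 𝔯 ≤ 𝔮) := fun 𝔮 hq => by
    rw [← hf.coe_toFinset, ← Finset.inf_id_eq_sInf, hq.inf_le']
    simp [and_assoc]
  generalize sInf {𝔯 | T 𝔯 ∧ 𝔯 ≠ 𝔭} = 𝔟 at hb hb'
  have hD2 : Dle (𝔭 ⊔ 𝔟) (0 + μ) := fun 𝔡 hd hle => by
    obtain ⟨𝔯, h2, h3, h4⟩ := (hb' 𝔡 hd).1 (le_sup_right.trans hle)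
    rw [zero_add]
    exact hloc _ _ _ hp h2 hd (le_sup_left.trans hle) h4 h3
  obtain ⟨l, hl, hl1, hl2⟩ := cuts μ J (𝔭 ⊔ 𝔟)
  obtain ⟨y, hy, hy1, -⟩ := cuts 2 (J ⊔ Ideal.span (Set.range l)) ⊤
  have hδ₀ : ∏ r, δ r ≠ 0 := Finset.prod_ne_zero_iff.2 fun r _ => hδ r
  choose ε hε using fun r => Finset.dvd_prod_of_mem δ (Finset.mem_univ r)
  generalize ∏ r, δ r = δ₀ at hδ₀ hε
  have hε' : ∀ r, ε r ≠ 0 := fun r h => hδ₀ (by rw [hε r, h, mul_zero])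
  let L : R ⊕ Fin μ → MvPolynomial σ k := Sum.elim (fun r => P r ^ ε r) fun j => l j ^ δ₀
  have hL : ∀ {𝔮 : Ideal (MvPolynomial σ k)}, 𝔮.IsPrime →
      ((∀ i, L i ∈ 𝔮) ↔ J ⊔ Ideal.span (Set.range l) ≤ 𝔮) := fun hq => by
    rw [sup_le_iff, hJ, Ideal.span_le, Set.range_subset_iff, Sum.forall]
    exact and_congr (forall_congr' fun r => hq.pow_mem_iff_mem _ (Nat.pos_of_ne_zero (hε' r)))
      (forall_congr' fun r => hq.pow_mem_iff_mem _ (Nat.pos_of_ne_zero hδ₀))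
  have hcut : ∀ 𝔮, T 𝔮 → ∃ 𝔯 : Ideal (MvPolynomial σ k), 𝔯.IsPrime ∧ 𝔮 ≤ 𝔯 ∧
      (∀ i, L i ∈ 𝔯) ∧ dI 𝔯 ≠ 0 := by
    intro 𝔮 h
    obtain ⟨𝔯, h1, h2, -, h4, h5⟩ := dI_krull h.1 inferInstance ((hhom _ h).le_vx h.1) l
      fun i => mem_vx_of (hl i) one_ne_zero
    refine ⟨𝔯, h1, h2, (hL h1).2 (sup_le (h.2.1.trans h2)
      (Ideal.span_le.2 (Set.range_subset_iff.2 h4))), fun h6 => ?_⟩
    have h7 := h.2.2.trans h5
    rw [h6, zero_add, Nat.cast_le] at h7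
    omega
  obtain ⟨𝔯₁, h1, h2, h3, h4⟩ := hcut 𝔭 hp
  obtain ⟨𝔯₂, h5, h6, h7, h8⟩ := hcut 𝔭' hp'
  refine (gcD (ι := R ⊕ Fin μ) (l := Sum.elim L fun j => y j ^ δ₀) hδ₀ ?_ ?_ ?_ (hhom _ hp) hb ?_ ?_
    h1 h5 h3 h7 h2 ((hb' _ h5).2 ⟨_, hp', Ne.symm hne, h6⟩)).elim h4 h8
  · rintro ((r | j) | j)
    · exact hε r ▸ (hP r).pow (ε r)
    · simpa [L] using (hl j).pow δ₀
    · simpa using (hy j).pow δ₀
  · simp [hμ, add_assoc]
  · intro 𝔮 hq h9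
    rw [Ideal.span_le, Set.range_subset_iff, Sum.forall] at h9
    exact hy1 0 (hl1 2 hup) 𝔮 hq (sup_le ((hL hq).1 h9.1) (Ideal.span_le.2
      (Set.range_subset_iff.2 fun j => hq.mem_of_pow_mem _ (h9.2 j))))
  · intro 𝔮 hq h9
    obtain ⟨𝔯, h11, h12⟩ := hex 𝔮 hq (le_sup_left.trans ((hL hq).1 h9))
    by_cases h : 𝔯 = 𝔭
    · exact .inl (h ▸ h12)
    · exact .inr ((hb' _ hq).2 ⟨𝔯, h11, h, h12⟩)
  · intro 𝔮 hq h9
    exact hl2 0 hD2 𝔮 hq (sup_le (le_sup_left.trans h9) (le_sup_right.trans ((hL hq).1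
      fun i => h9 (Ideal.mem_sup_right (Ideal.subset_span ⟨i, rfl⟩)))))

omit [Finite σ] in
theorem exists_series [IsAlgClosed k] [Finite σ] (n : ℕ) : ∀ (𝔭 : Ideal (MvPolynomial σ k))
    (hp : 𝔭.IsPrime), n ≤ dI 𝔭 → ∃ s : LTSeries (PrimeSpectrum (MvPolynomial σ k)),
      s.length = n ∧ s.head = ⟨𝔭, hp⟩ := by
  induction n with
  | zero => exact fun 𝔭 hp _ => ⟨RelSeries.singleton _ ⟨𝔭, hp⟩, rfl, rfl⟩
  | succ n ih =>
    intro 𝔭 hp hn
    obtain ⟨K, _, _, _, c, rfl⟩ := Pt2_pt 𝔭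
    rw [dI_pt, Nat.cast_succ] at hn
    obtain ⟨q, hq, -⟩ := exists_rat (k := k) (FG.of_finite c) (g := 1) (by simp)
    obtain ⟨x, h1, h2⟩ := Reg_exists q hn
    obtain ⟨Ω, _, _, c', h3, -, h4, h5⟩ := Reg_cut (FG.of_finite c) hq hn h1
    obtain ⟨s, h6, h7⟩ := ih (Pt2_id k c') inferInstance (h5.trans (dI_pt c').ge)
    have h8 : (⟨_, hp⟩ : PrimeSpectrum _) < s.head := by
      rw [h7]
      exact lt_of_le_not_ge (show Pt2_id k c ≤ Pt2_id k c' from h3)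
        fun h => h2 ((show Pt2_id k c' ≤ Pt2_id k c from h) h4)
    exact ⟨s.cons ⟨_, hp⟩ h8,
      (RelSeries.cons_length _ _ _).trans (congrArg (· + 1) h6), RelSeries.head_cons _ _ _⟩

theorem krullDim_eq [IsAlgClosed k] {𝔭 : Ideal (MvPolynomial σ k)} (hp : 𝔭.IsPrime) {n : ℕ}
    (hn : dI 𝔭 = n) : ringKrullDim (MvPolynomial σ k ⧸ 𝔭) = n := by
  rw [ringKrullDim_quotient]
  refine le_antisymm (iSup_le fun s => ?_) ?_
  · have key : ∀ j (hj : j < s.length + 1), dI (s ⟨j, hj⟩).1.asIdeal + j ≤ n := by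
      intro j
      induction j with
      | zero => exact fun hj => by simpa [← hn] using dI_mono hp inferInstance (s ⟨0, hj⟩).2
      | succ j ih =>
        intro hj
        have h1 : s ⟨j, by omega⟩ < s ⟨j + 1, hj⟩ := s.strictMono (by simp [Fin.lt_def])
        have h2 := dI_lt inferInstance inferInstance h1.le h1.not_ge
        rw [Nat.cast_succ, add_comm (j : ℕ∞), ← add_assoc]
        exact (add_le_add_left h2 _).trans (ih _)
    have h1 : s.length ≤ n := Nat.cast_le.1 (le_add_self.trans (key s.length (by omega)))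
    exact_mod_cast h1
  · obtain ⟨s, h1, h2⟩ := exists_series n 𝔭 hp hn.ge
    have h3 : ∀ i, s i ∈ PrimeSpectrum.zeroLocus (𝔭 : Set (MvPolynomial σ k)) := fun i => by
      have h4 := s.head_le i
      rw [h2] at h4
      exact h4
    rw [← h1]
    exact Order.LTSeries.length_le_krullDim (LTSeries.mk s.length
      (fun i => (⟨s i, h3 i⟩ : PrimeSpectrum.zeroLocus (𝔭 : Set (MvPolynomial σ k)))) s.strictMono)

end GM
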