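import Pool.Agent.Work.MP_64a944_ag.A

/-!
# Lines on a smooth complete intersection: dimension counts
-/

namespace GM

open MvPolynomial PR0 PR0.Z

universe u

variable {k : Type u} [Field k] {K : Type u} [Field K] [Algebra k K] {ι κ : Type}

theorem aeval_smul' {B : Type u} [CommRing B] [Algebra k B] {f : MvPolynomial ι k} {n : ℕ}
    (hf : f.IsHomogeneous n) (s : B) (c : ι → B) :
    aeval (fun i => s * c i) f = s ^ n * aeval c f := by
  rw [f.as_sum, map_sum, map_sum, Finset.mul_sum]
  refine Finset.sum_congr rfl fun μ hμ => ?_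
  have hd : μ.degree = n := by
    by_contra h
    exact mem_support_iff.1 hμ (hf.coeff_eq_zero h)
  simp only [aeval_monomial, Finsupp.prod, mul_pow, Finset.prod_mul_distrib,
    Finset.prod_pow_eq_pow_sum, ← hd, Finsupp.degree_apply]
  ring

theorem map_aev {A B : Type u} [CommRing A] [Algebra k A] [CommRing B] [Algebra k B]
    (χ : A →ₐ[k] B) (h : ι → Polynomial A) (G : MvPolynomial ι k) :
    (aeval h G).map (χ : A →+* B) = aeval (fun i => (h i).map (χ : A →+* B)) G :=
  comp_aeval_apply h (Polynomial.mapAlgHom χ) G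

theorem C_aev {A : Type u} [CommRing A] [Algebra k A] (x : ι → A) (G : MvPolynomial ι k) :
    aeval (fun i => Polynomial.C (x i)) G = Polynomial.C (aeval x G) :=
  (comp_aeval_apply x (IsScalarTower.toAlgHom k A (Polynomial A)) G).symm

theorem eval_aev {A : Type u} [CommRing A] [Algebra k A] (h : ι → Polynomial A) (t : A)
    (G : MvPolynomial ι k) : (aeval h G).eval t = aeval (fun i => (h i).eval t) G := by
  have := comp_aeval_apply h ((Polynomial.aeval t).restrictScalars k) G
  simpa [Polynomial.coe_aeval_eq_eval] using this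

/-- The coefficientwise derivation. -/
noncomputable def Dc {A : Type u} [CommRing A] [Algebra k A] (D : Derivation k A A) :
    Derivation k (Polynomial A) (Polynomial A) :=
  PolynomialModule.equivPolynomialSelf.compDer D.mapCoeffs

theorem coeff_Dc {A : Type u} [CommRing A] [Algebra k A] (D : Derivation k A A) (p : Polynomial A)
    (n : ℕ) : (Dc D p).coeff n = D (p.coeff n) := rfl

variable [Fintype ι] [Fintype κ]

/-- Smooth complete intersection of multidegree `d`. -/
structure Hyp (F : κ → MvPolynomial ι k) (d : κ → ℕ) : Prop where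
  hom : ∀ l, (F l).IsHomogeneous (d l)
  pos : ∀ l, d l ≠ 0
  sm : ∀ (K : Type u) [Field K] [Algebra k K] (x : ι → K), (∀ l, aeval x (F l) = 0) → x ≠ 0 →
    Ind fun l i => aeval x (pderiv i (F l))

variable {F : κ → MvPolynomial ι k} {d : κ → ℕ}

theorem dm_zero {I : Type} : dm k (0 : I → K) = 0 := by
  rw [← dI_pt]
  exact dI_of_X inferInstance fun i => by simp

/-- No solutions at infinity. -/
theorem Hyp.fin_gen (hF : Hyp F d) {E : Type u} [Field E] [Algebra k E] [Algebra E K]
    [IsScalarTower k E K] {v : ι → K} (hv : ∀ l, aeval v (F l) = 0) {S : Type} [Fintype S]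
    [DecidableEq κ] (ls : S → κ) (rs : S → ℕ) (a : S → ι → Polynomial E) (b : S → Polynomial E)
    (lam : S → E) (l₀ : κ) (hd : ∀ s, lam s ≠ 0 → d (ls s) ≤ d l₀)
    (hrel : ∀ i, ∑ s, algebraMap E K (lam s) * (aeval (fun i => (a s i).map (algebraMap E K) +
      (b s).map (algebraMap E K) * Polynomial.C (v i)) (pderiv i (F (ls s)))).coeff (rs s) = 0)
    (hμ : ∑ s, (if ls s = l₀ then lam s * (b s ^ (d l₀ - 1)).coeff (rs s) else 0) ≠ 0) :
    dm E v = 0 := by
  obtain ⟨L, _, _, ψ, τ, Ω, _, _, v', h0, hs, hdm⟩ := asym (k := E) v fun _ => 1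
  let _ : Algebra k L := ((algebraMap E L).comp (algebraMap k E)).toAlgebra
  have : IsScalarTower k E L := .of_algebraMap_eq fun _ => rfl
  let _ : Algebra k Ω := ((algebraMap E Ω).comp (algebraMap k E)).toAlgebra
  have : IsScalarTower k E Ω := .of_algebraMap_eq fun _ => rfl
  let A := MvPolynomial (Option ι) E
  let χ₁ : A →ₐ[k] L := (aeval (ext1 τ fun i => τ ^ 1 * ψ (v i))).restrictScalars k
  let χ₀ : A →ₐ[k] Ω := (aeval (ext1 0 v')).restrictScalars k
  replace hs : ∀ Q, χ₁ Q = 0 → χ₀ Q = 0 := hs
  have e1 : χ₁ (X none) = τ := aeval_X _ _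
  have e2 : ∀ i, χ₁ (X (some i)) = τ * ψ (v i) := fun i => (aeval_X _ _).trans (by simp [ext1])
  have e3 : ∀ x, χ₁ (C x) = ψ (algebraMap E K x) := fun x => (aeval_C _ _).trans (ψ.commutes x).symm
  have e4 : χ₀ (X none) = 0 := aeval_X _ _
  have e5 : ∀ i, χ₀ (X (some i)) = v' i := fun i => aeval_X _ _
  have e6 : ∀ x, χ₀ (C x) = algebraMap E Ω x := fun x => aeval_C _ _
  suffices h : v' = 0 from le_antisymm (hdm.trans (h ▸ dm_zero.le)) zero_le
  by_contra hne
  have h1 := hF.sm Ω v' (fun l => by
    have h2 := hs (aeval (fun i => X (some i)) (F l)) (by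
      rw [comp_aeval_apply]
      simp only [e2]
      rw [aeval_smul' (hF.hom l)]
      refine mul_eq_zero_of_right _ ((comp_aeval_apply v (ψ.restrictScalars k) _).symm.trans ?_)
      rw [hv, map_zero])
    rw [comp_aeval_apply] at h2
    simpa only [e5] using h2) hne
  let h : S → ι → Polynomial A := fun s i =>
    Polynomial.C (X none) * (a s i).map C + (b s).map C * Polynomial.C (X (some i))
  have h2 := h1 (fun l => ∑ s, if ls s = l then algebraMap E Ω (lam s) * 0 ^ (d l₀ - d l) *
    algebraMap E Ω ((b s ^ (d l - 1)).coeff (rs s)) else 0) fun i => by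
      have h3 := hs (∑ s, C (lam s) * X none ^ (d l₀ - d (ls s)) *
        (aeval (h s) (pderiv i (F (ls s)))).coeff (rs s)) (by
          rw [← mul_zero (τ ^ (d l₀ - 1)), ← map_zero ψ, ← hrel i, map_sum, map_sum, Finset.mul_sum]
          refine Finset.sum_congr rfl fun s _ => ?_
          by_cases hl : lam s = 0
          · simp [hl]
          have h4 : (fun i => (h s i).map (χ₁ : A →+* L)) = fun i => Polynomial.C τ *
              ((a s i).map (algebraMap E K) + (b s).map (algebraMap E K) *
                Polynomial.C (v i)).map (ψ.restrictScalars k : K →+* L) := by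
            have h5 : (χ₁ : A →+* L).comp C = (ψ.restrictScalars k : K →+* L).comp
              (algebraMap E K) := RingHom.ext e3
            funext i
            simp only [h, Polynomial.map_add, Polynomial.map_mul, Polynomial.map_C,
              Polynomial.map_map, h5, RingHom.coe_coe, e1, e2, map_mul,
              AlgHom.restrictScalars_apply]
            ring
          have h5 := congrArg (Polynomial.coeff · (rs s)) (map_aev χ₁ (h s) (pderiv i (F (ls s))))
          rw [h4, aeval_smul' (hF.hom _).pderiv, ← map_aev, ← map_pow] at h5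
          simp only [Polynomial.coeff_map, Polynomial.coeff_C_mul, RingHom.coe_coe,
            AlgHom.restrictScalars_apply] at h5
          have h6 := hd s hl
          have h7 := hF.pos (ls s)
          rw [map_mul, map_mul, map_pow, e1, e3, h5, map_mul,
            show d l₀ - 1 = d l₀ - d (ls s) + (d (ls s) - 1) by omega, pow_add]
          ring)
      refine Eq.trans ?_ h3
      rw [map_sum]
      simp only [Finset.sum_mul]
      rw [Finset.sum_comm]
      refine Finset.sum_congr rfl fun s _ => ?_
      have h4 : (fun i => (h s i).map (χ₀ : A →+* Ω)) = fun i => (b s).map (algebraMap E Ω) *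
          Polynomial.C (v' i) := by
        have h5 : (χ₀ : A →+* Ω).comp C = algebraMap E Ω := RingHom.ext e6
        funext i
        simp only [h, Polynomial.map_add, Polynomial.map_mul, Polynomial.map_C,
          Polynomial.map_map, h5, RingHom.coe_coe, e4, e5, map_zero, zero_mul, zero_add]
      have h5 := congrArg (Polynomial.coeff · (rs s)) (map_aev χ₀ (h s) (pderiv i (F (ls s))))
      rw [h4, aeval_smul' (hF.hom _).pderiv, C_aev, ← Polynomial.map_pow] at h5
      simp only [Polynomial.coeff_map, Polynomial.coeff_mul_C, RingHom.coe_coe] at h5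
      rw [map_mul, map_mul, map_pow, e4, e6, h5, Finset.sum_eq_single (ls s)]
      · simp [mul_assoc]
      · simp +contextual [eq_comm]
      · simp
  refine hμ ((algebraMap E Ω).injective ?_)
  rw [map_zero, map_sum]
  refine Eq.trans (Finset.sum_congr rfl fun s _ => ?_) (congrFun h2 l₀)
  split_ifs <;> simp

theorem Hyp.dmX [CharZero k] (hF : Hyp F d) (hc : Fintype.card κ ≤ Fintype.card ι) {x : ι → K}
    (hx : ∀ l, aeval x (F l) = 0) : dm k x ≤ (Fintype.card ι - Fintype.card κ : ℕ) := by
  by_cases h : x = 0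
  · rw [h, dm_zero]
    exact zero_le
  have h1 := tan (k := k) ∅ x (LinearMap.ker
    (Matrix.of fun r i => aeval x (pderiv i (F r))).mulVecLin) fun D _ => funext fun r =>
      (der_aeval D x (F r)).symm.trans (by rw [hx, map_zero]; rfl)
  rw [Set.empty_union, show rk k (∅ : Set K) = 0 from Matroid.eRk_empty _, zero_add] at h1
  have h2 := finrank_ker (Matrix.of fun r i => aeval x (pderiv i (F r)))
  rw [(hF.sm K x hx h).rank] at h2
  exact h1.trans (Nat.cast_le.2 (by omega))

/-- The line through two points. -/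
noncomputable def ln (y z : ι → K) (i : ι) : Polynomial K :=
  Polynomial.C (y i) + Polynomial.X * Polynomial.C (z i)

variable (F d) in
/-- The gradient along a line. -/
noncomputable def Am (y z : ι → K) (s : Σ l, Fin (d l)) (i : ι) : K :=
  (aeval (ln y z) (pderiv i (F s.1))).coeff s.2

variable (F) in
/-- The line lies on the variety. -/
def Ln (y z : ι → K) : Prop := ∀ l, aeval (ln y z) (F l) = 0

omit [Fintype κ] in
theorem Ln.der {y z : ι → K} (h : Ln F y z) (D : Derivation k K K) (l : κ) :
    ∑ i, aeval (ln y z) (pderiv i (F l)) * ln (fun i => D (y i)) (fun i => D (z i)) i = 0 := by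
  have h1 := der_aeval (Dc D) (ln y z) (F l)
  rw [h l, map_zero] at h1
  rw [h1]
  refine Finset.sum_congr rfl fun i _ => congrArg _ ?_
  ext (_ | _ | n) <;> simp [coeff_Dc, ln, Polynomial.coeff_C, Polynomial.coeff_X]

omit [Fintype κ] in
theorem Ln.right [CharZero k] {y z : ι → K} (h : Ln F y z) {S : Set K} (hS : Set.range y ⊆ S) :
    rk k (S ∪ Set.range z) ≤ rk k S + (Fintype.card ι - (Matrix.of (Am F d y z)).rank : ℕ) := by
  rw [← finrank_ker (Matrix.of (Am F d y z)), Nat.add_sub_cancel]
  refine tan S z _ fun D hD => funext fun s => ?_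
  have h1 := congrArg (Polynomial.coeff · (s.2 + 1)) (h.der D s.1)
  simp only [ln, hD _ (hS ⟨_, rfl⟩), map_zero, zero_add, Polynomial.finsetSum_coeff, ← mul_assoc,
    Polynomial.coeff_mul_C, Polynomial.coeff_mul_X] at h1
  exact h1

omit [Fintype κ] in
theorem Ln.left [CharZero k] {y z : ι → K} (h : Ln F y z) {S : Set K} (hS : Set.range z ⊆ S) :
    rk k (S ∪ Set.range y) ≤ rk k S + (Fintype.card ι - (Matrix.of (Am F d y z)).rank : ℕ) := by
  rw [← finrank_ker (Matrix.of (Am F d y z)), Nat.add_sub_cancel]
  refine tan S y _ fun D hD => funext fun s => ?_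
  have h1 := congrArg (Polynomial.coeff · s.2) (h.der D s.1)
  simp only [ln, hD _ (hS ⟨_, rfl⟩), map_zero, mul_zero, add_zero, Polynomial.finsetSum_coeff,
    Polynomial.coeff_mul_C] at h1
  exact h1

omit [Fintype ι] [Fintype κ] in
theorem Ln.pt {y z : ι → K} (h : Ln F y z) (t : K) (l : κ) :
    aeval (fun i => y i + t * z i) (F l) = 0 := by
  simpa [eval_aev, ln, mul_comm t] using congrArg (Polynomial.eval t) (h l)

omit [Fintype ι] in
theorem top_coeff {G : MvPolynomial ι k} {n : ℕ} (hG : G.IsHomogeneous n) {m : ℕ}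
    {g : ι → Polynomial K} (hg : ∀ i, (g i).natDegree ≤ m) :
    (aeval g G).natDegree ≤ n * m ∧
      (aeval g G).coeff (n * m) = aeval (fun i => (g i).coeff m) G := by
  rw [G.as_sum, map_sum, map_sum, Polynomial.finsetSum_coeff]
  have key : ∀ μ ∈ G.support, (aeval g (monomial μ (coeff μ G))).natDegree ≤ n * m ∧
      (aeval g (monomial μ (coeff μ G))).coeff (n * m) =
        aeval (fun i => (g i).coeff m) (monomial μ (coeff μ G)) := fun μ hμ => by
    have hd : μ.degree = n := by
      by_contra h
      exact mem_support_iff.1 hμ (hG.coeff_eq_zero h)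
    have h1 : ∀ s : Finset ι, (∏ i ∈ s, g i ^ μ i).natDegree ≤ (∑ i ∈ s, μ i) * m ∧
        (∏ i ∈ s, g i ^ μ i).coeff ((∑ i ∈ s, μ i) * m) = ∏ i ∈ s, (g i).coeff m ^ μ i := by
      classical
      intro s
      induction s using Finset.induction_on with
      | empty => simp
      | insert i s hi ih =>
        have h2 := Polynomial.natDegree_pow_le_of_le (μ i) (hg i)
        rw [Finset.prod_insert hi, Finset.prod_insert hi, Finset.sum_insert hi, add_mul]
        exact ⟨Polynomial.natDegree_mul_le_of_le h2 ih.1, by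
          rw [Polynomial.coeff_mul_add_eq_of_natDegree_le h2 ih.1, ih.2,
            Polynomial.coeff_pow_of_natDegree_le (hg i)]⟩
    rw [aeval_monomial, aeval_monomial, ← hd, Finsupp.degree_apply, Polynomial.algebraMap_apply,
      Polynomial.coeff_C_mul]
    exact ⟨(Polynomial.natDegree_C_mul_le _ _).trans (h1 _).1, congrArg _ (h1 _).2⟩
  exact ⟨Polynomial.natDegree_sum_le_of_forall_le _ _ fun μ hμ => (key μ hμ).1,
    Finset.sum_congr rfl fun μ hμ => (key μ hμ).2⟩

omit [Fintype ι] in
theorem ln_deg (y z : ι → K) (i : ι) : (ln y z i).natDegree ≤ 1 := by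
  unfold ln
  compute_degree

omit [Fintype ι] in
theorem Hyp.snd (hF : Hyp F d) {y z : ι → K} (h : Ln F y z) (l : κ) : aeval z (F l) = 0 := by
  have h1 := (top_coeff (hF.hom l) (ln_deg y z)).2
  simpa [h l, ln, Polynomial.coeff_C] using h1.symm

omit [Fintype ι] [Fintype κ] in
theorem exists_nat [CharZero K] {p : Polynomial K} (hp : p ≠ 0) : ∃ n : ℕ, p.eval (n : K) ≠ 0 := by
  by_contra h
  push Not at h
  exact hp (p.eq_zero_of_infinite_isRoot (Set.infinite_of_injective_forall_mem
    (Nat.cast_injective (R := K)) h))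

end GM
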