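import Pool.Agent.Work.MP_64a944_ag.C

/-!
# Bad lines, obstructed pairs of lines, chains of lines
-/

namespace GM

open MvPolynomial PR0 PR0.Z

universe u

variable {k : Type u} [Field k] {K : Type u} [Field K] [Algebra k K] {ι κ : Type}

theorem exists_nat_sum [CharZero K] {S : Type} [Fintype S] (e : S → ℕ) (c : S → K) {s₀ : S}
    (h0 : c s₀ ≠ 0) (h : ∀ s, c s ≠ 0 → e s = e s₀ → s = s₀) :
    ∃ n : ℕ, n ≠ 0 ∧ ∑ s, c s * (n : K) ^ e s ≠ 0 := by
  obtain ⟨n, hn⟩ := exists_nat (p := Polynomial.X * ∑ s, Polynomial.monomial (e s) (c s))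
    (mul_ne_zero Polynomial.X_ne_zero fun h1 => h0 (by
      have h2 := congrArg (Polynomial.coeff · (e s₀)) h1
      simp only [Polynomial.finsetSum_coeff, Polynomial.coeff_monomial,
        Polynomial.coeff_zero] at h2
      rw [Finset.sum_eq_single s₀, if_pos rfl] at h2
      · exact h2
      · intro s _ hs
        split_ifs with h3
        · exact by_contra fun h4 => hs (h s h4 h3)
        · rfl
      · simp))
  simp only [Polynomial.eval_mul, Polynomial.eval_X, Polynomial.eval_finsetSum,
    Polynomial.eval_monomial, mul_ne_zero_iff, Nat.cast_ne_zero] at hn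
  exact ⟨n, hn⟩

theorem dm_norm {S : Type} (μ : S → K) {s₀ : S} (h0 : μ s₀ ≠ 0) (T : Finset S)
    (hT : ∀ s ∉ T, μ s = 0) : dm k (fun s => μ s / μ s₀) ≤ (T.card - 1 : ℕ) := by
  classical
  refine (rk_le_of_mem (s := (fun s => μ s / μ s₀) '' (T.erase s₀)) ?_).trans
    ((rk_le_encard _).trans ((Set.encard_image_le _ _).trans ?_))
  · rintro _ ⟨r, rfl⟩
    by_cases hr : r ∈ T
    · by_cases hr' : r = s₀
      · simp [hr', h0]
      · exact IntermediateField.subset_adjoin _ _ ⟨r, by simp [hr, hr'], rfl⟩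
    · simp [hT r hr]
  · rw [Set.encard_coe_eq_coe_finsetCard, Finset.card_erase_of_mem
      (by_contra fun h => h0 (hT _ h))]

theorem sigma_eq {d : κ → ℕ} {s t : Σ l, Fin (d l)} (h : s.1 = t.1) (h' : (s.2 : ℕ) = t.2) :
    s = t := by
  obtain ⟨l, r⟩ := s
  obtain ⟨l', r'⟩ := t
  obtain rfl : l = l' := h
  exact congrArg _ (Fin.ext h')

theorem rk_alg_ext (S : Set K) {v : ι → K} (h : dm (IntermediateField.adjoin k S) v = 0) :
    rk k (S ∪ Set.range v) = rk k S := by
  rw [rk_union, show rk _ (Set.range v) = 0 from h, add_zero]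

variable [Fintype ι] [Fintype κ] [CharZero k] {F : κ → MvPolynomial ι k} {d : κ → ℕ}

/-- Dimension of the family of bad lines. -/
theorem Hyp.pair (hF : Hyp F d) (hc : Fintype.card κ ≤ Fintype.card ι) {y z : ι → K}
    (h : Ln F y z) (hb : ¬ Ind (Am F d y z)) : rk k (Set.range y ∪ Set.range z) ≤
      (Fintype.card ι - Fintype.card κ + (Matrix.of (Am F d y z)).rank : ℕ) := by
  classical
  have : CharZero K := charZero_of_injective_algebraMap (algebraMap k K).injective
  obtain ⟨μ, h1, h2, h3⟩ := exists_rel (k := k) hb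
  obtain ⟨s₀, h4, h5⟩ := (Finset.univ.filter fun s => μ s ≠ 0).exists_max_image (fun s => d s.1)
    (by simpa [Finset.filter_nonempty_iff] using Function.ne_iff.1 h1)
  simp only [Finset.mem_filter, Finset.mem_univ, true_and] at h4 h5
  obtain ⟨n, -, hn⟩ := exists_nat_sum (fun s => d s₀.1 - 1 - s.2)
    (fun s => if s.1 = s₀.1 then μ s * (d s₀.1 - 1).choose s.2 else 0) (s₀ := s₀)
    (by simpa [h4, Nat.choose_eq_zero_iff] using Nat.le_sub_one_of_lt s₀.2.2) fun s h6 h7 => by
      have h8 : s.1 = s₀.1 := by_contra fun h8 => h6 (if_neg h8)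
      have h9 := congrArg d h8
      exact sigma_eq h8 (by omega)
  let p : ι → K := fun i => y i + -(n : K) * z i
  let S := Set.range p ∪ Set.range μ
  let E := IntermediateField.adjoin k S
  have h6 : dm E z = 0 := hF.fin_gen (hF.snd h) (fun s => s.1) (fun s => s.2)
    (fun _ i => Polynomial.C ⟨p i, IntermediateField.subset_adjoin _ _ (.inl ⟨i, rfl⟩)⟩)
    (fun _ => Polynomial.X + Polynomial.C (n : E))
    (fun s => ⟨μ s, IntermediateField.subset_adjoin _ _ (.inr ⟨s, rfl⟩)⟩) s₀.1
    (fun s hs => h5 s fun h6 => hs (Subtype.ext h6)) (fun i => by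
      rw [← h2 i]
      refine Finset.sum_congr rfl fun s _ => ?_
      congr 4
      funext j
      simp only [ln, p, Polynomial.map_C, Polynomial.map_add, Polynomial.map_X, map_natCast,
        IntermediateField.algebraMap_apply, map_add, map_mul, map_neg, Polynomial.map_natCast]
      ring) fun h6 => hn (by
        refine Eq.trans ?_ ((congrArg (algebraMap E K) h6).trans (map_zero _))
        rw [map_sum]
        refine Finset.sum_congr rfl fun s _ => ?_
        split_ifs
        · rw [Polynomial.coeff_X_add_C_pow, map_mul, map_mul, map_pow, map_natCast, map_natCast,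
            IntermediateField.algebraMap_apply]
          ring
        · simp)
  rw [Nat.cast_add]
  refine le_trans (rk_le_of_mem ?_) ((rk_alg_ext S h6).le.trans ((rk_union_le _ _).trans
    (add_le_add (hF.dmX hc (h.pt _)) h3)))
  have h7 : ∀ i, z i ∈ IntermediateField.adjoin k (S ∪ Set.range z) := fun i =>
    IntermediateField.subset_adjoin _ _ (.inr ⟨i, rfl⟩)
  rintro _ (⟨i, rfl⟩ | ⟨i, rfl⟩)
  · rw [show y i = p i + n * z i by simp [p]]
    exact add_mem (IntermediateField.subset_adjoin _ _ (.inl (.inl ⟨i, rfl⟩)))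
      (mul_mem (natCast_mem _ _) (h7 i))
  · exact h7 i

/-- Dimension of the family of obstructed pairs of lines. -/
theorem Hyp.triple (hF : Hyp F d) (hc : Fintype.card κ ≤ Fintype.card ι) {x y z : ι → K}
    (h : Ln F x y) (h' : Ln F y z) {ν : (Σ l, Fin (d l)) ⊕ (Σ l, Fin (d l)) → K} (h1 : ν ≠ 0)
    (hz : ∀ s : Σ l, Fin (d l), s.2 + 1 = d s.1 → ν (.inr s) = 0)
    (h2 : ∀ i, ∑ s, ν (.inl s) * Am F d x y s i +
      ∑ s, ν (.inr s) * (aeval (ln y z) (pderiv i (F s.1))).coeff (s.2 + 1) = 0) :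
    rk k (Set.range x ∪ Set.range y ∪ Set.range z) ≤ (2 * (Fintype.card ι - Fintype.card κ) +
      (2 * ∑ l, d l - Fintype.card κ - 1) : ℕ) := by
  classical
  have : CharZero K := charZero_of_injective_algebraMap (algebraMap k K).injective
  let ls : (Σ l, Fin (d l)) ⊕ (Σ l, Fin (d l)) → κ := Sum.elim (·.1) (·.1)
  let rs : (Σ l, Fin (d l)) ⊕ (Σ l, Fin (d l)) → ℕ := Sum.elim (·.2) (·.2 + 1)
  obtain ⟨s₀, h4, h5⟩ := (Finset.univ.filter fun s => ν s ≠ 0).exists_max_image (fun s => d (ls s))
    (by simpa only [Finset.filter_nonempty_iff, Finset.mem_univ, true_and, Pi.zero_apply]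
      using Function.ne_iff.1 h1)
  simp only [Finset.mem_filter, Finset.mem_univ, true_and] at h4 h5
  let μ := fun s => ν s / ν s₀
  have h3 : dm k μ ≤ (2 * ∑ l, d l - Fintype.card κ - 1 : ℕ) := by
    let g : κ → (Σ l, Fin (d l)) ⊕ (Σ l, Fin (d l)) := fun l =>
      .inr ⟨l, d l - 1, Nat.sub_one_lt (hF.pos l)⟩
    have hg : Function.Injective g := fun l l' hl => congrArg ls hl
    refine (dm_norm ν h4 (Finset.univ.image g)ᶜ fun s hs => ?_).trans_eq ?_
    · obtain ⟨l, -, rfl⟩ := Finset.mem_image.1 (Finset.notMem_compl.1 hs)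
      exact hz _ (Nat.sub_one_add_one (hF.pos l))
    · rw [Finset.card_compl, Finset.card_image_of_injective _ hg]
      simp [two_mul]
  have hlt : ∀ s, ν s ≠ 0 → rs s < d (ls s) := by
    rintro (s | s) hs
    · exact s.2.2
    · exact lt_of_le_of_ne s.2.2 fun h6 => hs (hz s h6)
  obtain ⟨n, hn0, hn⟩ := exists_nat_sum
    (Sum.elim (fun s => d (ls s₀) - 1 - s.2) fun s => d (ls s₀) * (s.2 + 1))
    (fun s => if ls s = ls s₀ then μ s * (d (ls s₀) - 1).choose (rs s) else 0) (s₀ := s₀)
    (by simpa [μ, h4, Nat.choose_eq_zero_iff] using Nat.le_sub_one_of_lt (hlt _ h4))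
    fun s h6 h7 => by
      have h8 : ls s = ls s₀ := by_contra fun h8 => h6 (if_neg h8)
      have h9 := congrArg d h8
      have h10 := hF.pos (ls s₀)
      rcases s with s | s <;> rcases s₀ with s₀ | s₀ <;>
        simp only [ls, Sum.elim_inl, Sum.elim_inr, mul_add_one] at h7 h8 h9 h10
      · rw [sigma_eq h8 (by omega)]
      · omega
      · omega
      · rw [sigma_eq h8 (Nat.eq_of_mul_eq_mul_left (Nat.pos_of_ne_zero h10) (by omega))]
  let γ : ℕ := n ^ d (ls s₀)
  have hγ : (γ : K) ≠ 0 := Nat.cast_ne_zero.2 (pow_ne_zero _ hn0)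
  let p : ι → K := fun i => x i + -(n : K) * y i
  let p' : ι → K := fun i => -(γ : K) * (y i + -(γ : K)⁻¹ * z i)
  have hp' : ∀ i, z i = p' i + γ * y i := fun i => by
    simp only [p']
    field_simp
    ring
  let S := (Set.range p ∪ Set.range p') ∪ Set.range μ
  let E := IntermediateField.adjoin k S
  have h6 : dm E y = 0 := hF.fin_gen (hF.snd h) ls rs
    (Sum.elim (fun _ i => Polynomial.C
      ⟨p i, IntermediateField.subset_adjoin _ _ (.inl (.inl ⟨i, rfl⟩))⟩) fun _ i => Polynomial.X *
        Polynomial.C ⟨p' i, IntermediateField.subset_adjoin _ _ (.inl (.inr ⟨i, rfl⟩))⟩)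
    (Sum.elim (fun _ => Polynomial.X + Polynomial.C (n : E))
      fun _ => (1 + Polynomial.X).comp (Polynomial.C (γ : E) * Polynomial.X))
    (fun s => ⟨μ s, IntermediateField.subset_adjoin _ _ (.inr ⟨s, rfl⟩)⟩) (ls s₀)
    (fun s hs => h5 s fun h6 => hs (Subtype.ext (by simp [μ, h6]))) (fun i => by
      rw [← zero_div (ν s₀), ← h2 i, Fintype.sum_sum_type, add_div, Finset.sum_div, Finset.sum_div]
      congr 1 <;> refine Finset.sum_congr rfl fun s _ => ?_ <;> rw [mul_div_right_comm]
      · congr 4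
        funext j
        simp only [ln, p, Polynomial.map_C, Polynomial.map_add, Polynomial.map_X, map_natCast,
          IntermediateField.algebraMap_apply, map_add, map_mul, map_neg, Polynomial.map_natCast,
          Sum.elim_inl]
        ring
      · congr 4
        funext j
        simp only [ln, hp', Polynomial.map_C, Polynomial.map_add, Polynomial.map_X, map_natCast,
          IntermediateField.algebraMap_apply, map_add, map_mul, Polynomial.map_natCast,
          Sum.elim_inr, Polynomial.add_comp, Polynomial.one_comp, Polynomial.X_comp,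
          Polynomial.map_mul, Polynomial.map_one]
        ring) fun h6 => hn (by
        refine Eq.trans ?_ ((congrArg (algebraMap E K) h6).trans (map_zero _))
        rw [map_sum]
        refine Finset.sum_congr rfl fun s _ => ?_
        split_ifs
        · rcases s with s | s
          · simp only [Sum.elim_inl, rs]
            rw [Polynomial.coeff_X_add_C_pow, map_mul, map_mul, map_pow, map_natCast, map_natCast,
              IntermediateField.algebraMap_apply]
            ring
          · simp only [Sum.elim_inr, rs]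
            rw [← Polynomial.pow_comp, Polynomial.comp_C_mul_X_coeff,
              Polynomial.coeff_one_add_X_pow, map_mul, map_mul, map_pow, map_natCast, map_natCast,
              IntermediateField.algebraMap_apply, Nat.cast_pow, pow_mul]
            ring
        · simp)
  rw [Nat.cast_add, two_mul, Nat.cast_add]
  refine le_trans (rk_le_of_mem ?_) ((rk_alg_ext S h6).le.trans ((rk_union_le _ _).trans
    (add_le_add ((rk_union_le _ _).trans (add_le_add (hF.dmX hc (h.pt _)) (hF.dmX hc fun l => by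
      rw [aeval_smul' (hF.hom l), h'.pt, mul_zero]))) h3)))
  have h7 : ∀ i, y i ∈ IntermediateField.adjoin k (S ∪ Set.range y) := fun i =>
    IntermediateField.subset_adjoin _ _ (.inr ⟨i, rfl⟩)
  rintro _ ((⟨i, rfl⟩ | ⟨i, rfl⟩) | ⟨i, rfl⟩)
  · rw [show x i = p i + n * y i by simp [p]]
    exact add_mem (IntermediateField.subset_adjoin _ _ (.inl (.inl (.inl ⟨i, rfl⟩))))
      (mul_mem (natCast_mem _ _) (h7 i))
  · exact h7 i
  · rw [hp']
    exact add_mem (IntermediateField.subset_adjoin _ _ (.inl (.inl (.inr ⟨i, rfl⟩))))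
      (mul_mem (natCast_mem _ _) (h7 i))

/-- The coordinates of a segment of a chain. -/
def U (y : ℕ → ι → K) (i j : ℕ) : Set K := {x | ∃ q, i ≤ q ∧ q ≤ j ∧ x ∈ Set.range (y q)}

omit [Fintype ι] [Field K] in
theorem U_sub {y : ℕ → ι → K} {i j q : ℕ} (h : i ≤ q) (h' : q ≤ j) : Set.range (y q) ⊆ U y i j :=
  fun _ hx => ⟨q, h, h', hx⟩

omit [Fintype ι] [Field K] in
theorem U_self (y : ℕ → ι → K) (i : ℕ) : U y i i ⊆ Set.range (y i) := by
  rintro x ⟨q, h1, h2, h3⟩
  rwa [le_antisymm h1 h2]

omit [Fintype ι] [Field K] in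
theorem U_right (y : ℕ → ι → K) (i j : ℕ) : U y i (j + 1) ⊆ U y i j ∪ Set.range (y (j + 1)) := by
  rintro x ⟨q, h1, h2, h3⟩
  rcases h2.eq_or_lt with rfl | h2
  · exact .inr h3
  · exact .inl ⟨q, h1, by omega, h3⟩

omit [Fintype ι] [Field K] in
theorem U_left (y : ℕ → ι → K) (i j : ℕ) : U y i j ⊆ U y (i + 1) j ∪ Set.range (y i) := by
  rintro x ⟨q, h1, h2, h3⟩
  rcases h1.eq_or_lt with rfl | h1
  · exact .inr h3
  · exact .inl ⟨q, h1, h2, h3⟩

omit [Fintype ι] in
theorem card_rows : Fintype.card (Σ l, Fin (d l)) = ∑ l, d l := by simp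

variable {y : ℕ → ι → K} {e : ℕ}

theorem good_ext (h : ∀ q < e, Ln F (y q) (y (q + 1)))
    (h' : ∀ q < e, Ind (Am F d (y q) (y (q + 1)))) {i j : ℕ} (hij : i ≤ j) (hj : j ≤ e) :
    rk k (U y 0 e) ≤ rk k (U y i j) + ((e - j + i) * (Fintype.card ι - ∑ l, d l) : ℕ) := by
  have h1 : ∀ m, j + m ≤ e → rk k (U y i (j + m)) ≤
      rk k (U y i j) + (m * (Fintype.card ι - ∑ l, d l) : ℕ) := by
    intro m
    induction m with
    | zero => simp
    | succ m ih =>
      intro hm
      have h2 := (h (j + m) (by omega)).right (d := d) (U_sub (by omega : i ≤ j + m) le_rfl)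
      rw [(h' (j + m) (by omega)).rank, card_rows] at h2
      rw [add_one_mul, Nat.cast_add, ← add_assoc, ← add_assoc]
      exact ((rk_mono (U_right y i _)).trans h2).trans (add_le_add_left (ih (by omega)) _)
  have h2 : ∀ m ≤ e, rk k (U y 0 e) ≤ rk k (U y m e) + (m * (Fintype.card ι - ∑ l, d l) : ℕ) := by
    intro m
    induction m with
    | zero => simp
    | succ m ih =>
      intro hm
      have h2 := (h m hm).left (d := d) (U_sub le_rfl hm)
      rw [(h' m hm).rank, card_rows] at h2
      rw [add_one_mul, add_comm (m * _), Nat.cast_add, ← add_assoc]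
      exact (ih (by omega)).trans (add_le_add_left ((rk_mono (U_left y m e)).trans h2) _)
  have h3 := h1 (e - j) (by omega)
  rw [Nat.add_sub_cancel' hj] at h3
  rw [add_mul, Nat.cast_add, ← add_assoc]
  exact (h2 i (hij.trans hj)).trans (add_le_add_left h3 _)

theorem rank_lt {M : κ → ι → K} (h : ¬ Ind M) : (Matrix.of M).rank + 1 ≤ Fintype.card κ := by
  by_contra h2
  refine h (ind_iff.2 (linearIndependent_iff_card_le_finrank_span.2 ?_))
  rw [Matrix.rank_eq_finrank_span_row] at h2
  exact Nat.le_of_lt_succ (not_le.1 h2)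

theorem Hyp.bad (hF : Hyp F d) (hD : Fintype.card κ + 3 ≤ ∑ l, d l)
    (hn : 3 * ∑ l, d l ≤ Fintype.card ι + Fintype.card κ + 1) (m : ℕ) : ∀ i,
    (∀ q, i ≤ q → q < i + m → Ln F (y q) (y (q + 1))) →
    (∃ q, i ≤ q ∧ q < i + m ∧ ¬ Ind (Am F d (y q) (y (q + 1)))) →
    rk k (U y i (i + m)) ≤ ((m + 1) * (Fintype.card ι - ∑ l, d l) + 1 : ℕ) := by
  have hc : Fintype.card κ ≤ Fintype.card ι := by omega
  induction m using Nat.strong_induction_on with
  | _ m ih =>
  rintro i h ⟨q, h1, h2, h3⟩
  obtain ⟨m, rfl⟩ : ∃ m', m = m' + 1 := ⟨m - 1, by omega⟩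
  have hl := h (i + m) (by omega) (by omega)
  have hf := h i le_rfl (by omega)
  by_cases h4 : Ind (Am F d (y (i + m)) (y (i + m + 1)))
  · have h5 := hl.right (d := d) (U_sub (by omega : i ≤ i + m) le_rfl)
    rw [h4.rank, card_rows] at h5
    have h6 := ih m (by omega) i (fun q h6 h7 => h q h6 (by omega))
      ⟨q, h1, lt_of_le_of_ne (by omega) fun h6 => h3 (h6 ▸ h4), h3⟩
    refine ((rk_mono (U_right y i _)).trans h5).trans ((add_le_add_left h6 _).trans_eq ?_)
    push_cast
    ring
  by_cases h5 : Ind (Am F d (y i) (y (i + 1)))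
  · have h6 := hf.left (d := d) (U_sub le_rfl (by omega : i + 1 ≤ i + 1 + m))
    rw [h5.rank, card_rows] at h6
    have h7 := ih m (by omega) (i + 1) (fun q h6 h7 => h q (by omega) (by omega))
      ⟨q, lt_of_le_of_ne h1 fun h6 => h3 (h6 ▸ h5), by omega, h3⟩
    rw [show i + (m + 1) = i + 1 + m by omega]
    refine ((rk_mono (U_left y i _)).trans h6).trans ((add_le_add_left h7 _).trans_eq ?_)
    push_cast
    ring
  have h6 := hF.pair hc hl h4
  have h7 := hF.pair hc hf h5
  have h8 := rank_lt h4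
  have h9 := rank_lt h5
  rw [card_rows] at h8 h9
  rcases m with _ | _ | m
  · refine (rk_mono ((U_right y i i).trans (Set.union_subset_union_left _ (U_self y i)))).trans
      (h7.trans (Nat.cast_le.2 (by omega)))
  · have h10 := hl.right (d := d) (S := Set.range (y i) ∪ Set.range (y (i + 1)))
      Set.subset_union_right
    have h11 := hf.left (d := d) (S := Set.range (y (i + 1)) ∪ Set.range (y (i + 1 + 1)))
      Set.subset_union_left
    have h12 : U y i (i + 1 + 1) ⊆
        Set.range (y i) ∪ Set.range (y (i + 1)) ∪ Set.range (y (i + 1 + 1)) :=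
      (U_right y i _).trans (Set.union_subset_union_left _ ((U_right y i i).trans
        (Set.union_subset_union_left _ (U_self y i))))
    have h13 := (rk_mono h12).trans (h10.trans (add_le_add_left h7 _))
    rw [Set.union_assoc, Set.union_comm] at h12
    have h14 := (rk_mono h12).trans (h11.trans (add_le_add_left h6 _))
    rw [← Nat.cast_add] at h13 h14
    rcases le_total (Matrix.of (Am F d (y i) (y (i + 1)))).rank
      (Matrix.of (Am F d (y (i + (0 + 1))) (y (i + (0 + 1) + 1)))).rank with h15 | h15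
    · exact h13.trans (Nat.cast_le.2 (by omega))
    · exact h14.trans (Nat.cast_le.2 (by omega))
  · have h10 := ih (m + 1) (by omega) i (fun q h6 h7 => h q h6 (by omega))
      ⟨i, le_rfl, by omega, h5⟩
    have h11 : U y i (i + (m + 1) + 1 + 1) ⊆ U y i (i + (m + 1)) ∪
        (Set.range (y (i + (m + 1) + 1)) ∪ Set.range (y (i + (m + 1) + 1 + 1))) := by
      rw [← Set.union_assoc]
      exact (U_right y i _).trans (Set.union_subset_union_left _ (U_right y i _))
    refine (rk_mono h11).trans ((rk_union_le _ _).trans ((add_le_add h10 h6).trans ?_))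
    rw [← Nat.cast_add, Nat.cast_le, add_one_mul (m + 1 + 1 + 1), add_one_mul (m + 1 + 1)]
    omega

/-- Obstructed chains of lines. -/
theorem Hyp.chain (hF : Hyp F d) (hD : Fintype.card κ + 3 ≤ ∑ l, d l)
    (hn : 3 * ∑ l, d l ≤ Fintype.card ι + Fintype.card κ + 1)
    (h : ∀ q < e, Ln F (y q) (y (q + 1))) {i j n : ℕ} (hij : i ≤ j) (hj : j ≤ e)
    (h' : (∀ q < e, Ind (Am F d (y q) (y (q + 1)))) → rk k (U y i j) ≤ n)
    (hn' : n + 2 ≤ Fintype.card ι - Fintype.card κ + (j - i) * (Fintype.card ι - ∑ l, d l)) :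
    rk k (U y 0 e) ≤
      (Fintype.card ι - Fintype.card κ + e * (Fintype.card ι - ∑ l, d l) - 2 : ℕ) := by
  by_cases h1 : ∀ q < e, Ind (Am F d (y q) (y (q + 1)))
  · refine (good_ext h h1 hij hj).trans ((add_le_add_left (h' h1) _).trans ?_)
    have h2 : e * (Fintype.card ι - ∑ l, d l) =
        (e - j + i) * (Fintype.card ι - ∑ l, d l) + (j - i) * (Fintype.card ι - ∑ l, d l) := by
      rw [← add_mul]
      congr 1
      omega
    rw [← Nat.cast_add, Nat.cast_le]
    omega
  · push Not at h1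
    obtain ⟨q, h2, h3⟩ := h1
    have h4 := hF.bad hD hn e 0 (fun q _ h4 => h q (by omega)) ⟨q, zero_le, by omega, h3⟩
    rw [zero_add, add_one_mul] at h4
    exact h4.trans (Nat.cast_le.2 (by omega))

end GM
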