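import Mathlib

/-!
# Degree `e` morphisms from the projective line to a complete intersection
-/

namespace GM

universe u

/-- The value at `(s, t)` of the tuple of binary forms `f i = ∑ j, a (i, j) s ^ (e - j) t ^ j`
of degree `e`. -/
def form {K : Type u} [Field K] {ι : Type} {e : ℕ} (a : ι × Fin (e + 1) → K) (s t : K) (i : ι) :
    K :=
  ∑ j : Fin (e + 1), a (i, j) * s ^ (e - j) * t ^ (j : ℕ)

/-- Coefficient arrays of the tuples of binary forms of degree `e` without common zero on the
projective line that satisfy all the equations `F l (f) = 0`: the affine cone over the space of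
morphisms of degree `e` from the projective line to the common zero locus of the `F l`. -/
def Mor {k : Type u} [Field k] {ι κ : Type} (F : κ → MvPolynomial ι k) (e : ℕ) :
    Set (ι × Fin (e + 1) → k) :=
  {a | (∀ s t : k, (s, t) ≠ (0, 0) → form a s t ≠ 0) ∧
    ∀ (s t : k) (l : κ), MvPolynomial.eval (form a s t) (F l) = 0}

end GM
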