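import Pool.Agent.Work.MP_64a944_ag.D
import Pool.Agent.Work.MP_64a944_ag.B

/-!
# Degeneration of rational curves to chains of lines
-/

namespace GM

open MvPolynomial PR0 PR0.Z

universe u

variable {k : Type u} [Field k] {K : Type u} [Field K] [Algebra k K] {ι κ : Type} {e : ℕ}
  {A B : Type u} [CommRing A] [Algebra k A] [CommRing B] [Algebra k B]

/-- The convex exponents. -/
def nn (j q : ℕ) : ℕ := if j ≤ q then (q - j) * (q - j + 1) else (j - q) * (j - q - 1)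

theorem nn_add (j : Fin (e + 1)) (q : ℕ) :
    nn j q + j * (e - j) + (2 * q + 1) * j = q * (q + 1) + e * j := by
  have hj : (j : ℕ) ≤ e := Nat.le_of_lt_succ j.2
  unfold nn
  split_ifs with h
  · zify [h, hj]
    ring
  · have h1 : q ≤ j := by omega
    have h2 : 1 ≤ j - q := by omega
    zify [h1, h2, hj]
    ring

theorem nn_eq_zero {j q : ℕ} : nn j q = 0 ↔ j = q ∨ j = q + 1 := by
  unfold nn
  split_ifs with h <;> rw [mul_eq_zero] <;> omega

/-- The degenerating family of curves. -/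
noncomputable def gp (τ : A) (x : ι × Fin (e + 1) → A) (q : ℕ) (i : ι) : Polynomial A :=
  ∑ j : Fin (e + 1), Polynomial.monomial j (τ ^ nn j q * x (i, j))

/-- Its Jacobian matrix. -/
noncomputable def Jg (G : MvPolynomial ι k) (τ : A) (x : ι × Fin (e + 1) → A) (q m : ℕ)
    (c : ι × Fin (e + 1)) : A :=
  τ ^ nn c.2 q * (Polynomial.X ^ (c.2 : ℕ) * aeval (gp τ x q) (pderiv c.1 G)).coeff m

theorem gp_one (x : ι × Fin (e + 1) → A) (q : ℕ) : gp 1 x q = gp 1 x 0 := by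
  funext i
  simp [gp]

theorem Jg_one (G : MvPolynomial ι k) (x : ι × Fin (e + 1) → A) (q m : ℕ) :
    Jg G 1 x q m = Jg G 1 x 0 m := by
  funext c
  simp [Jg, gp_one x q]

theorem gp_map (χ : A →ₐ[k] B) (τ : A) (x : ι × Fin (e + 1) → A) (q : ℕ) (G : MvPolynomial ι k) :
    (aeval (gp τ x q) G).map (χ : A →+* B) = aeval (gp (χ τ) (fun c => χ (x c)) q) G := by
  rw [map_aev]
  congr 2
  funext i
  simp [gp, Polynomial.map_sum]

theorem gp_coeff (χ : A →ₐ[k] B) (τ : A) (x : ι × Fin (e + 1) → A) (q : ℕ) (G : MvPolynomial ι k)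
    (m : ℕ) :
    χ ((aeval (gp τ x q) G).coeff m) = (aeval (gp (χ τ) (fun c => χ (x c)) q) G).coeff m := by
  rw [← gp_map, Polynomial.coeff_map]
  rfl

theorem Jg_map (χ : A →ₐ[k] B) (G : MvPolynomial ι k) (τ : A) (x : ι × Fin (e + 1) → A) (q m : ℕ)
    (c : ι × Fin (e + 1)) : χ (Jg G τ x q m c) = Jg G (χ τ) (fun c => χ (x c)) q m c := by
  rw [Jg, Jg, ← gp_map, map_mul, map_pow, ← Polynomial.map_X (χ : A →+* B), ← Polynomial.map_pow,
    ← Polynomial.map_mul, Polynomial.coeff_map]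
  rfl

theorem pow_nn {u u' : A} (h : u * u' = 1) (j : Fin (e + 1)) (q : ℕ) :
    u ^ nn j q * u ^ (j * (e - j)) = u ^ (q * (q + 1)) * (u ^ e * u' ^ (2 * q + 1)) ^ (j : ℕ) := by
  rw [mul_pow, ← pow_mul, ← pow_mul, ← mul_assoc, ← pow_add, ← pow_add, ← nn_add,
    pow_add _ _ ((2 * q + 1) * _), mul_assoc (u ^ _), ← mul_pow, h, one_pow, mul_one]

theorem gp_scale {u u' : A} (h : u * u' = 1) (τ : A) (x : ι × Fin (e + 1) → A) (q : ℕ)
    {G : MvPolynomial ι k} {n : ℕ} (hG : G.IsHomogeneous n) :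
    aeval (gp (u * τ) (fun c => u ^ (c.2 * (e - c.2)) * x c) q) G =
      Polynomial.C (u ^ (q * (q + 1))) ^ n * (aeval (gp τ x q) G).comp
        (Polynomial.C (u ^ e * u' ^ (2 * q + 1)) * Polynomial.X) := by
  have h1 := comp_aeval_apply (gp τ x q) ((Polynomial.aeval
    (Polynomial.C (u ^ e * u' ^ (2 * q + 1)) * Polynomial.X)).restrictScalars k) G
  simp only [AlgHom.restrictScalars_apply, ← Polynomial.comp_eq_aeval] at h1
  rw [h1, ← aeval_smul' hG]
  congr 2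
  funext i
  simp only [gp, Polynomial.sum_comp, Polynomial.monomial_comp, Finset.mul_sum]
  refine Finset.sum_congr rfl fun j _ => ?_
  rw [← Polynomial.C_mul_X_pow_eq_monomial, mul_pow (Polynomial.C _), ← map_pow,
    ← mul_assoc (Polynomial.C _), ← Polynomial.C_mul, ← mul_assoc (Polynomial.C _),
    ← Polynomial.C_mul]
  congr 2
  rw [mul_pow]
  linear_combination (τ ^ nn j q * x (i, j)) * pow_nn h j q

theorem Jg_scale {u u' : A} (h : u * u' = 1) (τ : A) (x : ι × Fin (e + 1) → A) (q m : ℕ)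
    {G : MvPolynomial ι k} {n : ℕ} (hG : G.IsHomogeneous n) (c : ι × Fin (e + 1)) :
    Jg G (u * τ) (fun c => u ^ (c.2 * (e - c.2)) * x c) q m c * u ^ (c.2 * (e - c.2)) =
      (u ^ (q * (q + 1))) ^ (n - 1 + 1) * (u ^ e * u' ^ (2 * q + 1)) ^ m * Jg G τ x q m c := by
  have h1 := Polynomial.comp_C_mul_X_coeff (p := Polynomial.X ^ (c.2 : ℕ) *
    aeval (gp τ x q) (pderiv c.1 G)) (r := u ^ e * u' ^ (2 * q + 1)) (n := m)
  rw [Polynomial.mul_comp, Polynomial.X_pow_comp, mul_pow (Polynomial.C _), ← map_pow, mul_assoc,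
    Polynomial.coeff_C_mul] at h1
  rw [Jg, Jg, gp_scale h τ x q hG.pderiv, ← map_pow, mul_left_comm (Polynomial.X ^ _),
    Polynomial.coeff_C_mul, mul_pow]
  have h2 := pow_nn h c.2 q
  linear_combination (τ ^ nn c.2 q * (u ^ (q * (q + 1))) ^ (n - 1) * (Polynomial.X ^ (c.2 : ℕ) *
    (aeval (gp τ x q) (pderiv c.1 G)).comp (Polynomial.C (u ^ e * u' ^ (2 * q + 1)) *
      Polynomial.X)).coeff m) * h2 + (τ ^ nn c.2 q * (u ^ (q * (q + 1))) ^ (n - 1 + 1)) * h1

theorem Ind.scale {R I : Type} [Fintype R] {M M' : R → I → K} (h : Ind M) {a : R → K} {b : I → K}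
    (ha : ∀ r, a r ≠ 0) (hb : ∀ i, b i ≠ 0) (hM : ∀ r i, M r i * b i = a r * M' r i) : Ind M' := by
  intro μ hμ
  have h1 := h (fun r => μ r / a r) fun i => mul_right_cancel₀ (hb i) (by
    rw [zero_mul, ← hμ i, Finset.sum_mul]
    refine Finset.sum_congr rfl fun r _ => ?_
    rw [mul_assoc, hM, ← mul_assoc, div_mul_cancel₀ _ (ha r)])
  funext r
  simpa [ha r] using congrFun h1 r

variable [Fintype ι] [Fintype κ] {F : κ → MvPolynomial ι k} {d : κ → ℕ}

theorem Hyp.deg (hF : Hyp F d) {x : ι × Fin (e + 1) → K} (hx : ∀ l, aeval (gp 1 x 0) (F l) = 0) :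
    ∃ (Ω : Type u) (_ : Field Ω) (_ : Algebra k Ω) (x' : ι × Fin (e + 1) → Ω), dm k x ≤ dm k x' ∧
      (∀ q l, aeval (gp 0 x' q) (F l) = 0) ∧
      ∀ (R I : Type) [Fintype R] [Fintype I] (rl : R → κ) (rq rm : R → ℕ)
        (c : I → ι × Fin (e + 1)), Ind (fun r i => Jg (F (rl r)) 0 x' (rq r) (rm r) (c i)) →
          Ind fun r i => Jg (F (rl r)) 1 x 0 (rm r) (c i) := by
  obtain ⟨L, _, _, ψ, τ, Ω, _, _, x', h0, hs, hdm⟩ := asym (k := k) x fun c => c.2 * (e - c.2)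
  let A := MvPolynomial (Option (ι × Fin (e + 1))) k
  let χ₁ : A →ₐ[k] L := aeval (ext1 τ fun c => τ ^ (c.2 * (e - c.2)) * ψ (x c))
  let χ₀ : A →ₐ[k] Ω := aeval (ext1 0 x')
  replace hs : ∀ Q, χ₁ Q = 0 → χ₀ Q = 0 := hs
  have e1 : χ₁ (X none) = τ * 1 := by simp [χ₁, A, ext1]
  have e2 : (fun c => χ₁ (X (some c))) = fun c => τ ^ ((c.2 : ℕ) * (e - c.2)) * ψ (x c) :=
    funext fun c => by simp [χ₁, A, ext1]
  have e4 : χ₀ (X none) = 0 := by simp [χ₀, A, ext1]
  have e5 : (fun c => χ₀ (X (some c))) = x' := funext fun c => by simp [χ₀, A, ext1]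
  have h1 := mul_inv_cancel₀ h0
  refine ⟨Ω, _, _, x', hdm, fun q l => ?_, fun R I _ _ rl rq rm c h => ?_⟩
  · ext m
    have h2 := hs ((aeval (gp (X none) (fun c => X (some c)) q) (F l)).coeff m) (by
      have h3 := gp_map ψ 1 x 0 (F l)
      rw [hx, map_one, Polynomial.map_zero] at h3
      rw [gp_coeff χ₁, e1, e2, gp_scale h1 _ _ _ (hF.hom l), gp_one, ← h3]
      simp)
    rwa [gp_coeff χ₀, e4, e5] at h2
  · have h2 := Ind.gen (χ₁ : A →+* L) (χ₀ : A →+* Ω) hs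
      (M := fun r i => Jg (F (rl r)) (X none) (fun c => X (some c)) (rq r) (rm r) (c i)) (by
        simp only [RingHom.coe_coe, Jg_map χ₀, e4, e5]
        exact h)
    simp only [RingHom.coe_coe, Jg_map χ₁, e1, e2] at h2
    have h3 := h2.scale
      (M' := fun r i => Jg (F (rl r)) 1 (fun c => ψ (x c)) (rq r) (rm r) (c i))
      (fun r => mul_ne_zero (pow_ne_zero _ (pow_ne_zero _ h0)) (pow_ne_zero _
        (mul_ne_zero (pow_ne_zero _ h0) (pow_ne_zero _ (inv_ne_zero h0)))))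
      (fun i => pow_ne_zero _ h0) fun r i => Jg_scale h1 1 _ (rq r) (rm r) (hF.hom (rl r)) (c i)
    refine Ind.gen (RingHom.id K) (ψ : K →+* L) (fun a ha => by simp [show a = 0 from ha])
      (M := fun r i => Jg (F (rl r)) 1 x 0 (rm r) (c i)) ?_
    simp only [RingHom.coe_coe, Jg_map ψ, map_one]
    simpa only [Jg_one _ _ (rq _)] using h3

/-- The vertices of the chain. -/
def toY (x : ι × Fin (e + 1) → K) (j : ℕ) (i : ι) : K := if h : j < e + 1 then x (i, ⟨j, h⟩) else 0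

omit [Fintype ι] in
theorem gp_zero (x : ι × Fin (e + 1) → K) (q : ℕ) :
    gp 0 x q = fun i => Polynomial.X ^ q * ln (toY x q) (toY x (q + 1)) i := by
  funext i
  have h1 : ∀ a : ℕ, ∑ j : Fin (e + 1), (if (j : ℕ) = a then Polynomial.monomial j (x (i, j))
      else 0) = Polynomial.monomial a (toY x a i) := fun a => by
    unfold toY
    split_ifs with h
    · rw [Finset.sum_eq_single ⟨a, h⟩] <;> simp +contextual [Fin.ext_iff]
    · rw [map_zero]
      exact Finset.sum_eq_zero fun j _ => if_neg (by omega)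
  rw [ln, mul_add, ← mul_assoc, ← pow_succ, mul_comm, mul_comm (_ ^ _),
    Polynomial.C_mul_X_pow_eq_monomial, Polynomial.C_mul_X_pow_eq_monomial, ← h1, ← h1,
    ← Finset.sum_add_distrib]
  refine Finset.sum_congr rfl fun j _ => ?_
  by_cases h : nn j q = 0
  · rw [h]
    rcases nn_eq_zero.1 h with h | h <;> simp [h]
  · rw [zero_pow h, if_neg fun h' => h (nn_eq_zero.2 (.inl h')),
      if_neg fun h' => h (nn_eq_zero.2 (.inr h'))]
    simp

omit [Fintype ι] in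
theorem Hyp.ln_of (hF : Hyp F d) {x : ι × Fin (e + 1) → K} {q : ℕ}
    (h : ∀ l, aeval (gp 0 x q) (F l) = 0) : Ln F (toY x q) (toY x (q + 1)) := fun l => by
  have h1 := h l
  rw [gp_zero, aeval_smul' (hF.hom l)] at h1
  exact (mul_eq_zero.1 h1).resolve_left (by simp)

omit [Fintype ι] in
theorem Hyp.Jg_zero (hF : Hyp F d) (x : ι × Fin (e + 1) → K) (q : ℕ) (l : κ) (r : ℕ)
    (c : ι × Fin (e + 1)) : Jg (F l) 0 x q (q * d l + r + 1) c =
      (if (c.2 : ℕ) = q + 1 then (aeval (ln (toY x q) (toY x (q + 1))) (pderiv c.1 (F l))).coeff r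
        else 0) + if (c.2 : ℕ) = q then
          (aeval (ln (toY x q) (toY x (q + 1))) (pderiv c.1 (F l))).coeff (r + 1) else 0 := by
  obtain ⟨n, hn⟩ := Nat.exists_eq_succ_of_ne_zero (hF.pos l)
  rw [Jg, gp_zero, aeval_smul' (hF.hom l).pderiv, ← pow_mul, ← mul_assoc, ← pow_add, hn]
  by_cases h : nn c.2 q = 0
  · rw [h, pow_zero, one_mul]
    rcases nn_eq_zero.1 h with h | h
    · rw [if_neg (by omega), if_pos h, zero_add, h, Nat.succ_sub_one,
        show q * n.succ + r + 1 = r + 1 + (q + q * n) by rw [Nat.mul_succ]; omega,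
        Polynomial.coeff_X_pow_mul]
    · rw [if_neg (by omega : ¬ (c.2 : ℕ) = q), if_pos h, add_zero, h, Nat.succ_sub_one,
        show q * n.succ + r + 1 = r + (q + 1 + q * n) by rw [Nat.mul_succ]; omega,
        Polynomial.coeff_X_pow_mul]
  · rw [zero_pow h, if_neg fun h' => h (nn_eq_zero.2 (.inr h')),
      if_neg fun h' => h (nn_eq_zero.2 (.inl h'))]
    simp

/-- Extension by zero. -/
def toN {S : Type} (ν : Fin e × S → K) (q : ℕ) (s : S) : K := if h : q < e then ν (⟨q, h⟩, s) else 0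

omit [Fintype ι] in
theorem Hyp.vertex (hF : Hyp F d) (x : ι × Fin (e + 1) → K) (ν : Fin e × (Σ l, Fin (d l)) → K)
    {j : ℕ} (hj : j + 1 < e + 1) (i : ι) :
    ∑ r, ν r * Jg (F r.2.1) 0 x r.1 (r.1 * d r.2.1 + r.2.2 + 1) (i, ⟨j + 1, hj⟩) =
      ∑ s, toN ν j s * Am F d (toY x j) (toY x (j + 1)) s i + ∑ s, toN ν (j + 1) s *
        (aeval (ln (toY x (j + 1)) (toY x (j + 1 + 1))) (pderiv i (F s.1))).coeff (s.2 + 1) := by
  have h1 : ∀ (a : ℕ) (f : ℕ → (Σ l, Fin (d l)) → K), ∑ r : Fin e × (Σ l, Fin (d l)),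
      ν r * (if a = r.1 then f r.1 r.2 else 0) = ∑ s, toN ν a s * f a s := fun a f => by
    rw [Fintype.sum_prod_type_right]
    refine Finset.sum_congr rfl fun s _ => ?_
    unfold toN
    split_ifs with h
    · rw [Finset.sum_eq_single ⟨a, h⟩] <;> simp +contextual [Fin.ext_iff, eq_comm]
    · rw [zero_mul]
      exact Finset.sum_eq_zero fun q _ => by rw [if_neg (by omega), mul_zero]
  simp only [hF.Jg_zero, mul_add, Finset.sum_add_distrib, add_left_inj]
  rw [h1 j fun q s => (aeval (ln (toY x q) (toY x (q + 1))) (pderiv i (F s.1))).coeff s.2,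
    h1 (j + 1) fun q s => (aeval (ln (toY x q) (toY x (q + 1))) (pderiv i (F s.1))).coeff (s.2 + 1)]
  rfl

omit [Fintype ι] in
theorem dm_le_U (x : ι × Fin (e + 1) → K) : dm k x ≤ rk k (U (toY x) 0 e) :=
  rk_mono (by
    rintro _ ⟨⟨i, j⟩, rfl⟩
    exact ⟨j, zero_le, Nat.le_of_lt_succ j.2, i, dif_pos j.2⟩)

end GM
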