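import Pool.Agent.Work.MP_64a944_ag.E

/-!
# The cone of quasi-maps is irreducible of the expected dimension
-/

namespace GM

open MvPolynomial PR0 PR0.Z

universe u

variable {k : Type u} [Field k] {K : Type u} [Field K] [Algebra k K] {ι κ : Type} {e : ℕ}
  {A : Type u} [CommRing A] [Algebra k A]

theorem hom_of_scale [CharZero k] {σ : Type} {P : MvPolynomial σ k} {n : ℕ}
    (h : aeval (fun i => (2 : MvPolynomial σ k) * X i) P = 2 ^ n * P) : P.IsHomogeneous n := by
  classical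
  intro μ hμ
  have h1 := congrArg (homogeneousComponent μ.degree) h
  have h2 : ∀ m, (2 : MvPolynomial σ k) ^ m = C (2 ^ m) := fun m => by rw [map_pow, map_ofNat]
  rw [← sum_homogeneousComponent P, map_sum, map_sum, sum_homogeneousComponent,
    Finset.sum_eq_single μ.degree] at h1
  · rw [aeval_smul' (homogeneousComponent_isHomogeneous _ _), h2, h2, homogeneousComponent_C_mul,
      homogeneousComponent_C_mul, aeval_X_left_apply,
      homogeneousComponent_eq_self (homogeneousComponent_isHomogeneous _ _)] at h1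
    have h3 := congrArg (coeff μ) h1
    rw [coeff_C_mul, coeff_C_mul, coeff_homogeneousComponent, if_pos rfl] at h3
    have h4 : ((2 ^ μ.degree : ℕ) : k) = (2 ^ n : ℕ) := by simpa [hμ] using h3
    exact (DFunLike.congr_fun Finsupp.degree_eq_weight_one μ).symm.trans
      (Nat.pow_right_injective le_rfl (Nat.cast_injective h4))
  · intro m _ hm
    rw [aeval_smul' (homogeneousComponent_isHomogeneous _ _), h2, homogeneousComponent_C_mul,
      aeval_X_left_apply, homogeneousComponent_of_mem (homogeneousComponent_mem m P),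
      if_neg hm.symm, mul_zero]
  · intro hm
    exact absurd (Finset.mem_range.2 (Nat.lt_succ_of_le (le_totalDegree (mem_support_iff.2 hμ)))) hm

theorem der_gp [Fintype ι] (D : Derivation k A A) {τ : A} (hτ : D τ = 0)
    (x : ι × Fin (e + 1) → A) (q m : ℕ) (G : MvPolynomial ι k) :
    D ((aeval (gp τ x q) G).coeff m) = ∑ c, Jg G τ x q m c * D (x c) := by
  rw [← coeff_Dc, der_aeval, Polynomial.finsetSum_coeff, Fintype.sum_prod_type]
  refine Finset.sum_congr rfl fun i _ => ?_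
  have h1 : Dc D (gp τ x q i) = ∑ j : Fin (e + 1),
      Polynomial.X ^ (j : ℕ) * Polynomial.C (τ ^ nn j q * D (x (i, j))) := by
    ext n
    simp only [coeff_Dc, gp, Polynomial.finsetSum_coeff, map_sum, Polynomial.coeff_monomial,
      Polynomial.coeff_mul_C, Polynomial.coeff_X_pow]
    refine Finset.sum_congr rfl fun j _ => ?_
    by_cases h : (j : ℕ) = n
    · simp [h, hτ]
    · simp [h, Ne.symm h]
  rw [h1, Finset.mul_sum, Polynomial.finsetSum_coeff]
  refine Finset.sum_congr rfl fun j _ => ?_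
  rw [← mul_assoc, Polynomial.coeff_mul_C, Jg, mul_comm (Polynomial.X ^ _)]
  ring

theorem gp_deg (τ : K) (x : ι × Fin (e + 1) → K) (q : ℕ) (i : ι) : (gp τ x q i).natDegree ≤ e :=
  Polynomial.natDegree_sum_le_of_forall_le _ _ fun j _ =>
    (Polynomial.natDegree_monomial_le _).trans (Nat.le_of_lt_succ j.2)

/-- Index set of the equations. -/
abbrev Row (d : κ → ℕ) (e : ℕ) : Type := κ ⊕ (Fin e × Σ l, Fin (d l))

variable {d : κ → ℕ} {F : κ → MvPolynomial ι k}

/-- Which form. -/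
def rl : Row d e → κ := Sum.elim id (·.2.1)

/-- Which line. -/
def rq : Row d e → ℕ := Sum.elim (fun _ => 0) (·.1)

/-- Which coefficient. -/
def rm : Row d e → ℕ := Sum.elim (fun _ => 0) fun r => r.1 * d r.2.1 + r.2.2 + 1

/-- The equations. -/
noncomputable def Pe (F : κ → MvPolynomial ι k) (d : κ → ℕ) (e : ℕ) (r : Row d e) :
    MvPolynomial (ι × Fin (e + 1)) k :=
  (aeval (gp 1 X 0) (F (rl r))).coeff (rm r)

theorem aeval_Pe (x : ι × Fin (e + 1) → A) (r : Row d e) :
    aeval x (Pe F d e r) = (aeval (gp 1 x 0) (F (rl r))).coeff (rm r) := by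
  rw [Pe, gp_coeff (aeval x)]
  simp

theorem exists_row (l : κ) {m : ℕ} (hm : m ≤ d l * e) : ∃ r : Row d e, rl r = l ∧ rm r = m := by
  rcases m with _ | m
  · exact ⟨.inl l, rfl, rfl⟩
  · have h : 0 < d l := Nat.pos_of_ne_zero fun h => by simp [h] at hm
    exact ⟨.inr (⟨m / d l, Nat.div_lt_of_lt_mul hm⟩, ⟨l, m % d l, Nat.mod_lt _ h⟩), rfl,
      congrArg (· + 1) (Nat.div_add_mod' m (d l))⟩

variable [Fintype ι] [Fintype κ]

omit [Fintype ι] in
theorem Hyp.zero_iff (hF : Hyp F d) {x : ι × Fin (e + 1) → K} :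
    (∀ r, aeval x (Pe F d e r) = 0) ↔ ∀ l, aeval (gp 1 x 0) (F l) = 0 := by
  refine ⟨fun h l => Polynomial.ext fun m => ?_, fun h r => by simp [aeval_Pe, h]⟩
  by_cases hm : m ≤ d l * e
  · obtain ⟨r, rfl, rfl⟩ := exists_row l hm
    rw [← aeval_Pe, h, Polynomial.coeff_zero]
  · exact Polynomial.coeff_eq_zero_of_natDegree_lt
      ((top_coeff (hF.hom l) (gp_deg 1 x 0)).1.trans_lt (not_le.1 hm))

omit [Fintype κ] in
theorem pderiv_Pe (x : ι × Fin (e + 1) → K) (r : Row d e) (c : ι × Fin (e + 1)) :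
    aeval x (pderiv c (Pe F d e r)) = Jg (F (rl r)) 1 x 0 (rm r) c := by
  classical
  rw [Pe, der_gp _ (Derivation.map_one_eq_zero _), Finset.sum_eq_single c, pderiv_X_self, mul_one,
    Jg_map (aeval x)]
  · simp
  · exact fun c' _ h => by rw [pderiv_X_of_ne h, mul_zero]
  · simp

variable [CharZero k]

omit [Fintype ι] in
theorem Hyp.Pe_hom (hF : Hyp F d) (r : Row d e) : (Pe F d e r).IsHomogeneous (d (rl r)) := by
  refine hom_of_scale ?_
  have h1 : gp 1 (fun c : ι × Fin (e + 1) => (2 : MvPolynomial _ k) * X c) 0 =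
      fun i => Polynomial.C (2 : MvPolynomial (ι × Fin (e + 1)) k) * gp 1 X 0 i := by
    funext i
    simp [gp, Finset.mul_sum, Polynomial.C_mul_monomial]
  rw [aeval_Pe, h1, aeval_smul' (hF.hom _), ← map_pow, Polynomial.coeff_C_mul, Pe]

omit [Fintype ι] [Fintype κ] [CharZero k] in
theorem Jg_inl (G : MvPolynomial ι k) (x : ι × Fin (e + 1) → K) (c : ι × Fin (e + 1)) :
    Jg G 0 x 0 0 c = if (c.2 : ℕ) = 0 then aeval (toY x 0) (pderiv c.1 G) else 0 := by
  rw [Jg, Polynomial.coeff_zero_eq_eval_zero, Polynomial.eval_mul, eval_aev, gp_zero]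
  split_ifs with h <;> simp [h, nn, ln]

theorem Hyp.sing (hF : Hyp F d) (hD : Fintype.card κ + 3 ≤ ∑ l, d l)
    (hn : 3 * ∑ l, d l ≤ Fintype.card ι + Fintype.card κ + 1) {x : ι × Fin (e + 1) → K}
    (hx : ∀ l, aeval (gp 1 x 0) (F l) = 0)
    (h : ¬ Ind fun (r : Row d e) c => Jg (F (rl r)) 1 x 0 (rm r) c) :
    dm k x ≤ (Fintype.card ι - Fintype.card κ + e * (Fintype.card ι - ∑ l, d l) - 2 : ℕ) := by
  obtain ⟨Ω, _, _, x', h1, h2, h3⟩ := hF.deg hx
  refine h1.trans ((dm_le_U x').trans (hF.chain (i := 0) (j := 0) (n := 0) hD hn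
    (fun q _ => hF.ln_of (h2 q)) le_rfl zero_le (fun h4 => ?_) (by omega)))
  refine (rk_mono (U_self _ _)).trans (le_of_eq ?_)
  suffices h5 : toY x' 0 = 0 from h5 ▸ dm_zero
  by_contra h5
  refine h (h3 _ _ rl rq rm id fun ν hν => ?_)
  simp only [Fintype.sum_sum_type, rl, rq, rm, Sum.elim_inl, Sum.elim_inr, id, Jg_inl] at hν
  have h6 : ∀ q ≤ e, toN (fun r => ν (.inr r)) q = 0 := fun q hq => by
    induction hq using Nat.decreasingInduction with
    | self => exact funext fun s => dif_neg (lt_irrefl _)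
    | of_succ q hq ih =>
      refine h4 q hq _ fun i => ?_
      have h7 := hν (i, ⟨q + 1, by omega⟩)
      rw [hF.vertex x' fun r => ν (.inr r), ih] at h7
      simpa using h7
  have h7 : ∀ r, ν (.inr r) = 0 := fun r =>
    (dif_pos r.1.2).symm.trans (congrFun (h6 r.1 r.1.2.le) r.2)
  have h8 := hF.sm Ω _ (fun l => by simpa using (hF.ln_of (h2 0)).pt 0 l) h5
    (fun l => ν (.inl l)) fun i => by simpa [h7] using hν (i, 0)
  funext r
  rcases r with l | r
  · exact congrFun h8 l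
  · exact h7 r

theorem Hyp.irred [IsAlgClosed k] (hF : Hyp F d) (hD : Fintype.card κ + 3 ≤ ∑ l, d l)
    (hn : 3 * ∑ l, d l ≤ Fintype.card ι + Fintype.card κ + 1) (e : ℕ) :
    ∃ 𝔭 : Ideal (MvPolynomial (ι × Fin (e + 1)) k), 𝔭.IsPrime ∧ (∀ r, Pe F d e r ∈ 𝔭) ∧
      dI 𝔭 = (Fintype.card ι - Fintype.card κ + e * (Fintype.card ι - ∑ l, d l) : ℕ) ∧
      ∀ 𝔮 : Ideal (MvPolynomial (ι × Fin (e + 1)) k), 𝔮.IsPrime → (∀ r, Pe F d e r ∈ 𝔮) →
        𝔭 ≤ 𝔮 := by
  have h1 : Fintype.card ι - Fintype.card κ + e * (Fintype.card ι - ∑ l, d l) - 2 + 2 =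
    Fintype.card ι - Fintype.card κ + e * (Fintype.card ι - ∑ l, d l) := by omega
  rw [← h1]
  refine ci (fun r => hF.pos _) hF.Pe_hom ?_ fun K _ _ x hx h =>
    hF.sing hD hn (hF.zero_iff.1 hx) (by simpa only [pderiv_Pe] using h)
  have h2 : e * (Fintype.card ι - ∑ l, d l) + e * ∑ l, d l = e * Fintype.card ι := by
    rw [← mul_add, Nat.sub_add_cancel (by omega)]
  rw [h1, Fintype.card_prod, Fintype.card_sum, Fintype.card_prod, card_rows, Fintype.card_fin,
    Fintype.card_fin, mul_add_one, mul_comm _ e]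
  omega

end GM
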