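import Pool.Agent.Work.MP_64a944_ag.F
import Pool.Agent.Work.MP_64a944_ag.Defs

/-!
# The base point free locus is dense
-/

namespace GM

open MvPolynomial PR0 PR0.Z

universe u

variable {k : Type u} [Field k] {K : Type u} [Field K] [Algebra k K] {ι κ : Type} {e : ℕ}
  {d : κ → ℕ} {F : κ → MvPolynomial ι k}

theorem coeff_gp (x : ι × Fin (e + 1) → K) (i : ι) (j : Fin (e + 1)) :
    (gp 1 x 0 i).coeff j = x (i, j) := by
  rw [gp, Polynomial.finsetSum_coeff, Finset.sum_eq_single j] <;>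
    simp +contextual [Polynomial.coeff_monomial, Fin.ext_iff]

theorem gp_of_deg {g : ι → Polynomial K} (hg : ∀ i, (g i).natDegree ≤ e) :
    gp 1 (fun c : ι × Fin (e + 1) => (g c.1).coeff c.2) 0 = g := by
  funext i
  rw [Polynomial.as_sum_range' (g i) (e + 1) (Nat.lt_succ_of_le (hg i)), Finset.sum_range]
  simp [gp]

theorem eval_gp (x : ι × Fin (e + 1) → K) (t : K) (i : ι) :
    (gp 1 x 0 i).eval t = form x 1 t i := by
  simp [gp, form, Polynomial.eval_finsetSum]

theorem form_ne (x : ι × Fin (e + 1) → K) {s : K} (hs : s ≠ 0) (t : K) :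
    form x s t = fun i => s ^ e * form x 1 (t / s) i := by
  funext i
  rw [form, form, Finset.mul_sum]
  refine Finset.sum_congr rfl fun j _ => ?_
  rw [one_pow, div_pow, pow_sub₀ _ hs (Nat.le_of_lt_succ j.2)]
  field_simp

theorem form_zero (x : ι × Fin (e + 1) → K) (t : K) :
    form x 0 t = fun i => t ^ e * x (i, Fin.last e) := by
  funext i
  rw [form, Finset.sum_eq_single (Fin.last e)]
  · simp [mul_comm]
  · intro j _ hj
    rw [zero_pow (Nat.sub_ne_zero_of_lt (Fin.val_lt_last hj)), mul_zero, zero_mul]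
  · simp

variable [Fintype ι] [Fintype κ]

theorem hyp_of [IsAlgClosed k] (h1 : ∀ l, (F l).IsHomogeneous (d l)) (h2 : ∀ l, d l ≠ 0)
    (h3 : ∀ x : ι → k, x ≠ 0 → (∀ l, eval x (F l) = 0) →
      LinearIndependent k fun l i => eval x (pderiv i (F l))) : Hyp F d := by
  refine ⟨h1, h2, fun K _ _ x hx h4 μ hμ => ?_⟩
  by_contra h5
  obtain ⟨i, hi⟩ := Function.ne_iff.1 h4
  obtain ⟨l, hl⟩ := Function.ne_iff.1 h5
  obtain ⟨c, h6, h7⟩ := exists_rat (k := k) (FG.of_finite (Sum.elim x μ))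
    (g := X (.inl i) * X (.inr l)) (by simpa using ⟨hi, hl⟩)
  simp only [map_mul, aeval_X, mul_ne_zero_iff] at h7
  have h8 : ∀ G : MvPolynomial ι k, aeval c (rename Sum.inl G) = eval (c ∘ Sum.inl) G := fun G =>
    aeval_rename _ _ _
  refine h7.2 (congrFun (ind_iff.2 (h3 (c ∘ Sum.inl) (fun h => h7.1 (congrFun h i)) fun l => ?_)
    (c ∘ Sum.inr) fun j => ?_) l)
  · rw [← h8]
    exact h6 _ (by rw [aeval_rename]; exact hx l)
  · have h9 := h6 (∑ l, X (.inr l) * rename Sum.inl (pderiv j (F l))) (by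
      simp only [map_sum, map_mul, aeval_X, aeval_rename]
      exact hμ j)
    simpa only [map_sum, map_mul, aeval_X, h8, Function.comp_apply] using h9

omit [Fintype ι] in
theorem Hyp.form_iff [Infinite K] (hF : Hyp F d) {x : ι × Fin (e + 1) → K} :
    (∀ s t l, aeval (form x s t) (F l) = 0) ↔ ∀ l, aeval (gp 1 x 0) (F l) = 0 := by
  refine ⟨fun h l => Polynomial.funext fun t => ?_, fun h s t l => ?_⟩
  · simp [eval_aev, eval_gp, h]
  · by_cases hs : s = 0
    · have h1 := (top_coeff (hF.hom l) (gp_deg 1 x 0)).2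
      rw [h, Polynomial.coeff_zero] at h1
      rw [hs, form_zero, aeval_smul' (hF.hom l)]
      exact mul_eq_zero_of_right _ (by simpa only [← coeff_gp, Fin.val_last] using h1.symm)
    · have h1 := congrArg (Polynomial.eval (t / s)) (h l)
      rw [form_ne x hs, aeval_smul' (hF.hom l)]
      exact mul_eq_zero_of_right _ (by simpa [eval_aev, eval_gp] using h1)

variable [CharZero k] [IsAlgClosed k]

theorem Hyp.dm_le (hF : Hyp F d) (hD : Fintype.card κ + 3 ≤ ∑ l, d l)
    (hn : 3 * ∑ l, d l ≤ Fintype.card ι + Fintype.card κ + 1) {x : ι × Fin (e + 1) → K}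
    (hx : ∀ l, aeval (gp 1 x 0) (F l) = 0) :
    dm k x ≤ (Fintype.card ι - Fintype.card κ + e * (Fintype.card ι - ∑ l, d l) : ℕ) := by
  obtain ⟨𝔭, h1, h2, h3, h4⟩ := hF.irred hD hn e
  rw [← h3, ← dI_pt]
  exact dI_mono h1 inferInstance (h4 _ inferInstance (hF.zero_iff.2 hx))

theorem Hyp.bpf (hF : Hyp F d) (hD : Fintype.card κ + 3 ≤ ∑ l, d l)
    (hn : 3 * ∑ l, d l ≤ Fintype.card ι + Fintype.card κ + 1) {x : ι × Fin (e + 1) → K}
    (hx : ∀ l, aeval (gp 1 x 0) (F l) = 0)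
    (hd : (Fintype.card ι - Fintype.card κ + e * (Fintype.card ι - ∑ l, d l) : ℕ) ≤ dm k x) :
    (∃ i, x (i, Fin.last e) ≠ 0) ∧ ∀ t, ∃ i, (gp 1 x 0 i).eval t ≠ 0 := by
  rcases e with _ | e
  · have h1 : ∃ i, x (i, 0) ≠ 0 := by
      by_contra h
      push Not at h
      have h1 : x = 0 := funext fun c =>
        (congrArg (fun j => x (c.1, j)) (Subsingleton.elim (α := Fin 1) c.2 0)).trans (h c.1)
      rw [h1, dm_zero, nonpos_iff_eq_zero, Nat.cast_eq_zero] at hd
      omega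
    exact ⟨h1, fun t => by simpa [gp] using h1⟩
  have key : ∀ (t : K) (b : Polynomial K) (g : ι → Polynomial K), b ≠ 0 →
      (∀ i, (g i).natDegree ≤ e) → (∀ i, gp 1 x 0 i = b * g i) →
      (∀ E : IntermediateField k K, t ∈ E → ∀ n, b.coeff n ∈ E) → False := by
    intro t b g h1 h2 h3 h4
    have h5 := hF.dm_le hD hn (x := fun c : ι × Fin (e + 1) => (g c.1).coeff c.2) fun l => by
      have h5 := hx l
      rw [funext h3, aeval_smul' (hF.hom l)] at h5
      rw [gp_of_deg h2]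
      exact (mul_eq_zero.1 h5).resolve_left (pow_ne_zero _ h1)
    have h6 := hd.trans ((rk_le_of_mem ?_).trans ((rk_insert_le _ t).trans
      (add_le_add_left h5 1)))
    · rw [← Nat.cast_add_one, Nat.cast_le, add_one_mul] at h6
      omega
    · rintro _ ⟨⟨i, j⟩, rfl⟩
      rw [← coeff_gp x, h3, Polynomial.coeff_mul]
      refine sum_mem fun p _ => mul_mem
        (h4 _ (IntermediateField.subset_adjoin _ _ (Set.mem_insert _ _)) _) ?_
      by_cases h6 : p.2 < e + 1
      · exact IntermediateField.subset_adjoin _ _ (.inr ⟨(i, ⟨_, h6⟩), rfl⟩)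
      · rw [Polynomial.coeff_eq_zero_of_natDegree_lt ((h2 i).trans_lt (by omega))]
        exact zero_mem _
  refine ⟨?_, fun t => ?_⟩ <;> by_contra h <;> push Not at h
  · refine key 0 1 (gp 1 x 0) one_ne_zero (fun i => Polynomial.natDegree_le_pred (gp_deg 1 x 0 i)
      ((coeff_gp x i (Fin.last _)).trans (h i))) (by simp) fun E _ n => ?_
    rw [Polynomial.coeff_one]
    split_ifs
    exacts [one_mem _, zero_mem _]
  · refine key t (Polynomial.X - Polynomial.C t) (fun i => gp 1 x 0 i /ₘ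
      (Polynomial.X - Polynomial.C t)) (Polynomial.X_sub_C_ne_zero t) (fun i => ?_)
      (fun i => (Polynomial.mul_divByMonic_eq_iff_isRoot.2 (h i)).symm) fun E ht n => ?_
    · rw [Polynomial.natDegree_divByMonic _ (Polynomial.monic_X_sub_C t),
        Polynomial.natDegree_X_sub_C]
      exact Nat.sub_le_of_le_add (gp_deg 1 x 0 i)
    · rw [Polynomial.coeff_sub, Polynomial.coeff_X, Polynomial.coeff_C]
      refine sub_mem ?_ ?_ <;> split_ifs
      exacts [one_mem _, zero_mem _, ht, zero_mem _]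

omit [CharZero k] in
theorem exists_bezout {f : ι → Polynomial k} (h : ∀ t, ∃ i, (f i).eval t ≠ 0) :
    ∃ u : ι → Polynomial k, ∑ i, u i * f i = 1 := by
  rw [← Ideal.mem_span_range_iff_exists_fun, ← Ideal.eq_top_iff_one]
  obtain ⟨g, hg⟩ := (IsPrincipalIdealRing.principal (Ideal.span (Set.range f))).principal
  replace hg : Ideal.span (Set.range f) = Ideal.span {g} := hg
  rw [hg, Ideal.span_singleton_eq_top, Polynomial.isUnit_iff_degree_eq_zero]
  by_contra h1
  obtain ⟨t, ht⟩ := IsAlgClosed.exists_root g h1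
  obtain ⟨i, hi⟩ := h t
  exact hi (ht.dvd (Ideal.mem_span_singleton.1 (hg ▸ Ideal.subset_span ⟨i, rfl⟩)))

theorem Hyp.mor (hF : Hyp F d) (hD : Fintype.card κ + 3 ≤ ∑ l, d l)
    (hn : 3 * ∑ l, d l ≤ Fintype.card ι + Fintype.card κ + 1) (e : ℕ) :
    (vanishingIdeal k (Mor F e)).IsPrime ∧ (∀ r, Pe F d e r ∈ vanishingIdeal k (Mor F e)) ∧
      dI (vanishingIdeal k (Mor F e)) =
        (Fintype.card ι - Fintype.card κ + e * (Fintype.card ι - ∑ l, d l) : ℕ) := by
  obtain ⟨𝔭, h1, h2, h3, h4⟩ := hF.irred hD hn e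
  suffices h : vanishingIdeal k (Mor F e) = 𝔭 from h ▸ ⟨h1, h2, h3⟩
  refine le_antisymm (fun g hg => ?_) fun g hg a ha =>
    h4 (Pt2_id k a) inferInstance (hF.zero_iff.2 (hF.form_iff.1 ha.2)) hg
  by_contra hg'
  obtain ⟨Ω, _, _, _, ξ, rfl⟩ := Pt2_pt 𝔭
  obtain ⟨⟨i₀, h5⟩, h6⟩ := hF.bpf hD hn (hF.zero_iff.1 h2) ((dI_pt ξ).symm.trans h3).ge
  obtain ⟨u, hu⟩ := exists_bezout h6
  obtain ⟨M, hM⟩ := (Set.finite_range fun i => (u i).natDegree).bddAbove
  obtain ⟨c, h7, h8⟩ := exists_rat (k := k) (FG.of_finite (Sum.elim ξ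
    fun c : ι × Fin (M + 1) => (u c.1).coeff c.2)) (g := rename Sum.inl (g * X (i₀, Fin.last e)))
    (by rw [aeval_rename, map_mul, aeval_X]; exact mul_ne_zero hg' h5)
  rw [aeval_rename, map_mul, aeval_X, mul_ne_zero_iff] at h8
  refine h8.1 (hg _ ⟨fun s t hst h9 => ?_, hF.form_iff.2 (hF.zero_iff.1 fun r =>
    h7.comp Sum.inl _ (h2 r))⟩)
  by_cases hs : s = 0
  · rw [hs, form_zero] at h9
    exact mul_ne_zero (pow_ne_zero _ fun h => hst (by rw [hs, h])) h8.2 (congrFun h9 i₀)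
  · rw [form_ne _ hs] at h9
    have h10 := h7 (∑ i, (∑ j : Fin (M + 1), X (.inr (i, j)) * C (t / s) ^ (j : ℕ)) *
        (∑ j : Fin (e + 1), X (.inl (i, j)) * C (t / s) ^ (j : ℕ)) - 1) (by
      have h10 := congrArg (Polynomial.eval (algebraMap k Ω (t / s))) hu
      rw [← gp_of_deg fun i => hM ⟨i, rfl⟩] at h10
      simpa [Polynomial.eval_finsetSum, eval_gp, form, sub_eq_zero] using h10)
    have h11 : ∀ i, ∑ j : Fin (e + 1), c (.inl (i, j)) * (t / s) ^ (j : ℕ) = 0 := fun i => by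
      simpa [form, hs] using congrFun h9 i
    simp [h11] at h10

end GM
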