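import Pool.Agent.Work.MP_64a944_ag.B

/-!
# Weighted homogeneous complete intersections; free composita; change of the base field
-/

namespace GM

open MvPolynomial PR0 PR0.Z

universe u

attribute [local instance] MvPolynomial.gradedAlgebra

variable {k : Type u} [Field k] {σ : Type}

/-- Top dimensional primes. -/
def TopP {R : Type} (P : R → MvPolynomial σ k) (μ : ℕ) (𝔯 : Ideal (MvPolynomial σ k)) : Prop :=
  𝔯.IsPrime ∧ Ideal.span (Set.range P) ≤ 𝔯 ∧ (2 + μ : ℕ) ≤ dI 𝔯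

theorem span_le_iff {R : Type} {P : R → MvPolynomial σ k} {𝔮 : Ideal (MvPolynomial σ k)} :
    Ideal.span (Set.range P) ≤ 𝔮 ↔ ∀ r, P r ∈ 𝔮 := by
  rw [Ideal.span_le, Set.range_subset_iff]
  rfl

variable [Fintype σ] {R : Type} [Fintype R] {P : R → MvPolynomial σ k} {μ : ℕ}

theorem exists_topP (hμ : Fintype.card σ = Fintype.card R + (μ + 2))
    (𝔮 : Ideal (MvPolynomial σ k)) (hq : 𝔮.IsPrime) (hle : Ideal.span (Set.range P) ≤ 𝔮) :
    ∃ 𝔯, TopP P μ 𝔯 ∧ 𝔯 ≤ 𝔮 := by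
  obtain ⟨𝔯, h1, -, h2, h3, h4⟩ := dI_krull Ideal.isPrime_bot hq bot_le
    (fun j => P ((Fintype.equivFin R).symm j)) fun j => span_le_iff.1 hle _
  refine ⟨𝔯, ⟨h1, span_le_iff.2 fun r => by simpa using h3 (Fintype.equivFin R r), ?_⟩, h2⟩
  rw [dI_bot, Nat.card_eq_fintype_card, hμ, add_comm (Fintype.card R), add_comm μ,
    Nat.cast_add (2 + μ)] at h4
  exact (ENat.add_le_add_iff_right (by simp)).1 h4

/-- Connectedness in codimension one. -/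
theorem connCI [Infinite k] {δ : R → ℕ} (hδ : ∀ r, δ r ≠ 0) (hP : ∀ r, (P r).IsHomogeneous (δ r))
    (hμ : Fintype.card σ = Fintype.card R + (μ + 2)) (hup : Dle (Ideal.span (Set.range P)) (2 + μ))
    (Q : Ideal (MvPolynomial σ k) → Prop)
    (hloc : ∀ 𝔯₁ 𝔯₂ 𝔡 : Ideal (MvPolynomial σ k), TopP P μ 𝔯₁ → TopP P μ 𝔯₂ → 𝔡.IsPrime →
      𝔯₁ ≤ 𝔡 → 𝔯₂ ≤ 𝔡 → Q 𝔯₁ → ¬ Q 𝔯₂ → dI 𝔡 ≤ μ) {𝔭 𝔭' : Ideal (MvPolynomial σ k)}
    (hp : TopP P μ 𝔭) (hp' : TopP P μ 𝔭') (hQ : Q 𝔭) : Q 𝔭' := by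
  classical
  by_contra hQ'
  set J := Ideal.span (Set.range P)
  have hJ' : Hom J := Ideal.homogeneous_span _ _ (by rintro _ ⟨r, rfl⟩; exact ⟨_, hP r⟩)
  have hmin : ∀ 𝔯, TopP P μ 𝔯 → 𝔯 ∈ J.minimalPrimes := fun 𝔯 h => ⟨⟨h.1, h.2.1⟩, by
    rintro 𝔯' ⟨h1, h2⟩ h3
    by_contra h4
    exact lt_irrefl _ ((ENat.add_one_le_iff (dI_ne_top h.1)).1
      (((dI_lt h1 h.1 h3 h4).trans (hup _ h1 h2)).trans h.2.2))⟩
  have hhom : ∀ 𝔯, TopP P μ 𝔯 → Hom 𝔯 := fun 𝔯 h => by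
    obtain ⟨𝔯', h2, h3, h4, h5⟩ := hJ'.core h.1 h.2.1
    exact le_antisymm h5 ((hmin 𝔯 h).2 ⟨h2, h4⟩ h5) ▸ h3
  have hinf : ∀ Q' : Ideal (MvPolynomial σ k) → Prop, ∃ 𝔞, Hom 𝔞 ∧
      ∀ 𝔮, 𝔮.IsPrime → (𝔞 ≤ 𝔮 ↔ ∃ 𝔯, TopP P μ 𝔯 ∧ Q' 𝔯 ∧ 𝔯 ≤ 𝔮) := by
    intro Q'
    have hf : {𝔯 | TopP P μ 𝔯 ∧ Q' 𝔯}.Finite :=
      (J.finite_minimalPrimes_of_isNoetherianRing _).subset fun _ h => hmin _ h.1
    refine ⟨sInf {𝔯 | TopP P μ 𝔯 ∧ Q' 𝔯}, Ideal.IsHomogeneous.sInf fun _ h => hhom _ h.1,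
      fun 𝔮 hq => ?_⟩
    rw [← hf.coe_toFinset, ← Finset.inf_id_eq_sInf, hq.inf_le']
    simp [and_assoc]
  obtain ⟨𝔞, ha, ha'⟩ := hinf Q
  obtain ⟨𝔟, hb, hb'⟩ := hinf fun 𝔯 => ¬ Q 𝔯
  have hD2 : Dle (𝔞 ⊔ 𝔟) (0 + μ) := fun 𝔡 hd hle => by
    obtain ⟨𝔯', h5, h6, h7⟩ := (ha' 𝔡 hd).1 (le_sup_left.trans hle)
    obtain ⟨𝔯, h2, h3, h4⟩ := (hb' 𝔡 hd).1 (le_sup_right.trans hle)
    rw [zero_add]
    exact hloc _ _ _ h5 h2 hd h7 h4 h6 h3
  obtain ⟨l, hl, hl1, hl2⟩ := cuts μ J (𝔞 ⊔ 𝔟)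
  obtain ⟨y, hy, hy1, -⟩ := cuts 2 (J ⊔ Ideal.span (Set.range l)) ⊤
  have hδ₀ : ∏ r, δ r ≠ 0 := Finset.prod_ne_zero_iff.2 fun r _ => hδ r
  choose ε hε using fun r => Finset.dvd_prod_of_mem δ (Finset.mem_univ r)
  generalize ∏ r, δ r = δ₀ at hδ₀ hε
  have hε' : ∀ r, ε r ≠ 0 := fun r h => hδ₀ (by rw [hε r, h, mul_zero])
  let L : R ⊕ Fin μ → MvPolynomial σ k := Sum.elim (fun r => P r ^ ε r) fun j => l j ^ δ₀
  have hL : ∀ {𝔮 : Ideal (MvPolynomial σ k)}, 𝔮.IsPrime →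
      ((∀ i, L i ∈ 𝔮) ↔ J ⊔ Ideal.span (Set.range l) ≤ 𝔮) := fun hq => by
    rw [sup_le_iff, span_le_iff, span_le_iff, Sum.forall]
    exact and_congr (forall_congr' fun r => hq.pow_mem_iff_mem _ (Nat.pos_of_ne_zero (hε' r)))
      (forall_congr' fun r => hq.pow_mem_iff_mem _ (Nat.pos_of_ne_zero hδ₀))
  have hcut : ∀ 𝔮, TopP P μ 𝔮 → ∃ 𝔯 : Ideal (MvPolynomial σ k), 𝔯.IsPrime ∧ 𝔮 ≤ 𝔯 ∧
      (∀ i, L i ∈ 𝔯) ∧ dI 𝔯 ≠ 0 := by
    intro 𝔮 h
    obtain ⟨𝔯, h1, h2, -, h4, h5⟩ := dI_krull h.1 inferInstance ((hhom _ h).le_vx h.1) l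
      fun i => mem_vx_of (hl i) one_ne_zero
    refine ⟨𝔯, h1, h2, (hL h1).2 (sup_le (h.2.1.trans h2) (span_le_iff.2 h4)), fun h6 => ?_⟩
    have h7 := h.2.2.trans h5
    rw [h6, zero_add, Nat.cast_le] at h7
    omega
  obtain ⟨𝔯₁, h1, h2, h3, h4⟩ := hcut 𝔭 hp
  obtain ⟨𝔯₂, h5, h6, h7, h8⟩ := hcut 𝔭' hp'
  refine (gcD (ι := R ⊕ Fin μ) (l := Sum.elim L fun j => y j ^ δ₀) hδ₀ ?_ ?_ ?_ ha hb ?_ ?_
    h1 h5 h3 h7 ((ha' _ h1).2 ⟨_, hp, hQ, h2⟩) ((hb' _ h5).2 ⟨_, hp', hQ', h6⟩)).elim h4 h8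
  · rintro ((r | j) | j)
    · exact hε r ▸ (hP r).pow (ε r)
    · simpa [L] using (hl j).pow δ₀
    · simpa using (hy j).pow δ₀
  · simp [hμ, add_assoc]
  · intro 𝔮 hq h9
    rw [span_le_iff, Sum.forall] at h9
    exact hy1 0 (hl1 2 hup) 𝔮 hq (sup_le ((hL hq).1 h9.1)
      (span_le_iff.2 fun j => hq.mem_of_pow_mem _ (h9.2 j)))
  · intro 𝔮 hq h9
    obtain ⟨𝔯, h11, h12⟩ := exists_topP hμ 𝔮 hq (le_sup_left.trans ((hL hq).1 h9))
    by_cases h : Q 𝔯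
    · exact .inl ((ha' _ hq).2 ⟨𝔯, h11, h, h12⟩)
    · exact .inr ((hb' _ hq).2 ⟨𝔯, h11, h, h12⟩)
  · intro 𝔮 hq h9
    exact hl2 0 hD2 𝔮 hq (sup_le (le_sup_left.trans h9) (le_sup_right.trans ((hL hq).1
      fun i => h9 (Ideal.mem_sup_right (Ideal.subset_span ⟨i, rfl⟩)))))

omit [Fintype σ] in
theorem dm_pow {K : Type u} [Field K] [Algebra k K] (z : σ → K) {w : σ → ℕ} (hw : ∀ i, w i ≠ 0) :
    dm k (fun i => z i ^ w i) = dm k z := by
  refine le_antisymm (rk_le_of_mem ?_) (rk_le_of_alg ?_) <;> rintro _ ⟨i, rfl⟩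
  · exact pow_mem (IntermediateField.subset_adjoin k (Set.range z) ⟨i, rfl⟩) _
  · exact IsAlgebraic.of_pow (Nat.pos_of_ne_zero (hw i)) (isAlgebraic_algebraMap
      (⟨z i ^ w i, Algebra.subset_adjoin ⟨i, rfl⟩⟩ :
        Algebra.adjoin k (Set.range fun i => z i ^ w i)))

/-- Weighted homogeneous complete intersections, regular in codimension one, are irreducible. -/
theorem ciw [IsAlgClosed k] [CharZero k] {w : σ → ℕ} (hw : ∀ i, w i ≠ 0) {δ : R → ℕ}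
    (hδ : ∀ r, δ r ≠ 0)
    (hP : ∀ r, (aeval (fun i => (X i ^ w i : MvPolynomial σ k)) (P r)).IsHomogeneous (δ r))
    (hμ : Fintype.card σ = Fintype.card R + (μ + 2))
    (H : ∀ (K : Type u) [Field K] [Algebra k K] (x : σ → K), (∀ r, aeval x (P r) = 0) →
      ¬ Ind (fun r i => aeval x (pderiv i (P r))) → dm k x ≤ μ)
    {K K' : Type u} [Field K] [Algebra k K] [Field K'] [Algebra k K'] {x : σ → K} {y : σ → K'}
    (hx : ∀ r, aeval x (P r) = 0) (hd : (μ + 2 : ℕ) ≤ dm k x) (hy : ∀ r, aeval y (P r) = 0) :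
    Spc k x y := by
  classical
  let π : MvPolynomial σ k →ₐ[k] MvPolynomial σ k := aeval fun i => X i ^ w i
  have hπ : ∀ {L : Type u} [Field L] [Algebra k L] (z : σ → L),
      (Pt2_id k z).comap π = Pt2_id k fun i => z i ^ w i := fun z => by
    ext f
    rw [Ideal.mem_comap, RingHom.mem_ker, RingHom.mem_ker, comp_aeval_apply]
    simp
  have hπ' : ∀ 𝔮 : Ideal (MvPolynomial σ k), 𝔮.IsPrime → dI (𝔮.comap π) = dI 𝔮 := fun 𝔮 hq => by
    obtain ⟨L, _, _, _, z, rfl⟩ := Pt2_pt 𝔮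
    rw [hπ, dI_pt, dI_pt, dm_pow z hw]
  have hπ'' : ∀ 𝔮 : Ideal (MvPolynomial σ k), Ideal.span (Set.range fun r => π (P r)) ≤ 𝔮 ↔
      Ideal.span (Set.range P) ≤ 𝔮.comap π := fun 𝔮 =>
    span_le_iff.trans (span_le_iff (𝔮 := 𝔮.comap π)).symm
  have hup : Dle (Ideal.span (Set.range P)) (2 + μ) := fun 𝔮 hq hle => by
    obtain ⟨K, _, _, _, x, rfl⟩ := Pt2_pt 𝔮
    rw [dI_pt]
    by_cases h : Ind fun r i => aeval x (pderiv i (P r))
    · have h1 := dm_le_of_ind (span_le_iff.1 hle) h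
      rw [hμ, add_comm (Fintype.card R), add_comm μ, Nat.cast_add (2 + μ)] at h1
      exact (ENat.add_le_add_iff_right (by simp)).1 h1
    · exact (H K x (span_le_iff.1 hle) h).trans (Nat.cast_le.2 (by omega))
  have hloc : ∀ 𝔯₁ 𝔯₂ 𝔡 : Ideal (MvPolynomial σ k), TopP P μ 𝔯₁ → TopP P μ 𝔯₂ → 𝔡.IsPrime →
      𝔯₁ ≤ 𝔡 → 𝔯₂ ≤ 𝔡 → 𝔯₂ ≠ 𝔯₁ → dI 𝔡 ≤ μ := by
    rintro 𝔯₁ 𝔯₂ 𝔡 ⟨h1, h2, h3⟩ ⟨h4, h5, h6⟩ h7 h8 h9 h10
    obtain ⟨K, _, _, _, x, rfl⟩ := Pt2_pt 𝔡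
    obtain ⟨K₁, _, _, _, x₁, rfl⟩ := Pt2_pt 𝔯₁
    obtain ⟨K₂, _, _, _, x₂, rfl⟩ := Pt2_pt 𝔯₂
    rw [dI_pt] at h3 h6 ⊢
    refine H K x (span_le_iff.1 (h2.trans h8)) fun h => h10 ?_
    obtain ⟨q, h11, h12⟩ := h.rat
    have hF : FGI (Ideal.span (Set.range P)) := ⟨Finset.univ, fun i =>
      ⟨X i, Algebra.subset_adjoin ⟨i, by simp, rfl⟩, by simp⟩⟩
    have hT : Module.finrank k (Tan (Ideal.span (Set.range P)) q) ≤ 2 + μ := by
      have h13 := finrank_ker (Matrix.of fun r i => aeval q (pderiv i (P r)))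
      have h14 : Tan (Ideal.span (Set.range P)) q ≤ LinearMap.ker
          (Matrix.of fun r i => aeval q (pderiv i (P r))).mulVecLin := fun v hv =>
        funext fun r => (dd_eq q v (P r)).symm.trans (hv _ (Ideal.subset_span ⟨r, rfl⟩))
      have h15 := Submodule.finrank_mono h14
      rw [h12.rank] at h13
      omega
    exact le_antisymm (reg hF hT h5 h2 (Spc.trans h9 h11) (Spc.trans h8 h11) h6)
      (reg hF hT h2 h5 (Spc.trans h8 h11) (Spc.trans h9 h11) h3)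
  have hT : ∀ 𝔯, TopP (fun r => π (P r)) μ 𝔯 → TopP P μ (𝔯.comap π) := fun 𝔯 h =>
    ⟨h.1.comap π, (hπ'' 𝔯).1 h.2.1, h.2.2.trans (hπ' 𝔯 h.1).ge⟩
  have hT' : ∀ 𝔯, TopP P μ 𝔯 → ∃ 𝔯', TopP (fun r => π (P r)) μ 𝔯' ∧ 𝔯'.comap π = 𝔯 := by
    rintro 𝔯 ⟨h1, h2, h3⟩
    obtain ⟨L, _, _, _, z, rfl⟩ := Pt2_pt 𝔯
    choose z' hz' using fun i => IsAlgClosed.exists_pow_nat_eq (z i) (Nat.pos_of_ne_zero (hw i))
    have h4 : (Pt2_id k z').comap π = Pt2_id k z := by rw [hπ, funext hz']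
    exact ⟨Pt2_id k z', ⟨inferInstance, (hπ'' _).2 (h4 ▸ h2),
      h3.trans (h4 ▸ (hπ' _ inferInstance).le)⟩, h4⟩
  have h1 : TopP P μ (Pt2_id k x) :=
    ⟨inferInstance, span_le_iff.2 hx, add_comm μ 2 ▸ hd.trans (dI_pt x).ge⟩
  obtain ⟨𝔯, h2, h3⟩ := exists_topP hμ (Pt2_id k y) inferInstance (span_le_iff.2 hy)
  obtain ⟨𝔭, h4, h5⟩ := hT' _ h1
  obtain ⟨𝔭', h6, h7⟩ := hT' _ h2
  have h8 := connCI hδ hP hμ (fun 𝔮 hq hle => (hπ' 𝔮 hq).ge.trans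
    (hup _ (hq.comap π) ((hπ'' 𝔮).1 hle))) (fun 𝔮 => 𝔮.comap π = Pt2_id k x)
    (fun 𝔯₁ 𝔯₂ 𝔡 h8 h9 h10 h11 h12 h13 h14 => (hπ' 𝔡 h10).ge.trans (hloc _ _ _ (hT _ h8)
      (hT _ h9) (h10.comap π) (Ideal.comap_mono h11) (Ideal.comap_mono h12) (h13 ▸ h14))) h4 h6 h5
  exact (h8.symm.trans h7).le.trans h3

omit [Fintype σ] in
/-- Weighted homogenisation. -/
theorem hom_ex (v : σ → ℕ) (g : MvPolynomial σ k) : ∃ (M : ℕ) (G : MvPolynomial (Option σ) k),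
    ∀ (L : Type u) [Field L] [Algebra k L] (τ : L) (y : σ → L),
      aeval (ext1 τ fun i => τ ^ v i * y i) G = τ ^ M * aeval y g := by
  induction g using MvPolynomial.induction_on with
  | C a => exact ⟨0, C a, fun L _ _ τ y => by simp⟩
  | add f g hf hg =>
    obtain ⟨M, G, h⟩ := hf
    obtain ⟨M', G', h'⟩ := hg
    refine ⟨M + M', X none ^ M' * G + X none ^ M * G', fun L _ _ τ y => ?_⟩
    simp only [map_add, map_mul, map_pow, aeval_X, h, h', ext1, Option.elim]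
    ring
  | mul_X f j hf =>
    obtain ⟨M, G, h⟩ := hf
    refine ⟨M + v j, G * X (some j), fun L _ _ τ y => ?_⟩
    simp only [map_mul, aeval_X, h, ext1, Option.elim]
    ring

section
variable {K : Type u} [Field K]

theorem rk_base {E E' : Type u} [Field E] [Field E'] [Algebra E K] [Algebra E' K]
    (h : ∀ a : E, IsAlgebraic E' (algebraMap E K a)) (T : Set K) : rk E' T ≤ rk E T := by
  obtain ⟨B, hB⟩ := (AlgebraicIndependent.matroid E K).exists_isBasis T (Set.subset_univ _)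
  rw [rk, rk, hB.eRk_eq_encard]
  refine le_trans (rk_le_of_alg (s := B) fun y hy => ?_) (rk_le_encard B)
  obtain ⟨p, hp, hp'⟩ := Pt_mem_closure.1 (hB.subset_closure hy)
  have h1 : ∀ a ∈ Algebra.adjoin E B, IsAlgebraic (Algebra.adjoin E' B) a := fun a ha => by
    induction ha using Algebra.adjoin_induction with
    | mem x hx => exact isAlgebraic_algebraMap (⟨x, Algebra.subset_adjoin hx⟩ : Algebra.adjoin E' B)
    | algebraMap r => exact (h r).extendScalars (algebraMap E' _).injective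
    | add x y _ _ hx hy => exact hx.add hy
    | mul x y _ _ hx hy => exact hx.mul hy
  let A := Subalgebra.algebraicClosure (Algebra.adjoin E' B) K
  let ρ : Algebra.adjoin E B →+* A := (Algebra.adjoin E B).val.toRingHom.codRestrict A
    fun a => h1 a a.2
  have hρ : Function.Injective ρ := fun a b hab => Subtype.ext (congrArg (fun x : A => (x : K)) hab)
  have h2 : IsAlgebraic A y := ⟨p.map ρ, (Polynomial.map_ne_zero_iff hρ).2 hp, by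
    rw [Polynomial.aeval_def, Polynomial.eval₂_map]
    exact hp'⟩
  exact h2.restrictScalars _

variable [Algebra k K] {I J : Type}

/-- Uniqueness of the free compositum over an algebraically closed field. -/
theorem free_spc [IsAlgClosed k] [Finite I] [Finite J] {S : I → K} {T T' : J → K}
    (h : dm k S + dm k T ≤ dm k (Sum.elim S T)) (h' : Spc k T T') :
    Spc k (Sum.elim S T) (Sum.elim S T') := by
  classical
  let Λ : (K →ₗ[k] k) → MvPolynomial I K → MvPolynomial I k := fun φ G =>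
    ∑ μ ∈ G.support, monomial μ (φ (coeff μ G))
  have hΛ : ∀ φ G (s : I → k), aeval s (Λ φ G) = φ (eval (fun i => algebraMap k K (s i)) G) :=
    fun φ G s => by
      rw [eval_eq, map_sum, map_sum]
      refine Finset.sum_congr rfl fun μ _ => ?_
      simp only [← map_pow, ← map_prod]
      rw [mul_comm (coeff μ G), ← Algebra.smul_def, map_smul, smul_eq_mul, mul_comm, aeval_monomial]
      rfl
  let θ : (J → K) → MvPolynomial (I ⊕ J) k →ₐ[k] MvPolynomial I K := fun T =>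
    aeval (Sum.elim X fun j => C (T j))
  have hθ : ∀ T (s : I → K) G, eval s (θ T G) = aeval (Sum.elim s T) G := fun T s G =>
    DFunLike.congr_fun (algHom_ext (by rintro (i | j) <;> simp [θ]) :
      ((aeval s).restrictScalars k).comp (θ T) = aeval (Sum.elim s T)) G
  let 𝔟 : (J → K) → Ideal (MvPolynomial (I ⊕ J) k) := fun T =>
    ⨅ s : {s : I → k // Spc k S s}, Pt2_id k (Sum.elim (fun i => algebraMap k K (s.1 i)) T)
  have h1 : ∀ T, 𝔟 T ≤ Pt2_id k (Sum.elim S T) := fun T G hG => by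
    let b := Module.Basis.ofVectorSpace k K
    have h2 : ∀ α, aeval S (Λ (b.coord α) (θ T G)) = 0 := fun α => by
      by_contra h2
      obtain ⟨s, h3, h4⟩ := exists_rat (FG.of_finite S) h2
      rw [hΛ, hθ, Ideal.mem_iInf.1 hG ⟨s, h3⟩, map_zero] at h4
      exact h4 rfl
    rw [RingHom.mem_ker, ← hθ, eval_eq]
    let A := (θ T G).support.biUnion fun μ => (b.repr (coeff μ (θ T G))).support
    have h3 : ∀ μ ∈ (θ T G).support, coeff μ (θ T G) =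
        ∑ α ∈ A, b α * algebraMap k K (b.repr (coeff μ (θ T G)) α) := fun μ hμ => by
      conv_lhs => rw [← b.linearCombination_repr (coeff μ (θ T G)), Finsupp.linearCombination_apply,
        Finsupp.sum_of_support_subset _ (Finset.subset_biUnion_of_mem
          (fun μ => (b.repr (coeff μ (θ T G))).support) hμ) _ (by simp)]
      exact Finset.sum_congr rfl fun α _ => by rw [Algebra.smul_def, mul_comm]
    rw [Finset.sum_congr rfl fun μ hμ => by rw [h3 μ hμ, Finset.sum_mul], Finset.sum_comm]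
    refine Finset.sum_eq_zero fun α _ => ?_
    rw [← mul_zero (b α), ← h2 α, map_sum, Finset.mul_sum]
    exact Finset.sum_congr rfl fun μ _ => by rw [aeval_monomial, mul_assoc]; rfl
  have h2 : 𝔟 T ≤ 𝔟 T' := iInf_mono fun s G hG => by
    have h2 : ∀ T : J → K, aeval (Sum.elim (fun i => algebraMap k K (s.1 i)) T) G =
        aeval T (aeval (Sum.elim (fun i => C (s.1 i)) X : I ⊕ J → MvPolynomial J k) G) :=
      fun T => by
        rw [comp_aeval_apply]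
        congr 2
        ext (i | j) <;> simp
    rw [RingHom.mem_ker, h2] at hG ⊢
    exact h' _ hG
  have h3 : (𝔟 T).IsPrime := by
    obtain ⟨s₀, hs₀, -⟩ := exists_rat (k := k) (FG.of_finite S) (g := 1) (by simp)
    refine ⟨fun h3 => (Pt2_prime _).ne_top (top_le_iff.1 (h3.ge.trans (iInf_le _ ⟨s₀, hs₀⟩))),
      fun {G H} hGH => ?_⟩
    by_contra h3
    have key : ∀ G, G ∉ 𝔟 T → ∃ φ, aeval S (Λ φ (θ T G)) ≠ 0 := fun G hG => by
      obtain ⟨s, hs⟩ : ∃ s : {s : I → k // Spc k S s},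
        G ∉ Pt2_id k (Sum.elim (fun i => algebraMap k K (s.1 i)) T) := by
          simpa only [𝔟, Ideal.mem_iInf, not_forall] using hG
      obtain ⟨φ, hφ⟩ := Module.Projective.exists_dual_ne_zero k hs
      exact ⟨φ, fun h4 => hφ (by rw [← hθ, ← hΛ]; exact s.2 _ h4)⟩
    obtain ⟨φ, h4⟩ := key G fun h => h3 (.inl h)
    obtain ⟨φ', h5⟩ := key H fun h => h3 (.inr h)
    obtain ⟨s, h6, h7⟩ := exists_rat (k := k) (FG.of_finite S)
      (g := Λ φ (θ T G) * Λ φ' (θ T H)) (by rw [map_mul]; exact mul_ne_zero h4 h5)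
    rw [map_mul, hΛ, hΛ, hθ, hθ, mul_ne_zero_iff] at h7
    rcases (Pt2_prime _).mem_or_mem (Ideal.mem_iInf.1 hGH ⟨s, h6⟩) with h8 | h8
    · exact h7.1 (by rw [h8, map_zero])
    · exact h7.2 (by rw [h8, map_zero])
  refine le_trans (?_ : Pt2_id k (Sum.elim S T) ≤ 𝔟 T) (h2.trans (h1 T'))
  obtain ⟨L, _, _, _, c, hc⟩ := Pt2_pt (𝔟 T)
  rw [← hc]
  refine Spc.symm_of_dm (hc.le.trans (h1 T)) (FG.of_finite c) (le_trans ?_ h)
  have h4 : Spc k S (c ∘ Sum.inl) := fun G hG => by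
    rw [← aeval_rename]
    exact hc.ge (Ideal.mem_iInf.2 fun s => by
      rw [RingHom.mem_ker, aeval_rename]
      exact (s.2.trans (Spc.map s.1 (Algebra.ofId k K))) G hG)
  have h5 : Spc k T (c ∘ Sum.inr) := fun G hG => by
    rw [← aeval_rename]
    exact hc.ge (Ideal.mem_iInf.2 fun s => by
      rw [RingHom.mem_ker, aeval_rename]
      exact hG)
  refine le_trans ?_ (add_le_add h4.dm_le h5.dm_le)
  rw [dm, ← Sum.elim_comp_inl_inr c, Set.Sum.elim_range]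
  exact rk_union_le _ _

end

end GM
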