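import Pool.Agent.Work.MP_64a944_ag.G
import Pool.Agent.Work.MP_64a944_ag.H

/-!
# Curves through two general points
-/

namespace GM

open MvPolynomial PR0 PR0.Z

universe u

variable {k : Type u} [Field k] {K : Type u} [Field K] [Algebra k K] {ι κ : Type} {e : ℕ}
  {d : κ → ℕ} {F : κ → MvPolynomial ι k}

/-- The interior equations. -/
abbrev Row2 (d : κ → ℕ) (e : ℕ) : Type :=
  {r : Fin e × Σ l, Fin (d l) // ¬ ((r.1 : ℕ) + 1 = e ∧ (r.2.2 : ℕ) + 1 = d r.2.1)}

/-- Which coefficient. -/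
def rm2 (r : Row2 d e) : ℕ := r.1.1 * d r.1.2.1 + r.1.2.2 + 1

/-- The interior variables. -/
def col (c : ι × Fin e) : ι × Fin (e + 1 + 1) := (c.1, c.2.castSucc.succ)

theorem col_cases (c : ι × Fin (e + 1 + 1)) :
    c = (c.1, 0) ∨ c = (c.1, Fin.last _) ∨ ∃ c', c = col c' := by
  obtain ⟨i, j⟩ := c
  refine Fin.cases (.inl rfl) (fun j => .inr ?_) j
  exact Fin.lastCases (.inl rfl) (fun j => .inr ⟨(i, j), rfl⟩) j

variable [Fintype ι] [Fintype κ]

theorem sum_col {A : Type u} [CommRing A] {g : ι × Fin (e + 1 + 1) → A} (h : ∀ i, g (i, 0) = 0)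
    (h' : ∀ i, g (i, Fin.last _) = 0) : ∑ c, g c = ∑ c, g (col c) := by
  rw [Fintype.sum_prod_type, Fintype.sum_prod_type]
  refine Finset.sum_congr rfl fun i _ => ?_
  rw [Fin.sum_univ_succ, Fin.sum_univ_castSucc, h, Fin.succ_last, h', zero_add, add_zero]
  rfl

omit [Fintype ι] in
theorem Hyp.card_row2 (hF : Hyp F d) :
    Fintype.card (Row2 d (e + 1)) + Fintype.card κ = (e + 1) * ∑ l, d l := by
  have h1 : Fintype.card {r : Fin (e + 1) × Σ l, Fin (d l) //
      (r.1 : ℕ) + 1 = e + 1 ∧ (r.2.2 : ℕ) + 1 = d r.2.1} = Fintype.card κ :=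
    Fintype.card_congr
      { toFun := fun r => r.1.2.1
        invFun := fun l => ⟨(Fin.last e, ⟨l, d l - 1, Nat.sub_one_lt (hF.pos l)⟩), rfl,
          Nat.sub_one_add_one (hF.pos l)⟩
        left_inv := fun r => Subtype.ext (Prod.ext (Fin.ext (by have := r.2.1; simp; omega))
          (sigma_eq rfl (by have := r.2.2; simp; omega)))
        right_inv := fun _ => rfl }
  rw [Fintype.card_subtype_compl, ← h1, Nat.sub_add_cancel (Fintype.card_subtype_le _),
    Fintype.card_prod, card_rows, Fintype.card_fin]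

variable [CharZero k]

theorem Hyp.chain2 (hF : Hyp F d) (hD : Fintype.card κ + 3 ≤ ∑ l, d l)
    (hn : 4 * ∑ l, d l + 1 ≤ Fintype.card ι + 2 * Fintype.card κ) (he : e ≠ 0)
    {x : ι × Fin (e + 1 + 1) → K} (hx : ∀ q < e + 1, Ln F (toY x q) (toY x (q + 1)))
    (h : ¬ Ind fun (r : Row2 d (e + 1)) c => Jg (F r.1.2.1) 0 x r.1.1 (rm2 r) (col c)) :
    dm k x ≤ (Fintype.card ι - Fintype.card κ + (e + 1) * (Fintype.card ι - ∑ l, d l) - 2 : ℕ) := by
  classical
  simp only [Ind, not_forall] at h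
  obtain ⟨ν, h1, h2⟩ := h
  obtain ⟨r₀, h3⟩ := Function.ne_iff.1 h2
  let ν' : Fin (e + 1) × (Σ l, Fin (d l)) → K := fun r =>
    if h : ¬ ((r.1 : ℕ) + 1 = e + 1 ∧ (r.2.2 : ℕ) + 1 = d r.2.1) then ν ⟨r, h⟩ else 0
  have h4 : toN ν' r₀.1.1 r₀.1.2 ≠ 0 := by
    rw [toN, dif_pos r₀.1.1.2]
    exact (dif_pos r₀.2).trans_ne h3
  obtain ⟨j, hj, h5⟩ : ∃ j < e, Sum.elim (toN ν' j) (fun s => if s.2 + 1 = d s.1 then 0 else
      toN ν' (j + 1) s) ≠ 0 := by
    by_cases h5 : (r₀.1.1 : ℕ) < e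
    · exact ⟨_, h5, fun h6 => h4 (congrFun h6 (.inl _))⟩
    · have h6 := r₀.1.1.2
      refine ⟨e - 1, by omega, fun h7 => h4 ?_⟩
      have h8 := congrFun h7 (.inr r₀.1.2)
      rwa [Sum.elim_inr, if_neg fun h9 => r₀.2 ⟨by omega, h9⟩,
        show e - 1 + 1 = r₀.1.1 by omega] at h8
  have h6 := hF.triple (by omega) (hx j (by omega)) (hx (j + 1) (by omega)) h5
    (fun s hs => if_pos hs) fun i => by
      have h6 := h1 (i, ⟨j, hj⟩)
      have h7 := hF.vertex x ν' (j := j) (by omega) i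
      rw [← Finset.sum_subset (Finset.subset_univ (Finset.univ.filter fun r =>
        ¬ ((r.1 : ℕ) + 1 = e + 1 ∧ (r.2.2 : ℕ) + 1 = d r.2.1))) fun r _ hr => by
          rw [show ν' r = 0 from dif_neg (by simpa using hr), zero_mul],
        Finset.sum_subtype (p := fun r : Fin (e + 1) × (Σ l, Fin (d l)) =>
          ¬ ((r.1 : ℕ) + 1 = e + 1 ∧ (r.2.2 : ℕ) + 1 = d r.2.1)) _ (by simp)] at h7
      refine Eq.trans ?_ (h7.symm.trans (Eq.trans (Finset.sum_congr rfl fun r _ => ?_) h6))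
      · congr 1
        refine Finset.sum_congr rfl fun s _ => ?_
        rw [Sum.elim_inr]
        split_ifs with h8
        · rw [Polynomial.coeff_eq_zero_of_natDegree_lt ((top_coeff (hF.hom s.1).pderiv
            (ln_deg _ _)).1.trans_lt (by omega)), mul_zero, mul_zero]
        · rfl
      · rw [show ν' r = ν r from dif_pos r.2]
        rfl
  refine (dm_le_U x).trans (hF.chain (i := j) (j := j + 1 + 1) hD (by omega) hx (by omega)
    (by omega) (fun _ => (rk_mono ?_).trans h6) ?_)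
  · exact (U_right _ _ _).trans (Set.union_subset_union_left _ ((U_right _ _ _).trans
      (Set.union_subset_union_left _ (U_self _ _))))
  · rw [show j + 1 + 1 - j = 2 by omega]
    omega

theorem Hyp.sing2 (hF : Hyp F d) (hD : Fintype.card κ + 3 ≤ ∑ l, d l)
    (hn : 4 * ∑ l, d l + 1 ≤ Fintype.card ι + 2 * Fintype.card κ) (he : e ≠ 0)
    {x : ι × Fin (e + 1 + 1) → K} (hx : ∀ l, aeval (gp 1 x 0) (F l) = 0)
    (h : ¬ Ind fun (r : Row2 d (e + 1)) c => Jg (F r.1.2.1) 1 x 0 (rm2 r) (col c)) :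
    dm k x ≤ (Fintype.card ι - Fintype.card κ + (e + 1) * (Fintype.card ι - ∑ l, d l) - 2 : ℕ) := by
  obtain ⟨Ω, _, _, x', h1, h2, h3⟩ := hF.deg hx
  exact h1.trans (hF.chain2 hD hn he (fun q _ => hF.ln_of (h2 q)) fun h4 =>
    h (h3 _ _ (fun r : Row2 d (e + 1) => r.1.2.1) (fun r => r.1.1) rm2 col h4))

/-- The two end points of a general curve are independent general points. -/
theorem Hyp.ends (hF : Hyp F d) (hD : Fintype.card κ + 3 ≤ ∑ l, d l)
    (hn : 4 * ∑ l, d l + 1 ≤ Fintype.card ι + 2 * Fintype.card κ) (he : e ≠ 0)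
    {x : ι × Fin (e + 1 + 1) → K} (hx : ∀ l, aeval (gp 1 x 0) (F l) = 0)
    (hd : (Fintype.card ι - Fintype.card κ + (e + 1) * (Fintype.card ι - ∑ l, d l) : ℕ) ≤ dm k x) :
    (2 * (Fintype.card ι - Fintype.card κ) : ℕ) ≤
      rk k ((Set.range fun i => x (i, 0)) ∪ Set.range fun i => x (i, Fin.last _)) := by
  have h : Ind fun (r : Row2 d (e + 1)) c => Jg (F r.1.2.1) 1 x 0 (rm2 r) (col c) := by
    by_contra h
    have h1 := hd.trans (hF.sing2 hD hn he hx h)
    rw [Nat.cast_le] at h1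
    omega
  set S := (Set.range fun i => x (i, 0)) ∪ Set.range fun i => x (i, Fin.last _)
  have h1 := tan (k := k) S (x ∘ col) (LinearMap.ker (Matrix.of fun (r : Row2 d (e + 1)) c =>
    Jg (F r.1.2.1) 1 x 0 (rm2 r) (col c)).mulVecLin) fun D hD => funext fun r => by
      have h1 := der_gp D D.map_one_eq_zero x 0 (rm2 r) (F r.1.2.1)
      rw [hx, Polynomial.coeff_zero, map_zero, sum_col
        (fun i => by rw [hD _ (.inl ⟨i, rfl⟩), mul_zero])
        fun i => by rw [hD _ (.inr ⟨i, rfl⟩), mul_zero]] at h1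
      exact h1.symm
  have h2 := finrank_ker (Matrix.of fun (r : Row2 d (e + 1)) c =>
    Jg (F r.1.2.1) 1 x 0 (rm2 r) (col c))
  have h3 := hF.card_row2 (e := e)
  rw [h.rank, Fintype.card_prod, Fintype.card_fin] at h2
  have h4 := hd.trans ((rk_mono (t := S ∪ Set.range (x ∘ col)) (by
    rintro _ ⟨c, rfl⟩
    rcases col_cases c with h | h | ⟨c', h⟩ <;> rw [h]
    exacts [.inl (.inl ⟨_, rfl⟩), .inl (.inr ⟨_, rfl⟩), .inr ⟨_, rfl⟩])).trans h1)
  have h5 : (e + 1) * (Fintype.card ι - ∑ l, d l) + (e + 1) * ∑ l, d l =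
      Fintype.card ι * e + Fintype.card ι := by
    rw [← mul_add, Nat.sub_add_cancel (by omega)]
    ring
  refine (ENat.add_le_add_iff_right (ENat.natCast_ne_top _)).1 (le_trans ?_ h4)
  rw [← Nat.cast_add, Nat.cast_le]
  omega

section
variable {E : Type u} [Field E] [Algebra k E]

/-- The universal coefficients with fixed end points. -/
noncomputable def Yw (a b : ι → E) (c : ι × Fin (e + 1 + 1)) :
    MvPolynomial (Option (ι × Fin e)) E :=
  Fin.cases (C (a c.1)) (fun j => Fin.lastCases (C (b c.1)) (fun j => X (some (c.1, j))) j) c.2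

omit [Fintype ι] in
theorem Yw_zero (a b : ι → E) (i : ι) : Yw (e := e) a b (i, 0) = C (a i) := rfl

omit [Fintype ι] in
theorem Yw_last (a b : ι → E) (i : ι) : Yw (e := e) a b (i, Fin.last _) = C (b i) := by
  rw [← Fin.succ_last, Yw, Fin.cases_succ, Fin.lastCases_last]

omit [Fintype ι] in
theorem Yw_col (a b : ι → E) (c : ι × Fin e) : Yw a b (col c) = X (some c) := by
  rw [Yw, col, Fin.cases_succ, Fin.lastCases_castSucc]

variable (F) in
/-- The equations with fixed end points. -/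
noncomputable def Pw (a b : ι → E) (r : Row2 d (e + 1)) : MvPolynomial (Option (ι × Fin e)) E :=
  (aeval (gp (X none) (Yw a b) r.1.1) (F r.1.2.1)).coeff (rm2 r)

/-- The weights. -/
def ww (e : ℕ) : Option (ι × Fin e) → ℕ := fun o =>
  o.elim 1 fun c => ((col c).2 : ℕ) * (e + 1 - (col c).2)

omit [Fintype ι] in
theorem ww_ne (o : Option (ι × Fin e)) : ww e o ≠ 0 := by
  rcases o with _ | c
  · exact one_ne_zero
  · have := c.2.2
    exact mul_ne_zero (by simp [col]) (by simp [col]; omega)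

omit [Fintype ι] in
theorem Hyp.Pw_hom (hF : Hyp F d) (he : e ≠ 0) (a b : ι → E) (r : Row2 d (e + 1)) :
    ∃ δ, δ ≠ 0 ∧ (aeval (fun o => (X o ^ ww e o : MvPolynomial _ E)) (Pw F a b r)).IsHomogeneous δ := by
  have : CharZero E := charZero_of_injective_algebraMap (algebraMap k E).injective
  obtain ⟨⟨q, l, s⟩, hr⟩ := r
  have h1 := q.2
  have h2 := s.2
  refine ⟨(d l - (s + 1)) * (q * (e + 1 - q)) + (s + 1) * ((q + 1) * (e - q)), ?_,
    hom_of_scale ?_⟩
  · by_cases h : (q : ℕ) = e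
    · have h3 : (s : ℕ) + 1 ≠ d l := fun h3 => hr ⟨congrArg (· + 1) h, h3⟩
      exact (Nat.add_pos_left (Nat.mul_pos (by omega) (Nat.mul_pos (by omega) (by omega))) _).ne'
    · exact (Nat.add_pos_right _ (Nat.mul_pos (by omega) (Nat.mul_pos (by omega) (by omega)))).ne'
  let A := MvPolynomial (Option (ι × Fin e)) E
  let π : A →ₐ[k] A := (aeval fun o => (X o ^ ww e o : A)).restrictScalars k
  let χ : A →ₐ[k] A := (aeval fun o => (2 * X o : A)).restrictScalars k
  change χ (π (Pw F a b ⟨⟨q, l, s⟩, hr⟩)) = _ * π (Pw F a b ⟨⟨q, l, s⟩, hr⟩)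
  have h3 : (2 : A) * C 2⁻¹ = 1 := by
    rw [← map_ofNat C 2, ← map_mul, mul_inv_cancel₀ two_ne_zero, map_one]
  have h4 : χ (π (X none)) = 2 * π (X none) := by simp [χ, π, A, ww]
  have h5 : (fun c => χ (π (Yw a b c))) =
      fun c => 2 ^ ((c.2 : ℕ) * (e + 1 - c.2)) * π (Yw a b c) := by
    funext c
    rcases col_cases c with h | h | ⟨c', h⟩ <;> rw [h]
    · simp [χ, π, A, Yw_zero]
    · simp [χ, π, A, Yw_last]
    · simp [χ, π, A, Yw_col, ww, mul_pow]
  rw [Pw, gp_coeff π, gp_coeff χ, h4, h5, gp_scale h3 _ _ _ (hF.hom _), ← map_pow,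
    Polynomial.coeff_C_mul, Polynomial.comp_C_mul_X_coeff, mul_left_comm, mul_comm]
  congr 1
  have h6 : (d l - (s + 1)) * (q * (e + 1 - q)) + (s + 1) * ((q + 1) * (e - q)) +
      (2 * q + 1) * (q * d l + s + 1) = q * (q + 1) * d l + (e + 1) * (q * d l + s + 1) := by
    zify [Nat.succ_le_of_lt h2, h1.le, Nat.le_of_lt_succ h1]
    ring
  rw [mul_pow, ← pow_mul, ← pow_mul, ← pow_mul, ← mul_assoc, ← pow_add]
  refine Eq.trans (congrArg (fun n => (2 : A) ^ n * _) h6.symm) ?_
  simp only [rm2]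
  rw [pow_add, mul_assoc, ← mul_pow, h3, one_pow, mul_one]

variable {L : Type u} [Field L] [Algebra k L] [Algebra E L] [IsScalarTower k E L]

omit [Fintype ι] [Fintype κ] [CharZero k] in
theorem aeval_Pw (a b : ι → E) (z : Option (ι × Fin e) → L) (r : Row2 d (e + 1)) :
    aeval z (Pw F a b r) =
      (aeval (gp (z none) (fun c => aeval z (Yw a b c)) r.1.1) (F r.1.2.1)).coeff (rm2 r) := by
  have := gp_coeff ((aeval z).restrictScalars k) (X none) (Yw a b) r.1.1 (F r.1.2.1) (rm2 r)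
  simpa only [AlgHom.restrictScalars_apply, aeval_X, Pw] using this

omit [Fintype κ] [CharZero k] in
theorem pderiv_Pw (a b : ι → E) (z : Option (ι × Fin e) → L) (r : Row2 d (e + 1))
    (c : ι × Fin e) : aeval z (pderiv (some c) (Pw F a b r)) =
      Jg (F r.1.2.1) (z none) (fun c => aeval z (Yw a b c)) r.1.1 (rm2 r) (col c) := by
  classical
  have h1 := der_gp ((pderiv (some c)).restrictScalars k) (τ := X none)
    (pderiv_X_of_ne (by simp)) (Yw a b) r.1.1 (rm2 r) (F r.1.2.1)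
  rw [sum_col (fun i => by simp [Yw_zero]) (fun i => by simp [Yw_last]),
    Finset.sum_eq_single c (fun c' _ h => by simp [Yw_col, h]) (by simp)] at h1
  have h2 := Jg_map ((aeval z).restrictScalars k) (F r.1.2.1) (X none) (Yw a b) r.1.1 (rm2 r)
    (col c)
  simp only [AlgHom.restrictScalars_apply, aeval_X] at h2
  rw [← h2]
  simpa [Yw_col, Pw] using congrArg (aeval z) h1

omit [Fintype ι] [Fintype κ] [CharZero k] in
theorem rk_tower (S : Set E) (T : Set L) :
    rk k S + rk E T ≤ rk k (algebraMap E L '' S ∪ T) := by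
  rw [rk_union]
  refine add_le_add (rk_image (IsScalarTower.toAlgHom k E L) S).ge (rk_base (fun y => ?_) T)
  have h : IntermediateField.adjoin k (algebraMap E L '' S) ≤
      (IsScalarTower.toAlgHom k E L).fieldRange :=
    IntermediateField.adjoin_le_iff.2 (Set.image_subset_range _ _)
  obtain ⟨x, hx⟩ := h y.2
  exact (show algebraMap E L x = algebraMap _ L y from hx) ▸ isAlgebraic_algebraMap x

omit [Fintype ι] [Fintype κ] [CharZero k] in
theorem alg_aev (a : ι → E) (G : MvPolynomial ι k) :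
    aeval (fun i => algebraMap E L (a i)) G = algebraMap E L (aeval a G) :=
  (comp_aeval_apply a (IsScalarTower.toAlgHom k E L) G).symm

omit [Algebra E L] [IsScalarTower k E L] in
theorem Hyp.singw (hF : Hyp F d) (hD : Fintype.card κ + 3 ≤ ∑ l, d l)
    (hn : 4 * ∑ l, d l + 1 ≤ Fintype.card ι + 2 * Fintype.card κ) (he : e ≠ 0) {τ : L}
    {x : ι × Fin (e + 1 + 1) → L} (h0 : ∀ l, aeval (fun i => x (i, 0)) (F l) = 0)
    (h1 : ∀ l, aeval (fun i => x (i, Fin.last _)) (F l) = 0)
    (hz : ∀ r : Row2 d (e + 1), (aeval (gp τ x r.1.1) (F r.1.2.1)).coeff (rm2 r) = 0)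
    (h : ¬ Ind fun (r : Row2 d (e + 1)) c => Jg (F r.1.2.1) τ x r.1.1 (rm2 r) (col c)) :
    rk k (insert τ (Set.range x)) ≤ (Fintype.card ι - Fintype.card κ +
      (e + 1) * (Fintype.card ι - ∑ l, d l) - 2 : ℕ) + 1 := by
  by_cases hτ : τ = 0
  · subst hτ
    refine (rk_insert_le _ _).trans (add_le_add_left (hF.chain2 hD hn he ?_ h) _)
    have h2 : ∀ q < e + 1, (∀ l, aeval (toY x q) (F l) = 0) → Ln F (toY x q) (toY x (q + 1)) := by
      intro q hq h2 l
      have h3 := top_coeff (hF.hom l) (ln_deg (toY x q) (toY x (q + 1)))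
      rw [mul_one] at h3
      ext (_ | m)
      · simpa [Polynomial.coeff_zero_eq_eval_zero, eval_aev, ln] using h2 l
      by_cases hm : m < d l
      · by_cases h4 : q + 1 = e + 1 ∧ m + 1 = d l
        · have h5 : toY x (q + 1) = fun i => x (i, Fin.last _) := by
            rw [h4.1]
            exact funext fun i => dif_pos (Nat.lt_succ_self _)
          rw [h4.2, h3.2]
          simpa [ln, Polynomial.coeff_C, h5] using h1 l
        · have h5 := hz ⟨(⟨q, hq⟩, ⟨l, m, hm⟩), h4⟩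
          simp only [rm2] at h5
          rwa [gp_zero, aeval_smul' (hF.hom l), ← pow_mul, add_assoc, add_comm (q * d l),
            Polynomial.coeff_X_pow_mul] at h5
      · exact Polynomial.coeff_eq_zero_of_natDegree_lt (h3.1.trans_lt (by omega))
    intro q
    induction q with
    | zero => exact fun hq => h2 0 hq h0
    | succ q ih => exact fun hq => h2 _ hq (hF.snd (ih (by omega)))
  let y : ι × Fin (e + 1 + 1) → L := fun c => x c / τ ^ ((c.2 : ℕ) * (e + 1 - c.2))
  have hy : x = fun c => τ ^ ((c.2 : ℕ) * (e + 1 - c.2)) * y c := funext fun c =>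
    (mul_div_cancel₀ _ (pow_ne_zero _ hτ)).symm
  have h2 := mul_inv_cancel₀ hτ
  have h3 : ∀ l, aeval (gp 1 y 0) (F l) = 0 := hF.zero_iff.1 fun r => by
    rw [aeval_Pe]
    rcases r with l | r
    · refine (Polynomial.coeff_zero_eq_eval_zero _).trans ((eval_aev _ _ _).trans
        (Eq.trans ?_ (h0 l)))
      congr 2
      funext i
      rw [← Polynomial.coeff_zero_eq_eval_zero]
      simpa [y] using coeff_gp y i 0
    by_cases h4 : (r.1 : ℕ) + 1 = e + 1 ∧ (r.2.2 : ℕ) + 1 = d r.2.1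
    · have h5 : rm (.inr r) = d r.2.1 * (e + 1) := by
        simp only [rm, Sum.elim_inr]
        rw [add_assoc, h4.2, show (r.1 : ℕ) = e from Nat.succ_injective h4.1]
        ring
      rw [h5]
      refine (top_coeff (hF.hom _) (gp_deg 1 y 0)).2.trans (Eq.trans ?_ (h1 r.2.1))
      congr 2
      funext i
      simpa [y] using coeff_gp y i (Fin.last _)
    · have h5 := hz ⟨r, h4⟩
      have h6 := gp_scale h2 1 y r.1 (hF.hom r.2.1)
      rw [mul_one, ← hy] at h6
      rw [h6, ← map_pow, Polynomial.coeff_C_mul, Polynomial.comp_C_mul_X_coeff, gp_one] at h5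
      have h7 : (aeval (gp 1 y 0) (F r.2.1)).coeff (rm2 ⟨r, h4⟩) = 0 := by simpa [hτ] using h5
      exact h7
  have h4 := hF.sing2 hD hn he h3 fun h4 => h (h4.scale
    (a := fun r => ((τ ^ ((r.1.1 : ℕ) * (r.1.1 + 1))) ^ (d r.1.2.1 - 1 + 1) *
      (τ ^ (e + 1) * τ⁻¹ ^ (2 * (r.1.1 : ℕ) + 1)) ^ rm2 r)⁻¹)
    (b := fun c => (τ ^ (((col c).2 : ℕ) * (e + 1 - (col c).2)))⁻¹) (fun r => by simp [hτ])
    (fun c => by simp [hτ]) fun r c => by
      have h5 := Jg_scale h2 1 y r.1.1 (rm2 r) (hF.hom r.1.2.1) (col c)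
      rw [mul_one, ← hy, Jg_one] at h5
      rw [eq_inv_mul_iff_mul_eq₀ (by simp [hτ]), ← mul_assoc, ← h5,
        mul_inv_cancel_right₀ (pow_ne_zero _ hτ)])
  refine (rk_le_of_mem ?_).trans ((rk_insert_le _ τ).trans (add_le_add_left h4 _))
  have h5 : τ ∈ IntermediateField.adjoin k (insert τ (Set.range y)) :=
    IntermediateField.subset_adjoin _ _ (Set.mem_insert _ _)
  rintro _ (rfl | ⟨c, rfl⟩)
  · exact h5
  · rw [hy]
    exact mul_mem (pow_mem h5 _) (IntermediateField.subset_adjoin _ _ (.inr ⟨c, rfl⟩))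

omit [Fintype ι] [Fintype κ] [CharZero k] [Algebra k E] [Algebra k L] [IsScalarTower k E L] in
theorem aeval_Yw {a b : ι → E} {x : ι × Fin (e + 1 + 1) → L}
    (h0 : ∀ i, x (i, 0) = algebraMap E L (a i)) (h1 : ∀ i, x (i, Fin.last _) = algebraMap E L (b i))
    (τ : L) : (fun c => aeval (ext1 τ fun c => τ ^ ww e (some c) * x (col c)) (Yw a b c)) =
      fun c => τ ^ ((c.2 : ℕ) * (e + 1 - c.2)) * x c := by
  funext c
  rcases col_cases c with h | h | ⟨c', h⟩ <;> rw [h]
  · simp [Yw_zero, h0]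
  · simp [Yw_last, h1]
  · simp [Yw_col, ext1, ww]

/-- The curves through two general points form a geometrically irreducible family. -/
theorem Hyp.two [IsAlgClosed E] (hF : Hyp F d) (hD : Fintype.card κ + 3 ≤ ∑ l, d l)
    (hn : 4 * ∑ l, d l + 1 ≤ Fintype.card ι + 2 * Fintype.card κ) (he : e ≠ 0) {a b : ι → E}
    (ha : ∀ l, aeval a (F l) = 0) (hb : ∀ l, aeval b (F l) = 0)
    (hab : (2 * (Fintype.card ι - Fintype.card κ) : ℕ) ≤ rk k (Set.range a ∪ Set.range b))
    {x y : ι × Fin (e + 1 + 1) → L} (hx : ∀ l, aeval (gp 1 x 0) (F l) = 0)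
    (hx0 : ∀ i, x (i, 0) = algebraMap E L (a i))
    (hx1 : ∀ i, x (i, Fin.last _) = algebraMap E L (b i)) (hy : ∀ l, aeval (gp 1 y 0) (F l) = 0)
    (hy0 : ∀ i, y (i, 0) = algebraMap E L (a i))
    (hy1 : ∀ i, y (i, Fin.last _) = algebraMap E L (b i))
    (hd : (Fintype.card ι - Fintype.card κ + (e + 1) * (Fintype.card ι - ∑ l, d l) : ℕ) ≤
      (2 * (Fintype.card ι - Fintype.card κ) : ℕ) + dm E (x ∘ col)) :
    Spc E (x ∘ col) (y ∘ col) := by
  have : CharZero E := charZero_of_injective_algebraMap (algebraMap k E).injective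
  obtain ⟨L', _, _, _, _, -, t, ht⟩ := exists_generic (k := E) L Unit
  have hτ : Transcendental L (t ()) := ht.transcendental ()
  generalize t () = τ at hτ
  have h0 : τ ≠ 0 := fun h => hτ (h ▸ isAlgebraic_zero)
  let _ : Algebra k L' := ((algebraMap E L').comp (algebraMap k E)).toAlgebra
  have : IsScalarTower k E L' := .of_algebraMap_eq fun _ => rfl
  let ψ := IsScalarTower.toAlgHom E L L'
  choose δ hδ hP using hF.Pw_hom he a b
  have h1 := hF.card_row2 (e := e)
  have h2 : (e + 1) * (Fintype.card ι - ∑ l, d l) + (e + 1) * ∑ l, d l =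
      Fintype.card ι * e + Fintype.card ι := by
    rw [← mul_add, Nat.sub_add_cancel (by omega)]
    ring
  have h3 : 2 * (Fintype.card ι - ∑ l, d l) ≤ (e + 1) * (Fintype.card ι - ∑ l, d l) :=
    Nat.mul_le_mul_right _ (by omega)
  have h4 := ciw (μ := Fintype.card ι - Fintype.card κ + (e + 1) * (Fintype.card ι - ∑ l, d l) -
      2 * (Fintype.card ι - Fintype.card κ) - 1) ww_ne hδ hP
    (by rw [Fintype.card_option, Fintype.card_prod, Fintype.card_fin]; omega)
    (fun M _ _ z hz h => by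
      let _ : Algebra k M := ((algebraMap E M).comp (algebraMap k E)).toAlgebra
      have : IsScalarTower k E M := .of_algebraMap_eq fun _ => rfl
      have h4 := hF.singw hD hn he (τ := z none) (x := fun c => aeval z (Yw a b c))
        (fun l => by simp [Yw_zero, alg_aev, ha]) (fun l => by simp [Yw_last, alg_aev, hb])
        (fun r => by rw [← aeval_Pw, hz]) fun h4 => h fun μ hμ =>
          h4 μ fun c => by simpa only [pderiv_Pw] using hμ (some c)
      have h5 := ((add_le_add_left hab _).trans (rk_tower _ (Set.range z))).trans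
        ((rk_mono ?_).trans h4)
      · refine (ENat.add_le_add_iff_left (ENat.natCast_ne_top _)).1 (h5.trans ?_)
        rw [← Nat.cast_add_one, ← Nat.cast_add, Nat.cast_le]
        omega
      · rintro _ (⟨_, ⟨i, rfl⟩ | ⟨i, rfl⟩, rfl⟩ | ⟨_ | c, rfl⟩)
        exacts [.inr ⟨(i, 0), by simp [Yw_zero]⟩, .inr ⟨(i, Fin.last _), by simp [Yw_last]⟩,
          .inl rfl, .inr ⟨col c, by simp [Yw_col]⟩])
    (x := ext1 τ fun c => τ ^ ww e (some c) * ψ (x (col c)))
    (y := ext1 1 fun c => 1 ^ ww e (some c) * y (col c)) (fun r => by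
      have h4 := gp_map (ψ.restrictScalars k) 1 x 0 (F r.1.2.1)
      rw [hx, map_one, Polynomial.map_zero] at h4
      rw [aeval_Pw, aeval_Yw (x := fun c => ψ (x c)) (fun i => by rw [hx0, ψ.commutes])
        (fun i => by rw [hx1, ψ.commutes])]
      refine (congrArg (Polynomial.coeff · _) ((congrArg (fun s => aeval (gp s _ _) _)
        (mul_one τ).symm).trans (gp_scale (mul_inv_cancel₀ h0) 1 _ _ (hF.hom _)))).trans ?_
      rw [gp_one]
      exact (congrArg (fun p => (_ * Polynomial.comp p _).coeff _) h4.symm).trans (by simp))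
    (by
      have h9 : Transcendental (Algebra.adjoin E (ψ '' Set.range (x ∘ col))) τ := by
        have h10 : Transcendental ψ.range τ := fun h => hτ (h.of_ringHom_of_comp_eq
          (AlgEquiv.ofInjective ψ ψ.injective).toRingEquiv.toRingHom (RingHom.id _)
          (AlgEquiv.ofInjective ψ ψ.injective).surjective Function.injective_id rfl)
        refine fun h => h10 (h.tower_top_of_subalgebra_le (Algebra.adjoin_le ?_))
        rintro _ ⟨x, -, rfl⟩
        exact ⟨x, rfl⟩
      refine le_trans ?_ ((rk_insert h9).ge.trans (rk_le_of_mem ?_))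
      · rw [rk_image]
        refine (ENat.add_le_add_iff_left (ENat.natCast_ne_top
          (2 * (Fintype.card ι - Fintype.card κ)))).1 ?_
        rw [← add_assoc]
        refine le_trans ?_ (add_le_add_left hd 1)
        rw [← Nat.cast_add_one, ← Nat.cast_add, Nat.cast_le]
        omega
      · have h10 : τ ∈ IntermediateField.adjoin E (Set.range
            (ext1 τ fun c => τ ^ ww e (some c) * ψ (x (col c)))) :=
          IntermediateField.subset_adjoin _ _ ⟨none, rfl⟩
        rintro _ (rfl | ⟨_, ⟨c, rfl⟩, rfl⟩)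
        · exact h10
        · have h11 := div_mem (IntermediateField.subset_adjoin E (Set.range
            (ext1 τ fun c => τ ^ ww e (some c) * ψ (x (col c)))) ⟨some c, rfl⟩)
            (pow_mem h10 (ww e (some c)))
          exact (mul_div_cancel_left₀ (ψ (x (col c))) (pow_ne_zero (ww e (some c)) h0)) ▸ h11)
    fun r => by
      rw [aeval_Pw, aeval_Yw hy0 hy1]
      simp [ext1, gp_one y r.1.1, hy]
  intro g hg
  obtain ⟨M, G, hG⟩ := hom_ex (fun c => ww e (some c)) g
  have h5 := h4 G ((hG L' τ fun c => ψ (x (col c))).trans (mul_eq_zero_of_right _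
    ((comp_aeval_apply (x ∘ col) ψ g).symm.trans (by rw [hg, map_zero]))))
  rwa [hG L 1 fun c => y (col c), one_pow, one_mul] at h5

end

end GM
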