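import Pool.Agent.Work.MP_64a944_ag.I

/-!
# Values of rational functions, conjugates, and monodromy on the fibres over the end points
-/

namespace GM

open MvPolynomial PR0 PR0.Z

universe u

variable {k : Type u} [Field k] {Ω M : Type u} [Field Ω] [Field M] [Algebra Ω M] {I : Type}
  {t x y : M} {a b : Ω}

/-- `a` is the value at `t = 0` of the rational function `x` of `t`. -/
def Vl (t x : M) (a : Ω) : Prop := ∃ A B : Polynomial Ω, B.coeff 0 ≠ 0 ∧
  x * Polynomial.aeval t B = Polynomial.aeval t A ∧ a * B.coeff 0 = A.coeff 0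

theorem Vl.add (h : Vl t x a) (h' : Vl t y b) : Vl t (x + y) (a + b) := by
  obtain ⟨A, B, h1, h2, h3⟩ := h
  obtain ⟨A', B', h4, h5, h6⟩ := h'
  refine ⟨A * B' + A' * B, B * B', by simp [h1, h4], ?_, ?_⟩
  · simp only [map_mul, map_add, ← h2, ← h5]
    ring
  · simp only [Polynomial.mul_coeff_zero, Polynomial.coeff_add, ← h3, ← h6]
    ring

theorem Vl.mul (h : Vl t x a) (h' : Vl t y b) : Vl t (x * y) (a * b) := by
  obtain ⟨A, B, h1, h2, h3⟩ := h
  obtain ⟨A', B', h4, h5, h6⟩ := h'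
  refine ⟨A * A', B * B', by simp [h1, h4], ?_, ?_⟩
  · simp only [map_mul, ← h2, ← h5]
    ring
  · simp only [Polynomial.mul_coeff_zero, ← h3, ← h6]
    ring

theorem Vl.const (t : M) (c : Ω) : Vl t (algebraMap Ω M c) c :=
  ⟨Polynomial.C c, 1, by simp, by simp, by simp⟩

theorem Vl.sub (h : Vl t x a) (h' : Vl t y b) : Vl t (x - y) (a - b) := by
  simpa [sub_eq_add_neg] using h.add ((Vl.const t (-1)).mul h')

theorem Vl.zero (ht : Transcendental Ω t) (h : Vl t 0 a) : a = 0 := by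
  obtain ⟨A, B, h1, h2, h3⟩ := h
  rw [zero_mul] at h2
  rw [transcendental_iff.1 ht A h2.symm] at h3
  simpa [h1] using h3

theorem Vl.div (ht : Transcendental Ω t) (A : Polynomial Ω) {B : Polynomial Ω}
    (h : B.coeff 0 ≠ 0) :
    Vl t (Polynomial.aeval t A / Polynomial.aeval t B) (A.coeff 0 / B.coeff 0) :=
  ⟨A, B, h, div_mul_cancel₀ _ fun h' => h (by simp [transcendental_iff.1 ht B h']),
    div_mul_cancel₀ _ h⟩

theorem Vl.val (ht : Transcendental Ω t) (hx : x ∈ IntermediateField.adjoin Ω {t}) :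
    (∃ a : Ω, Vl t x a) ∨ Vl t x⁻¹ (0 : Ω) := by
  obtain ⟨r, s, rfl⟩ := (IntermediateField.mem_adjoin_simple_iff _ _).1 hx
  clear hx
  have h0 : t ≠ 0 := fun h => ht (h ▸ isAlgebraic_zero)
  induction hn : s.natDegree using Nat.strong_induction_on generalizing r s with
  | _ n ih =>
  by_cases h1 : s.coeff 0 = 0
  · by_cases h2 : r.coeff 0 = 0
    · by_cases h3 : s = 0
      · exact .inl ⟨0, by simpa [h3] using Vl.const t (0 : Ω)⟩
      obtain ⟨r, rfl⟩ := Polynomial.X_dvd_iff.2 h2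
      obtain ⟨s, rfl⟩ := Polynomial.X_dvd_iff.2 h1
      rw [map_mul, map_mul, Polynomial.aeval_X, mul_div_mul_left _ _ h0]
      refine ih _ ?_ r s rfl
      rw [← hn, Polynomial.natDegree_X_mul (right_ne_zero_of_mul h3)]
      omega
    · exact .inr (by simpa [h1] using Vl.div ht s h2)
  · exact .inl ⟨_, Vl.div ht r h1⟩

theorem Vl.map {Ω' M' : Type u} [Field Ω'] [Field M'] [Algebra Ω' M'] {φ : Ω →+* Ω'}
    {Φ : M →+* M'} (hφ : (algebraMap Ω' M').comp φ = Φ.comp (algebraMap Ω M)) (h : Vl t x a) :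
    Vl (Φ t) (Φ x) (φ a) := by
  obtain ⟨A, B, h1, h2, h3⟩ := h
  refine ⟨A.map φ, B.map φ, by simpa using h1, ?_, ?_⟩
  · rw [← Polynomial.map_aeval_eq_aeval_map hφ, ← Polynomial.map_aeval_eq_aeval_map hφ, ← map_mul,
      h2]
  · rw [Polynomial.coeff_map, Polynomial.coeff_map, ← map_mul, h3]

theorem Vl.top (ht : Transcendental Ω t) {n : ℕ} {A B : Polynomial Ω} (hA : A.natDegree ≤ n)
    (hB : B.natDegree ≤ n) (h : B.coeff n ≠ 0) :
    Vl t⁻¹ (Polynomial.aeval t A / Polynomial.aeval t B) (A.coeff n / B.coeff n) := by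
  have h0 : t ≠ 0 := fun h => ht (h ▸ isAlgebraic_zero)
  let _ := invertibleOfNonzero h0
  have h1 := Vl.div (t := t⁻¹) (fun h => ht (IsAlgebraic.inv_iff.1 h)) (A.reflect n)
    (B := B.reflect n) (by simpa using h)
  have h2 := Polynomial.eval₂_reflect_mul_pow (algebraMap Ω M) t n
  rw [invOf_eq_inv] at h2
  simp only [Polynomial.aeval_def] at h1 ⊢
  rw [← h2 A hA, ← h2 B hB, mul_div_mul_right _ _ (pow_ne_zero _ h0)]
  simpa using h1

section

variable [Algebra k Ω] [Algebra k M] [IsScalarTower k Ω M] {w : I → M} {u : I → Ω}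

theorem Vl.aev (h : ∀ i, Vl t (w i) (u i)) (g : MvPolynomial I k) :
    Vl t (aeval w g) (aeval u g) := by
  induction g using MvPolynomial.induction_on with
  | C c =>
    rw [aeval_C, aeval_C, IsScalarTower.algebraMap_apply k Ω M]
    exact Vl.const t _
  | add p q hp hq => simpa only [map_add] using hp.add hq
  | mul_X p i hp => simpa only [map_mul, aeval_X] using hp.mul (h i)

theorem Vl.spc (ht : Transcendental Ω t) (h : ∀ i, Vl t (w i) (u i)) : Spc k w u :=
  fun g hg => Vl.zero ht (hg ▸ Vl.aev h g)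

omit [Algebra Ω M] [Algebra k Ω] [IsScalarTower k Ω M] in
theorem dm_ext1 (hx : IsAlgebraic (Algebra.adjoin k (Set.range w)) x) :
    dm k (ext1 x w) = dm k w := by
  refine le_antisymm (rk_le_of_alg ?_) (rk_mono (Set.range_comp_subset_range some (ext1 x w)))
  rintro _ ⟨_ | i, rfl⟩
  exacts [hx, isAlgebraic_algebraMap (⟨w i, Algebra.subset_adjoin ⟨i, rfl⟩⟩ :
    Algebra.adjoin k (Set.range w))]

variable [Finite I]

theorem Vl.alg (ht : Transcendental Ω t) (h : ∀ i, Vl t (w i) (u i)) (h' : dm k w ≤ dm k u)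
    (hx : IsAlgebraic (Algebra.adjoin k (Set.range w)) x) (ha : Vl t x a) :
    Spc k (ext1 x w) (ext1 a u) ∧ Spc k (ext1 a u) (ext1 x w) := by
  have h1 : Spc k (ext1 x w) (ext1 a u) := Vl.spc ht fun o => by
    rcases o with _ | i
    exacts [ha, h i]
  exact ⟨h1, h1.symm_of_dm (.of_finite _) ((dm_ext1 hx).trans_le (h'.trans
    (rk_mono (Set.range_comp_subset_range some (ext1 a u)))))⟩

theorem Vl.inj (ht : Transcendental Ω t) (h : ∀ i, Vl t (w i) (u i)) (h' : dm k w ≤ dm k u)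
    (hx : IsAlgebraic (Algebra.adjoin k (Set.range w)) x) (ha : Vl t x (0 : Ω)) : x = 0 := by
  simpa [ext1] using (Vl.alg ht h h' hx ha).2 (X none) (by simp [ext1])

theorem Vl.ex (ht : Transcendental Ω t) (h : ∀ i, Vl t (w i) (u i)) (h' : dm k w ≤ dm k u)
    (hx : IsAlgebraic (Algebra.adjoin k (Set.range w)) x)
    (hx' : x ∈ IntermediateField.adjoin Ω {t}) : ∃ a : Ω, Vl t x a := by
  refine (Vl.val ht hx').elim id fun h1 => ⟨0, ?_⟩
  rw [inv_eq_zero.1 (Vl.inj ht h h' (IsAlgebraic.inv_iff.2 hx) h1)]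
  simpa using Vl.const t (0 : Ω)

end

variable {K K' : Type u} [Field K] [Field K'] [Algebra k K] [Algebra k K'] {J : Type}

theorem chart [Fintype I] {x : I → K} {y : I → K'} (h : Spc k x y) {i₀ : I} (hy : y i₀ = 1) :
    x i₀ ≠ 0 ∧ Spc k (fun i => x i / x i₀) y := by
  have h0 : x i₀ ≠ 0 := fun h0 => by simpa [hy] using h (X i₀) (by simpa using h0)
  refine ⟨h0, fun g hg => ?_⟩
  obtain ⟨m, G, hG⟩ := hom_ex (fun _ => 1) g
  have h1 := h.aeval (fun o : Option I => X (o.getD i₀)) G (by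
    have h1 := hG K (x i₀) fun i => x i / x i₀
    rw [hg, mul_zero] at h1
    refine Eq.trans (congrArg (aeval · G) (funext fun o => ?_)) h1
    rcases o with _ | i <;> simp [ext1, mul_div_cancel₀ _ h0])
  have h2 := hG K' 1 y
  rw [one_pow m, one_mul] at h2
  refine h2.symm.trans (Eq.trans (congrArg (aeval · G) (funext fun o => ?_)) h1)
  rcases o with _ | i <;> simp [ext1, hy]

theorem exists_conj [CharZero k] [IsAlgClosed K] {u : I → K} {a : K}
    (ha : IsAlgebraic (Algebra.adjoin k (Set.range u)) a)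
    (h : a ∉ IntermediateField.adjoin k (Set.range u)) :
    ∃ a', a ≠ a' ∧ Spc k (ext1 a u) (ext1 a' u) := by
  let E := IntermediateField.adjoin k (Set.range u)
  have : CharZero E := charZero_of_injective_algebraMap (algebraMap k E).injective
  have h1 : IsIntegral E a := (ha.tower_top_of_subalgebra_le (B := E.toSubalgebra)
    (IntermediateField.algebra_adjoin_le_adjoin _ _)).isIntegral
  obtain ⟨a', h2, h3⟩ := (notMem_iff_exists_ne_and_isConjRoot (K := E) (x := a)
    (minpoly.irreducible h1).separable (IsAlgClosed.splits _)).1 fun h2 => by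
      obtain ⟨z, rfl⟩ := Algebra.mem_bot.1 h2
      exact h z.2
  refine ⟨a', h2, fun g hg => ?_⟩
  let p : Option I → Polynomial E := fun o => o.elim Polynomial.X fun i =>
    Polynomial.C ⟨u i, IntermediateField.subset_adjoin _ _ ⟨i, rfl⟩⟩
  have h4 : ∀ z : K, Polynomial.aeval z (aeval p g) = aeval (ext1 z u) g := fun z =>
    (comp_aeval_apply p ((Polynomial.aeval z).restrictScalars k) g).trans
      (congrArg (aeval · g) (funext fun o => by rcases o with _ | i <;> simp [p, ext1]))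
  rw [← h4] at hg ⊢
  exact Polynomial.aeval_eq_zero_of_dvd_aeval_eq_zero (minpoly.dvd _ _ hg) h3.aeval_eq_zero

theorem spc_base {E : Type u} [Field E] [Algebra k E] [Algebra E K] [IsScalarTower k E K]
    {x y : I → K} (h : Spc E x y) (s : J → E) :
    Spc k (Sum.elim x fun j => algebraMap E K (s j)) (Sum.elim y fun j => algebraMap E K (s j)) := by
  intro g hg
  let p : I ⊕ J → MvPolynomial I E := Sum.elim X fun j => C (s j)
  have h4 : ∀ z : I → K, aeval z (aeval p g) =
      aeval (Sum.elim z fun j => algebraMap E K (s j)) g := fun z =>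
    (comp_aeval_apply p ((aeval z).restrictScalars k) g).trans
      (congrArg (aeval · g) (funext fun o => by rcases o with i | i <;> simp [p]))
  rw [← h4] at hg ⊢
  exact h _ hg

variable {ι κ : Type} [Fintype ι] [Fintype κ] [CharZero k] {F : κ → MvPolynomial ι k} {d : κ → ℕ}

theorem Hyp.dm_chart (hF : Hyp F d) {u : ι → K} (hu : ∀ l, aeval u (F l) = 0) {i₀ : ι}
    (h : u i₀ = 1) : dm k u + (Fintype.card κ + 1 : ℕ) ≤ Fintype.card ι := by
  classical
  rw [← Fintype.card_option]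
  refine dm_le_of_ind (P := fun o : Option κ => o.elim (X i₀ - 1) F) (fun o => ?_) fun μ hμ => ?_
  · rcases o with _ | l <;> simp [h, hu]
  have h1 : ∀ l, ∑ i, u i * aeval u (pderiv i (F l)) = 0 := fun l => by
    simpa [hu] using congrArg (aeval u) (hF.hom l).sum_X_mul_pderiv
  have h2 : μ none = 0 := by
    have h2 : ∑ i, u i * ∑ r, μ r * aeval u (pderiv i (r.elim (X i₀ - 1) F)) = 0 :=
      Finset.sum_eq_zero fun i _ => mul_eq_zero_of_right _ (hμ i)
    simp only [Finset.mul_sum, mul_left_comm (u _)] at h2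
    rw [Finset.sum_comm] at h2
    simpa [← Finset.mul_sum, h1, Pi.single_apply, apply_ite, h] using h2
  have h3 := hF.sm K u hu (fun h0 => by simp [h0] at h) (fun l => μ (some l)) fun i => by
    simpa [h2] using hμ i
  funext o
  rcases o with _ | l
  exacts [h2, congrFun h3 l]

variable [IsAlgClosed k]

theorem Hyp.gen (hF : Hyp F d) (hn : Fintype.card κ + 2 ≤ Fintype.card ι) {x : ι → K}
    (hx : ∀ l, aeval x (F l) = 0) (hd : (Fintype.card ι - Fintype.card κ : ℕ) ≤ dm k x)
    {y : ι → K'} (hy : ∀ l, aeval y (F l) = 0) : Spc k x y := by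
  refine ciw (w := fun _ => 1) (μ := Fintype.card ι - Fintype.card κ - 2) (fun _ => one_ne_zero)
    hF.pos (fun l => by simpa using hF.hom l) (by omega) (fun L _ _ z hz h => ?_) hx
    (le_trans (Nat.cast_le.2 (by omega)) hd) hy
  rw [of_not_not fun h0 => h (hF.sm L z hz h0), dm_zero]
  exact zero_le

variable {e : ℕ}

/-- The two end points of a curve. -/
def epts (x : ι × Fin (e + 1) → K) : ι ⊕ ι → K :=
  Sum.elim (fun i => x (i, 0)) fun i => x (i, Fin.last _)

omit [Fintype ι] [CharZero k] [IsAlgClosed k] in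
theorem gp_hom {G : MvPolynomial ι k} {x : ι × Fin (e + 1) → K} (h : aeval (gp 1 x 0) G = 0)
    (φ : K →ₐ[k] K') : aeval (gp 1 (fun c => φ (x c)) 0) G = 0 := by
  have h1 := gp_map φ 1 x 0 G
  rw [h, map_one, Polynomial.map_zero] at h1
  exact h1.symm

omit [Fintype ι] [CharZero k] [IsAlgClosed k] in
theorem Hyp.on_ends (hF : Hyp F d) {x : ι × Fin (e + 1) → K}
    (hx : ∀ l, aeval (gp 1 x 0) (F l) = 0) (l : κ) :
    aeval (fun i => x (i, 0)) (F l) = 0 ∧ aeval (fun i => x (i, Fin.last _)) (F l) = 0 := by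
  constructor
  · have h1 := eval_aev (gp 1 x 0) 0 (F l)
    rw [hx, Polynomial.eval_zero] at h1
    refine Eq.trans (congrArg (aeval · _) (funext fun i => ?_)) h1.symm
    rw [← Polynomial.coeff_zero_eq_eval_zero]
    exact (coeff_gp x i 0).symm
  · have h1 := (top_coeff (hF.hom l) (gp_deg 1 x 0)).2
    rw [hx, Polynomial.coeff_zero] at h1
    exact Eq.trans (congrArg (aeval · _) (funext fun i => (coeff_gp x i (Fin.last _)).symm)) h1.symm

omit [IsAlgClosed k] in
theorem Hyp.mono (hF : Hyp F d) (hD : Fintype.card κ + 3 ≤ ∑ l, d l)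
    (hn : 4 * ∑ l, d l + 1 ≤ Fintype.card ι + 2 * Fintype.card κ) (he : e ≠ 0)
    {x : ι × Fin (e + 1 + 1) → K} (hx : ∀ l, aeval (gp 1 x 0) (F l) = 0)
    (hd : (Fintype.card ι - Fintype.card κ + (e + 1) * (Fintype.card ι - ∑ l, d l) : ℕ) ≤ dm k x)
    [Finite J] {s s' : J → K} (hs : ∀ j, IsAlgebraic (Algebra.adjoin k (Set.range (epts x))) (s j))
    (h : Spc k (Sum.elim (epts x) s) (Sum.elim (epts x) s')) :
    ∃ (L : Type u) (_ : Field L) (_ : Algebra k L) (φ φ' : K →ₐ[k] L),
      (∀ c, φ (x c) = φ' (x c)) ∧ ∀ j, φ (s j) = φ' (s' j) := by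
  have h0 : ∀ z ∈ Set.range (Sum.elim (epts x) s),
      IsAlgebraic (Algebra.adjoin k (Set.range (epts x))) z := by
    rintro _ ⟨o | j, rfl⟩
    exacts [isAlgebraic_algebraMap (⟨epts x o, Algebra.subset_adjoin ⟨o, rfl⟩⟩ :
      Algebra.adjoin k (Set.range (epts x))), hs j]
  have h1 : dm k (Sum.elim (epts x) s) ≤ dm k (epts x) := rk_le_of_alg h0
  obtain ⟨L, _, _, _, φ, φ', h2⟩ := amalgam h (h.symm_of_dm (.of_finite _)
    (h1.trans (rk_mono (Set.range_comp_subset_range Sum.inl (Sum.elim (epts x) s')))))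
  let F₀ := IntermediateField.adjoin k (Set.range fun o => φ (Sum.elim (epts x) s o))
  let E := algebraicClosure F₀ L
  have : IsAlgClosed E := IsAlgClosure.isAlgClosed F₀
  have : IsScalarTower k E L := .of_algebraMap_eq fun _ => rfl
  let z : (ι ⊕ ι) ⊕ J → E := fun o => algebraMap F₀ E
    ⟨φ (Sum.elim (epts x) s o), IntermediateField.subset_adjoin _ _ ⟨o, rfl⟩⟩
  let ψ := IsScalarTower.toAlgHom k E L
  have h3 : ∀ o, ψ (z o) = φ (Sum.elim (epts x) s o) := fun _ => rfl
  have h4 : ∀ (p : ι → ι ⊕ ι) (l : κ), aeval (fun i => epts x (p i)) (F l) = 0 →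
      aeval (fun i => z (.inl (p i))) (F l) = 0 := fun p l h4 =>
    Spc.of_map (fun i => z (.inl (p i))) ψ ψ.injective _ (Spc.map _ φ _ h4)
  have h5 : rk k (Set.range (epts x)) ≤ (2 * (Fintype.card ι - Fintype.card κ) : ℕ) := by
    rw [epts, Set.Sum.elim_range, two_mul, Nat.cast_add]
    exact (rk_union_le _ _).trans (add_le_add (hF.dmX (by omega) fun l => (hF.on_ends hx l).1)
      (hF.dmX (by omega) fun l => (hF.on_ends hx l).2))
  have h6 := hF.two (E := E) (L := L) hD hn he (a := fun i => z (.inl (.inl i)))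
    (b := fun i => z (.inl (.inr i))) (fun l => h4 _ l (hF.on_ends hx l).1)
    (fun l => h4 _ l (hF.on_ends hx l).2) (by
      refine (hF.ends hD hn he hx hd).trans ?_
      rw [← rk_image φ, ← rk_image ψ, Set.image_union, Set.image_union, ← Set.range_comp,
        ← Set.range_comp, ← Set.range_comp, ← Set.range_comp]
      rfl) (x := fun c => φ (x c)) (y := fun c => φ' (x c)) (fun l => gp_hom (hx l) φ)
    (fun _ => rfl) (fun _ => rfl) (fun l => gp_hom (hx l) φ') (fun i => (h2 (.inl (.inl i))).symm)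
    (fun i => (h2 (.inl (.inr i))).symm) (by
      have h6 := rk_union (k := k) (Set.range fun o => φ (Sum.elim (epts x) s o))
        (Set.range ((fun c => φ (x c)) ∘ col))
      refine hd.trans ((rk_image φ _).ge.trans ((rk_mono ?_).trans (h6.le.trans (add_le_add ?_ ?_))))
      · rintro _ ⟨_, ⟨c, rfl⟩, rfl⟩
        rcases col_cases c with h | h | ⟨c', h⟩ <;> rw [h]
        exacts [.inl ⟨.inl (.inl _), rfl⟩, .inl ⟨.inl (.inr _), rfl⟩, .inr ⟨c', rfl⟩]
      · exact (congrArg _ (Set.range_comp φ _)).le.trans ((rk_image φ _).le.trans (h1.trans h5))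
      · exact rk_base (fun a => mem_algebraicClosure_iff.1 a.2) _)
  have h7 : Spc k (Sum.elim (x ∘ col) (Sum.elim (epts x) s))
      (Sum.elim (x ∘ col) (Sum.elim (epts x) s')) := by
    refine (Spc.map _ φ).trans (Spc.trans ?_ (Spc.of_map _ φ' φ'.injective))
    convert spc_base (k := k) h6 z using 2 with o o
    · rcases o with c | o <;> rfl
    · rcases o with c | o
      exacts [rfl, (h2 o).symm]
  obtain ⟨L', _, _, _, χ, χ', h8⟩ := amalgam h7 (h7.symm_of_dm (.of_finite _) (rk_le_of_alg (by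
    rintro _ ⟨c | o, rfl⟩
    · exact isAlgebraic_algebraMap (⟨_, Algebra.subset_adjoin ⟨.inl c, rfl⟩⟩ :
        Algebra.adjoin k (Set.range (Sum.elim (x ∘ col) (Sum.elim (epts x) s'))))
    · refine (h0 _ ⟨o, rfl⟩).tower_top_of_subalgebra_le (Algebra.adjoin_mono ?_)
      rintro _ ⟨o, rfl⟩
      exact ⟨.inr (.inl o), rfl⟩)))
  refine ⟨L', inferInstance, inferInstance, χ, χ', fun c => ?_, fun j => h8 (.inr (.inr j))⟩
  rcases col_cases c with h | h | ⟨c', h⟩ <;> rw [h]
  exacts [h8 (.inr (.inl (.inl _))), h8 (.inr (.inl (.inr _))), h8 (.inl c')]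

end GM
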