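import Pool.Agent.Work.MP_64a944_ag.J

/-!
# The general curve does not lift to a nontrivial cover
-/

namespace GM

open MvPolynomial PR0 PR0.Z

universe u

variable {k : Type u} [Field k] {K K' : Type u} [Field K] [Field K'] [Algebra k K] [Algebra k K']
  {I : Type} {w : I → K} {u : I → K'} {x : K} {a : K'}

theorem alg_of_spc [Finite I] (h : Spc k (ext1 x w) (ext1 a u)) (h' : dm k w ≤ dm k u)
    (hx : IsAlgebraic (Algebra.adjoin k (Set.range w)) x) :
    IsAlgebraic (Algebra.adjoin k (Set.range u)) a := by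
  refine alg_of_rk_insert (FG.of_finite u).dm_ne_top (le_trans (rk_mono ?_)
    (h.dm_le.trans ((dm_ext1 hx).trans_le h')))
  rintro _ (rfl | ⟨i, rfl⟩)
  exacts [⟨none, rfl⟩, ⟨some i, rfl⟩]

theorem mem_of_spc (h : Spc k (ext1 a u) (ext1 x w)) (h' : Spc k w u)
    (ha : a ∈ IntermediateField.adjoin k (Set.range u)) :
    x ∈ IntermediateField.adjoin k (Set.range w) := by
  obtain ⟨r, s, h1⟩ := (IntermediateField.mem_adjoin_range_iff _ _ _).1 ha
  by_cases h2 : aeval u s = 0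
  · have h3 := h (X none) (by simp [ext1, h1, h2])
    rw [aeval_X] at h3
    exact (show x = 0 from h3) ▸ zero_mem _
  have h3 := h (X none * rename some s - rename some r) (by
    simp only [map_sub, map_mul, aeval_rename, aeval_X]
    exact sub_eq_zero.2 ((eq_div_iff h2).1 h1))
  simp only [map_sub, map_mul, aeval_rename, aeval_X] at h3
  exact (IntermediateField.mem_adjoin_range_iff _ _ _).2
    ⟨r, s, (eq_div_iff fun h4 => h2 (h' _ h4)).2 (sub_eq_zero.1 h3)⟩

theorem alg_div {s : Set K} {p : I → K} (hp : ∀ i, p i ∈ s) (i₀ : I)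
    (hx : IsAlgebraic (Algebra.adjoin k (Set.range fun i => p i / p i₀)) x) :
    IsAlgebraic (Algebra.adjoin k s) x := by
  have h : ∀ i, IsAlgebraic (Algebra.adjoin k s) (p i) := fun i =>
    isAlgebraic_algebraMap (⟨p i, Algebra.subset_adjoin (hp i)⟩ : Algebra.adjoin k s)
  refine alg_trans ?_ hx
  rintro _ ⟨i, rfl⟩
  simpa only [div_eq_mul_inv] using (h i).mul (IsAlgebraic.inv_iff.2 (h i₀))

theorem exists_ratFunc_map (φ : K →ₐ[k] K') : ∃ Φ : RatFunc K →ₐ[k] RatFunc K',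
    (algebraMap K' (RatFunc K')).comp φ = (Φ : RatFunc K →+* RatFunc K').comp (algebraMap K _) ∧
      Φ RatFunc.X = RatFunc.X := by
  let g : Polynomial K →ₐ[k] RatFunc K' :=
    (IsScalarTower.toAlgHom k (Polynomial K') (RatFunc K')).comp (Polynomial.mapAlgHom φ)
  have hg : Function.Injective g := (RatFunc.algebraMap_injective K').comp
    (Polynomial.map_injective (φ : K →+* K') φ.injective)
  refine ⟨IsFractionRing.liftAlgHom hg, RingHom.ext fun c => ?_, ?_⟩
  · refine Eq.trans ?_ (IsFractionRing.lift_algebraMap (g := g.toRingHom) hg (Polynomial.C c)).symm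
    simp [g]
  · refine Eq.trans (IsFractionRing.lift_algebraMap (g := g.toRingHom) hg Polynomial.X) ?_
    simp [g]

variable {ι κ : Type} [Fintype ι] [Fintype κ] [CharZero k] {F : κ → MvPolynomial ι k} {d : κ → ℕ}
  [IsAlgClosed k] [IsAlgClosed K] {e : ℕ}

theorem Hyp.nolift (hF : Hyp F d) (hD : Fintype.card κ + 3 ≤ ∑ l, d l)
    (hn : 4 * ∑ l, d l + 1 ≤ Fintype.card ι + 2 * Fintype.card κ) (he : e ≠ 0)
    {x : ι × Fin (e + 1 + 1) → K} (hx : ∀ l, aeval (gp 1 x 0) (F l) = 0)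
    (hd : (Fintype.card ι - Fintype.card κ + (e + 1) * (Fintype.card ι - ∑ l, d l) : ℕ) ≤ dm k x)
    {i₀ : ι} {w : ι → RatFunc K} (hw : ∀ i, w i = Polynomial.aeval RatFunc.X (gp 1 x 0 i) /
      Polynomial.aeval RatFunc.X (gp 1 x 0 i₀)) (h1 : w i₀ = 1) :
    (∀ (L : Type u) [Field L] [Algebra k L] (y : ι → L), (∀ l, aeval y (F l) = 0) → y i₀ = 1 →
      Spc k w y) ∧ ∀ θ, IsAlgebraic (Algebra.adjoin k (Set.range w)) θ →
        θ ∈ IntermediateField.adjoin k (Set.range w) := by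
  have hp := fun l => (hF.on_ends hx l).1
  have hq := fun l => (hF.on_ends hx l).2
  have h2 := hF.ends hD hn he hx hd
  have h3 := h2.trans (rk_union_le _ _)
  rw [two_mul, Nat.cast_add] at h3
  have hp1 := hF.dmX (by omega) hp
  have hq1 := hF.dmX (by omega) hq
  have hp2 := (ENat.add_le_add_iff_right (ENat.natCast_ne_top _)).1
    (h3.trans (add_le_add_right hq1 _))
  have hq2 := (ENat.add_le_add_iff_left (ENat.natCast_ne_top _)).1
    (h3.trans (add_le_add_left hp1 _))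
  have hwF : ∀ l, aeval w (F l) = 0 := fun l => by
    rw [show w = fun i => (Polynomial.aeval RatFunc.X (gp 1 x 0 i₀))⁻¹ *
      Polynomial.aeval RatFunc.X (gp 1 x 0 i) from funext fun i => by rw [hw, div_eq_inv_mul],
      aeval_smul' (hF.hom l)]
    exact mul_eq_zero_of_right _ ((comp_aeval_apply _
      ((Polynomial.aeval (R := K) RatFunc.X).restrictScalars k) _).symm.trans (by simp [hx]))
  obtain ⟨hp3, hp4⟩ := chart (hF.gen (by omega) hp hp2 hwF) h1
  obtain ⟨hq3, hq4⟩ := chart (hF.gen (by omega) hq hq2 hwF) h1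
  have ht := RatFunc.transcendental_X (K := K)
  have ht' : ∀ (L : Type u) [Field L], Transcendental L (RatFunc.X : RatFunc L)⁻¹ :=
    fun L _ h => RatFunc.transcendental_X (IsAlgebraic.inv_iff.1 h)
  have hp5 : ∀ i, Vl RatFunc.X (w i) (x (i, 0) / x (i₀, 0)) := fun i => by
    rw [hw, ← coeff_gp x, ← coeff_gp x]
    exact Vl.div ht _ ((coeff_gp x i₀ 0).trans_ne hp3)
  have hq5 : ∀ i, Vl RatFunc.X⁻¹ (w i) (x (i, Fin.last _) / x (i₀, Fin.last _)) := fun i => by
    rw [hw, ← coeff_gp x, ← coeff_gp x]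
    exact Vl.top ht (gp_deg 1 x 0 i) (gp_deg 1 x 0 i₀) ((coeff_gp x i₀ (Fin.last _)).trans_ne hq3)
  refine ⟨fun L _ _ y hy hy' => (Vl.spc ht hp5).trans (chart (hF.gen (by omega) hp hp2 hy) hy').2,
    fun θ hθ => of_not_not fun h4 => ?_⟩
  obtain ⟨a, ha⟩ := Vl.ex ht hp5 hp4.dm_le hθ (RatFunc.adjoin_X (K := K) ▸ trivial)
  obtain ⟨b, hb⟩ := Vl.ex (ht' K) hq5 hq4.dm_le hθ (IntermediateField.adjoin_simple_le_iff.2
    (by simpa using inv_mem (IntermediateField.mem_adjoin_simple_self K (RatFunc.X : RatFunc K)⁻¹))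
    (RatFunc.adjoin_X (K := K) ▸ trivial : θ ∈ IntermediateField.adjoin K {RatFunc.X}))
  have ha1 := alg_of_spc (Vl.alg ht hp5 hp4.dm_le hθ ha).1 hp4.dm_le hθ
  have hb1 := alg_of_spc (Vl.alg (ht' K) hq5 hq4.dm_le hθ hb).1 hq4.dm_le hθ
  obtain ⟨b', hb2, hb3⟩ := exists_conj hb1 fun h => h4
    (mem_of_spc (Vl.alg (ht' K) hq5 hq4.dm_le hθ hb).2 (Vl.spc (ht' K) hq5) h)
  have h5 := (free_spc (S := ext1 (x (i₀, Fin.last _)) (ext1 a fun i => x (i, 0))) (by
    have h5 := hF.dm_chart (u := fun i => x (i, Fin.last _) / x (i₀, Fin.last _)) (i₀ := i₀)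
      (fun l => by
        simp only [div_eq_inv_mul]
        rw [aeval_smul' (hF.hom l), hq, mul_zero]) (div_self hq3)
    have h6 : dm k (ext1 (x (i₀, Fin.last _)) (ext1 a fun i => x (i, 0))) ≤
        (Fintype.card ι - Fintype.card κ : ℕ) + 1 := by
      rw [dm, Option.range_eq]
      exact (rk_insert_le _ _).trans (add_le_add_left
        ((dm_ext1 (alg_div (fun i => ⟨i, rfl⟩) i₀ ha1)).trans_le hp1) 1)
    refine le_trans ?_ (h2.trans (rk_le_of_mem ?_))
    · rw [dm_ext1 hb1]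
      obtain ⟨m, hm⟩ := ENat.ne_top_iff_exists.1 (FG.of_finite (k := k)
        fun i => x (i, Fin.last _) / x (i₀, Fin.last _)).dm_ne_top
      rw [← hm] at h5 ⊢
      refine (add_le_add_left h6 _).trans ?_
      norm_cast at h5 ⊢
      omega
    · rintro _ (⟨i, rfl⟩ | ⟨i, rfl⟩)
      · exact IntermediateField.subset_adjoin _ _ ⟨.inl (some (some i)), rfl⟩
      · beta_reduce
        rw [← mul_div_cancel₀ (x (i, Fin.last _)) hq3]
        exact mul_mem (IntermediateField.subset_adjoin _ _ ⟨.inl none, rfl⟩)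
          (IntermediateField.subset_adjoin _ _ ⟨.inr (some i), rfl⟩)) hb3).aeval
    (Sum.elim (Sum.elim (fun i => X (.inl (some (some i)))) fun i => X (.inl none) *
      X (.inr (some i))) fun o : Bool => X (cond o (.inr none) (.inl (some none))))
  obtain ⟨L, _, _, φ, φ', h6, h7⟩ := hF.mono hD hn he hx hd (s := fun o : Bool => cond o b a)
    (s' := fun o : Bool => cond o b' a) (fun o => by
      cases o
      exacts [alg_div (fun i => ⟨.inl i, rfl⟩) i₀ ha1, alg_div (fun i => ⟨.inr i, rfl⟩) i₀ hb1])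
    (by
      convert h5 using 2 with o o <;> rcases o with (i | i) | _ | _ <;>
        simp [ext1, epts, mul_div_cancel₀ _ hq3])
  obtain ⟨Φ, h8, h9⟩ := exists_ratFunc_map φ
  obtain ⟨Φ', h8', h9'⟩ := exists_ratFunc_map φ'
  have h10 : (fun i => Φ' (w i)) = fun i => Φ (w i) := funext fun i => by
    have h10 : ∀ i, Φ' (Polynomial.aeval RatFunc.X (gp 1 x 0 i)) =
        Φ (Polynomial.aeval RatFunc.X (gp 1 x 0 i)) := fun i => by
      simp [gp, h6, h9, h9', show ∀ c, Φ (RatFunc.C c) = RatFunc.C (φ c) from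
        fun c => (RingHom.congr_fun h8 c).symm, show ∀ c, Φ' (RatFunc.C c) = RatFunc.C (φ' c) from
        fun c => (RingHom.congr_fun h8' c).symm]
    rw [hw, map_div₀, map_div₀, h10, h10]
  have h11 : ∀ Φ : RatFunc K →ₐ[k] RatFunc L,
      IsAlgebraic (Algebra.adjoin k (Set.range fun i => Φ (w i))) (Φ θ) := fun Φ =>
    alg_of_spc ((show (fun o => Φ (ext1 θ w o)) = ext1 (Φ θ) fun i => Φ (w i) from
      funext fun o => by cases o <;> rfl) ▸ Spc.map (ext1 θ w) Φ)
      (Spc.of_map w Φ Φ.injective).dm_le hθ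
  have h12 := (h9 ▸ ha.map h8 : Vl RatFunc.X (Φ θ) (φ a)).sub
    (h9' ▸ ha.map h8' : Vl RatFunc.X (Φ' θ) (φ' a))
  rw [show φ a = φ' a from h7 false, sub_self] at h12
  have h13 := Vl.inj RatFunc.transcendental_X (u := fun i => φ (x (i, 0) / x (i₀, 0)))
    (fun i => h9 ▸ (hp5 i).map h8) ((Spc.map w Φ).dm_le.trans (hp4.dm_le.trans
      (Spc.of_map _ φ φ.injective).dm_le)) ((h11 Φ).sub (h10 ▸ h11 Φ')) h12
  have h14 := hb.map h8
  have h15 := hb.map h8'
  rw [map_inv₀] at h14 h15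
  have h16 := (h9 ▸ h14 : Vl RatFunc.X⁻¹ (Φ θ) (φ b)).sub (h9' ▸ h15 : Vl RatFunc.X⁻¹ (Φ' θ) (φ' b))
  rw [h13] at h16
  exact hb2 (φ'.injective ((sub_eq_zero.1 (h16.zero (ht' L))).symm.trans (h7 true)))

omit [IsAlgClosed K] in
theorem Hyp.manin (hF : Hyp F d) (hD : Fintype.card κ + 3 ≤ ∑ l, d l)
    (hn : 4 * ∑ l, d l + 1 ≤ Fintype.card ι + 2 * Fintype.card κ) (he : e ≠ 0)
    {x : ι × Fin (e + 1 + 1) → K}
    (hx : ∀ G, aeval x G = 0 ↔ G ∈ vanishingIdeal k (Mor F (e + 1))) {B : Type u} [CommRing B]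
    [IsDomain B] [Algebra k B] {b : ι → B} {i₀ : ι} (h1 : b i₀ = 1) (hb : ∀ l, aeval b (F l) = 0)
    (ha : Algebra.IsAlgebraic (Algebra.adjoin k (Set.range b)) B) (ψ : B →ₐ[k] RatFunc K)
    (hψ : ∀ i, ψ (b i) = form (fun c => RatFunc.C (x c)) 1 RatFunc.X i /
      form (fun c => RatFunc.C (x c)) 1 RatFunc.X i₀) :
    (∀ y : ι → k, y i₀ = 1 → (∀ l, aeval y (F l) = 0) → Spc k b y) ∧
      ∀ y : B, ∃ G H : MvPolynomial ι k, aeval b H ≠ 0 ∧ y * aeval b H = aeval b G := by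
  obtain ⟨-, h2, h3⟩ := hF.mor hD (by omega) (e + 1)
  let φ := IsScalarTower.toAlgHom k K (AlgebraicClosure K)
  obtain ⟨Φ, h4, h5⟩ := exists_ratFunc_map φ
  rw [← show Pt2_id k x = _ from Ideal.ext hx, dI_pt] at h3
  let χ := Φ.comp ψ
  obtain ⟨h6, h7⟩ := hF.nolift hD hn he (x := fun c => φ (x c)) (i₀ := i₀) (w := fun i => χ (b i))
    (fun l => gp_hom (hF.zero_iff.1 (fun r => (hx _).2 (h2 r)) l) φ)
    (h3.ge.trans (Spc.of_map x φ φ.injective).dm_le) (fun i => by
      simp [χ, hψ, form, gp, h5, show ∀ c, Φ (RatFunc.C c) = RatFunc.C (φ c) from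
        fun c => (RingHom.congr_fun h4 c).symm]) (by simp [h1])
  let ρ := IsScalarTower.toAlgHom k B (FractionRing B)
  have h8 := (h6 _ (fun i => ρ (b i)) (fun l => Spc.map b ρ _ (hb l)) (by simp [h1])).trans
    (Spc.of_map b ρ (IsFractionRing.injective B _))
  have h9 : Function.Injective χ := (injective_iff_map_eq_zero χ).2 fun y hy => of_not_not
    fun h9 => by
      obtain ⟨⟨r, h10⟩, h11, z, h12⟩ := (ha.isAlgebraic y).exists_nonzero_dvd
        (mem_nonZeroDivisors_of_ne_zero h9)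
      obtain ⟨g, rfl⟩ := Algebra.adjoin_range_eq_range_aeval k b ▸ h10
      refine h11 (Subtype.ext (h8 g ((comp_aeval_apply b χ g).symm.trans ?_)))
      exact (congrArg χ h12).trans (by rw [map_mul, hy, zero_mul])
  refine ⟨fun y hy hy' => (Spc.map b χ).trans (h6 k y hy' hy), fun y => ?_⟩
  obtain ⟨r, s, h10⟩ := (IntermediateField.mem_adjoin_range_iff _ _ _).1 (h7 (χ y)
    ((ha.isAlgebraic y).ringHom_of_comp_eq ((χ.toRingHom.comp (Algebra.adjoin k
      (Set.range b)).val.toRingHom).codRestrict (Algebra.adjoin k (Set.range fun i => χ (b i)))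
      fun z => by
        rw [show (Set.range fun i => χ (b i)) = χ '' Set.range b from Set.range_comp χ b,
          Algebra.adjoin_image]
        exact ⟨z, z.2, rfl⟩) χ.toRingHom
      (fun z z' h => Subtype.ext (h9 (congrArg Subtype.val h))) rfl))
  rw [← comp_aeval_apply b χ, ← comp_aeval_apply b χ] at h10
  by_cases h11 : aeval b s = 0
  · exact ⟨0, 1, by simp, by simpa [h11, map_eq_zero_iff χ h9] using h10⟩
  · exact ⟨r, s, h11, h9 (by rw [map_mul, h10, div_mul_cancel₀ _ ((map_ne_zero_iff χ h9).2 h11)])⟩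

end GM
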