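import Pool.Agent.Work.MP_64a944_ag.NDefs
import Pool.Agent.Work.MP_64a944_ag.K
import Pool.Agent.Work.MP_da2620_ag.RR

/-!
# Points, values of rational functions, centres of valuations
-/

namespace GMC

open MvPolynomial PR0 PR0.Z GM

variable {K L L' : Type} [Field K] [Field L] [Field L'] [Algebra ℂ K] [Algebra ℂ L] [Algebra ℂ L']
  {ι κ I : Type} {z : ι → K} {x : ι → L} {y : ι → L'} {φ ψ : K} {a b : L}

theorem IsPt.ne (hx : IsPt z x) {n : ℕ} {H : MvPolynomial ι ℂ} (hH : H.IsHomogeneous n)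
    (h : aeval x H ≠ 0) : aeval z H ≠ 0 := fun h' => h (hx.2 n H hH h')

theorem IsPt.ne' (hx : IsPt z x) {i : ι} (h : x i ≠ 0) : z i ≠ 0 := by
  simpa using hx.ne (isHomogeneous_X ℂ i) (by simpa using h)

theorem IsPt.ex (hx : IsPt z x) : ∃ i, x i ≠ 0 := Function.ne_iff.1 hx.1

theorem IsPt.trans (hx : IsPt z x) (hy : IsPt x y) : IsPt z y :=
  ⟨hy.1, fun n G hG h => hy.2 n G hG (hx.2 n G hG h)⟩

theorem IsPt.refl (h : z ≠ 0) : IsPt z z := ⟨h, fun _ _ _ h => h⟩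

theorem IsPt.of_spc (h : Spc ℂ z x) (h0 : x ≠ 0) : IsPt z x := ⟨h0, fun _ G _ hG => h G hG⟩

theorem IsPt.smul (hx : IsPt z x) {c : L} (hc : c ≠ 0) : IsPt z fun i => c * x i :=
  ⟨fun h => hx.1 (funext fun i => (mul_eq_zero.1 (congrFun h i)).resolve_left hc),
    fun n G hG h => by rw [aeval_smul' hG, hx.2 n G hG h, mul_zero]⟩

theorem IsPt.of_smul {c : K} (hx : IsPt (fun i => c * z i) x) : IsPt z x :=
  ⟨hx.1, fun n G hG h => hx.2 n G hG (by rw [aeval_smul' hG, h, mul_zero])⟩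

theorem IsPt.smul' (hx : IsPt z x) {c : K} (hc : c ≠ 0) : IsPt (fun i => c * z i) x :=
  IsPt.of_smul (c := c⁻¹) (by simpa [hc] using hx)

theorem IsPt.map (hx : IsPt z x) (χ : L →ₐ[ℂ] L') : IsPt z fun i => χ (x i) :=
  hx.trans (.of_spc (Spc.map x χ) fun h => hx.1 (funext fun i => by simpa using congrFun h i))

theorem IsPt.chart [Fintype ι] (hx : IsPt z x) {i : ι} (hi : x i ≠ 0) :
    Spc ℂ (fun j => z j / z i) (fun j => x j / x i) := by
  intro g hg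
  have h1 : ∀ {M : Type} [Field M] [Algebra ℂ M] (w : ι → M), w i ≠ 0 →
      aeval w (∑ n ∈ Finset.range (g.totalDegree + 1),
        X i ^ (g.totalDegree - n) * homogeneousComponent n g) =
        w i ^ g.totalDegree * aeval (fun j => w j / w i) g := fun w hw => by
    rw [← congrArg (aeval fun j => w j / w i) (sum_homogeneousComponent g), map_sum, map_sum,
      Finset.mul_sum]
    refine Finset.sum_congr rfl fun n hn => ?_
    simp only [div_eq_inv_mul]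
    rw [aeval_smul' (homogeneousComponent_isHomogeneous n g), map_mul, map_pow, aeval_X,
      pow_sub₀ _ hw (Nat.lt_succ_iff.1 (Finset.mem_range.1 hn)), inv_pow, mul_assoc]
  have h2 := hx.2 g.totalDegree _ (IsHomogeneous.sum _ _ _ fun n hn => by
    have := (isHomogeneous_X_pow (R := ℂ) i (g.totalDegree - n)).mul
      (homogeneousComponent_isHomogeneous n g)
    rwa [Nat.sub_add_cancel (Nat.lt_succ_iff.1 (Finset.mem_range.1 hn))] at this)
    ((h1 z (hx.ne' hi)).trans (by rw [hg, mul_zero]))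
  rw [h1 x hi] at h2
  exact (mul_eq_zero.1 h2).resolve_left (pow_ne_zero _ hi)

theorem IsPt.of_chart {i : ι} (hz : z i ≠ 0) (hi : x i ≠ 0)
    (h : Spc ℂ (fun j => z j / z i) (fun j => x j / x i)) : IsPt z x := by
  have h1 := ((IsPt.of_spc h fun h0 => by simpa [hi] using congrFun h0 i).smul hi).smul' hz
  simpa [mul_div_cancel₀ _ hz, mul_div_cancel₀ _ hi] using h1

theorem IsPt.closed [Finite ι] (hx : x ≠ 0) {H : MvPolynomial ι ℂ} (h : aeval x H ≠ 0) :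
    ∃ p : ι → ℂ, IsPt x p ∧ aeval p H ≠ 0 := by
  obtain ⟨i, hi⟩ := Function.ne_iff.1 hx
  obtain ⟨p, h1, h2⟩ := exists_rat (k := ℂ) (FG.of_finite x) (g := H * X i)
    (by simpa using ⟨h, hi⟩)
  rw [map_mul, mul_ne_zero_iff, aeval_X] at h2
  exact ⟨p, .of_spc h1 (Function.ne_iff.2 ⟨i, h2.2⟩), h2.1⟩

theorem Val.unique (hx : IsPt z x) (h : Val z x φ a) (h' : Val z x φ b) : a = b := by
  obtain ⟨n, G, H, h1, h2, h3, h4, h5⟩ := h
  obtain ⟨m, G', H', h6, h7, h8, h9, h10⟩ := h'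
  have h11 := hx.2 _ _ ((h1.mul h7).sub (add_comm m n ▸ h6.mul h2))
    (by simp only [map_sub, map_mul, ← h4, ← h9]; ring)
  simp only [map_sub, map_mul, ← h5, ← h10] at h11
  refine mul_right_cancel₀ (mul_ne_zero h3 h8) (sub_eq_zero.1 ?_)
  rw [← h11]
  ring

theorem Val.add (h : Val z x φ a) (h' : Val z x ψ b) : Val z x (φ + ψ) (a + b) := by
  obtain ⟨n, G, H, h1, h2, h3, h4, h5⟩ := h
  obtain ⟨m, G', H', h6, h7, h8, h9, h10⟩ := h'
  refine ⟨n + m, G * H' + G' * H, H * H', (h1.mul h7).add (add_comm m n ▸ h6.mul h2), h2.mul h7,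
    by simp [h3, h8], ?_, ?_⟩ <;> simp only [map_add, map_mul, ← h4, ← h9, ← h5, ← h10] <;> ring

theorem Val.mul (h : Val z x φ a) (h' : Val z x ψ b) : Val z x (φ * ψ) (a * b) := by
  obtain ⟨n, G, H, h1, h2, h3, h4, h5⟩ := h
  obtain ⟨m, G', H', h6, h7, h8, h9, h10⟩ := h'
  refine ⟨n + m, G * G', H * H', h1.mul h6, h2.mul h7, by simp [h3, h8], ?_, ?_⟩ <;>
    simp only [map_mul, ← h4, ← h9, ← h5, ← h10] <;> ring

theorem Val.const (c : ℂ) : Val z x (algebraMap ℂ K c) (algebraMap ℂ L c) :=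
  ⟨0, C c, 1, isHomogeneous_C _ _, isHomogeneous_one _ _, by simp, by simp, by simp⟩

theorem Val.one : Val z x 1 1 := by simpa using Val.const (z := z) (x := x) 1

theorem Val.zero : Val z x 0 0 := by simpa using Val.const (z := z) (x := x) 0

theorem Val.neg (h : Val z x φ a) : Val z x (-φ) (-a) := by
  simpa using (Val.const (-1)).mul h

theorem Val.sub (h : Val z x φ a) (h' : Val z x ψ b) : Val z x (φ - ψ) (a - b) := by
  simpa [sub_eq_add_neg] using h.add h'.neg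

theorem Val.pow (h : Val z x φ a) (n : ℕ) : Val z x (φ ^ n) (a ^ n) := by
  induction n with
  | zero => simpa using Val.one
  | succ n ih => simpa [pow_succ] using ih.mul h

theorem Val.ne (hx : IsPt z x) (h : Val z x φ a) (ha : a ≠ 0) : φ ≠ 0 :=
  fun h0 => ha ((h0 ▸ h : Val z x 0 a).unique hx Val.zero)

theorem Val.inv (hx : IsPt z x) (h : Val z x φ a) (ha : a ≠ 0) : Val z x φ⁻¹ a⁻¹ := by
  have h0 := h.ne hx ha
  obtain ⟨n, G, H, h1, h2, h3, h4, h5⟩ := h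
  exact ⟨n, H, G, h2, h1, h5 ▸ mul_ne_zero ha h3, by rw [← h4, inv_mul_cancel_left₀ h0],
    by rw [← h5, inv_mul_cancel_left₀ ha]⟩

theorem Val.div (hx : IsPt z x) (h : Val z x φ a) (h' : Val z x ψ b) (hb : b ≠ 0) :
    Val z x (φ / ψ) (a / b) := by
  simpa [div_eq_mul_inv] using h.mul (h'.inv hx hb)

theorem Val.zpow (hx : IsPt z x) (h : Val z x φ a) (ha : a ≠ 0) (n : ℤ) :
    Val z x (φ ^ n) (a ^ n) := by
  rcases n with n | n
  · simpa using h.pow n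
  · simpa using (h.pow (n + 1)).inv hx (pow_ne_zero _ ha)

theorem Val.hom (hx : IsPt z x) {n : ℕ} {G H : MvPolynomial ι ℂ} (hG : G.IsHomogeneous n)
    (hH : H.IsHomogeneous n) (h : aeval x H ≠ 0) :
    Val z x (aeval z G / aeval z H) (aeval x G / aeval x H) :=
  ⟨n, G, H, hG, hH, h, div_mul_cancel₀ _ (hx.ne hH h), div_mul_cancel₀ _ h⟩

theorem Val.ratio (hx : IsPt z x) {i : ι} (h : x i ≠ 0) (j : ι) :
    Val z x (z j / z i) (x j / x i) := by
  simpa using Val.hom hx (isHomogeneous_X ℂ j) (isHomogeneous_X ℂ i) (by simpa using h)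

theorem Val.aev {c : I → K} {c' : I → L} (h : ∀ i, Val z x (c i) (c' i)) (g : MvPolynomial I ℂ) :
    Val z x (aeval c g) (aeval c' g) := by
  induction g using MvPolynomial.induction_on with
  | C c => simpa using Val.const c
  | add p q hp hq => simpa only [map_add] using hp.add hq
  | mul_X p i hp => simpa only [map_mul, aeval_X] using hp.mul (h i)

theorem Val.spc (hx : IsPt z x) {c : I → K} {c' : I → L} (h : ∀ i, Val z x (c i) (c' i)) :
    Spc ℂ c c' := fun g hg => (hg ▸ Val.aev h g : Val z x 0 _).unique hx Val.zero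

theorem Val.ev_eq (hx : IsPt z x) (h : Val z x φ a) : ev z x φ = a :=
  Val.unique hx (Classical.epsilon_spec (p := Val z x φ) ⟨a, h⟩) h

theorem Val.map (h : Val z x φ a) (χ : L →ₐ[ℂ] L') : Val z (fun i => χ (x i)) φ (χ a) := by
  obtain ⟨n, G, H, h1, h2, h3, h4, h5⟩ := h
  refine ⟨n, G, H, h1, h2, ?_, h4, ?_⟩ <;> simp only [← comp_aeval_apply x χ]
  exacts [(map_ne_zero χ).2 h3, by rw [← map_mul, h5]]

theorem Val.smul (h : Val z x φ a) {c : L} (hc : c ≠ 0) : Val z (fun i => c * x i) φ a := by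
  obtain ⟨n, G, H, h1, h2, h3, h4, h5⟩ := h
  refine ⟨n, G, H, h1, h2, ?_, h4, ?_⟩ <;> simp only [aeval_smul' h1, aeval_smul' h2]
  exacts [mul_ne_zero (pow_ne_zero _ hc) h3, by rw [← h5]; ring]

theorem Val.self (hz : z ≠ 0) (hg : Gen z) (φ : K) : Val z z φ φ := by
  have h : φ ∈ IntermediateField.adjoin ℂ (Set.range fun c : ι × ι => z c.1 / z c.2) :=
    hg ▸ trivial
  induction h using IntermediateField.adjoin_induction with
  | mem _ h =>
    obtain ⟨c, rfl⟩ := h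
    by_cases h : z c.2 = 0
    · simpa [h] using Val.zero
    · exact Val.ratio (.refl hz) h _
  | algebraMap c => exact Val.const c
  | add _ _ _ _ h h' => exact h.add h'
  | mul _ _ _ _ h h' => exact h.mul h'
  | inv φ _ h =>
    by_cases h0 : φ = 0
    · simpa [h0] using Val.zero
    · exact h.inv (.refl hz) h0

theorem Val.gen (hy : IsPt x y) {a : L'} (h : Val z y φ a) : ∃ b, Val z x φ b ∧ Val x y b a := by
  obtain ⟨n, G, H, h1, h2, h3, h4, h5⟩ := h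
  have h6 := div_mul_cancel₀ (aeval x G) (hy.ne h2 h3)
  exact ⟨_, ⟨n, G, H, h1, h2, hy.ne h2 h3, h4, h6⟩, n, G, H, h1, h2, h3, h6, h5⟩

theorem Val.nhds (h : Val z x φ a) : ∃ (n : ℕ) (G H : MvPolynomial ι ℂ), G.IsHomogeneous n ∧
    H.IsHomogeneous n ∧ aeval x H ≠ 0 ∧ a = aeval x G / aeval x H ∧
      ∀ q : ι → ℂ, aeval q H ≠ 0 → Val z q φ (aeval q G / aeval q H) := by
  obtain ⟨n, G, H, h1, h2, h3, h4, h5⟩ := h
  exact ⟨n, G, H, h1, h2, h3, (eq_div_iff h3).2 h5, fun q hq =>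
    ⟨n, G, H, h1, h2, hq, h4, div_mul_cancel₀ _ hq⟩⟩

theorem Reg.gen (hy : IsPt x y) (h : Reg z y φ) : Reg z x φ :=
  h.elim fun _ h => (h.gen hy).imp fun _ h => h.1

theorem Reg.mul (h : Reg z x φ) (h' : Reg z x ψ) : Reg z x (φ * ψ) :=
  h.elim fun _ h => h'.elim fun _ h' => ⟨_, h.mul h'⟩

theorem Reg.pow (h : Reg z x φ) (n : ℕ) : Reg z x (φ ^ n) := h.elim fun _ h => ⟨_, h.pow n⟩

theorem Reg.aev {c : I → K} (h : ∀ i, Reg z x (c i)) (g : MvPolynomial I ℂ) :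
    Reg z x (aeval c g) := ⟨_, Val.aev (fun i => (h i).choose_spec) g⟩

theorem IsU.reg (h : IsU z x φ) : Reg z x φ := h.imp fun _ h => h.2

theorem IsU.gen (hy : IsPt x y) (h : IsU z y φ) : IsU z x φ := by
  obtain ⟨a, ha, h⟩ := h
  obtain ⟨b, h1, h2⟩ := h.gen hy
  exact ⟨b, h2.ne hy ha, h1⟩

theorem IsU.ne (hx : IsPt z x) (h : IsU z x φ) : φ ≠ 0 := h.elim fun _ h => h.2.ne hx h.1

theorem IsU.one : IsU z x 1 := ⟨1, one_ne_zero, Val.one⟩

theorem IsU.mul (h : IsU z x φ) (h' : IsU z x ψ) : IsU z x (φ * ψ) :=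
  h.elim fun _ h => h'.elim fun _ h' => ⟨_, mul_ne_zero h.1 h'.1, h.2.mul h'.2⟩

theorem IsU.inv (hx : IsPt z x) (h : IsU z x φ) : IsU z x φ⁻¹ :=
  h.elim fun _ h => ⟨_, inv_ne_zero h.1, h.2.inv hx h.1⟩

theorem IsU.zpow (hx : IsPt z x) (h : IsU z x φ) (n : ℤ) : IsU z x (φ ^ n) :=
  h.elim fun _ h => ⟨_, zpow_ne_zero _ h.1, h.2.zpow hx h.1 n⟩

theorem IsU.of_inv (hx : IsPt z x) (h0 : φ ≠ 0) (h : Reg z x φ) (h' : Reg z x φ⁻¹) :
    IsU z x φ := by
  obtain ⟨a, h⟩ := h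
  obtain ⟨b, h'⟩ := h'
  have h1 := h.mul h'
  rw [mul_inv_cancel₀ h0] at h1
  exact ⟨a, left_ne_zero_of_mul ((h1.unique hx Val.one).trans_ne one_ne_zero), h⟩

theorem IsU.nhds (h : IsU z x φ) : ∃ (n : ℕ) (H : MvPolynomial ι ℂ), H.IsHomogeneous n ∧
    aeval x H ≠ 0 ∧ ∀ q : ι → ℂ, aeval q H ≠ 0 → IsU z q φ := by
  obtain ⟨a, ha, h⟩ := h
  obtain ⟨n, G, H, h1, h2, h3, h4, h5⟩ := h.nhds
  refine ⟨_, G * H, h1.mul h2, ?_, fun q hq => ?_⟩
  · rw [map_mul]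
    exact mul_ne_zero (fun h => ha (by rw [h4, h, zero_div])) h3
  · rw [map_mul, mul_ne_zero_iff] at hq
    exact ⟨_, div_ne_zero hq.1 hq.2, h5 q hq.2⟩

/-! ### Divisors -/

variable {D D' : (ι → ℂ) → K} {p p' : ι → ℂ}

theorem IsDiv.ne (hD : IsDiv z D) (hp : IsPt z p) : D p ≠ 0 := by
  obtain ⟨n, H, -, h1, h2⟩ := hD p hp
  exact fun h => (h2 p hp h1).ne hp (by simp [h])

theorem IsDiv.unit [Finite ι] (hD : IsDiv z D) (hx : IsPt z x) (hp : IsPt x p) (hp' : IsPt x p') :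
    IsU z x (D p / D p') := by
  obtain ⟨n, H, h1, h2, h3⟩ := hD p (hx.trans hp)
  obtain ⟨n', H', h4, h5, h6⟩ := hD p' (hx.trans hp')
  obtain ⟨q, h7, h8⟩ := IsPt.closed hx.1 (H := H * H')
    (by rw [map_mul]; exact mul_ne_zero (hp.ne h1 h2) (hp'.ne h4 h5))
  rw [map_mul, mul_ne_zero_iff] at h8
  have h9 := hx.trans h7
  have h10 := (((h3 q h9 h8.1).inv h9).mul (h6 q h9 h8.2)).gen h7
  rwa [inv_div, div_mul_div_cancel₀ (hD.ne h9)] at h10

theorem IsDiv.const (h : φ ≠ 0) : IsDiv z fun _ => φ := fun _ _ =>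
  ⟨0, 1, isHomogeneous_one _ _, by simp, fun _ _ _ => by simpa [h] using IsU.one⟩

theorem IsDiv.mul (hD : IsDiv z D) (hD' : IsDiv z D') : IsDiv z fun p => D p * D' p := by
  intro p hp
  obtain ⟨n, H, h1, h2, h3⟩ := hD p hp
  obtain ⟨n', H', h4, h5, h6⟩ := hD' p hp
  refine ⟨_, H * H', h1.mul h4, by simp only [map_mul]; exact mul_ne_zero h2 h5, fun q hq h => ?_⟩
  rw [map_mul, mul_ne_zero_iff] at h
  simpa only [mul_div_mul_comm] using (h3 q hq h.1).mul (h6 q hq h.2)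

theorem IsDiv.zpow (hD : IsDiv z D) (m : ℤ) : IsDiv z fun p => D p ^ m := fun p hp =>
  let ⟨n, H, h1, h2, h3⟩ := hD p hp
  ⟨n, H, h1, h2, fun q hq h => by simpa only [div_zpow] using (h3 q hq h).zpow hq m⟩

theorem IsDiv.inv (hD : IsDiv z D) : IsDiv z fun p => (D p)⁻¹ := by simpa using hD.zpow (-1)

/-- Quasi-compactness. -/
theorem cover [Finite ι] (H : (ι → ℂ) → MvPolynomial ι ℂ)
    (h : ∀ p : ι → ℂ, IsPt z p → aeval p (H p) ≠ 0) : ∃ s : Finset (ι → ℂ),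
      (∀ p ∈ s, IsPt z p) ∧ ∀ q : ι → ℂ, IsPt z q → ∃ p ∈ s, aeval q (H p) ≠ 0 := by
  classical
  obtain ⟨t, h1, h2⟩ := (Submodule.fg_span_iff_fg_span_finset_subset (R := MvPolynomial ι ℂ)
    (H '' {p | IsPt z p})).1 (IsNoetherian.noetherian _)
  obtain ⟨s, h3, rfl⟩ := Finset.subset_set_image_iff.1 h1
  refine ⟨s, fun p hp => h3 hp, fun q hq => of_not_not fun h4 => h q hq ?_⟩
  push Not at h4
  have h5 : Submodule.span (MvPolynomial ι ℂ) (s.image H : Set (MvPolynomial ι ℂ)) ≤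
      RingHom.ker (aeval q : MvPolynomial ι ℂ →ₐ[ℂ] ℂ) := Submodule.span_le.2 fun G hG => by
    obtain ⟨p, hp, rfl⟩ := Finset.mem_image.1 hG
    exact h4 p hp
  exact h5 (h2 ▸ Submodule.subset_span ⟨q, hq, rfl⟩)

theorem IsDiv.fin [Finite ι] (hD : IsDiv z D) : ∃ s : Finset (ι → ℂ), (∀ p ∈ s, IsPt z p) ∧
    ∀ q, IsPt z q → ∃ p ∈ s, IsU z q (D q / D p) := by
  choose! n H h1 h2 h3 using hD
  obtain ⟨s, h4, h5⟩ := cover H h2
  exact ⟨s, h4, fun q hq => (h5 q hq).imp fun p h => ⟨h.1, h3 p (h4 p h.1) q hq h.2⟩⟩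

/-! ### Centres of valuation rings -/

variable {V : ValuationSubring L}

/-- `y` is the centre of the valuation ring `V` on the closure of the point `x`. -/
def Cen (V : ValuationSubring L) (x : ι → L) (y : ι → L') : Prop :=
  y ≠ 0 ∧ (∀ c : ℂ, algebraMap ℂ L c ∈ V) ∧ ∃ c : L, (∀ j, c * x j ∈ V) ∧
    ∀ G : MvPolynomial ι ℂ, aeval y G = 0 ↔ V.valuation (aeval (fun j => c * x j) G) < 1

theorem aev_mem (hV : ∀ c : ℂ, algebraMap ℂ L c ∈ V) {w : I → L} (h : ∀ i, w i ∈ V)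
    (G : MvPolynomial I ℂ) : aeval w G ∈ V := by
  induction G using MvPolynomial.induction_on with
  | C c => simpa using hV c
  | add p q hp hq => simpa only [map_add] using add_mem hp hq
  | mul_X p i hp => simpa only [map_mul, aeval_X] using mul_mem hp (h i)

theorem Cen.pt (h : Cen V x y) : IsPt x y := by
  obtain ⟨h0, -, c, -, h⟩ := h
  exact ⟨h0, fun n G hG h' => (h G).2 (by simp [aeval_smul' hG, h'])⟩

theorem Cen.val (h : Cen V x y) {a : L'} (hb : Val x y b a) :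
    b ∈ V ∧ (a = 0 ↔ V.valuation b < 1) := by
  obtain ⟨-, hV, c, h1, h⟩ := h
  obtain ⟨n, G, H, h2, h3, h4, h5, h6⟩ := hb
  have h7 : V.valuation (aeval (fun j => c * x j) H) = 1 :=
    le_antisymm ((V.valuation_le_one_iff _).2 (aev_mem hV h1 H)) (not_lt.1 fun h' => h4 ((h H).2 h'))
  have h8 : V.valuation (aeval (fun j => c * x j) G) = V.valuation b := by
    rw [← mul_one (V.valuation b), ← h7, ← map_mul, aeval_smul' h2, aeval_smul' h3, ← h5]
    ring_nf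
  exact ⟨(V.valuation_le_one_iff _).1 (h8 ▸ (V.valuation_le_one_iff _).2 (aev_mem hV h1 G)),
    by rw [← h8, ← h, ← h6, mul_eq_zero, or_iff_left h4]⟩

theorem Cen.unit (h : Cen V x y) (hb : IsU x y b) : V.valuation b = 1 :=
  let ⟨_, ha, hb⟩ := hb
  le_antisymm ((V.valuation_le_one_iff _).2 (h.val hb).1) (not_lt.1 fun h' => ha ((h.val hb).2.2 h'))

omit [Algebra ℂ L] in
theorem exists_max [Finite I] (V : ValuationSubring L) {w : I → L} (h : w ≠ 0) :
    ∃ i, w i ≠ 0 ∧ ∀ j, w j / w i ∈ V := by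
  obtain ⟨i₀, h0⟩ := Function.ne_iff.1 h
  have : Nonempty I := ⟨i₀⟩
  obtain ⟨i, hi⟩ := Finite.exists_max fun i => V.valuation (w i)
  have h1 : w i ≠ 0 := fun h1 => h0 (by simpa [h1] using hi i₀)
  refine ⟨i, h1, fun j => (V.valuation_le_one_iff _).1 ?_⟩
  rw [map_div₀]
  exact div_le_one_of_le₀ (hi j) zero_le

theorem exists_res (hV : ∀ c : ℂ, algebraMap ℂ L c ∈ V) {w : I → L} (h : ∀ i, w i ∈ V) :
    ∃ (Ω : Type) (_ : Field Ω) (_ : Algebra ℂ Ω) (u : I → Ω),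
      ∀ G : MvPolynomial I ℂ, aeval u G = 0 ↔ V.valuation (aeval w G) < 1 := by
  let ρ : MvPolynomial I ℂ →+* V := (aeval w).toRingHom.codRestrict V (aev_mem hV h)
  obtain ⟨Ω, _, _, _, u, hu⟩ := exists_pt_of_prime ((IsLocalRing.maximalIdeal V).comap ρ)
  exact ⟨Ω, inferInstance, inferInstance, u, fun G =>
    (hu G).trans (V.valuation_lt_one_iff (ρ G))⟩

theorem exists_cen [Finite ι] (hV : ∀ c : ℂ, algebraMap ℂ L c ∈ V) (hx : x ≠ 0) :
    ∃ (Ω : Type) (_ : Field Ω) (_ : Algebra ℂ Ω) (y : ι → Ω), Cen V x y := by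
  obtain ⟨i, h1, h2⟩ := exists_max V hx
  simp only [div_eq_inv_mul] at h2
  obtain ⟨Ω, _, _, y, hy⟩ := exists_res hV h2
  exact ⟨Ω, inferInstance, inferInstance, y, Function.ne_iff.2 ⟨i, fun h => by
    simpa [h1] using (hy (X i)).1 (by simpa using h)⟩, hV, _, h2, hy⟩

end GMC
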