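import Pool.Agent.Work.MP_64a944_ag.N7

-- merged part: Pool.Agent.Work.MP_64a944_ag.N9
section
-- merged part: Pool.Agent.Work.MP_64a944_ag.N8
section
/-!
# The variety of triples of collinear points
-/

namespace GMC

open MvPolynomial PR0 PR0.Z GM

/-- Two vectors and a binary cubic. -/
abbrev T : Type := (Fin 7 ⊕ Fin 7) ⊕ Fin 4
/-- Pluecker indices. -/
abbrev IP : Type := Fin 7 × Fin 7
/-- Indices of the sections of the second line bundle. -/
abbrev IE : Type := IP × Fin 4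
/-- Indices of the coordinates. -/
abbrev IX : Type := IE × IP

section
variable {R R' : Type} [CommRing R] [CommRing R'] {ν ν' : T → R}

/-- The coefficients of `η (a X + b Y, c X + d Y)`. -/
def act (η : Fin 4 → R) (a b c d : R) : Fin 4 → R :=
  ![η 0 * (a * a * a) + η 1 * (a * a * c) + η 2 * (a * c * c) + η 3 * (c * c * c),
    η 0 * (3 * (a * a * b)) + η 1 * (2 * (a * b * c) + a * a * d) +
      η 2 * (b * c * c + 2 * (a * c * d)) + η 3 * (3 * (c * c * d)),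
    η 0 * (3 * (a * b * b)) + η 1 * (b * b * c + 2 * (a * b * d)) +
      η 2 * (2 * (b * c * d) + a * d * d) + η 3 * (3 * (c * d * d)),
    η 0 * (b * b * b) + η 1 * (b * b * d) + η 2 * (b * d * d) + η 3 * (d * d * d)]

theorem act_act (η : Fin 4 → R) (a b c d a' b' c' d' : R) : act (act η a b c d) a' b' c' d' =
    act η (a * a' + b * c') (a * b' + b * d') (c * a' + d * c') (c * b' + d * d') := by
  funext m
  fin_cases m <;>
    dsimp only [act, Matrix.cons_val, Fin.reduceFinMk, Fin.zero_eta, Fin.mk_one] <;> ring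

theorem act_mul (η : Fin 4 → R) (e a b c d : R) (m : Fin 4) :
    act (fun n => e * η n) a b c d m = e * act η a b c d m := by
  fin_cases m <;>
    dsimp only [act, Matrix.cons_val, Fin.reduceFinMk, Fin.zero_eta, Fin.mk_one] <;> ring

theorem act_diag (η : Fin 4 → R) (a d : R) (m : Fin 4) :
    act η a 0 0 d m = a ^ (3 - m.1) * d ^ m.1 * η m := by
  fin_cases m <;> simp [act] <;> ring

theorem act_inv (η : Fin 4 → R) (a b c d : R) (m : Fin 4) :
    act (act η a b c d) d (-b) (-c) a m = (a * d - b * c) ^ 3 * η m := by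
  fin_cases m <;>
    dsimp only [act, Matrix.cons_val, Fin.reduceFinMk, Fin.zero_eta, Fin.mk_one] <;> ring

theorem map_act {F : Type} [FunLike F R R'] [RingHomClass F R R'] (φ : F) (η : Fin 4 → R)
    (a b c d : R) (m : Fin 4) :
    φ (act η a b c d m) = act (fun n => φ (η n)) (φ a) (φ b) (φ c) (φ d) m := by
  fin_cases m <;>
    dsimp only [act, Matrix.cons_val, Fin.reduceFinMk, Fin.zero_eta, Fin.mk_one] <;>
    simp only [map_add, map_mul, map_ofNat]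

/-- First vector. -/
abbrev sv (ν : T → R) (l : Fin 7) : R := ν (.inl (.inl l))
/-- Second vector. -/
abbrev rv (ν : T → R) (l : Fin 7) : R := ν (.inl (.inr l))
/-- The cubic. -/
abbrev et (ν : T → R) (m : Fin 4) : R := ν (.inr m)

/-- Pluecker coordinates. -/
def Pl (ν : T → R) (c : IP) : R := sv ν c.1 * rv ν c.2 - sv ν c.2 * rv ν c.1

/-- The cubic evaluated on pencils of coordinate hyperplanes. -/
def Ee (ν : T → R) (c : IE) : R :=
  act (et ν) (sv ν c.1.1) (sv ν c.1.2) (rv ν c.1.1) (rv ν c.1.2) c.2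

/-- The homogeneous coordinates. -/
def Zc (ν : T → R) (b : IX) : R := Ee ν b.1 * Pl ν b.2

section
variable {F : Type} [FunLike F R R'] [RingHomClass F R R'] (φ : F) (ν : T → R)

theorem map_Pl (c : IP) : φ (Pl ν c) = Pl (fun t => φ (ν t)) c := by simp [Pl]

theorem map_Ee (c : IE) : φ (Ee ν c) = Ee (fun t => φ (ν t)) c := map_act φ _ _ _ _ _ _

theorem map_Zc (b : IX) : φ (Zc ν b) = Zc (fun t => φ (ν t)) b := by
  rw [Zc, map_mul, map_Pl, map_Ee, Zc]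

end

theorem aeval_Zc [Algebra ℂ R] (ν : T → R) (b : IX) : aeval ν (Zc (X (R := ℂ)) b) = Zc ν b := by
  simp [map_Zc]

theorem chg {α β γ δ c : R} (hs : ∀ l, sv ν l = α * sv ν' l + β * rv ν' l)
    (hr : ∀ l, rv ν l = γ * sv ν' l + δ * rv ν' l)
    (hη : ∀ m, act (et ν) α β γ δ m = c * et ν' m) :
    (∀ b, Ee ν b = c * Ee ν' b) ∧ (∀ b, Pl ν b = (α * δ - β * γ) * Pl ν' b) ∧
      ∀ b, Zc ν b = c * (α * δ - β * γ) * Zc ν' b := by
  have h1 : ∀ b, Ee ν b = c * Ee ν' b := fun b => by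
    rw [Ee, Ee, ← act_mul, ← funext hη, act_act, hs, hs, hr, hr]
  have h2 : ∀ b, Pl ν b = (α * δ - β * γ) * Pl ν' b := fun b => by
    rw [Pl, Pl, hs, hs, hr, hr]
    ring
  exact ⟨h1, h2, fun b => by rw [Zc, Zc, h1, h2]; ring⟩

theorem Pl_self (ν : T → R) (k : Fin 7) : Pl ν (k, k) = 0 := sub_self _

theorem Pl_swap (ν : T → R) (k l : Fin 7) : Pl ν (k, l) = -Pl ν (l, k) := (neg_sub _ _).symm

theorem et_eq (ν : T → R) (c : IP) (m : Fin 4) : act (fun n => Ee ν (c, n)) (rv ν c.2) (-sv ν c.2)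
    (-rv ν c.1) (sv ν c.1) m = Pl ν c ^ 3 * et ν m := by
  have h : (fun n => Ee ν (c, n)) = act (et ν) (sv ν c.1) (sv ν c.2) (rv ν c.1) (rv ν c.2) := rfl
  rw [h, act_inv, Pl]

/-- The point with given coordinates in the first chart. -/
def pk (y : Fin 13 → R) : T → R :=
  Sum.elim (Sum.elim ![1, 0, y 5, y 6, y 7, y 8, y 9] ![0, 1, y 0, y 1, y 2, y 3, y 4])
    ![1, y 10, y 11, y 12]

theorem map_pk {F : Type} [FunLike F R R'] [RingHomClass F R R'] (φ : F) (y : Fin 13 → R) (t : T) :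
    φ (pk y t) = pk (fun k => φ (y k)) t := by
  rcases t with (l | l) | l <;> fin_cases l <;> simp [pk]

end

/-- The index of the coordinate that gives the normalised entry `t`. -/
def ix (b : IX) : T → IX :=
  Sum.elim (Sum.elim (fun n => (b.1, (n, b.2.2))) fun n => (b.1, (b.2.1, n))) fun m => ((b.2, m), b.2)

/-- The positions of the chart variables. -/
def emb : Fin 13 → T :=
  ![.inl (.inr 2), .inl (.inr 3), .inl (.inr 4), .inl (.inr 5), .inl (.inr 6), .inl (.inl 2),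
    .inl (.inl 3), .inl (.inl 4), .inl (.inl 5), .inl (.inl 6), .inr 1, .inr 2, .inr 3]

/-- Permutations of the coordinates. -/
abbrev Pm : Type := Equiv.Perm (Fin 7) × Equiv.Perm (Fin 4)

/-- Action on positions. -/
def mT (π : Pm) : T ≃ T := (π.1.sumCongr π.1).sumCongr π.2

/-- The index of the chart. -/
def dg (π : Pm) : IX := (((π.1 0, π.1 1), π.2 0), (π.1 0, π.1 1))

theorem exists_pm {k l : Fin 7} (h : k ≠ l) (m : Fin 4) : ∃ π, dg π = (((k, l), m), (k, l)) := by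
  have h1 : ∀ k l : Fin 7, k ≠ l → (Equiv.swap 0 k * Equiv.swap 1 (Equiv.swap 0 k l)) 0 = k ∧
    (Equiv.swap 0 k * Equiv.swap 1 (Equiv.swap 0 k l)) 1 = l := by decide
  exact ⟨(_, Equiv.swap 0 m), by rw [dg, (h1 k l h).1, (h1 k l h).2, Equiv.swap_apply_left]⟩

variable {K L : Type} [Field K] [Field L] {ν : T → L} {b : IX}

/-- The normalised entries. -/
def nz (x : IX → L) (b : IX) (t : T) : L := x (ix b t) / x b

/-- The chart coordinates. -/
def cc (x : IX → L) (π : Pm) (k : Fin 13) : L := nz x (dg π) (mT π (emb k))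

theorem nz_s (h : Zc ν b ≠ 0) (n : Fin 7) : sv (nz (Zc ν) b) n = Pl ν (n, b.2.2) / Pl ν b.2 :=
  mul_div_mul_left _ _ (left_ne_zero_of_mul h)

theorem nz_r (h : Zc ν b ≠ 0) (n : Fin 7) : rv (nz (Zc ν) b) n = Pl ν (b.2.1, n) / Pl ν b.2 :=
  mul_div_mul_left _ _ (left_ne_zero_of_mul h)

theorem nz_e (h : Zc ν b ≠ 0) (m : Fin 4) : et (nz (Zc ν) b) m = Ee ν (b.2, m) / Ee ν b.1 :=
  mul_div_mul_right _ _ (right_ne_zero_of_mul h)

theorem nz_sv (h : Zc ν b ≠ 0) (n : Fin 7) :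
    sv ν n = sv ν b.2.1 * sv (nz (Zc ν) b) n + sv ν b.2.2 * rv (nz (Zc ν) b) n := by
  have h1 := right_ne_zero_of_mul h
  rw [nz_s h, nz_r h]
  field_simp
  simp only [Pl]
  ring

theorem nz_rv (h : Zc ν b ≠ 0) (n : Fin 7) :
    rv ν n = rv ν b.2.1 * sv (nz (Zc ν) b) n + rv ν b.2.2 * rv (nz (Zc ν) b) n := by
  have h1 := right_ne_zero_of_mul h
  rw [nz_s h, nz_r h]
  field_simp
  simp only [Pl]
  ring

theorem nz_chg (h : Zc ν b ≠ 0) : (∀ c, Ee ν c = Ee ν b.1 * Ee (nz (Zc ν) b) c) ∧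
    (∀ c, Pl ν c = Pl ν b.2 * Pl (nz (Zc ν) b) c) ∧ ∀ c, Zc ν c = Zc ν b * Zc (nz (Zc ν) b) c :=
  chg (nz_sv h) (nz_rv h) fun m => by
    rw [nz_e h, mul_div_cancel₀ _ (left_ne_zero_of_mul h)]
    rfl

theorem nz_Zc (h : Zc ν b ≠ 0) (c : IX) : Zc ν c / Zc ν b = Zc (nz (Zc ν) b) c := by
  rw [(nz_chg h).2.2 c, mul_div_cancel_left₀ _ h]

theorem nz_pk {π : Pm} (h : Zc ν (dg π) ≠ 0) (t : T) :
    nz (Zc ν) (dg π) (mT π t) = pk (cc (Zc ν) π) t := by
  have h1 : Zc ν (((π.1 0, π.1 1), π.2 0), (π.1 0, π.1 1)) ≠ 0 := h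
  rcases t with (l | l) | l <;> fin_cases l <;>
    first | rfl | exact div_self h | simp [nz, mT, ix, dg, pk, Zc, Pl_self]

theorem exists_dg (h : Zc ν ≠ 0) : ∃ π, Zc ν (dg π) ≠ 0 := by
  obtain ⟨b, hb⟩ := Function.ne_iff.1 h
  have h1 := right_ne_zero_of_mul hb
  obtain ⟨m, hm⟩ : ∃ m, Ee ν (b.2, m) ≠ 0 := by
    by_contra! h2
    have h3 : et ν = fun _ => 0 * 0 := funext fun m => by
      have h3 := et_eq ν b.2 m
      rw [show (fun n => Ee ν (b.2, n)) = fun _ => 0 * 0 by simp [h2], act_mul, zero_mul] at h3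
      simpa [h1] using h3
    exact left_ne_zero_of_mul hb (by rw [Ee, h3, act_mul, zero_mul])
  obtain ⟨π, hπ⟩ := exists_pm (k := b.2.1) (l := b.2.2) (fun h => h1 (by
    rw [show b.2 = (b.2.2, b.2.2) from Prod.ext h rfl, Pl_self])) m
  exact ⟨π, hπ ▸ mul_ne_zero hm h1⟩

theorem Zc_pk {R : Type} [CommRing R] (y : Fin 13 → R) : Zc (pk y) (dg 1) = 1 := by
  simp [Zc, Ee, Pl, act, pk, dg]

theorem cc_pk (y : Fin 13 → L) : cc (Zc (pk y)) 1 = y := by
  have e1 : ∀ k, ix (dg 1) (mT 1 (emb k)) = ![(((0, 1), 0), (0, 2)), (((0, 1), 0), (0, 3)),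
      (((0, 1), 0), (0, 4)), (((0, 1), 0), (0, 5)), (((0, 1), 0), (0, 6)), (((0, 1), 0), (2, 1)),
      (((0, 1), 0), (3, 1)), (((0, 1), 0), (4, 1)), (((0, 1), 0), (5, 1)), (((0, 1), 0), (6, 1)),
      (((0, 1), 1), (0, 1)), (((0, 1), 2), (0, 1)), (((0, 1), 3), (0, 1))] k := by decide
  funext k
  rw [cc, nz, Zc_pk, e1, div_one]
  fin_cases k <;>
    dsimp only [Zc, Ee, Pl, act, pk, sv, rv, et, Matrix.cons_val, Sum.elim_inl, Sum.elim_inr,
      Fin.reduceFinMk, Fin.zero_eta, Fin.mk_one] <;> ring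

/-- The function field. -/
abbrev K0 : Type := FractionRing (MvPolynomial (Fin 13) ℂ)

/-- The coordinates of the first chart. -/
noncomputable def y0 (k : Fin 13) : K0 := algebraMap (MvPolynomial (Fin 13) ℂ) K0 (X k)

theorem co_frac {σ : Type} : Co fun k : σ =>
    algebraMap (MvPolynomial σ ℂ) (FractionRing (MvPolynomial σ ℂ)) (X k) := by
  have h1 : (aeval fun k : σ => algebraMap (MvPolynomial σ ℂ) (FractionRing (MvPolynomial σ ℂ))
      (X k)) = IsScalarTower.toAlgHom ℂ (MvPolynomial σ ℂ) _ := algHom_ext fun k => by simp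
  refine ⟨by rw [AlgebraicIndependent, h1]; exact IsFractionRing.injective _ _,
    eq_top_iff.2 fun x _ => ?_⟩
  obtain ⟨A, B, -, rfl⟩ := IsFractionRing.div_surjective (A := MvPolynomial σ ℂ) x
  exact (IntermediateField.mem_adjoin_range_iff _ _ _).2 ⟨A, B, by rw [h1]; rfl⟩

theorem co_y0 : Co y0 := co_frac

/-- The generic point. -/
noncomputable def z0 : IX → K0 := Zc (pk y0)

theorem z0_ne : z0 (dg 1) ≠ 0 := (Zc_pk _).trans_ne one_ne_zero

theorem z0_gen : Gen z0 := eq_top_iff.2 (co_y0.2.ge.trans (IntermediateField.adjoin.mono _ _ _ (by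
  rintro _ ⟨k, rfl⟩
  exact ⟨(_, dg 1), congrFun (cc_pk y0) k⟩)))

/-- The variety. -/
noncomputable abbrev X0 : Var := ⟨K0, IX, z0, Function.ne_iff.2 ⟨_, z0_ne⟩, z0_gen⟩

variable [Algebra ℂ K] [Algebra ℂ L]

theorem spc_pk {y : Fin 13 → K} {y' : Fin 13 → L} (h : Spc ℂ y y') :
    Spc ℂ (Zc (pk y)) (Zc (pk y')) := by
  simpa only [map_Zc, map_pk, aeval_X] using h.aeval (Zc (pk X))

omit [Algebra ℂ L] in
theorem Zc_eq (h : Zc ν (dg 1) ≠ 0) :
    Zc ν = fun b => Zc ν (dg 1) * Zc (pk (cc (Zc ν) 1)) b := by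
  funext b
  rw [(nz_chg h).2.2 b, ← funext (nz_pk h)]
  congr 2
  funext t
  rcases t with (l | l) | l <;> rfl

theorem spc_indep {σ : Type} {y : σ → K} (h : AlgebraicIndependent ℂ y) (y' : σ → L) :
    Spc ℂ y y' := fun G hG => by rw [algebraicIndependent_iff.1 h G hG, map_zero]

omit [Algebra ℂ L] in
theorem Zc_pk_ne (y : Fin 13 → L) : Zc (pk y) ≠ 0 :=
  Function.ne_iff.2 ⟨_, (Zc_pk _).trans_ne one_ne_zero⟩

theorem pt_Zc (h : Zc ν ≠ 0) : IsPt z0 (Zc ν) := by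
  have h1 : ∀ {L : Type} [Field L] [Algebra ℂ L] {ν : T → L}, Zc ν (dg 1) ≠ 0 → IsPt z0 (Zc ν) :=
    fun h => Zc_eq h ▸ (IsPt.of_spc (spc_pk (spc_indep co_y0.1 _)) (Zc_pk_ne _)).smul h
  have h2 := (spc_indep (co_frac (σ := T)).1 ν).aeval (Zc X)
  have h3 := (spc_indep (co_frac (σ := T)).1 (pk (0 : Fin 13 → ℂ))).aeval (Zc X)
  simp only [aeval_Zc] at h2 h3
  exact (h1 fun h4 => by simpa [Zc_pk] using h3 (X (dg 1)) (by simpa using h4)).trans
    (.of_spc h2 h)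

theorem gen_Zc (h : Zc ν (dg 1) ≠ 0) (h' : AlgebraicIndependent ℂ (cc (Zc ν) 1)) :
    IsPt (Zc ν) z0 :=
  Zc_eq h ▸ (IsPt.of_spc (spc_pk (spc_indep h' _)) (Zc_pk_ne _)).smul' h

theorem IsPt.Zc {x : IX → L} (hx : IsPt z0 x) : ∃ ν, x = Zc ν := by
  obtain ⟨b, hb⟩ := hx.ex
  refine ⟨Sum.elim (fun t => nz x b (.inl t)) fun m => x b * nz x b (.inr m), funext fun c => ?_⟩
  have h1 := Val.aev (fun t => Val.ratio hx hb (ix b t)) (GMC.Zc X c)
  rw [aeval_Zc, aeval_Zc] at h1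
  have h2 := (Val.ratio hx hb c).unique hx ((nz_Zc (hx.ne' hb) c).symm ▸ h1)
  rw [(chg (ν' := nz x b) (α := 1) (β := 0) (γ := 0) (δ := 1) (c := x b) (fun l => by simp)
    (fun l => by simp) fun m => by simp [act_diag]).2.2, ← mul_div_cancel₀ (x c) hb, h2, mul_one,
    mul_zero, sub_zero, mul_one]
  rfl

theorem dm_indep {σ : Type} [Finite σ] {y : σ → K} (h : AlgebraicIndependent ℂ y) :
    dm ℂ y = Nat.card σ := by
  rw [dm, ← (Finite.equivFin σ).symm.surjective.range_comp]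
  exact rk_range_of_indep (h.comp _ (Finite.equivFin σ).symm.injective)

theorem Co.of_top {σ τ : Type} [Finite σ] [Finite τ] {y : σ → K} {w : τ → K}
    (hw : AlgebraicIndependent ℂ w) (h : Nat.card σ ≤ Nat.card τ)
    (hy : IntermediateField.adjoin ℂ (Set.range y) = ⊤) : Co y :=
  ⟨indep_of_rk ((Nat.cast_le.2 h).trans ((dm_indep hw).ge.trans
    (rk_le_of_mem fun _ _ => hy.ge IntermediateField.mem_top))), hy⟩

theorem chart_dg {π : Pm} (h : z0 (dg π) ≠ 0) : Chart z0 (dg π) (cc z0 π) := by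
  have h1 : ∀ b, z0 b / z0 (dg π) = aeval (cc z0 π) (Zc (fun t => pk (X (R := ℂ))
      ((mT π).symm t)) b) := fun b => by
    simp only [map_Zc, map_pk, aeval_X, z0, ← nz_pk h, Equiv.apply_symm_apply]
    exact nz_Zc h b
  refine ⟨.of_top co_y0.1 le_rfl (eq_top_iff.2 ((z0_gen.chart h).ge.trans
    (IntermediateField.adjoin_le_iff.2 ?_))), fun k => ⟨_, rfl⟩, fun b => ⟨_, h1 b⟩⟩
  rintro _ ⟨b, rfl⟩
  exact (IntermediateField.mem_adjoin_range_iff _ _ _).2 ⟨_, 1, by simpa using h1 b⟩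

theorem cover_dg {x : IX → L} (hx : IsPt z0 x) : ∃ π, x (dg π) ≠ 0 := by
  obtain ⟨ν, rfl⟩ := hx.Zc
  exact exists_dg hx.1

theorem X0_smooth : X0.Smooth := fun _ hp =>
  let ⟨_, h⟩ := cover_dg hp
  ⟨_, h, (chart_dg (hp.ne' h)).smooth⟩

omit [Algebra ℂ L] in
theorem ratio_E (h : Zc ν b ≠ 0) (c : IE) : Zc ν (c, b.2) / Zc ν b = Ee ν c / Ee ν b.1 :=
  mul_div_mul_right _ _ (right_ne_zero_of_mul h)

omit [Algebra ℂ L] in
theorem ratio_P (h : Zc ν b ≠ 0) (c : IP) : Zc ν (b.1, c) / Zc ν b = Pl ν c / Pl ν b.2 :=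
  mul_div_mul_left _ _ (left_ne_zero_of_mul h)

theorem mor_E : IsMor z0 (Ee (pk y0)) := fun _ hp =>
  let ⟨b, h⟩ := hp.ex
  ⟨b.1, left_ne_zero_of_mul (hp.ne' h), fun c => ⟨_, ratio_E (hp.ne' h) c ▸ Val.ratio hp h _⟩⟩

theorem mor_P : IsMor z0 (Pl (pk y0)) := fun _ hp =>
  let ⟨b, h⟩ := hp.ex
  ⟨b.2, right_ne_zero_of_mul (hp.ne' h), fun c => ⟨_, ratio_P (hp.ne' h) c ▸ Val.ratio hp h _⟩⟩

theorem img_E (h : Zc ν b ≠ 0) : Img z0 (Ee (pk y0)) (Zc ν) fun c => (Ee ν b.1)⁻¹ * Ee ν c := by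
  have h1 := pt_Zc (Function.ne_iff.2 ⟨b, h⟩)
  refine ⟨Function.ne_iff.2 ⟨b.1, by simp [left_ne_zero_of_mul h]⟩, (Ee (pk y0) b.1)⁻¹, fun c => ?_⟩
  simp only [← div_eq_inv_mul, ← ratio_E h, ← ratio_E (h1.ne' h)]
  exact Val.ratio h1 h _

theorem img_P (h : Zc ν b ≠ 0) : Img z0 (Pl (pk y0)) (Zc ν) fun c => (Pl ν b.2)⁻¹ * Pl ν c := by
  have h1 := pt_Zc (Function.ne_iff.2 ⟨b, h⟩)
  refine ⟨Function.ne_iff.2 ⟨b.2, by simp [right_ne_zero_of_mul h]⟩, (Pl (pk y0) b.2)⁻¹,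
    fun c => ?_⟩
  simp only [← div_eq_inv_mul, ← ratio_P h, ← ratio_P (h1.ne' h)]
  exact Val.ratio h1 h _

end GMC
end

-- merged part: Pool.Agent.Work.MP_64a944_ag.N9
section
/-!
# Divisor classes on the variety; the variety is Fano
-/

namespace GMC

open MvPolynomial PR0 PR0.Z GM

variable {K : Type} [Field K] [Algebra ℂ K] {ι κ σ : Type} {V : ValuationSubring K} {z : ι → K}
  {p : ι → ℂ} {f : κ → K}

/-- `w i` has the largest size. -/
def Mx (V : ValuationSubring K) (w : κ → K) (i : κ) : Prop := w i ≠ 0 ∧ ∀ j, w j / w i ∈ V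

omit [Algebra ℂ K] in
theorem Mx.of_one {i j : κ} (h : Mx V f i) (h' : V.valuation (f j / f i) = 1) : Mx V f j := by
  have h0 : f j ≠ 0 := fun h0 => by simp [h0] at h'
  exact ⟨h0, fun l => mem_of_mul h' (by rw [div_mul_div_cancel₀ h0]; exact h.2 l)⟩

omit [Algebra ℂ K] in
theorem Mx.one {i j : κ} (h : Mx V f i) (h' : Mx V f j) : V.valuation (f j / f i) = 1 :=
  val_one (div_ne_zero h'.1 h.1) (h.2 j) (inv_div (f j) _ ▸ h'.2 i)

omit [Algebra ℂ K] in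
theorem Mx.lt {i j : κ} (h : Mx V f i) (h' : ¬ Mx V f j) : V.valuation (f j / f i) < 1 :=
  of_not_not fun h1 => h' (h.of_one (val_eq (h.2 j) h1))

theorem hyp_val (hf : IsMor z f) (hp : IsPt z p) (hV : ∀ φ, Reg z p φ → φ ∈ V) {i : κ}
    (h : Mx V f i) : V.valuation (hyp z f p) = V.valuation (f i)⁻¹ := by
  obtain ⟨j, h1, h2, h3⟩ := hf.hyp hp
  have h4 := h.one ⟨h1, fun l => hV _ (h2 l)⟩
  rw [map_div₀, div_eq_one_iff_eq ((Valuation.ne_zero_iff _).2 h.1)] at h4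
  rw [h3, map_inv₀, map_inv₀, h4]

theorem chart_pr [Fintype σ] [DecidableEq σ] {y y' : σ → K} {i i' : ι} (hV : LocV z V p)
    (hi : p i ≠ 0) (h : Chart z i y) (h' : Chart z i' y') (h1 : Mx V z i') : ∃ q, Pr V y' q := by
  obtain ⟨δ, hδ⟩ := exists_dual h.co.1
  have h2 : ∀ b, Lc V y' (z b / z i') := fun b => (h'.pol b).elim fun G hG => hG ▸ Lc.poly G
  refine exists_pr h'.co hV.ne hV.const (fun k => (h'.rat k).elim fun b hb => hb ▸ h1.2 b)
    (Big.trans (fun k => ?_) (big_of_der hV.const (fun k => hV.mem _ (h.reg hV.pt hi k)) hδ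
      fun k x hx => ?_))
  · obtain ⟨b, hb⟩ := h.rat k
    rw [hb, ← div_div_div_cancel_right₀ h1.1]
    exact (h2 b).div (h2 i) (h1.one ⟨hV.pt.ne' hi, fun j => hV.mem _ ⟨_, Val.ratio hV.pt hi j⟩⟩)
  · obtain ⟨a, s, h3, h4, h5, h6⟩ := hV.loc x hx
    exact der_mem (hV.mem _ (h.der hδ hV.pt hi k h3)) (hV.mem _ (h.der hδ hV.pt hi k h4)) hx h5 h6

theorem der_two (d : Derivation ℂ K K) : d 2 = 0 := d.map_natCast 2

theorem der_three (d : Derivation ℂ K K) : d 3 = 0 := d.map_natCast 3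

section
variable {ν : T → K} {b : IX}

omit [Algebra ℂ K] in
theorem Mx.E (h : Mx V (Zc ν) b) : Mx V (Ee ν) b.1 :=
  ⟨left_ne_zero_of_mul h.1, fun c => ratio_E h.1 c ▸ h.2 _⟩

omit [Algebra ℂ K] in
theorem Mx.P (h : Mx V (Zc ν) b) : Mx V (Pl ν) b.2 :=
  ⟨right_ne_zero_of_mul h.1, fun c => ratio_P h.1 c ▸ h.2 _⟩

omit [Algebra ℂ K] in
theorem Mx.swap {k l : Fin 7} (h : Mx V (Pl ν) (k, l)) : Mx V (Pl ν) (l, k) :=
  h.of_one (by rw [Pl_swap, neg_div, div_self h.1, Valuation.map_neg, map_one])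

theorem Mx.diag (hV : ∀ c : ℂ, algebraMap ℂ K c ∈ V) {c : IP} (h : Mx V (Pl ν) c)
    (h0 : et ν ≠ 0) : ∃ m, Mx V (Zc ν) ((c, m), c) := by
  obtain ⟨m, h1, h2⟩ := exists_max V (w := fun m => Ee ν (c, m)) fun h1 => h0 (funext fun m => by
    have h2 := et_eq ν c m
    rw [h1, show (0 : Fin 4 → K) = fun _ => 0 * 0 by simp; rfl, act_mul, zero_mul] at h2
    simpa [h.1] using h2)
  have h3 : Zc ν ((c, m), c) ≠ 0 := mul_ne_zero h1 h.1
  refine ⟨m, h3, fun b => ?_⟩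
  rw [nz_Zc h3, ← aeval_Zc]
  refine aev_mem hV ?_ _
  rintro ((n | n) | n)
  exacts [(congrArg (· ∈ V) (nz_s h3 n)).mpr (h.2 _), (congrArg (· ∈ V) (nz_r h3 n)).mpr (h.2 _),
    (congrArg (· ∈ V) (nz_e h3 n)).mpr (h2 n)]

end

/-- Positions of variables. -/
def Nv (k l : Fin 7) (m : Fin 4) (t : T) : Prop :=
  t ≠ .inl (.inl k) ∧ t ≠ .inl (.inl l) ∧ t ≠ .inl (.inr k) ∧ t ≠ .inl (.inr l) ∧ t ≠ .inr m

theorem Nv.ex {π : Pm} {t : T} (h : Nv (π.1 0) (π.1 1) (π.2 0) t) : ∃ j, mT π (emb j) = t := by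
  obtain ⟨t, rfl⟩ := (mT π).surjective t
  have h1 : ∀ t, Nv 0 1 0 t → ∃ j, emb j = t := by
    unfold Nv
    decide
  exact (h1 t ⟨fun h' => h.1 (h' ▸ rfl), fun h' => h.2.1 (h' ▸ rfl), fun h' => h.2.2.1 (h' ▸ rfl),
    fun h' => h.2.2.2.1 (h' ▸ rfl), fun h' => h.2.2.2.2 (h' ▸ rfl)⟩).imp fun _ h => congrArg _ h

variable {V : ValuationSubring K0} {p : IX → ℂ}

theorem pr_dg (hV : LocV z0 V p) {π : Pm} (h : Mx V z0 (dg π)) : ∃ q, Pr V (cc z0 π) q :=
  let ⟨_, h1⟩ := cover_dg hV.pt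
  chart_pr hV h1 (chart_dg (hV.pt.ne' h1)) (chart_dg h.1) h

theorem two_dg (hV : LocV z0 V p) {k l : Fin 7} {m : Fin 4} (h : Mx V z0 (((k, l), m), (k, l)))
    {t t' : T} (h1 : Nv k l m t) (h2 : Nv k l m t') (h3 : t' ≠ t)
    (h4 : V.valuation (nz z0 (((k, l), m), (k, l)) t) < 1) :
    V.valuation (nz z0 (((k, l), m), (k, l)) t') = 1 := by
  obtain ⟨π, hπ⟩ := exists_pm (k := k) (l := l) (fun h' => h.P.1 (h' ▸ Pl_self _ _)) m
  obtain ⟨⟨rfl, rfl⟩, rfl⟩ : (π.1 0 = k ∧ π.1 1 = l) ∧ π.2 0 = m := by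
    simpa [dg] using congrArg Prod.fst hπ
  obtain ⟨j, rfl⟩ := h1.ex
  obtain ⟨j', rfl⟩ := h2.ex
  obtain ⟨q, hq⟩ := pr_dg hV h
  exact hq.two h4 fun h5 => h3 (h5 ▸ rfl)

/-- The second chart. -/
def p1 : Pm := (1, Equiv.swap 0 1)
/-- The third chart. -/
def p2 : Pm := (Equiv.swap 1 2, 1)

theorem tri (hV : LocV z0 V p) : Mx V z0 (dg 1) ∨ (Mx V z0 (dg p1) ∧ Pr V (cc z0 p1) (X 10)) ∨
    (Mx V z0 (dg p2) ∧ Pr V (cc z0 p2) (X 0)) := by
  have h0 : et (pk y0) ≠ 0 := fun h => one_ne_zero (congrFun h 0)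
  obtain ⟨l, h1⟩ : ∃ l, Mx V (Pl (pk y0)) (0, l) := by
    obtain ⟨⟨k, l⟩, h1⟩ := exists_max V (w := Pl (pk y0))
      (Function.ne_iff.2 ⟨_, right_ne_zero_of_mul z0_ne⟩)
    by_contra! h2
    have h3 : k ≠ 0 := fun h => h2 l (h ▸ h1)
    have h4 : l ≠ 0 := fun h => h2 k (Mx.swap (h ▸ h1))
    obtain ⟨m, h5⟩ := Mx.diag hV.const h1 h0
    have h6 := two_dg hV h5 (t := .inl (.inl 0)) (t' := .inl (.inr 0)) (by simp [Nv, h3.symm, h4.symm])
      (by simp [Nv, h3.symm, h4.symm]) (by simp) 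
      ((congrArg _ (nz_s h5.1 0)).trans_lt (Mx.lt h1 (h2 l)))
    exact h2 k (Mx.of_one h1 (nz_r h5.1 0 ▸ h6)).swap
  by_cases h2 : Mx V (Pl (pk y0)) (0, 1)
  · obtain ⟨m, h3⟩ := h2.diag hV.const h0
    refine or_iff_not_imp_left.2 fun h4 => .inl ?_
    have h5 : Mx V z0 (dg p1) := of_not_not fun h5 => by
      have h6 : m ≠ 0 := fun h => h4 (by subst h; exact h3)
      have h7 : m ≠ 1 := fun h => h5 (by subst h; exact h3)
      exact h5 (h3.of_one (two_dg hV h3 (t := .inr 0) (t' := .inr 1) (by simp [Nv, h6.symm])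
        (by simp [Nv, h7.symm]) (by simp) (h3.lt h4)))
    exact ⟨h5, (pr_dg hV h5).elim fun q hq => hq.var (h5.lt h4)⟩
  · have h3 : Mx V (Pl (pk y0)) (0, 2) := of_not_not fun h3 => by
      obtain ⟨m, h4⟩ := h1.diag hV.const h0
      have h5 : l ≠ 1 := fun h => h2 (h ▸ h1)
      have h6 : l ≠ 2 := fun h => h3 (h ▸ h1)
      exact h3 (h1.of_one (nz_r h4.1 2 ▸ two_dg hV h4 (t := .inl (.inr 1)) (t' := .inl (.inr 2))
        (by simp [Nv, h5.symm]) (by simp [Nv, h6.symm]) (by simp) 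
        ((congrArg _ (nz_r h4.1 1)).trans_lt (h1.lt h2))))
    obtain ⟨m, h4⟩ := h3.diag hV.const h0
    have h5 : Mx V z0 (dg p2) := of_not_not fun h5 => by
      have h6 : m ≠ 0 := fun h => h5 (by subst h; exact h4)
      exact h5 (h4.of_one (two_dg hV h4 (t := .inl (.inr 1)) (t' := .inr 0) (by simp [Nv])
        (by simp [Nv, h6.symm]) (by simp) ((congrArg _ (nz_r h4.1 1)).trans_lt (h3.lt h2))))
    exact .inr (.inr ⟨h5, (pr_dg hV h5).elim fun q hq => 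
      hq.var ((congrArg _ (nz_r h5.1 1)).trans_lt (h3.lt h2))⟩)

theorem dg_vals {R : Type} [CommRing R] (y : Fin 13 → R) :
    (Ee (pk y) (dg 1).1 = 1 ∧ Pl (pk y) (dg 1).2 = 1) ∧
    (Ee (pk y) (dg p1).1 = y 10 ∧ Pl (pk y) (dg p1).2 = 1) ∧
    (Ee (pk y) (dg p2).1 = 1 ∧ Pl (pk y) (dg p2).2 = y 0) := by
  have e0 : dg 1 = (((0, 1), 0), (0, 1)) := by decide
  have e1 : dg p1 = (((0, 1), 1), (0, 1)) := by decide
  have e2 : dg p2 = (((0, 2), 0), (0, 2)) := by decide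
  rw [e0, e1, e2]
  dsimp only [Ee, Pl, act, pk, sv, rv, et, Matrix.cons_val, Sum.elim_inl, Sum.elim_inr]
  refine ⟨⟨?_, ?_⟩, ⟨?_, ?_⟩, ?_, ?_⟩ <;> ring

theorem y0_ne (k : Fin 13) : y0 k ≠ 0 := by
  simpa using (map_ne_zero_iff _ co_y0.1).2 (X_ne_zero k)

theorem cc_p1h {L : Type} [Field L] (y : Fin 13 → L) (h : y 10 ≠ 0) :
    cc (Zc (pk y)) p1 = ![y 0, y 1, y 2, y 3, y 4, y 5, y 6, y 7, y 8, y 9, (y 10)⁻¹,
    y 11 / y 10, y 12 / y 10] := by
  have e1 : ∀ k, ix (dg p1) (mT p1 (emb k)) = ![(((0, 1), 1), (0, 2)), (((0, 1), 1), (0, 3)),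
      (((0, 1), 1), (0, 4)), (((0, 1), 1), (0, 5)), (((0, 1), 1), (0, 6)), (((0, 1), 1), (2, 1)),
      (((0, 1), 1), (3, 1)), (((0, 1), 1), (4, 1)), (((0, 1), 1), (5, 1)), (((0, 1), 1), (6, 1)),
      (((0, 1), 0), (0, 1)), (((0, 1), 2), (0, 1)), (((0, 1), 3), (0, 1))] k := by decide
  have e2 : Zc (pk y) (dg p1) = y 10 := by
    rw [Zc, (dg_vals y).2.1.1, (dg_vals y).2.1.2, mul_one]
  funext k
  rw [cc, nz, e1, e2, div_eq_iff h]
  fin_cases k <;>
    dsimp only [Zc, Ee, Pl, act, pk, sv, rv, et, Matrix.cons_val, Sum.elim_inl, Sum.elim_inr,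
      Fin.reduceFinMk, Fin.zero_eta, Fin.mk_one] <;> field_simp <;> ring

theorem cc_p2h {L : Type} [Field L] (y : Fin 13 → L) (h : y 0 ≠ 0) :
    cc (Zc (pk y)) p2 = ![(y 0)⁻¹, y 1 / y 0, y 2 / y 0, y 3 / y 0, y 4 / y 0,
    -y 5 / y 0, y 6 - y 5 * y 1 / y 0, y 7 - y 5 * y 2 / y 0, y 8 - y 5 * y 3 / y 0,
    y 9 - y 5 * y 4 / y 0, 3 * y 5 + y 10 * y 0,
    3 * (y 5 * y 5) + y 10 * (2 * (y 5 * y 0)) + y 11 * (y 0 * y 0),
    y 5 * y 5 * y 5 + y 10 * (y 5 * y 5 * y 0) + y 11 * (y 5 * y 0 * y 0) +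
      y 12 * (y 0 * y 0 * y 0)] := by
  have e1 : ∀ k, ix (dg p2) (mT p2 (emb k)) = ![(((0, 2), 0), (0, 1)), (((0, 2), 0), (0, 3)),
      (((0, 2), 0), (0, 4)), (((0, 2), 0), (0, 5)), (((0, 2), 0), (0, 6)), (((0, 2), 0), (1, 2)),
      (((0, 2), 0), (3, 2)), (((0, 2), 0), (4, 2)), (((0, 2), 0), (5, 2)), (((0, 2), 0), (6, 2)),
      (((0, 2), 1), (0, 2)), (((0, 2), 2), (0, 2)), (((0, 2), 3), (0, 2))] k := by decide
  have e2 : Zc (pk y) (dg p2) = y 0 := by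
    rw [Zc, (dg_vals y).2.2.1, (dg_vals y).2.2.2, one_mul]
  funext k
  rw [cc, nz, e1, e2, div_eq_iff h]
  fin_cases k <;>
    dsimp only [Zc, Ee, Pl, act, pk, sv, rv, et, Matrix.cons_val, Sum.elim_inl, Sum.elim_inr,
      Fin.reduceFinMk, Fin.zero_eta, Fin.mk_one] <;> field_simp <;> ring

theorem cc_p1 : cc z0 p1 = ![y0 0, y0 1, y0 2, y0 3, y0 4, y0 5, y0 6, y0 7, y0 8, y0 9, (y0 10)⁻¹,
    y0 11 / y0 10, y0 12 / y0 10] := cc_p1h y0 (y0_ne 10)

theorem cc_p2 : cc z0 p2 = ![(y0 0)⁻¹, y0 1 / y0 0, y0 2 / y0 0, y0 3 / y0 0, y0 4 / y0 0,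
    -y0 5 / y0 0, y0 6 - y0 5 * y0 1 / y0 0, y0 7 - y0 5 * y0 2 / y0 0, y0 8 - y0 5 * y0 3 / y0 0,
    y0 9 - y0 5 * y0 4 / y0 0, 3 * y0 5 + y0 10 * y0 0,
    3 * (y0 5 * y0 5) + y0 10 * (2 * (y0 5 * y0 0)) + y0 11 * (y0 0 * y0 0),
    y0 5 * y0 5 * y0 5 + y0 10 * (y0 5 * y0 5 * y0 0) + y0 11 * (y0 5 * y0 0 * y0 0) +
      y0 12 * (y0 0 * y0 0 * y0 0)] := cc_p2h y0 (y0_ne 0)

theorem vol_p1g {L : Type} [Field L] [Algebra ℂ L] {δ : Fin 13 → Derivation ℂ L L}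
    {y : Fin 13 → L} (hδ : Dual δ y) (h : y 10 ≠ 0) :
    vol δ (cc (Zc (pk y)) p1) = -(y 10)⁻¹ ^ 4 := by
  rw [vol_tri fun i j h => ?_, cc_p1h y h]
  · simp [Fin.prod_univ_succ, hδ _ _, Derivation.leibniz_div, Derivation.leibniz_inv]
    field_simp
  have h1 : ∀ k, k ≤ j → δ i (y k) = 0 := fun k hk => (hδ i k).trans (if_neg (hk.trans_lt h).ne')
  rw [cc_p1h y ‹_›]
  fin_cases j <;> simp [h1, Derivation.leibniz_div, Derivation.leibniz_inv]

theorem vol_p2g {L : Type} [Field L] [Algebra ℂ L] {δ : Fin 13 → Derivation ℂ L L}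
    {y : Fin 13 → L} (hδ : Dual δ y) (h : y 0 ≠ 0) :
    vol δ (cc (Zc (pk y)) p2) = (y 0)⁻¹ := by
  rw [vol_tri fun i j h => ?_, cc_p2h y h]
  · simp only [Fin.prod_univ_succ, Matrix.cons_val_zero, Derivation.leibniz_inv, inv_pow, hδ _ _,
      ↓reduceIte, smul_eq_mul, mul_one, Matrix.cons_val_succ, Fin.succ_zero_eq_one,
      Derivation.leibniz_div, one_ne_zero, mul_zero, sub_zero, Fin.succ_one_eq_two, Fin.reduceEq,
      Fin.reduceSucc, map_neg, mul_neg, map_sub, Derivation.leibniz, add_zero, sub_self, map_add,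
      der_three, zero_add, der_two, Finset.univ_unique, Fin.default_eq_zero,
      Matrix.cons_val_fin_one, mul_ite, Fin.succ_ne_zero, Finset.prod_singleton, one_mul, neg_mul,
      neg_neg]
    field_simp
  have h1 : ∀ k, k ≤ j → δ i (y k) = 0 := fun k hk => (hδ i k).trans (if_neg (hk.trans_lt h).ne')
  rw [cc_p2h y ‹_›]
  fin_cases j <;> simp only [Fin.zero_eta, Fin.mk_one, Fin.reduceFinMk, Matrix.cons_val,
    Derivation.leibniz_inv, Derivation.leibniz_div, Derivation.leibniz, map_neg, map_sub, map_add,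
    Std.le_refl, Fin.reduceLE, zero_le, h1, smul_eq_mul, mul_zero, add_zero, sub_self, neg_zero,
    der_two, der_three]

variable {δ : Fin 13 → Derivation ℂ K0 K0}

theorem vol_p1 (hδ : Dual δ y0) : vol δ (cc z0 p1) = -(y0 10)⁻¹ ^ 4 := vol_p1g hδ (y0_ne 10)

theorem vol_p2 (hδ : Dual δ y0) : vol δ (cc z0 p2) = (y0 0)⁻¹ := vol_p2g hδ (y0_ne 0)

/-- The first hyperplane class. -/
noncomputable def hE : (IX → ℂ) → K0 := hyp z0 (Ee (pk y0))
/-- The Pluecker class. -/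
noncomputable def hP : (IX → ℂ) → K0 := hyp z0 (Pl (pk y0))

theorem div_E : IsDiv z0 hE := mor_E.div

theorem div_P : IsDiv z0 hP := mor_P.div

theorem tri' (hV : LocV z0 V p) :
    (Mx V z0 (dg 1) ∧ V.valuation (hE p) = 1 ∧ V.valuation (hP p) = 1) ∨
    ((Mx V z0 (dg p1) ∧ Pr V (cc z0 p1) (X 10)) ∧ V.valuation (hE p) = V.valuation (y0 10)⁻¹ ∧
      V.valuation (hP p) = 1) ∨ ((Mx V z0 (dg p2) ∧ Pr V (cc z0 p2) (X 0)) ∧
        V.valuation (hE p) = 1 ∧ V.valuation (hP p) = V.valuation (y0 0)⁻¹) := by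
  have h1 : ∀ b, Mx V z0 b → V.valuation (hE p) = V.valuation (Ee (pk y0) b.1)⁻¹ ∧
      V.valuation (hP p) = V.valuation (Pl (pk y0) b.2)⁻¹ := fun b h =>
    ⟨hyp_val mor_E hV.pt hV.mem h.E, hyp_val mor_P hV.pt hV.mem h.P⟩
  refine (tri hV).imp (fun h => ⟨h, ?_⟩) (Or.imp (fun h => ⟨h, ?_⟩) fun h => ⟨h, ?_⟩)
  · have h2 := h1 _ h
    rwa [(dg_vals y0).1.1, (dg_vals y0).1.2, inv_one, map_one] at h2
  · have h2 := h1 _ h.1
    rwa [(dg_vals y0).2.1.1, (dg_vals y0).2.1.2, inv_one, map_one] at h2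
  · have h2 := h1 _ h.1
    rwa [(dg_vals y0).2.2.1, (dg_vals y0).2.2.2, inv_one, map_one] at h2

theorem unit_of_val {z : ι → K} {p : ι → ℂ} {e : K} (hg : Gen z) (hs : Sm z) (hp : IsPt z p)
    (h0 : e ≠ 0) (h : ∀ V, LocV z V p → V.valuation e = 1) : IsU z p e := by
  have h1 : ∀ e : K, (∀ V, LocV z V p → V.valuation e = 1) → Reg z p e := fun e h => by
    obtain ⟨j, h1⟩ := hart_pt hg hs hp IsU.one.reg one_ne_zero fun V hV _ =>
      (V.valuation_le_one_iff _).1 (h V hV).le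
    rwa [one_pow, one_mul] at h1
  exact .of_inv hp h0 (h1 e h) (h1 _ fun V hV => by rw [map_inv₀, h V hV, inv_one])

theorem deg_congr {L : Type} [Field L] [Algebra ℂ L] [Fact (IsFF ℂ L)] [Finite ι] {z : ι → K}
    {x : ι → L} {D E : (ι → ℂ) → K} (hD : IsDiv z D) (hE : IsDiv z E) (hx : IsPt z x) {ψ : K}
    (h : ∀ p, IsPt z p → IsU z p (D p * (E p) ^ (-1 : ℤ) / ψ)) : deg z D x = deg z E x := by
  have h1 := deg_unit (hD.mul (hE.zpow (-1))) hx h
  rw [deg_mul hD (hE.zpow _) hx, deg_zpow hE hx] at h1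
  omega

theorem pic_X {D : (IX → ℂ) → K0} (hD : IsDiv z0 D) :
    ∃ n₁ n₂ : ℤ, num X0 D = (n₁ : ℝ) • num X0 hE + (n₂ : ℝ) • num X0 hP := by
  obtain ⟨ψ, n₁, n₂, h1, h2⟩ := pic (R := fun _ => 1) (ρ₁ := hE) (ρ₂ := hP) co_y0
    (chart_dg (π := p1) (by
      rw [z0, Zc, (dg_vals y0).2.1.1, (dg_vals y0).2.1.2, mul_one]; exact y0_ne 10)).co
    (chart_dg (π := p2) (by
      rw [z0, Zc, (dg_vals y0).2.2.1, (dg_vals y0).2.2.2, one_mul]; exact y0_ne 0)).co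
    (i₁ := 10) (i₂ := 0) (fun p V hV _ => (tri' hV).imp
      (fun h => ⟨cc_pk y0 ▸ pr_dg hV h.1, h.2⟩) (Or.imp
      (fun h => ⟨h.1.2, by rw [cc_p1]; exact h.2.1, h.2.2⟩)
      fun h => ⟨h.1.2, h.2.1, by rw [cc_p2]; exact h.2.2⟩)) hD
  have h3 := div_E.zpow n₁
  have h4 := div_P.zpow n₂
  refine ⟨n₁, n₂, ?_⟩
  rw [← num_zpow (X := X0) div_E, ← num_zpow (X := X0) div_P, ← num_mul (X := X0) h3 h4]
  refine funext fun C => congrArg Int.cast (deg_congr hD (h3.mul h4) C.pt (ψ := ψ) fun p hp => ?_)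
  have h5 := (h3.mul h4).ne hp
  refine unit_of_val z0_gen X0_smooth hp (div_ne_zero (mul_ne_zero (hD.ne hp)
    (zpow_ne_zero _ h5)) h1) fun V hV => ?_
  rw [map_div₀, map_mul, h2 p V hV (map_one _), ← map_mul, ← map_div₀, mul_assoc ψ, zpow_neg_one,
    mul_inv_cancel_right₀ h5, div_self h1, map_one]

theorem exists_KX : ∃ (KX : (IX → ℂ) → K0) (δ : Fin 13 → Derivation ℂ K0 K0), X0.Fano KX ∧
    Dual δ y0 ∧ Can z0 KX δ ∧ num X0 KX = -((4 : ℝ) • num X0 hE + num X0 hP) ∧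
      ∀ p π, IsPt z0 p → p (dg π) ≠ 0 → IsU z0 p (vol δ (cc z0 π) * KX p) := by
  obtain ⟨δ, hδ⟩ := exists_dual co_y0.1
  obtain ⟨KX, h1, h2, h3⟩ := exists_can (z := z0) hδ fun p hp =>
    let ⟨_, h⟩ := cover_dg hp
    ⟨_, _, h, chart_dg (hp.ne' h)⟩
  have h4 := (div_E.zpow 4).mul div_P
  have h5 : ∀ p, IsPt z0 p → IsU z0 p (KX p * (hE p ^ (4 : ℤ) * hP p)) := fun p hp => by
    refine unit_of_val z0_gen X0_smooth hp (mul_ne_zero (h1.ne hp) (h4.ne hp)) fun V hV => ?_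
    obtain ⟨Ω, _, _, x, hx⟩ := exists_cen hV.const X0.ne
    have h5 := fun π (h : Mx V z0 (dg π)) => hx.unit (h3 Ω x p _ _ hx.pt (hx.spc hp hV.mem)
      (hx.ne h.1 h.2) (chart_dg h.1))
    rw [map_mul, map_mul, map_zpow₀]
    rcases tri' hV with ⟨h6, h7, h8⟩ | ⟨⟨h6, -⟩, h7, h8⟩ | ⟨⟨h6, -⟩, h7, h8⟩ <;>
      have h9 := h5 _ h6 <;> rw [h7, h8]
    · rw [z0, cc_pk, hδ.vol] at h9
      simpa using h9
    · rw [vol_p1 hδ, neg_mul, Valuation.map_neg, map_mul, map_pow, mul_comm] at h9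
      simpa using h9
    · rw [vol_p2 hδ, map_mul, mul_comm] at h9
      simpa using h9
  obtain ⟨b, hb⟩ := exists_basis co_y0.alg hδ
  refine ⟨KX, δ, ⟨X0_smooth, ⟨h1, 13, b, hb ▸ h2⟩, 1, IE × IX, inferInstance,
    fun c => Ee (pk y0) c.1 ^ 3 * z0 c.2, one_pos, ?_⟩, hδ, h2, ?_,
    fun p π hp h => h3 ℂ p p _ _ hp (.refl hp.1) h (chart_dg (hp.ne' h))⟩
  · have h6 : ∀ p, IsPt z0 p → ∀ c : IE × IX, Ee (pk y0) c.1 ^ 3 * z0 c.2 * (KX p)⁻¹ ^ 1 =
        (hE p * Ee (pk y0) c.1) ^ 3 * (hE p * Ee (pk y0) c.2.1) * (hP p * Pl (pk y0) c.2.2) *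
          (KX p * (hE p ^ (4 : ℤ) * hP p))⁻¹ := fun p hp c => by
      have := h1.ne hp
      have : hE p ≠ 0 := div_E.ne hp
      have : hP p ≠ 0 := div_P.ne hp
      rw [z0, Zc]
      field_simp
    refine ⟨fun c p hp => ?_, fun p hp => ?_, ?_, fun w hw => ?_⟩
    · obtain ⟨i, -, h7, h8⟩ := mor_E.hyp hp
      obtain ⟨j, -, h9, h10⟩ := mor_P.hyp hp
      simp only [div_eq_inv_mul, ← h8, ← h10] at h7 h9
      exact h6 p hp c ▸ ((((h7 _).pow 3).mul (h7 _)).mul (h9 _)).mul ((h5 p hp).inv hp).reg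
    · obtain ⟨i, h7, h8, -⟩ := mor_E.hyp hp
      obtain ⟨j, h9, h10, -⟩ := mor_P.hyp hp
      have h11 := mor_E.unit hp h7 h8
      refine ⟨(i, i, j), h6 p hp _ ▸ (IsU.mul (IsU.mul ?_ h11) (mor_P.unit hp h9 h10)).mul
        ((h5 p hp).inv hp)⟩
      exact zpow_natCast (hE p * _) 3 ▸ h11.zpow hp (3 : ℕ)
    · refine eq_top_iff.2 (z0_gen.ge.trans (IntermediateField.adjoin.mono _ _ _ ?_))
      rintro _ ⟨c, rfl⟩
      exact ⟨(((dg 1).1, c.1), ((dg 1).1, c.2)),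
        mul_div_mul_left _ _ (pow_ne_zero _ (left_ne_zero_of_mul z0_ne))⟩
    · obtain ⟨c, hc⟩ := hw.ex
      have h7 := hw.ne' hc
      exact ⟨c.2, right_ne_zero_of_mul h7, fun b => ⟨_, mul_div_mul_left _ _
        (left_ne_zero_of_mul h7) ▸ Val.ratio hw hc (c.1, b)⟩⟩
  · rw [eq_neg_iff_add_eq_zero, ← Int.cast_ofNat, ← num_zpow (X := X0) div_E,
      ← num_mul (X := X0) (div_E.zpow _) div_P, ← num_mul (X := X0) h1 h4]
    exact funext fun C => (congrArg Int.cast (deg_unit (h1.mul h4) C.pt (φ := 1)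
      (by simpa only [div_one] using h5))).trans Int.cast_zero

end GMC
end
end

-- merged part: Pool.Agent.Work.MP_64a944_ag.N16
section
-- merged part: Pool.Agent.Work.MP_64a944_ag.N10
section
/-!
# The Cox coordinates of the unramified part of the triple cover
-/

namespace GMC

open MvPolynomial PR0 PR0.Z GM

variable {K K' : Type} [Field K] [Field K'] {V : ValuationSubring K} {s r : Fin 7 → K} {Δ : K}
  {i j k l : Fin 7} {m : Fin 4}

/-- The cubic `s (r ^ 2 - Δ s ^ 2)`. -/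
def cx {R : Type} [CommRing R] (s r : Fin 7 → R) (Δ : R) : T → R :=
  Sum.elim (Sum.elim s r) ![-Δ, 0, 1, 0]

theorem cx_scale {α β : K} (hα : α ≠ 0) (hβ : β ≠ 0) :
    (∀ b, Ee (cx s r Δ) b = α * β ^ 2 * Ee (cx (s · / α) (r · / β) (Δ * α ^ 2 / β ^ 2)) b) ∧
    (∀ b, Pl (cx s r Δ) b = α * β * Pl (cx (s · / α) (r · / β) (Δ * α ^ 2 / β ^ 2)) b) ∧
    ∀ b, Zc (cx s r Δ) b =
      α * β ^ 2 * (α * β) * Zc (cx (s · / α) (r · / β) (Δ * α ^ 2 / β ^ 2)) b := by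
  simpa only [mul_zero, sub_zero] using chg (ν := cx s r Δ)
    (ν' := cx (s · / α) (r · / β) (Δ * α ^ 2 / β ^ 2)) (α := α) (β := 0) (γ := 0) (δ := β)
    (c := α * β ^ 2) (fun l => by simp [cx, mul_div_cancel₀ _ hα])
    (fun l => by simp [cx, mul_div_cancel₀ _ hβ]) fun m => by
      rw [act_diag]
      fin_cases m <;> simp [cx]
      field_simp

theorem exists_cx [CharZero K] {y : Fin 13 → K} {u : K}
    (h : y 12 = u * (y 11 - u * (y 10 - u))) (h' : 3 * u ^ 2 - 2 * y 10 * u + y 11 ≠ 0) :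
    ∃ (s r : Fin 7 → K) (Δ μ : K), μ ≠ 0 ∧ s 0 = 1 ∧ s 1 = u ∧
      (∀ b, Ee (pk y) b = μ * Ee (cx s r Δ) b) ∧ ∀ b, Pl (pk y) b = Pl (cx s r Δ) b := by
  obtain ⟨μ, hμ⟩ : ∃ μ, μ = 3 * u ^ 2 - 2 * y 10 * u + y 11 := ⟨_, rfl⟩
  rw [← hμ] at h'
  have h1 : y 11 = μ - 3 * u ^ 2 + 2 * y 10 * u := by linear_combination -hμ
  let κ := (y 10 - 3 * u) / (2 * μ)
  have h2 := chg (ν := cx (fun l => sv (pk y) l + u * rv (pk y) l)
    (fun l => κ * sv (pk y) l + (1 + κ * u) * rv (pk y) l) (κ ^ 2 - μ⁻¹)) (ν' := pk y) (α := 1)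
    (β := u) (γ := κ) (δ := 1 + κ * u) (c := μ⁻¹) (fun l => by simp [cx]) (fun l => by simp [cx])
    fun m => by
      fin_cases m <;>
        dsimp only [cx, act, pk, κ, et, Matrix.cons_val, Sum.elim_inr, Fin.reduceFinMk,
          Fin.zero_eta, Fin.mk_one] <;> (try simp only [h, h1]) <;> field_simp <;> ring
  refine ⟨_, _, _, μ, h', ?_, ?_, fun b => (eq_inv_mul_iff_mul_eq₀ h').1 (h2.1 b) ▸ rfl,
    fun b => ((h2.2.1 b).trans (by ring)).symm⟩ <;> simp [pk]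

/-- Indices of the chart variables. -/
abbrev IU : Type := (Fin 6 ⊕ Fin 6) ⊕ Unit

/-- The chart variables. -/
def uc (s r : Fin 7 → K) (Δ : K) (i j : Fin 7) : IU → K :=
  Sum.elim (Sum.elim (fun l => s (i.succAbove l) / s i) fun l => r (j.succAbove l) / r j)
    fun _ => Δ * s i ^ 2 / r j ^ 2

theorem uc_cases (hi : s i ≠ 0) (hj : r j ≠ 0) {P : K → Prop} (h1 : P 1)
    (h2 : ∀ k, P (uc s r Δ i j k)) : (∀ l, P (s l / s i)) ∧ (∀ l, P (r l / r j)) ∧
      P (Δ * s i ^ 2 / r j ^ 2) := by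
  refine ⟨fun l => ?_, fun l => ?_, h2 (.inr ())⟩
  · rcases Fin.eq_self_or_eq_succAbove i l with rfl | ⟨l, rfl⟩
    exacts [(div_self hi).symm ▸ h1, h2 (.inl (.inl l))]
  · rcases Fin.eq_self_or_eq_succAbove j l with rfl | ⟨l, rfl⟩
    exacts [(div_self hj).symm ▸ h1, h2 (.inl (.inr l))]

variable [Algebra ℂ K] [Algebra ℂ K']

theorem cx_aev {σ : Type} {y : σ → K} (h1 : ∀ l, ∃ G : MvPolynomial σ ℂ, s l = aeval y G)
    (h2 : ∀ l, ∃ G : MvPolynomial σ ℂ, r l = aeval y G) (h3 : ∃ G : MvPolynomial σ ℂ, Δ = aeval y G)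
    (b : IX) : ∃ G : MvPolynomial σ ℂ, Zc (cx s r Δ) b = aeval y G := by
  choose A hA using h1
  choose B hB using h2
  obtain ⟨C, hC⟩ := h3
  refine ⟨Zc (cx A B C) b, (congrArg (Zc · b) (funext ?_)).trans (map_Zc _ _ _).symm⟩
  rintro ((l | l) | l)
  exacts [hA l, hB l, by fin_cases l <;> simp [cx, hC]]

theorem uc_Zc (hi : s i ≠ 0) (hj : r j ≠ 0) (b : IX) : ∃ G : MvPolynomial IU ℂ,
    Zc (cx (s · / s i) (r · / r j) (Δ * s i ^ 2 / r j ^ 2)) b = aeval (uc s r Δ i j) G :=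
  let ⟨h1, h2, h3⟩ := uc_cases (P := fun x => ∃ G : MvPolynomial IU ℂ, x = aeval (uc s r Δ i j) G)
    hi hj ⟨1, by simp⟩ fun k => ⟨X k, by simp⟩
  cx_aev h1 h2 h3 b

omit [Algebra ℂ K] in
theorem act_mem {S : Type} [SetLike S K] [SubringClass S K] (V : S) {η : Fin 4 → K} {a b c d : K}
    (h : ∀ n, η n ∈ V) (ha : a ∈ V) (hb : b ∈ V) (hc : c ∈ V) (hd : d ∈ V) (n : Fin 4) :
    act η a b c d n ∈ V := by
  have h2 : (2 : K) ∈ V := ofNat_mem V 2
  have h3 : (3 : K) ∈ V := ofNat_mem V 3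
  have h4 := h 0
  have h5 := h 1
  have h6 := h 2
  have h7 := h 3
  fin_cases n <;>
    dsimp only [act, Matrix.cons_val, Fin.reduceFinMk, Fin.zero_eta, Fin.mk_one] <;>
    repeat' with_reducible first | assumption | apply add_mem | apply mul_mem

theorem dual_pk {δ : Fin 13 → Derivation ℂ K K} {y : Fin 13 → K} (hδ : Dual δ y) (k : Fin 13)
    (t : T) : δ k (pk y t) = if t = emb k then 1 else 0 := by
  have h1 : ∀ t, (∃ j, t = emb j) ∨ ((∀ k, t ≠ emb k) ∧ (t = .inl (.inl 0) ∨ t = .inl (.inl 1) ∨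
    t = .inl (.inr 0) ∨ t = .inl (.inr 1) ∨ t = .inr 0)) := by decide
  have h2 : ∀ j k, emb j = emb k ↔ k = j := by decide
  rcases h1 t with ⟨j, rfl⟩ | ⟨h3, h4⟩
  · simp only [h2, ← hδ k j]
    fin_cases j <;> rfl
  · rw [if_neg (h3 k)]
    rcases h4 with rfl | rfl | rfl | rfl | rfl <;> simp [pk]

theorem dual_nz {ν : T → K} {π : Pm} {δ : Fin 13 → Derivation ℂ K K} (h : Zc ν (dg π) ≠ 0)
    (hδ : Dual δ (cc (Zc ν) π)) (k : Fin 13) (t : T) :
    δ k (nz (Zc ν) (dg π) t) = if t = mT π (emb k) then 1 else 0 := by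
  obtain ⟨t, rfl⟩ := (mT π).surjective t
  simp only [nz_pk h, dual_pk hδ, EmbeddingLike.apply_eq_iff_eq]

theorem etale_alg {π : Pm} {δ : Fin 13 → Derivation ℂ K K} (hV : ∀ c : ℂ, algebraMap ℂ K c ∈ V)
    (hs : ∀ l, s l ∈ V) (hr : ∀ l, r l ∈ V) (hi : s i = 1) (hj : r j = 1)
    (h : Mx V (Zc (cx s r Δ)) (dg π)) (hδ : Dual δ (cc (Zc (cx s r Δ)) π))
    (hp : ∀ k, ∀ x ∈ V, δ k x ∈ V) : Δ ∈ V ∧ V.valuation (Ee (cx s r Δ) (dg π).1) = 1 ∧
      V.valuation (Pl (cx s r Δ) (dg π).2) = 1 := by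
  have h1 : ∀ t, nz (Zc (cx s r Δ)) (dg π) t ∈ V := fun t => h.2 _
  have h2 := hi.symm.trans (nz_sv h.1 i)
  have h3 := hj.symm.trans (nz_rv h.1 j)
  have h4 := nz_e h.1
  have h5 := dual_nz h.1 hδ
  have h6 : ∀ n, n ≠ π.2 0 → ∃ k, mT π (emb k) = .inr n := fun n hn => Nv.ex (by simp [Nv, hn])
  have h7 : nz (Zc (cx s r Δ)) (dg π) (.inr (π.2 0)) = 1 := div_self h.1
  have h8 : Ee (cx s r Δ) (dg π).1 ≠ 0 := left_ne_zero_of_mul h.1
  generalize nz (Zc (cx s r Δ)) (dg π) = ν at h1 h2 h3 h4 h5 h7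
  generalize Ee (cx s r Δ) (dg π).1 = E at h4 h8
  simp only [Ee, Pl, dg, cx, sv, rv, et, Sum.elim_inl, Sum.elim_inr] at h2 h3 h4 ⊢
  have ha := hs (π.1 0)
  have hb := hs (π.1 1)
  have hc := hr (π.1 0)
  have hd := hr (π.1 1)
  generalize s (π.1 0) = a, s (π.1 1) = b, r (π.1 0) = c, r (π.1 1) = d at h2 h3 h4 ha hb hc hd
  have e0 := h4 0
  have e1 := h4 1
  have e2 := h4 2
  have e3 := h4 3
  dsimp only [act, et, Sum.elim_inr, Matrix.cons_val] at e0 e1 e2 e3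
  have hP : a * d - b * c ∈ V := sub_mem (mul_mem ha hd) (mul_mem hb hc)
  have h9 := act_mem V (fun n => h1 (.inr n)) (h1 (.inl (.inl i))) hb (h1 (.inl (.inr i)))
    (neg_mem ha)
  have hα := h1 (.inl (.inl i))
  have hβ := h1 (.inl (.inr i))
  generalize ν (.inl (.inl i)) = α, ν (.inl (.inr i)) = β at h2 h9 hα hβ
  have f0 : ((c * α + d * β) ^ 2 - Δ) / E ∈ V := by
    convert h9 0 using 1
    dsimp only [act, Matrix.cons_val]
    rw [e0, e1, e2, e3]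
    linear_combination (exp := 1) E⁻¹ * ((c * α + d * β) ^ 2 -
      Δ * ((a * α + b * β) ^ 2 + (a * α + b * β) + 1)) * h2
  have f1 : -2 * ((c * α + d * β) * (a * d - b * c) / E) ∈ V := by
    convert h9 1 using 1
    dsimp only [act, Matrix.cons_val]
    rw [e0, e1, e2, e3]
    linear_combination (exp := 1) E⁻¹ * (-2 * ((c * α + d * β) * (a * d - b * c))) * h2
  have f2 : (a * d - b * c) ^ 2 / E ∈ V := by
    convert h9 2 using 1
    dsimp only [act, Matrix.cons_val]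
    rw [e0, e1, e2, e3]
    linear_combination (exp := 1) E⁻¹ * (a * d - b * c) ^ 2 * h2
  have f3 : ∑ n : Fin 4, ν (.inr n) * (b ^ (3 - n.1) * (-a) ^ n.1) = 0 := by
    simp only [Fin.sum_univ_four, e0, e1, e2, e3, Fin.val_zero, Fin.val_one, Fin.val_two,
      show (3 : Fin 4).1 = 3 from rfl]
    ring
  have h10 : ¬ (V.valuation a < 1 ∧ V.valuation b < 1) := fun h => by
    simpa [← h2] using Valuation.map_add_lt _ (val_mul_lt h.1 hα) (val_mul_lt h.2 hβ)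
  have f4 : V.valuation ((a * d - b * c) ^ 2 / E) = 1 := val_eq f2 fun h11 => by
    have h12 : ∀ n : Fin 4, n ≠ π.2 0 → V.valuation (b ^ (3 - n.1) * (-a) ^ n.1) < 1 := by
      intro n hn
      obtain ⟨k, hk⟩ := h6 n hn
      have h12 := congrArg (δ k) f3
      simp only [map_sum, Derivation.leibniz (δ k) (ν _), h5, hk, Sum.inr.injEq, smul_eq_mul, mul_ite,
        mul_one, mul_zero, Finset.sum_add_distrib, Finset.sum_ite_eq', Finset.mem_univ, if_true,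
        map_zero] at h12
      rw [show b ^ (3 - n.1) * (-a) ^ n.1 = (a * d - b * c) ^ 2 / E * (b * δ k a - a * δ k b) by
        rw [eq_neg_of_add_eq_zero_right h12]
        simp only [Fin.sum_univ_four, e0, e1, e2, e3, Fin.val_zero, Fin.val_one, Fin.val_two,
          show (3 : Fin 4).1 = 3 from rfl, Nat.reduceSub, pow_zero, pow_one, Derivation.leibniz,
          Derivation.leibniz_pow, map_neg, Derivation.map_one_eq_zero, smul_eq_mul, nsmul_eq_mul,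
          Nat.cast_ofNat]
        ring]
      exact val_mul_lt h11 (sub_mem (mul_mem hb (hp k a ha)) (mul_mem ha (hp k b hb)))
    have h13 : ∀ n : Fin 4, V.valuation (b ^ (3 - n.1) * (-a) ^ n.1) < 1 := fun n => by
      by_cases hn : n = π.2 0
      · rw [← Finset.add_sum_erase _ _ (Finset.mem_univ n), hn, h7, one_mul] at f3
        rw [hn, eq_neg_of_add_eq_zero_left f3, Valuation.map_neg]
        exact Valuation.map_sum_lt _ one_ne_zero fun n hn =>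
          mul_comm (ν _) _ ▸ val_mul_lt (h12 n (Finset.ne_of_mem_erase hn)) (h1 _)
      · exact h12 n hn
    exact h10 ⟨by simpa [pow_lt_one_iff] using h13 3, by simpa [pow_lt_one_iff] using h13 0⟩
  have f5 : V.valuation (a * d - b * c) = 1 := val_eq hP fun h11 => by
    have h12 := mem_of_mul (val_const hV (c := -2) (by norm_num)) (x := (c * α + d * β) *
      (a * d - b * c) / E) (by simpa [mul_comm, map_ofNat] using f1)
    have h13 : V.valuation (c * α + d * β) < 1 := by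
      have h13 := val_mul_lt h11 h12
      rwa [show (a * d - b * c) * ((c * α + d * β) * (a * d - b * c) / E) =
        (c * α + d * β) * ((a * d - b * c) ^ 2 / E) by ring, map_mul, f4, mul_one] at h13
    have h14 := Valuation.map_sub_lt _ (val_mul_lt h13 ha) (val_mul_lt h11 hβ)
    have h15 := Valuation.map_add_lt _ (val_mul_lt h13 hb) (val_mul_lt h11 hα)
    rw [show (c * α + d * β) * a - (a * d - b * c) * β = c by linear_combination -c * h2] at h14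
    rw [show (c * α + d * β) * b + (a * d - b * c) * α = d by linear_combination -d * h2] at h15
    simpa [← h3] using Valuation.map_add_lt _ (val_mul_lt h14 (h1 (.inl (.inl j))))
      (val_mul_lt h15 (h1 (.inl (.inr j))))
  have f6 : V.valuation E = 1 := by
    rw [map_div₀, map_pow, f5, one_pow, one_div, inv_eq_one] at f4
    exact f4
  refine ⟨?_, f6, f5⟩
  have h11 := mul_mem f0 ((V.valuation_le_one_iff _).1 f6.le)
  rw [div_mul_cancel₀ _ h8] at h11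
  simpa using sub_mem (pow_mem (add_mem (mul_mem hc hα) (mul_mem hd hβ)) 2) h11

theorem der_cox {g : T → K} {ζ : Fin 4 → K} {d : Derivation ℂ K K}
    (h : Zc (cx s r Δ) (((k, l), m), (k, l)) ≠ 0) (hg : ∀ t, ¬ Nv k l m t → g t = 0)
    (hs : ∀ n, d (s n) = ζ 2 * s n + ζ 3 * r n + s k * sv g n + s l * rv g n)
    (hr : ∀ n, d (r n) = (ζ 1 + 3 * Δ * ζ 3) / 2 * s n + r k * sv g n + r l * rv g n)
    (hΔ : d Δ = -ζ 0 - 3 * Δ * ζ 2)
    (hζ : ∀ n, act ζ (s k) (s l) (r k) (r l) n = Ee (cx s r Δ) ((k, l), m) * et g n) (t : T) :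
    d (nz (Zc (cx s r Δ)) (((k, l), m), (k, l)) t) = g t := by
  have : CharZero K := charZero_of_injective_algebraMap (algebraMap ℂ K).injective
  have g1 : sv g k = 0 := hg _ (by simp [Nv])
  have g2 : sv g l = 0 := hg _ (by simp [Nv])
  have g3 : rv g k = 0 := hg _ (by simp [Nv])
  have g4 : rv g l = 0 := hg _ (by simp [Nv])
  have h1 : s k * r l - s l * r k ≠ 0 := right_ne_zero_of_mul h
  have h2 : ∀ n, d (sv (nz (Zc (cx s r Δ)) (((k, l), m), (k, l))) n) = sv g n ∧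
      d (rv (nz (Zc (cx s r Δ)) (((k, l), m), (k, l))) n) = rv g n := fun n => by
    have h3 := nz_sv h n
    have h4 := nz_rv h n
    generalize sv (nz (Zc (cx s r Δ)) (((k, l), m), (k, l))) n = x,
      rv (nz (Zc (cx s r Δ)) (((k, l), m), (k, l))) n = y at h3 h4
    simp only [cx, sv, rv, Sum.elim_inl, Sum.elim_inr] at h3 h4
    have h5 := congrArg d h3
    have h6 := congrArg d h4
    simp only [map_add, Derivation.leibniz, smul_eq_mul, hs, hr, g1, g2, g3, g4] at h5 h6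
    rw [h3] at h5 h6
    rw [h4] at h5
    exact ⟨mul_left_cancel₀ h1 (by linear_combination -r l * h5 + s l * h6),
      mul_left_cancel₀ h1 (by linear_combination r k * h5 - s k * h6)⟩
  have h3 : ∀ n, d (Ee (cx s r Δ) ((k, l), n)) = Ee (cx s r Δ) ((k, l), m) * et g n := fun n => by
    rw [← hζ]
    fin_cases n <;>
      dsimp only [Ee, cx, act, sv, rv, et, Matrix.cons_val, Sum.elim_inl, Sum.elim_inr,
        Fin.reduceFinMk, Fin.zero_eta, Fin.mk_one] <;>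
      simp only [map_add, map_neg, Derivation.leibniz, smul_eq_mul, zero_mul, one_mul, add_zero,
        hs, hr, hΔ, g1, g2, g3, g4, der_two, der_three] <;> ring
  rcases t with (n | n) | n
  exacts [(h2 n).1, (h2 n).2, (congrArg d (nz_e h n)).trans (by
    rw [d.leibniz_div_const _ _ ((h3 m).trans (mul_eq_zero_of_right _ (hg _ (by simp [Nv])))), h3,
      smul_eq_mul, inv_mul_cancel_left₀ (left_ne_zero_of_mul h)])]

theorem Co.hom {σ : Type} {y : σ → K} {y' : σ → K'} (hy : Co y) (hy' : AlgebraicIndependent ℂ y') :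
    ∃ ι : K →ₐ[ℂ] K', ∀ k, ι (y k) = y' k := by
  have h1 : ∀ {K K' : Type} [Field K] [Field K'] [Algebra ℂ K] [Algebra ℂ K'] {y : σ → K}
      (y' : σ → K'), AlgebraicIndependent ℂ y → IsPt (ext1 1 y) (ext1 1 y') := fun y' h => by
    refine .of_spc ?_ fun h => one_ne_zero (congrFun h none)
    convert (spc_indep h y').aeval fun o : Option σ => o.elim 1 X using 2 with o o <;>
      cases o <;> simp [ext1]
  obtain ⟨ι, h2⟩ := exists_emb (eq_top_iff.2 (hy.2.ge.trans (IntermediateField.adjoin.mono _ _ _ (by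
    rintro _ ⟨k, rfl⟩
    exact ⟨(some k, none), div_one _⟩)))) (h1 y' hy.1) (h1 y hy')
  refine ⟨ι, fun k => (h2 _).unique (h1 y' hy.1) ?_⟩
  simpa [ext1] using Val.ratio (h1 y' hy.1) (i := none) one_ne_zero (some k)

theorem euler {σ : Type} [Fintype σ] {w : σ → ℕ} (hw : ∀ v, w v ≠ 0) {G : MvPolynomial σ ℂ}
    (h : ∑ v, pderiv v G * ((w v : MvPolynomial σ ℂ) * X v) = 0) : G = C (coeff 0 G) := by
  have h1 : ∀ μ v, coeff μ (pderiv v G * ((w v : MvPolynomial σ ℂ) * X v)) =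
      (w v * μ v : ℕ) * coeff μ G := fun μ v => by
    clear h
    induction G using MvPolynomial.induction_on' with
    | monomial μ' c =>
      classical
      rw [mul_left_comm, mul_comm (pderiv v _), X_mul_pderiv_monomial, ← nsmul_eq_mul, coeff_smul,
        coeff_smul, coeff_monomial]
      split_ifs with h <;> simp [h, mul_assoc]
    | add p q hp hq => rw [map_add, add_mul, coeff_add, coeff_add, hp, hq, mul_add]
  ext μ
  classical
  rw [coeff_C]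
  split_ifs with h2
  · rw [h2]
  have h3 := congrArg (coeff μ) h
  simp only [coeff_sum, h1, ← Finset.sum_mul, ← Nat.cast_sum, coeff_zero, mul_eq_zero,
    Nat.cast_eq_zero, Finset.sum_eq_zero_iff, Finset.mem_univ, hw, false_or, forall_true_left] at h3
  exact h3.resolve_left fun h3 => h2 (Finsupp.ext h3).symm

end GMC
end

-- merged part: Pool.Agent.Work.MP_64a944_ag.N11
section
/-!
# Models of the triple cover: Iitaka dimension zero, not face contracting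
-/

namespace GMC

open MvPolynomial PR0 PR0.Z GM

variable {K K' : Type} [Field K] [Field K'] [Algebra ℂ K] [Algebra ℂ K'] {ι σ : Type}
  {V : ValuationSubring K} {z : ι → K} {p : ι → ℂ} {f : IX → K} {χ : K0 →ₐ[ℂ] K}
  {R : (ι → ℂ) → K} {s r : Fin 7 → K} {Δ μ : K} {i j : Fin 7} {π : Pm}

/-- A dominant generically finite morphism with its ramification divisor. -/
structure Ram (z : ι → K) (f : IX → K) (χ : K0 →ₐ[ℂ] K) (R : (ι → ℂ) → K) : Prop where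
  pt : IsPt z0 f
  mor : IsMor z f
  val : ∀ φ, Val z0 f φ (χ φ)
  alg : Alg fun k => χ (y0 k)
  eff : IsEff z R
  can : ∃ (D : (ι → ℂ) → K) (δ : Fin 13 → Derivation ℂ K K), Can z D δ ∧ ∀ p π, IsPt z p →
    img z f p (dg π) ≠ 0 → ∃ u, IsU z p u ∧ R p * u = vol δ (fun k => χ (cc z0 π k)) * D p

theorem exists_ram [Finite ι] {KY : (ι → ℂ) → K} {KX : (IX → ℂ) → K0}
    {δ₀ : Fin 13 → Derivation ℂ K0 K0} (h0 : z ≠ 0) (hK : IsCanonical z KY) (h₁ : IsDiv z0 KX)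
    (hδ₀ : Dual δ₀ y0) (h₂ : Can z0 KX δ₀) (h₃ : ∀ p π, IsPt z0 p → p (dg π) ≠ 0 →
      IsU z0 p (vol δ₀ (cc z0 π) * KX p)) (hf : IsPt z0 f) (hm : IsMor z f)
    (hχ : ∀ φ, Val z0 f φ (χ φ)) (ha : Alg fun k => χ (y0 k)) :
    ∃ c, c ≠ 0 ∧ Ram z f χ fun p => c * KY p / χ (KX (img z f p)) := by
  obtain ⟨δ, hδ⟩ := exists_dual (co_y0.1.map' (f := χ) χ.injective)
  obtain ⟨c, h1, h2⟩ := hK.can h0 ha hδ
  exact ⟨c, h1, hf, hm, hχ, ha, Can.eff hf hm hχ co_y0.alg hδ₀ hδ ((IsDiv.const h1).mul hK.1) h₁ h2 h₂,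
    _, δ, h2, fun p π hp h => Can.rel (D := fun p => c * KY p) hf hm hχ co_y0.alg hδ₀ hδ hp
      (h₃ _ π (hf.trans ((hm.img hp).pt hp)) h)⟩

theorem Alg.of_co {y y' : σ → K'} {χ : K' →ₐ[ℂ] K} (h : Alg fun k => χ (y k)) (h' : Co y') :
    Alg fun k => χ (y' k) := fun a => alg_trans (by
  rintro _ ⟨k, rfl⟩
  obtain ⟨A, B, -, h1, h2⟩ := h'.frac (y k)
  refine IntermediateField.isAlgebraic_adjoin_iff.1 (isAlgebraic_algebraMap (⟨χ (y k),
    (IntermediateField.mem_adjoin_range_iff _ _ _).2 ⟨A, B, ?_⟩⟩ : IntermediateField.adjoin ℂ _))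
  rw [← comp_aeval_apply, ← comp_aeval_apply, ← map_div₀,
    eq_div_of_mul_eq ((map_ne_zero_iff _ h'.1).2 h1) h2]) (h a)

section
variable [Finite ι]

theorem Ram.img (h : Ram z f χ R) (hp : IsPt z p) : IsPt z0 (img z f p) :=
  h.pt.trans ((h.mor.img hp).pt hp)

theorem Ram.reg (h : Ram z f χ R) (hp : IsPt z p) {a : IX} (ha : GMC.img z f p a ≠ 0) (b : IX) :
    Reg z p (χ (z0 b / z0 a)) :=
  ⟨_, (h.mor.img hp).val' h.pt h.val hp (Val.ratio (h.img hp) ha b)⟩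

theorem Ram.unit (h : Ram z f χ R) (hp : IsPt z p) {φ : K0} (hφ : IsU z0 (GMC.img z f p) φ) :
    IsU z p (χ φ) := hφ.imp fun _ h' => ⟨h'.1, (h.mor.img hp).val' h.pt h.val hp h'.2⟩

theorem Ram.chart (h : Ram z f χ R) (hp : IsPt z p) : ∃ (π : Pm) (δ : Fin 13 → Derivation ℂ K K),
    GMC.img z f p (dg π) ≠ 0 ∧ Dual δ (fun k => χ (cc z0 π k)) ∧ Alg (fun k => χ (cc z0 π k)) ∧
    (∀ V, LocV z V p → V.valuation (R p) = 1 → ∀ k, ∀ x ∈ V, δ k x ∈ V) ∧
    ∀ V : ValuationSubring K, (∀ φ, Reg z p φ → φ ∈ V) → (∀ k, ∀ x ∈ V, δ k x ∈ V) →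
      (R p)⁻¹ ∈ V := by
  obtain ⟨π, h1⟩ := cover_dg (h.img hp)
  have h2 := (chart_dg ((h.img hp).ne' h1)).co
  obtain ⟨δ', h3⟩ := exists_dual (h2.1.map' (f := χ) χ.injective)
  obtain ⟨D, δ, h4, h5⟩ := h.can
  obtain ⟨u, h6, h7⟩ := h5 p π hp h1
  have h8 := h.alg.of_co h2
  refine ⟨π, δ', h1, h3, h8, fun V hV h9 k x hx => h4.der hV (φ := fun k => χ (cc z0 π k))
    (fun k => h.reg hp h1 _) h8 h3
    (by rw [← h7, map_mul, h9, unit_of_reg hp hV.mem h6, one_mul]) k hx, fun V hV h9 => ?_⟩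
  have h10 := mul_mem (h4.inv hp hV h8 h3 h9) (hV _ h6.reg)
  rwa [← h7, mul_inv, inv_mul_cancel_right₀ (h6.ne hp)] at h10

end

/-- The function field is generated by a root of the cubic. -/
structure Cox (χ : K0 →ₐ[ℂ] K) (s r : Fin 7 → K) (Δ μ : K) : Prop where
  ne : μ ≠ 0
  E : ∀ b, χ (Ee (pk y0) b) = μ * Ee (cx s r Δ) b
  P : ∀ b, χ (Pl (pk y0) b) = Pl (cx s r Δ) b
  top : IntermediateField.adjoin ℂ (Set.range (ext1 (s 1 / s 0) fun k => χ (y0 k))) = ⊤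
  s0 : s 0 ≠ 0

omit [Algebra ℂ K] in
theorem cx_ratio {α β : K} (hα : α ≠ 0) (hβ : β ≠ 0) (b a : IX) :
    Zc (cx s r Δ) b / Zc (cx s r Δ) a = Zc (cx (s · / α) (r · / β) (Δ * α ^ 2 / β ^ 2)) b /
      Zc (cx (s · / α) (r · / β) (Δ * α ^ 2 / β ^ 2)) a := by
  have h := (cx_scale (s := s) (r := r) (Δ := Δ) hα hβ).2.2
  rw [h, h, mul_div_mul_left _ _ (by simp [hα, hβ])]

theorem Cox.Z (h : Cox χ s r Δ μ) (hi : s i ≠ 0) (hj : r j ≠ 0) (b a : IX) : χ (z0 b / z0 a) =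
    Zc (cx (s · / s i) (r · / r j) (Δ * s i ^ 2 / r j ^ 2)) b /
      Zc (cx (s · / s i) (r · / r j) (Δ * s i ^ 2 / r j ^ 2)) a := by
  have h1 : ∀ b, χ (z0 b) = μ * Zc (cx s r Δ) b := fun b => by
    rw [z0, Zc, map_mul, h.E, h.P, mul_assoc, Zc]
  rw [map_div₀, h1, h1, mul_div_mul_left _ _ h.ne, cx_ratio hi hj]

theorem Cox.co (h : Cox χ s r Δ μ) (hi : s i ≠ 0) (hj : r j ≠ 0) : Co (uc s r Δ i j) := by
  refine .of_top (co_y0.1.map' (f := χ) χ.injective) (by simp) (eq_top_iff.2 (h.top.ge.trans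
    (IntermediateField.adjoin_le_iff.2 ?_)))
  rintro _ ⟨_ | k, rfl⟩
  · have h1 := (uc_cases (P := (· ∈ IntermediateField.adjoin ℂ (Set.range (uc s r Δ i j)))) hi hj
      (one_mem _) fun k => IntermediateField.subset_adjoin _ _ ⟨k, rfl⟩).1
    exact div_div_div_cancel_right₀ hi (s 1) (s 0) ▸ div_mem (h1 1) (h1 0)
  · obtain ⟨A, hA⟩ := uc_Zc (Δ := Δ) hi hj (ix (dg 1) (mT 1 (emb k)))
    obtain ⟨B, hB⟩ := uc_Zc (Δ := Δ) hi hj (dg 1)
    exact (IntermediateField.mem_adjoin_range_iff _ _ _).2 ⟨A, B, by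
      rw [← hA, ← hB, ← h.Z hi hj]
      exact congrArg χ (congrFun (cc_pk y0) k).symm⟩

theorem Cox.ne' (h : Cox χ s r Δ μ) : (∀ l, s l ≠ 0) ∧ ∀ l, r l ≠ 0 := by
  obtain ⟨j, hj⟩ : ∃ j, r j ≠ 0 := by
    by_contra! h1
    exact right_ne_zero_of_mul z0_ne (χ.injective ((h.P _).trans (by simp [Pl, cx, h1])))
  obtain ⟨h1, h2, -⟩ := uc_cases (P := (· ≠ 0)) h.s0 hj one_ne_zero fun k => by
    simpa using (map_ne_zero_iff _ (h.co h.s0 hj).1).2 (X_ne_zero k)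
  exact ⟨fun l => (div_ne_zero_iff.1 (h1 l)).1, fun l => (div_ne_zero_iff.1 (h2 l)).1⟩

section
variable [Finite ι]

theorem fwd (hR : Ram z f χ R) (h : Cox χ s r Δ μ) (hV : LocV z V p) (h1 : V.valuation (R p) = 1)
    (hi : Mx V s i) (hj : Mx V r j) : (∃ q, Pr V (uc s r Δ i j) q) ∧
      V.valuation (χ (hP (img z f p))) = V.valuation (s i * r j)⁻¹ ∧
      V.valuation (χ (hE (img z f p))) = V.valuation (μ * (s i * r j ^ 2))⁻¹ := by
  obtain ⟨π, δ, h2, h3, -, h4, -⟩ := hR.chart hV.pt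
  have h5 := h.Z hi.1 hj.1
  have h6 := (hR.img hV.pt).ne' h2
  have h7 : Mx V (Zc (cx (s · / s i) (r · / r j) (Δ * s i ^ 2 / r j ^ 2))) (dg π) :=
    ⟨fun h7 => by simpa [h7, h6] using h5 (dg π) (dg π),
      fun b => h5 b _ ▸ hV.mem _ (hR.reg hV.pt h2 b)⟩
  obtain ⟨h8, h9, h10⟩ := etale_alg hV.const hi.2 hj.2 (div_self hi.1) (div_self hj.1) h7
    (fun k l => (congrArg (δ k) (h5 _ _).symm).trans (h3 k l)) (h4 V hV h1)
  have h11 := hR.unit hV.pt (mor_E.unit (hR.img hV.pt) (left_ne_zero_of_mul h6) fun c =>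
    ⟨_, ratio_E h6 c ▸ Val.ratio (hR.img hV.pt) h2 _⟩)
  have h12 := hR.unit hV.pt (mor_P.unit (hR.img hV.pt) (right_ne_zero_of_mul h6) fun c =>
    ⟨_, ratio_P h6 c ▸ Val.ratio (hR.img hV.pt) h2 _⟩)
  replace h11 := unit_of_reg hV.pt hV.mem h11
  replace h12 := unit_of_reg hV.pt hV.mem h12
  rw [map_mul χ, h.E, (cx_scale hi.1 hj.1).1, ← mul_assoc μ, ← mul_assoc, map_mul, h9, mul_one,
    map_mul] at h11
  rw [map_mul χ, h.P, (cx_scale hi.1 hj.1).2.1, ← mul_assoc, map_mul, h10, mul_one, map_mul] at h12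
  refine ⟨exists_pr (h.co hi.1 hj.1) hV.ne hV.const ?_ (Big.trans (w := fun k => χ (cc z0 π k))
    (fun k => ?_) ((by simp : Nat.card (Fin 13) = Nat.card IU) ▸ big_of_der hV.const
      (fun k => hV.mem _ (hR.reg hV.pt h2 _)) h3 (h4 V hV h1))),
    (eq_inv_of_mul_eq_one_left h12).trans (map_inv₀ _ _).symm,
    (eq_inv_of_mul_eq_one_left h11).trans (map_inv₀ _ _).symm⟩
  · rintro ((l | l) | l)
    exacts [hi.2 _, hj.2 _, h8]
  · obtain ⟨A, hA⟩ := uc_Zc (Δ := Δ) hi.1 hj.1 (ix (dg π) (mT π (emb k)))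
    obtain ⟨B, hB⟩ := uc_Zc (Δ := Δ) hi.1 hj.1 (dg π)
    refine (congrArg (Lc V _) (h5 _ _)).mpr (Lc.div (hA ▸ Lc.poly A) (hB ▸ Lc.poly B) ?_)
    rw [Zc, map_mul, h9, h10, mul_one]

theorem tri_Y (hR : Ram z f χ R) (h : Cox χ s r Δ μ) (hV : LocV z V p)
    (h1 : V.valuation (R p) = 1) : (Mx V s 0 ∧ Mx V r 1) ∨ (Mx V s 1 ∧ Mx V r 1 ∧ ¬ Mx V s 0) ∨
      (Mx V s 0 ∧ Mx V r 0 ∧ ¬ Mx V r 1) := by
  obtain ⟨i, hi⟩ := exists_max V (Function.ne_iff.2 ⟨0, h.ne'.1 0⟩)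
  obtain ⟨j, hj⟩ := exists_max V (Function.ne_iff.2 ⟨0, h.ne'.2 0⟩)
  obtain ⟨q, hq⟩ := (fwd hR h hV h1 hi hj).1
  have h2 : ∀ a, ¬ Mx V s a → ∃ l, i.succAbove l = a ∧
      V.valuation (uc s r Δ i j (.inl (.inl l))) < 1 := fun a ha => by
    obtain ⟨l, rfl⟩ := Fin.exists_succAbove_eq (x := a) (y := i) fun h => ha (h ▸ hi)
    exact ⟨l, rfl, Mx.lt hi ha⟩
  have h3 : ∀ a, ¬ Mx V r a → ∃ l, j.succAbove l = a ∧
      V.valuation (uc s r Δ i j (.inl (.inr l))) < 1 := fun a ha => by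
    obtain ⟨l, rfl⟩ := Fin.exists_succAbove_eq (x := a) (y := j) fun h => ha (h ▸ hj)
    exact ⟨l, rfl, Mx.lt hj ha⟩
  have h4 : ∀ {a b}, V.valuation (uc s r Δ i j a) < 1 → V.valuation (uc s r Δ i j b) < 1 → b = a :=
    fun ha hb => of_not_not fun h => hb.ne (hq.two ha h)
  by_cases h5 : Mx V s 0
  · refine or_iff_not_imp_left.2 fun h6 => .inr ⟨h5, of_not_not fun h7 => ?_, fun h => h6 ⟨h5, h⟩⟩
    obtain ⟨l, h8, h9⟩ := h3 0 h7
    obtain ⟨l', h10, h11⟩ := h3 1 fun h => h6 ⟨h5, h⟩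
    obtain rfl : l' = l := by simpa using h4 h9 h11
    exact zero_ne_one (h8.symm.trans h10)
  · obtain ⟨l, h8, h9⟩ := h2 0 h5
    refine .inr (.inl ⟨of_not_not fun h7 => ?_, of_not_not fun h7 => ?_, h5⟩)
    · obtain ⟨l', h10, h11⟩ := h2 1 h7
      obtain rfl : l' = l := by simpa using h4 h9 h11
      exact zero_ne_one (h8.symm.trans h10)
    · obtain ⟨l', -, h11⟩ := h3 1 h7
      simpa using h4 h9 h11

theorem pic_Y (hR : Ram z f χ R) (h : Cox χ s r Δ μ) {D : (ι → ℂ) → K} (hD : IsDiv z D) :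
    ∃ (ψ : K) (D' : (IX → ℂ) → K0), ψ ≠ 0 ∧ IsDiv z0 D' ∧ ∀ p V, LocV z V p →
      V.valuation (R p) = 1 → V.valuation (D p) = V.valuation (ψ * χ (D' (img z f p))) := by
  obtain ⟨h1, h2⟩ := h.ne'
  obtain ⟨ψ, n₁, n₂, h3, h4⟩ := pic (R := R)
    (ρ₁ := fun p => s 0 / μ * (χ (hP (img z f p)) ^ 2 / χ (hE (img z f p))))
    (ρ₂ := fun p => r 1 * μ * (χ (hE (img z f p)) / χ (hP (img z f p))))
    (h.co (h1 0) (h2 1)) (h.co (h1 1) (h2 1)) (h.co (h1 0) (h2 0)) (i₁ := .inl (.inl 0))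
    (i₂ := .inl (.inr 0)) (fun p V hV h3 => by
      have h4 : ∀ i j, Mx V s i → Mx V r j → V.valuation (s 0 / μ * (χ (hP (img z f p)) ^ 2 /
          χ (hE (img z f p)))) = V.valuation (s 0 / s i) ∧ V.valuation (r 1 * μ *
            (χ (hE (img z f p)) / χ (hP (img z f p)))) = V.valuation (r 1 / r j) := by
        intro i j hi hj
        obtain ⟨-, h4, h5⟩ := fwd hR h hV h3 hi hj
        have := h.ne
        have := h1 i
        have := h2 j
        constructor <;> rw [map_mul, map_div₀ _ _ (χ _)]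
        · rw [map_pow, h4, h5, ← map_pow, ← map_div₀, ← map_mul]
          field_simp
        · rw [h4, h5, ← map_div₀, ← map_mul]
          field_simp
      refine (tri_Y hR h hV h3).imp (fun ⟨hi, hj⟩ => ⟨(fwd hR h hV h3 hi hj).1, ?_⟩) (Or.imp
        (fun ⟨hi, hj, h5⟩ => ⟨(fwd hR h hV h3 hi hj).1.elim fun q hq => hq.var (hi.lt h5),
          (h4 _ _ hi hj).1, ?_⟩)
        fun ⟨hi, hj, h5⟩ => ⟨(fwd hR h hV h3 hi hj).1.elim fun q hq => hq.var (hj.lt h5), ?_,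
          (h4 _ _ hi hj).2⟩)
      · simpa only [div_self (h1 0), div_self (h2 1), map_one] using h4 _ _ hi hj
      · simpa only [div_self (h2 1), map_one] using (h4 _ _ hi hj).2
      · simpa only [div_self (h1 0), map_one] using (h4 _ _ hi hj).1) hD
  refine ⟨ψ * (s 0 / μ) ^ n₁ * (r 1 * μ) ^ n₂, fun q => (hP q ^ (2 : ℤ) * (hE q)⁻¹) ^ n₁ *
    (hE q * (hP q)⁻¹) ^ n₂, mul_ne_zero (mul_ne_zero h3 (zpow_ne_zero _ (div_ne_zero (h1 0) h.ne)))
      (zpow_ne_zero _ (mul_ne_zero (h2 1) h.ne)), (((div_P.zpow 2).mul div_E.inv).zpow _).mul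
        ((div_E.mul div_P.inv).zpow _), fun p V hV h5 => (h4 p V hV h5).trans (congrArg _ ?_)⟩
  simp only [map_mul, map_zpow₀, map_inv₀, mul_zpow, div_eq_mul_inv, zpow_ofNat, map_pow]
  ring

end

/-- The variables of the Cox ring. -/
abbrev IC : Type := (Fin 7 ⊕ Fin 7) ⊕ Unit

section
variable {F : Type} [Field F] [Algebra ℂ F] {v : IC → F} {V : ValuationSubring F}
  {q : MvPolynomial IC ℂ}

/-- The generic point in Cox coordinates. -/
abbrev cv (v : IC → F) : T → F :=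
  cx (fun l => v (.inl (.inl l))) (fun l => v (.inl (.inr l))) (v (.inr ()))

/-- The chart variables in Cox coordinates. -/
abbrev uv (v : IC → F) : IU → F :=
  uc (fun l => v (.inl (.inl l))) (fun l => v (.inl (.inr l))) (v (.inr ())) 0 1

theorem Co.ne {σ : Type} {v : σ → F} (h : Co v) (k : σ) : v k ≠ 0 := by
  simpa using (map_ne_zero_iff _ h.1).2 (X_ne_zero k)

theorem cox_hom (h : Cox χ s r Δ μ) (h1 : Co v) : ∃ ρ : K →ₐ[ℂ] F,
    (∀ k, ρ (uc s r Δ 0 1 k) = uv v k) ∧ ∀ b a, ρ (χ (z0 b / z0 a)) = Zc (cv v) b / Zc (cv v) a := by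
  have h3 := h1.ne
  obtain ⟨ρ, h5⟩ := (h.co h.s0 (h.ne'.2 1)).hom (y' := uv v) (indep_of_rk (by
    have h5 : dm ℂ v ≤ rk ℂ (insert (v (.inl (.inl 0))) (insert (v (.inl (.inr 1)))
        (Set.range (uv v)))) := by
      refine rk_le_of_mem ?_
      generalize hE : IntermediateField.adjoin ℂ (_ : Set F) = E
      have h5 : v (.inl (.inl 0)) ∈ E := hE ▸ IntermediateField.subset_adjoin _ _ (.inl rfl)
      have h6 : v (.inl (.inr 1)) ∈ E := hE ▸ IntermediateField.subset_adjoin _ _ (.inr (.inl rfl))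
      obtain ⟨h7, h8, h9⟩ := uc_cases (s := fun l => v (.inl (.inl l)))
        (r := fun l => v (.inl (.inr l))) (Δ := v (.inr ())) (i := 0) (j := 1) (P := (· ∈ E))
        (h3 _) (h3 _) (one_mem _)
        fun k => hE ▸ IntermediateField.subset_adjoin _ _ (.inr (.inr ⟨k, rfl⟩))
      rintro _ ⟨(l | l) | l, rfl⟩
      · simpa [h3] using mul_mem (h7 l) h5
      · simpa [h3] using mul_mem (h8 l) h6
      · simpa [h3] using div_mem (mul_mem h9 (pow_mem h6 2)) (pow_mem h5 2)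
    have h6 := (dm_indep h1.1).ge.trans (h5.trans ((rk_insert_le _ _).trans
      (add_le_add_left (rk_insert_le _ _) 1)))
    rw [add_assoc, show (Nat.card IC : ℕ∞) = Nat.card IU + (1 + 1) by simp; rfl] at h6
    exact (ENat.add_le_add_iff_right (by decide)).1 h6))
  refine ⟨ρ, h5, fun b a => ?_⟩
  rw [h.Z h.s0 (h.ne'.2 1), map_div₀, map_Zc, map_Zc,
    cx_ratio (h3 (.inl (.inl 0))) (h3 (.inl (.inr 1)))]
  congr 2 <;> funext t <;> rcases t with (l | l) | l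
  all_goals first
    | (rcases Fin.eq_self_or_eq_succAbove 0 l with rfl | ⟨l, rfl⟩
       exacts [by simp [cx, h.s0, h3], h5 (.inl (.inl l))])
    | (rcases Fin.eq_self_or_eq_succAbove 1 l with rfl | ⟨l, rfl⟩
       exacts [by simp [cx, h.ne'.2, h3], h5 (.inl (.inr l))])
    | (fin_cases l
       exacts [(map_neg ρ _).trans (congrArg _ (h5 (.inr ()))), map_zero ρ, map_one ρ, map_zero ρ])

theorem pl_unit (hq : Pr V v q) {c : IP} (h : Mx V (Pl (cv v)) c) :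
    V.valuation (Pl (cv v) c) = 1 := by
  classical
  have h14 := hq.mem
  refine val_eq (sub_mem (mul_mem (h14 _) (h14 _)) (mul_mem (h14 _) (h14 _))) fun h23 => ?_
  have h24 : ∀ k l : Fin 7, q ∣ X (σ := IC) (R := ℂ) (.inl (.inl k)) *
      X (σ := IC) (R := ℂ) (.inl (.inr l)) - X (σ := IC) (R := ℂ) (.inl (.inl l)) *
      X (σ := IC) (R := ℂ) (.inl (.inr k)) := fun k l => (hq.lt _).1 (by
    have h24 := val_mul_lt h23 (h.2 (k, l))
    rw [mul_div_cancel₀ _ h.1] at h24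
    simpa [Pl, cx] using h24)
  have h25 : ∀ {G k}, q ∣ G → q ∣ pderiv k q → q ∣ pderiv k G := by
    rintro _ k ⟨w, rfl⟩ h
    rw [pderiv_mul]
    exact dvd_add (h.mul_right _) (dvd_mul_right _ _)
  have h26 : ∀ {a b}, q ∣ X a → q ∣ X b → a = b := fun ha hb => of_not_not fun h =>
    ((hq.lt _).2 ha).ne (by simpa using hq.two (by simpa using (hq.lt _).2 hb) h)
  obtain ⟨w, hw⟩ := h24 2 3
  have h27 : ¬ q ∣ w := fun h => by
    have h27 : ∀ k, q ∣ pderiv k (q * w) := fun k => by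
      rw [pderiv_mul]
      exact dvd_add (h.mul_left _) (dvd_mul_right _ _)
    rw [← hw] at h27
    simpa using h26 (a := .inl (.inr 3)) (b := .inl (.inl 2))
      (by simpa using h27 (.inl (.inl 2))) (by simpa using h27 (.inl (.inr 3)))
  have h28 : ∀ k, pderiv k (q * w) = 0 → q ∣ pderiv k q := fun k h => by
    rw [pderiv_mul] at h
    exact (hq.prime.dvd_or_dvd (eq_neg_of_add_eq_zero_left h ▸
      (dvd_mul_right _ _).neg_right)).resolve_right h27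
  rw [← hw] at h28
  simpa using h26 (a := .inl (.inr 1)) (b := .inl (.inl 0))
    (by simpa using h25 (h24 0 1) (h28 (.inl (.inl 0)) (by simp)))
    (by simpa using h25 (h24 0 1) (h28 (.inl (.inr 1)) (by simp)))

theorem der_pres (hq : Pr V v q) (h : Mx V (Zc (cv v)) (dg π)) (k : Fin 13) : ∃ w : IC → F,
    (∀ j, w j ∈ V) ∧ ∀ d : Derivation ℂ F F, (∀ j, d (v j) = w j) →
      ∀ j, d (cc (Zc (cv v)) π j) = if j = k then 1 else 0 := by
  have h14 := hq.mem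
  have h23 := pl_unit hq h.P
  have h24 : Ee (cv v) (dg π).1 ∈ V := act_mem V (fun n => by
    fin_cases n <;> simp [cx, h14]) (h14 _) (h14 _) (h14 _) (h14 _) _
  let g : T → F := fun t => if t = mT π (emb k) then 1 else 0
  have h25 : ∀ t, g t ∈ V := fun t => by by_cases h : t = mT π (emb k) <;> simp [g, h]
  let S := fun l => v (.inl (.inl l))
  let U := fun l => v (.inl (.inr l))
  obtain ⟨ζ, h26, h27⟩ : ∃ ζ : Fin 4 → F, (∀ n, ζ n ∈ V) ∧ ∀ n, act ζ (S (π.1 0)) (S (π.1 1))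
      (U (π.1 0)) (U (π.1 1)) n = Ee (cv v) (dg π).1 * et g n := by
    refine ⟨act (fun n => Ee (cv v) (dg π).1 / Pl (cv v) (dg π).2 ^ 3 * et g n)
      (U (π.1 1)) (-S (π.1 1)) (-U (π.1 0)) (S (π.1 0)), act_mem V (fun n => mul_mem (mem_of_mul
        (b := Pl _ _ ^ 3) (by rw [map_pow, h23, one_pow]) (by
          rwa [div_mul_cancel₀ _ (pow_ne_zero _ h.P.1)])) (h25 _)) (h14 _) (neg_mem (h14 _))
            (neg_mem (h14 _)) (h14 _), fun n => ?_⟩
    have h29 := act_inv (fun n => Ee (cv v) (dg π).1 / Pl (cv v) (dg π).2 ^ 3 * et g n)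
      (U (π.1 1)) (-S (π.1 1)) (-U (π.1 0)) (S (π.1 0)) n
    rwa [neg_neg, neg_neg, show U (π.1 1) * S (π.1 0) - -S (π.1 1) * -U (π.1 0) =
      Pl (cv v) (dg π).2 by simp [Pl, cx, dg, mul_comm, S, U], ← mul_assoc,
      mul_div_cancel₀ _ (pow_ne_zero _ h.P.1)] at h29
  refine ⟨Sum.elim (Sum.elim
    (fun n => ζ 2 * S n + ζ 3 * U n + S (π.1 0) * sv g n + S (π.1 1) * rv g n) fun n =>
      (ζ 1 + 3 * v (.inr ()) * ζ 3) / 2 * S n + U (π.1 0) * sv g n + U (π.1 1) * rv g n)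
        fun _ => -ζ 0 - 3 * v (.inr ()) * ζ 2, fun j => ?_, fun d hd j => ?_⟩
  · have h32 : (3 : F) ∈ V := ofNat_mem V 3
    have h33 : (2 : F)⁻¹ ∈ V := by simpa [map_ofNat] using hq.const 2⁻¹
    rcases j with (n | n) | n <;> simp only [Sum.elim_inl, Sum.elim_inr, div_eq_mul_inv] <;>
      repeat' with_reducible first
        | assumption | apply add_mem | apply mul_mem | apply sub_mem | apply neg_mem | apply h26
        | apply h14 | apply h25
  have h29 : ∀ k, Nv 0 1 0 (emb k) := by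
    unfold Nv
    decide
  have h31 : ∀ j k, emb j = emb k ↔ j = k := by decide
  refine (der_cox (g := g) (ζ := ζ) (d := d) h.1 (fun t ht => if_neg fun h : t = _ => ht
    (h ▸ ⟨fun h => (h29 k).1 ((mT π).injective h), fun h => (h29 k).2.1 ((mT π).injective h),
      fun h => (h29 k).2.2.1 ((mT π).injective h), fun h => (h29 k).2.2.2.1 ((mT π).injective h),
      fun h => (h29 k).2.2.2.2 ((mT π).injective h)⟩)) (fun n => hd _) (fun n => hd _) (hd _)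
        h27 _).trans ?_
  simp only [g, EmbeddingLike.apply_eq_iff_eq, h31]

end

theorem kappa [Finite ι] (hz : z ≠ 0) (hR : Ram z f χ R) (h : Cox χ s r Δ μ) {e : K} {m : ℕ}
    (he : ∀ p, IsPt z p → Reg z p (e * R p ^ m)) : ∃ c : ℂ, e = algebraMap ℂ K c := by
  let F := FractionRing (MvPolynomial IC ℂ)
  obtain ⟨v, hv⟩ : ∃ v : IC → F, v = fun k => algebraMap (MvPolynomial IC ℂ) F (X k) := ⟨_, rfl⟩
  have h1 : Co v := hv ▸ co_frac
  have h2 : IsScalarTower.toAlgHom ℂ (MvPolynomial IC ℂ) F = aeval v :=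
    algHom_ext fun k => by simp [hv]
  replace h2 : ∀ G, algebraMap (MvPolynomial IC ℂ) F G = aeval v G :=
    fun G => AlgHom.congr_fun h2 G
  have h4 := h.co h.s0 (h.ne'.2 1)
  obtain ⟨ρ, h5, h6⟩ := cox_hom h h1
  obtain ⟨δ, hδ⟩ := exists_dual h1.1
  have h7 : ∀ w : IC → F, ∃ d : Derivation ℂ F F, (∀ k, d (v k) = w k) ∧ ∀ x,
      d x = ∑ k, w k * δ k x := fun w =>
    ⟨∑ k, w k • δ k, fun k => by
      simp only [der_sum, Derivation.smul_apply, hδ _ k, smul_eq_mul, mul_ite, mul_one, mul_zero,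
        Finset.sum_ite_eq', Finset.mem_univ, if_true], fun x => der_sum _ _ _⟩
  obtain ⟨G, hG⟩ : ∃ G : MvPolynomial IC ℂ, aeval v G = ρ e := by
    by_contra! h8
    obtain ⟨V, h9, h10, -, h11⟩ := hartogs (R := MvPolynomial IC ℂ) (K := F) ⊥ bot_le (e := ρ e)
      fun s hs a => by rw [Submonoid.mem_bot.1 hs, map_one, one_mul, h2]; exact h8 a
    simp only [h2] at h10 h11
    have h12 : ∀ k, ∀ x ∈ V, δ k x ∈ V := fun k x hx => by
      obtain ⟨a, b, h12, h13⟩ := h11 x hx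
      have h14 : ∀ G : MvPolynomial IC ℂ, δ k (aeval v G) ∈ V := fun G => by
        rw [der_pd (hδ k)]
        exact h10 _
      exact der_mem (h14 a) (h14 b) hx h12 h13
    have h13 : ∀ c : ℂ, algebraMap ℂ F c ∈ V := fun c => by simpa using h10 (C c)
    have h14 : ∀ k, v k ∈ V := fun k => by simpa using h10 (X k)
    obtain ⟨q, hq⟩ := exists_pr h1 (fun h => h9 (h.ge (ValuationSubring.mem_top _))) h13 h14
      (big_of_der h13 h14 hδ h12)
    obtain ⟨Ω, _, _, y, hy⟩ := exists_cen (V := V.comap ρ) (fun c => by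
      rw [ValuationSubring.mem_comap, RingHom.coe_coe, ρ.commutes]; exact h13 c) hz
    obtain ⟨p, hp, -⟩ := IsPt.closed hy.1 (H := 1) (by simp)
    have h15 := hy.pt.trans hp
    have h16 : ∀ φ, Reg z p φ → ρ φ ∈ V := fun φ h => (h.gen hp).elim fun _ h => (hy.val h).1
    obtain ⟨π, δ', h17, h18, h19, -, h20⟩ := hR.chart h15
    have h21 := (hR.img h15).ne' h17
    have h22 : Mx V (Zc (cv v)) (dg π) := ⟨fun h7 => by simpa [h7, h21] using h6 (dg π) (dg π),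
      fun b => h6 b _ ▸ h16 _ (hR.reg h15 h17 b)⟩
    have h23 : ρ (R p)⁻¹ ∈ V := h20 (V.comap ρ) h16 fun k x hx => by
      obtain ⟨w, h23, h24⟩ := der_pres hq h22 k
      obtain ⟨d, h25, h26⟩ := h7 w
      have h30 := chain h19 h18 ρ d x
      simp only [show ∀ j, d (ρ (χ (cc z0 π j))) = _ from fun j =>
        (congrArg d (h6 _ _)).trans (h24 d h25 j), ite_mul, one_mul,
        zero_mul, Finset.sum_ite_eq', Finset.mem_univ, if_true] at h30
      change ρ _ ∈ V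
      rw [← h30, h26]
      exact sum_mem fun j _ => mul_mem (h23 j) (h12 j _ hx)
    have h24 := mul_mem (h16 _ (he p h15)) (pow_mem h23 m)
    rw [← map_pow, ← map_mul, inv_pow, mul_inv_cancel_right₀ (pow_ne_zero m (hR.eff.1.ne h15))] at h24
    exact h9 h24
  let w : IC → ℕ := Sum.elim (Sum.elim (fun _ => 1) fun _ => 2) fun _ => 2
  obtain ⟨d, h8, -⟩ := h7 fun k => w k * v k
  have h9 : d (ρ e) = 0 := by
    obtain ⟨δ', h9⟩ := exists_dual h4.1
    rw [chain h4.alg h9 ρ d e]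
    refine Finset.sum_eq_zero fun k _ => mul_eq_zero_of_left ?_ _
    rw [h5]
    rcases k with (l | l) | l <;> simp [uc, w, h8, Derivation.leibniz_div] <;> right <;> ring
  rw [← hG, der_aeval] at h9
  have h10 := euler (w := w) (G := G) (by rintro ((l | l) | l) <;> simp [w])
    (algebraicIndependent_iff.1 h1.1 _ (by
      simpa only [map_sum, map_mul, map_natCast, aeval_X, h8] using h9))
  exact ⟨coeff 0 G, ρ.injective (hG.symm.trans (by rw [h10]; simp))⟩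

/-- The properties of the canonical divisor that are used. -/
structure KXP (KX : (IX → ℂ) → K0) : Prop where
  div : IsDiv z0 KX
  num : num X0 KX = -((4 : ℝ) • num X0 hE + num X0 hP)
  can : ∃ δ, Dual δ y0 ∧ Can z0 KX δ ∧
    ∀ p π, IsPt z0 p → p (dg π) ≠ 0 → IsU z0 p (vol δ (cc z0 π) * KX p)

theorem not_breaking {Y : Var} (hY : Y.Smooth) {KY : (Y.ι → ℂ) → Y.K} (hK : IsCanonical Y.z KY)
    {KX : (IX → ℂ) → K0} (hX : KXP KX) (h1 : aInv X0 KX (-num X0 KX) = 1) {f : IX → Y.K}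
    {χ : K0 →ₐ[ℂ] Y.K} (hf : IsPt z0 f) (hm : IsMor Y.z f) (hχ : ∀ φ, Val z0 f φ (χ φ))
    (ha : Alg fun k => χ (y0 k)) (h : ¬ Gen f → ∃ u, χ (y0 12) = u * (χ (y0 11) -
      u * (χ (y0 10) - u)) ∧ IntermediateField.adjoin ℂ (Set.range (ext1 u fun k => χ (y0 k))) = ⊤) :
    ¬ Breaking Y X0 KY KX f := by
  obtain ⟨δ, h2, h3, h4⟩ := hX.can
  obtain ⟨c, h5, hR⟩ := exists_ram Y.ne hK hX.div h2 h3 h4 hf hm hχ ha
  have h6 := hX.div.pull hf hm hχ
  have h7 : num Y KY = num Y (fun p => c * KY p / χ (KX (img Y.z f p))) + pullNum Y X0 f KX := by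
    rw [← num_pull (X := X0) hf hm hχ hX.div, ← num_mul hR.eff.1 h6]
    refine funext fun C => congrArg Int.cast (deg_congr hK.1 (hR.eff.1.mul h6) C.pt (ψ := c⁻¹)
      fun p hp => ?_)
    rw [div_mul_cancel₀ _ (h6.ne hp), zpow_neg_one, mul_inv, mul_left_comm,
      mul_inv_cancel₀ (hK.1.ne hp), mul_one, div_self (inv_ne_zero h5)]
    exact IsU.one
  have h8 : ¬ Gen f → ∃ s r Δ μ, Cox χ s r Δ μ := fun h8 => by
    obtain ⟨u, h9, h10⟩ := h h8
    have : CharZero Y.K := charZero_of_injective_algebraMap (algebraMap ℂ Y.K).injective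
    obtain ⟨s, r, Δ, μ, h11, h12, h13, h14, h15⟩ := exists_cx (y := fun k => χ (y0 k)) h9 fun h11 => by
      obtain ⟨δ', h12⟩ := exists_dual (co_y0.1.map' (f := χ) χ.injective)
      have h13 := congrArg (δ' 12) h9
      have h14 : ∀ k, δ' 12 (χ (y0 k)) = if 12 = k then 1 else 0 := h12 12
      simp only [h14, Derivation.leibniz, map_sub, smul_eq_mul] at h13
      simp at h13
      exact one_ne_zero (h13.trans (by linear_combination δ' 12 u * h11))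
    exact ⟨s, r, Δ, μ, h11, fun b => by simpa only [map_Ee, map_pk] using h14 b,
      fun b => by simpa only [map_Pl, map_pk] using h15 b, by rwa [h12, h13, div_one],
      h12.trans_ne one_ne_zero⟩
  rintro (h9 | ⟨h9, m, φ, ψ, -, h10, h11, h12⟩ | ⟨h9, γ, h10, γ', h11, h12, h13⟩)
  · exact h9.not_ge (aInv_le (X := X0) hf hm hχ hR.eff h7)
  · obtain ⟨s, r, Δ, μ, h13⟩ := h8 h9.2.1
    have h14 : ∀ φ, IsSec Y.z (fun p => KY p / pull Y.z z0 f KX p) m φ → ∃ a : ℂ, φ = a • c ^ m :=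
      fun φ h => (kappa Y.ne hR h13 (e := φ / c ^ m) (m := m) fun p hp => by
        have h14 := h p hp
        rw [pull_eq hf hχ] at h14
        rwa [mul_div_assoc, mul_pow, ← mul_assoc, div_mul_cancel₀ _ (pow_ne_zero _ h5)]).imp
          fun a ha => by rw [Algebra.smul_def, ← ha, div_mul_cancel₀ _ (pow_ne_zero _ h5)]
    obtain ⟨a, rfl⟩ := h14 φ h10
    obtain ⟨b, rfl⟩ := h14 ψ h11
    rw [LinearIndependent.pair_iff] at h12
    exact one_ne_zero (h12 1 0 (by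
      rw [neg_eq_zero.1 (h12 b (-a) (by simp [smul_smul, mul_comm])).2]; simp)).1
  · obtain ⟨s, r, Δ, μ, h14⟩ := h8 h9.2.1
    refine h12 fun D hD => ?_
    obtain ⟨ψ, D', h15, h16, h17⟩ := pic_Y hR h14 hD
    have h18 : ∀ γ ∈ Face Y KY (-pullNum Y X0 f KX), dot (num Y D) γ = dot (pullNum Y X0 f D') γ :=
      fun γ hγ => by
        have h18 := hγ.2
        rw [h9.2.2, h1, EReal.toReal_one, one_smul, h7, add_neg_cancel_right] at h18
        rw [dot_congr hY hR.eff hD ((IsDiv.const h15).mul (h16.pull hf hm hχ)) h17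
          (nef_face hR.eff.1 hγ.1 h18), num_mul (.const h15) (h16.pull hf hm hχ), num_const h15,
          zero_add, num_pull (X := X0) hf hm hχ h16]
    rw [h18 γ h10, h18 γ' h11, h13 D' h16]

end GMC
end

-- merged part: Pool.Agent.Work.MP_64a944_ag.N12
section
/-!
# Rational curves on the variety: the strata
-/

namespace GMC

open PR0 PR0.Z GM Polynomial

section
variable {R R' : Type} [CommRing R] [CommRing R'] {p q : R[X]} {n m : ℤ} {c c' : R}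

/-- Degree at most `n`. -/
def DL (p : R[X]) (n : ℤ) : Prop := p = 0 ∨ (p.natDegree : ℤ) ≤ n

/-- The coefficient in degree `n`. -/
def tc (p : R[X]) (n : ℤ) : R := if 0 ≤ n then p.coeff n.toNat else 0

/-- Degree at most `n` with top coefficient `c`. -/
def Tp (p : R[X]) (n : ℤ) (c : R) : Prop := DL p n ∧ tc p n = c

theorem DL.tp (h : DL p n) : Tp p n (tc p n) := ⟨h, rfl⟩

theorem DL.mono (h : DL p n) (h' : n ≤ m) : DL p m := h.imp_right (·.trans h')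

theorem DL.le (h : DL p n) : p.natDegree ≤ n.toNat := h.elim (by simp [·]) (by omega)

theorem DL.zero (h : DL p n) (h' : n < 0) : p = 0 := h.elim id (by omega)

theorem DL.of_le {n : ℕ} (h : p.natDegree ≤ n) : DL p n := .inr (by omega)

theorem DL.of_coeff (h : ∀ j : ℕ, n < j → p.coeff j = 0) : DL p n :=
  or_iff_not_imp_left.2 fun h0 => not_lt.1 fun h1 => h0 (leadingCoeff_eq_zero.1 (h _ h1))

theorem DL.coeff (h : DL p n) {j : ℕ} (hj : n < j) : p.coeff j = 0 :=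
  h.elim (by simp [·]) fun h => coeff_eq_zero_of_natDegree_lt (by omega)

theorem DL.add (h : DL p n) (h' : DL q n) : DL (p + q) n :=
  .of_coeff fun j hj => by rw [coeff_add, h.coeff hj, h'.coeff hj, add_zero]

theorem DL.neg (h : DL p n) : DL (-p) n := .of_coeff fun j hj => by rw [coeff_neg, h.coeff hj, neg_zero]

theorem DL.sub (h : DL p n) (h' : DL q n) : DL (p - q) n := sub_eq_add_neg p q ▸ h.add h'.neg

theorem DL.mul (h : DL p n) (h' : DL q m) : DL (p * q) (n + m) := by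
  rcases h with rfl | h
  · exact .inl (zero_mul _)
  rcases h' with rfl | h'
  · exact .inl (mul_zero _)
  exact .inr (by have := natDegree_mul_le (p := p) (q := q); omega)

theorem DL.C (c : R) : DL (C c) 0 := .inr (by simp)

theorem DL.drop (h : DL p n) (h' : tc p n = 0) : DL p (n - 1) := .of_coeff fun j hj => by
  rcases (show n = j ∨ n < j by omega) with rfl | h1
  · simpa [tc] using h'
  · exact h.coeff h1

theorem tc_zero (n : ℤ) : tc (0 : R[X]) n = 0 := by simp [tc]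

theorem Tp.add (h : Tp p n c) (h' : Tp q n c') : Tp (p + q) n (c + c') :=
  ⟨h.1.add h'.1, by rw [← h.2, ← h'.2]; unfold tc; split_ifs <;> simp⟩

theorem Tp.neg (h : Tp p n c) : Tp (-p) n (-c) :=
  ⟨h.1.neg, by rw [← h.2]; unfold tc; split_ifs <;> simp⟩

theorem Tp.mul {N : ℤ} (h : Tp p n c) (h' : Tp q m c') (hN : N = n + m) : Tp (p * q) N (c * c') := by
  refine ⟨hN ▸ h.1.mul h'.1, ?_⟩
  rw [← h.2, ← h'.2, hN]
  rcases lt_or_ge n 0 with h1 | h1
  · simp [h.1.zero h1, tc_zero]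
  rcases lt_or_ge m 0 with h2 | h2
  · simp [h'.1.zero h2, tc_zero]
  rw [tc, tc, tc, if_pos h1, if_pos h2, if_pos (add_nonneg h1 h2), Int.toNat_add h1 h2]
  exact coeff_mul_add_eq_of_natDegree_le h.1.le h'.1.le

theorem Tp.C (c : R) : Tp (C c) 0 c := ⟨.C c, by simp [tc]⟩

theorem Tp.pow (h : Tp p n c) (k : ℕ) : Tp (p ^ k) (k * n) (c ^ k) := by
  induction k with
  | zero => simpa using Tp.C (1 : R)
  | succ k ih => simpa only [pow_succ] using ih.mul h (by push_cast; ring)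

theorem Tp.act {η : Fin 4 → R[X]} {η' : Fin 4 → R} {a b c d : R[X]} {a' b' c' d' : R}
    {x₁ x₂ y₁ y₂ h : ℤ} (hη : ∀ m : Fin 4, Tp (η m) (h - (3 - m.1) * x₁ - m.1 * x₂) (η' m))
    (ha : Tp a (x₁ + y₁) a') (hb : Tp b (x₁ + y₂) b') (hc : Tp c (x₂ + y₁) c')
    (hd : Tp d (x₂ + y₂) d') (n : Fin 4) :
    Tp (act η a b c d n) (h + (3 - n.1) * y₁ + n.1 * y₂) (act η' a' b' c' d' n) := by
  have h0 := hη 0
  have h1 := hη 1
  have h2 := hη 2
  have h3 := hη 3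
  have h4 : Tp (2 : R[X]) 0 2 := .C 2
  have h5 : Tp (3 : R[X]) 0 3 := .C 3
  simp only [Fin.val_zero, Fin.val_one, Fin.val_two, show (3 : Fin 4).1 = 3 from rfl] at h0 h1 h2 h3
  fin_cases n <;> simp only [GMC.act, Fin.zero_eta, Fin.mk_one, Fin.reduceFinMk, Matrix.cons_val] <;>
    repeat' first
      | with_reducible first | assumption | apply Tp.add | apply Tp.mul | rfl
      | (push_cast; ring)

theorem DL.of_mul [IsDomain R] {N : ℤ} (h : Tp p n c) (hc : c ≠ 0) (h' : DL (p * q) N) :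
    DL q (N - n) := or_iff_not_imp_left.2 fun h0 => by
  have h1 : ¬ DL p (n - 1) := fun h1 => hc (by
    rw [← h.2, tc]
    split_ifs
    exacts [h1.coeff (by omega), rfl])
  rw [DL, not_or] at h1
  have h2 := h'.resolve_left (mul_ne_zero h1.1 h0)
  rw [natDegree_mul h1.1 h0] at h2
  omega

theorem DL.split [Nontrivial R] (h : DL p n) (k : ℕ) :
    ∃ p₀ p₁, p = p₀ + X ^ k * p₁ ∧ DL p₀ (k - 1) ∧ DL p₁ (n - k) := by
  have h1 := modByMonic_add_div p (X ^ k)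
  have h2 : DL (p %ₘ X ^ k) (k - 1) := .of_coeff fun j hj => coeff_eq_zero_of_degree_lt
    ((degree_modByMonic_lt p (monic_X_pow k)).trans_le (by rw [degree_X_pow]; norm_cast; omega))
  refine ⟨_, _, h1.symm, h2, .of_coeff fun j hj => ?_⟩
  have h3 := congrArg (fun p => Polynomial.coeff p (j + k)) h1
  simp only [coeff_add, coeff_X_pow_mul] at h3
  rwa [h2.coeff (by omega), zero_add, h.coeff (by omega)] at h3

/-- The degree bounds of a stratum. -/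
def wt (a b h : ℤ) : T → ℤ :=
  Sum.elim (Sum.elim (fun _ => a) fun _ => b) fun m => h - (3 - m.1) * a - m.1 * b

/-- The top coefficients. -/
def tp (w : T → ℤ) (ν : T → R[X]) (t : T) : R := tc (ν t) (w t)

/-- Membership in the stratum. -/
def St (w : T → ℤ) (ν : T → R[X]) : Prop := ∀ t, DL (ν t) (w t)

variable {a b h : ℤ} {ν : T → R[X]} {w : T → ℤ} {e : ℕ}

theorem St.P (hν : St (wt a b h) ν) (c : IP) : Tp (Pl ν c) (a + b) (Pl (tp (wt a b h) ν) c) := by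
  rw [Pl, Pl, sub_eq_add_neg, sub_eq_add_neg]
  exact ((hν (.inl (.inl c.1))).tp.mul (hν (.inl (.inr c.2))).tp rfl).add
    ((hν (.inl (.inl c.2))).tp.mul (hν (.inl (.inr c.1))).tp rfl).neg

theorem St.E (hν : St (wt a b h) ν) (c : IE) : Tp (Ee ν c) h (Ee (tp (wt a b h) ν) c) := by
  have := Tp.act (x₁ := a) (x₂ := b) (y₁ := 0) (y₂ := 0) (h := h)
    (fun m => (hν (.inr m)).tp) ((add_zero a).symm ▸ (hν (.inl (.inl c.1.1))).tp)
    ((add_zero a).symm ▸ (hν (.inl (.inl c.1.2))).tp)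
    ((add_zero b).symm ▸ (hν (.inl (.inr c.1.1))).tp)
    ((add_zero b).symm ▸ (hν (.inl (.inr c.1.2))).tp) c.2
  simp only [mul_zero, add_zero] at this
  exact this

theorem St.Z (hν : St (wt a b h) ν) (he : (e : ℤ) = h + a + b) (c : IX) :
    Tp (Zc ν c) e (Zc (tp (wt a b h) ν) c) := (hν.E _).mul (hν.P _) (he.trans (add_assoc _ _ _))

/-- The coefficients of the curve. -/
noncomputable def Ph (e : ℕ) (ν : T → R[X]) (c : IX × Fin (e + 1)) : R := (Zc ν c.1).coeff c.2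

/-- The parameters of a stratum. -/
abbrev JJ (w : T → ℤ) : Type := Σ t : T, Fin (w t + 1).toNat

/-- The polynomials with given coefficients. -/
noncomputable def poly (ξ : JJ w → R) (t : T) : R[X] := ∑ j, monomial j.1 (ξ ⟨t, j⟩)

theorem coeff_poly (ξ : JJ w → R) (t : T) (j : ℕ) :
    (poly ξ t).coeff j = if h : j < (w t + 1).toNat then ξ ⟨t, j, h⟩ else 0 := by
  simp only [poly, finsetSum_coeff, coeff_monomial]
  split_ifs with h
  · rw [Finset.sum_eq_single ⟨j, h⟩] <;> simp +contextual [Fin.ext_iff]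
  · exact Finset.sum_eq_zero fun i _ => if_neg fun h' : i.1 = j => h (h' ▸ i.2)

theorem st_poly (ξ : JJ w → R) : St w (poly ξ) := fun t => .of_coeff fun j hj => by
  rw [coeff_poly, dif_neg (by omega)]

theorem St.poly (hν : St w ν) : poly (fun c : JJ w => (ν c.1).coeff c.2) = ν := by
  funext t
  ext j
  rw [coeff_poly]
  split_ifs with h
  exacts [rfl, ((hν t).coeff (by omega)).symm]

theorem map_poly (φ : R →+* R') (ξ : JJ w → R) (t : T) :
    (poly ξ t).map φ = poly (fun c => φ (ξ c)) t := by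
  simp [poly, Polynomial.map_sum]

theorem map_Ph (φ : R →+* R') (ξ : JJ w → R) (c : IX × Fin (e + 1)) :
    φ (Ph e (poly ξ) c) = Ph e (poly fun c => φ (ξ c)) c := by
  rw [Ph, ← coeff_map, ← coe_mapRingHom, map_Zc]
  simp only [coe_mapRingHom, map_poly]
  rfl

theorem map_tp (φ : R →+* R') (ξ : JJ w → R) (t : T) :
    φ (tp w (poly ξ) t) = tp w (poly fun c => φ (ξ c)) t := by
  rw [tp, tp, ← map_poly, tc, tc, coeff_map, apply_ite φ, map_zero]

/-- The resultant of two polynomials of degree at most `n`. -/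
noncomputable def rs (f g : R[X]) (n : ℕ) : R := resultant f g n n

theorem map_rs (φ : R →+* R') (f g : R[X]) (n : ℕ) : φ (rs f g n) = rs (f.map φ) (g.map φ) n :=
  (resultant_map_map ..).symm

theorem rs_one (f : R[X]) (n : ℕ) : rs f 1 n = f.coeff n ^ n := by
  simp [rs]

end

/-- The prime ideal of the closure of a stratum. -/
noncomputable def PI (w : T → ℤ) (e : ℕ) : Ideal (MvPolynomial (IX × Fin (e + 1)) ℂ) :=
  RingHom.ker (MvPolynomial.aeval (Ph e (poly (MvPolynomial.X : JJ w → MvPolynomial (JJ w) ℂ))))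

variable {w : T → ℤ} {e : ℕ} {G : MvPolynomial (IX × Fin (e + 1)) ℂ} {F : Type} [Field F]
  [Algebra ℂ F] {a b h : ℤ}

instance : (PI w e).IsPrime := RingHom.ker_isPrime _

theorem aeval_Ph (ξ : JJ w → F) (G : MvPolynomial (IX × Fin (e + 1)) ℂ) :
    MvPolynomial.aeval ξ (MvPolynomial.aeval (Ph e (poly (MvPolynomial.X (R := ℂ)))) G) =
      MvPolynomial.aeval (Ph e (poly ξ)) G := by
  rw [MvPolynomial.comp_aeval_apply]
  congr 2
  funext c
  simpa using map_Ph (MvPolynomial.aeval (R := ℂ) ξ).toRingHom MvPolynomial.X c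

theorem PI_zero (hG : G ∈ PI w e) {ν : T → F[X]} (hν : St w ν) :
    MvPolynomial.aeval (Ph e ν) G = 0 := by
  rw [← hν.poly, ← aeval_Ph, RingHom.mem_ker.1 hG, map_zero]

theorem PI_eq {ξ : JJ w → F} (hξ : AlgebraicIndependent ℂ ξ) :
    Pt2_id ℂ (Ph e (poly ξ)) = PI w e := Ideal.ext fun G => by
  rw [RingHom.mem_ker, ← aeval_Ph, map_eq_zero_iff _ hξ]
  rfl

/-- Good parameters. -/
structure Good (a b h : ℤ) (ν : T → F[X]) : Prop where
  st : St (wt a b h) ν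
  co : IsCoprime (Pl ν (0, 1)) (Pl ν (0, 2))
  top : Pl (tp (wt a b h) ν) (0, 1) ≠ 0
  co' : IsCoprime (et ν 0) (et ν 1)
  top' : et (tp (wt a b h) ν) 0 ≠ 0

omit [Algebra ℂ F] in
theorem cop_of_res {f g : F[X]} {n : ℤ} (hn : 1 ≤ n) (hf : DL f n) (hg : DL g n)
    (h : rs f g n.toNat ≠ 0) : IsCoprime f g := by
  obtain ⟨p, q, -, -, h1⟩ := exists_mul_add_mul_eq_C_resultant f g hf.le hg.le (.inl (by omega))
  refine ⟨C (rs f g n.toNat)⁻¹ * p, C (rs f g n.toNat)⁻¹ * q, ?_⟩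
  rw [← C_1, ← inv_mul_cancel₀ h, C_mul, rs, ← h1]
  ring

theorem exists_gamma (h1 : 1 ≤ a) (h2 : a ≤ b) (h3 : 2 * a + b ≤ h) (h4 : 3 * a < h) :
    ∃ Γ : MvPolynomial (JJ (wt a b h)) ℂ, Γ ≠ 0 ∧ ∀ (F : Type) [Field F] [Algebra ℂ F]
      (ξ : JJ (wt a b h) → F), MvPolynomial.aeval ξ Γ ≠ 0 → Good a b h (poly ξ) := by
  let W : ∀ (R : Type) [CommRing R], (T → R[X]) → R := fun R _ ν =>
    Pl (tp (wt a b h) ν) (0, 1) * et (tp (wt a b h) ν) 0 *
      rs (Pl ν (0, 1)) (Pl ν (0, 2)) (a + b).toNat * rs (et ν 0) (et ν 1) (h - 3 * a).toNat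
  have h0 : ∀ (R R' : Type) [CommRing R] [CommRing R'] (φ : R →+* R') (ξ : JJ (wt a b h) → R),
      φ (W R (poly ξ)) = W R' (poly fun c => φ (ξ c)) := fun R R' _ _ φ ξ => by
    simp only [W, map_mul, map_rs, Pl, Polynomial.map_sub, Polynomial.map_mul,
      map_sub, map_poly, map_tp]
  have h5 : ∀ (F : Type) [Field F] [Algebra ℂ F] (ξ : JJ (wt a b h) → F), MvPolynomial.aeval ξ
      (W (MvPolynomial _ ℂ) (poly MvPolynomial.X)) = W F (poly ξ) := fun F _ _ ξ => by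
    simpa using h0 _ _ (MvPolynomial.aeval (R := ℂ) ξ).toRingHom MvPolynomial.X
  refine ⟨W _ (poly MvPolynomial.X), fun h6 => ?_, fun F _ _ ξ h6 => ?_⟩
  · let ν : T → ℂ[X] := Sum.elim (Sum.elim ![X ^ a.toNat, 0, -1, 0, 0, 0, 0]
      ![1, X ^ b.toNat, 0, 0, 0, 0, 0]) ![X ^ (h - 3 * a).toNat, 1, 0, 0]
    have h7 : St (wt a b h) ν := by
      rintro ((l | l) | l) <;> fin_cases l <;> simp [ν, DL, wt] <;> omega
    have h8 := h5 ℂ fun c => (ν c.1).coeff c.2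
    rw [h6, h7.poly, map_zero] at h8
    have h9 : 0 ≤ a := by omega
    have h10 : 0 ≤ b := by omega
    simp [W, ν, Pl, tp, tc, wt, h9, h10, h4.le, ← pow_add, Int.toNat_add h9 h10, rs_one] at h8
  · rw [h5] at h6
    simp only [W, mul_ne_zero_iff] at h6
    have h7 := st_poly ξ
    exact ⟨h7, cop_of_res (by omega) (h7.P _).1 (h7.P _).1 h6.1.2, h6.1.1.1, cop_of_res (by omega)
      ((h7 _).mono (by simp [wt])) ((h7 _).mono (by simp [wt]; omega)) h6.2, h6.1.1.2⟩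

theorem exists_good (h1 : 1 ≤ a) (h2 : a ≤ b) (h3 : 2 * a + b ≤ h) (h4 : 3 * a < h)
    {Q : MvPolynomial (JJ (wt a b h)) ℂ} (hQ : Q ≠ 0) :
    ∃ ξ : JJ (wt a b h) → ℂ, MvPolynomial.aeval ξ Q ≠ 0 ∧ Good a b h (poly ξ) := by
  obtain ⟨Γ, h5, h6⟩ := exists_gamma h1 h2 h3 h4
  by_contra! h7
  refine mul_ne_zero hQ h5 (MvPolynomial.funext fun ξ => ?_)
  rw [map_zero, map_mul, mul_eq_zero, or_iff_not_imp_left]
  exact fun h8 => of_not_not fun h9 => h7 ξ h8 (h6 ℂ ξ h9)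

omit [Algebra ℂ F] in
theorem Zc_ne {ν : T → F} {c : IP} (h1 : Pl ν c ≠ 0) (h2 : et ν ≠ 0) : Zc ν ≠ 0 := by
  obtain ⟨m, hm⟩ := Function.ne_iff.1 h2
  by_contra h3
  have h4 := et_eq ν c m
  rw [show (fun n => Ee ν (c, n)) = fun _ => 0 * 0 from funext fun n => by
    simpa [Zc, h1] using congrFun h3 ((c, n), c), act_mul, zero_mul] at h4
  exact mul_ne_zero (pow_ne_zero _ h1) hm h4.symm

omit [Algebra ℂ F] in
theorem Good.ne {ν : T → F[X]} (hν : Good a b h ν) :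
    (∀ t, (Zc fun c => (ν c).eval t) ≠ 0) ∧ Zc (tp (wt a b h) ν) ≠ 0 := by
  refine ⟨fun t => ?_, Zc_ne hν.top (Function.ne_iff.2 ⟨0, hν.top'⟩)⟩
  have h1 := (hν.co.map (evalRingHom t)).ne_zero_or_ne_zero
  have h2 : (et fun c => (ν c).eval t) ≠ 0 :=
    (hν.co'.map (evalRingHom t)).ne_zero_or_ne_zero.elim (fun h => Function.ne_iff.2 ⟨0, h⟩)
      fun h => Function.ne_iff.2 ⟨1, h⟩
  simp only [map_Pl] at h1
  exact h1.elim (Zc_ne · h2) (Zc_ne · h2)

omit [Algebra ℂ F] in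
theorem St.gp {ν : T → F[X]} (hν : St (wt a b h) ν) (he : (e : ℤ) = h + a + b) :
    gp 1 (Ph e ν) 0 = Zc ν := gp_of_deg fun c => by simpa using (hν.Z he c).1.le

theorem St.form {ν : T → ℂ[X]} (hν : St (wt a b h) ν) (he : (e : ℤ) = h + a + b) :
    (∀ t, form (Ph e ν) 1 t = Zc fun c => (ν c).eval t) ∧
      form (Ph e ν) 0 1 = Zc (tp (wt a b h) ν) :=
  ⟨fun t => funext fun c => by rw [← eval_gp, hν.gp he]; exact map_Zc (evalRingHom t) _ _,
    funext fun c => by simpa [form_zero, tc, Ph] using (hν.Z he c).2⟩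

theorem Good.mor {ν : T → ℂ[X]} (hν : Good a b h ν) (he : (e : ℤ) = h + a + b) :
    Ph e ν ∈ MorSet z0 e := fun s t hst => by
  by_cases hs : s = 0
  · have h1 := (hν.st.form he).2
    rw [form_zero] at h1
    rw [hs, form_zero]
    simpa using (h1 ▸ pt_Zc hν.ne.2 :).smul (pow_ne_zero e fun h : t = 0 => hst (by rw [hs, h]))
  · rw [form_ne _ hs, (hν.st.form he).1]
    exact (pt_Zc (hν.ne.1 _)).smul (pow_ne_zero _ hs)

theorem mor_pt {A : IX × Fin (e + 1) → ℂ} (hA : A ∈ MorSet z0 e) :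
    IsPt z0 fun c => aeval (RatFunc.X : RatFunc ℂ) (gp 1 A 0 c) := by
  refine ⟨fun h => (hA 1 0 (by simp)).1 (funext fun c => ?_), fun n G hG h => ?_⟩
  · rw [← eval_gp, transcendental_iff.1 RatFunc.transcendental_X _ (congrFun h c)]
    simp
  · rw [← MvPolynomial.comp_aeval_apply, Polynomial.funext (p := MvPolynomial.aeval (gp 1 A 0) G)
      (q := 0) fun t => ?_, map_zero]
    rw [eval_aev, eval_zero]
    simpa only [eval_gp] using (hA 1 t (by simp)).2 n G hG h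

theorem St.deg {ν : T → ℂ[X]} (hν : St (wt a b h) ν) (he : (e : ℤ) = h + a + b)
    (hA : Ph e ν ∈ MorSet z0 e) :
    deg z0 hE (GM.form (fun c => RatFunc.C (Ph e ν c)) 1 RatFunc.X) = h ∧
      deg z0 hP (GM.form (fun c => RatFunc.C (Ph e ν c)) 1 RatFunc.X) = a + b := by
  have h1 := mor_pt hA
  rw [form_eq]
  have h2 : (fun c => aeval (RatFunc.X : RatFunc ℂ) (GM.gp 1 (Ph e ν) 0 c)) =
      Zc fun t => aeval RatFunc.X (ν t) := funext fun c => by rw [hν.gp he, map_Zc]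
  rw [h2] at h1 ⊢
  obtain ⟨c, hc⟩ := h1.ex
  have h3 := fun t => Function.ne_iff.1 ((hν.form he).1 t ▸ (hA 1 t (by simp)).1)
  obtain ⟨c', h4⟩ := Function.ne_iff.1 ((hν.form he).2 ▸ (hA 0 1 (by simp)).1)
  have h5 : ∀ {p : ℂ[X]} {n : ℤ} {c : ℂ}, Tp p n c → c ≠ 0 → 0 ≤ n ∧ p.coeff n.toNat ≠ 0 :=
    fun h hc => by
      rw [← h.2, tc] at hc
      exact ⟨of_not_not fun h => hc (if_neg h), fun h => hc (by simp [h])⟩
  obtain ⟨h6, h7⟩ := h5 (hν.E _) (left_ne_zero_of_mul h4)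
  obtain ⟨h8, h9⟩ := h5 (hν.P _) (right_ne_zero_of_mul h4)
  refine ⟨(deg_hyp mor_E h1 (by simpa only [map_Ee] using img_E hc) (fun j => (hν.E j).1.le)
    ⟨_, h7⟩ fun t => ?_).trans (by omega), (deg_hyp mor_P h1 (by
      simpa only [map_Pl] using img_P hc) (fun j => (hν.P j).1.le) ⟨_, h9⟩ fun t => ?_).trans
        (by omega)⟩ <;> obtain ⟨j, hj⟩ := h3 t
  exacts [⟨j.1, (map_Ee (evalRingHom t) _ _).trans_ne (left_ne_zero_of_mul hj)⟩,
    ⟨j.2, (map_Pl (evalRingHom t) _ _).trans_ne (right_ne_zero_of_mul hj)⟩]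

end GMC
end

-- merged part: Pool.Agent.Work.MP_64a944_ag.N13
section
/-!
# Every rational curve lies in a stratum; degeneration of strata
-/

namespace GMC

open PR0 PR0.Z GM Polynomial

section
variable {R R' : Type} [CommRing R] [CommRing R'] {I : Type}

theorem exists_min [Finite I] {P : (I → R[X]) → Prop} (h0 : ¬ P 0) (h : ∃ w, P w) :
    ∃ (n : ℤ) (w : I → R[X]), 0 ≤ n ∧ P w ∧ (∀ l, DL (w l) n) ∧
      ∀ w', P w' → ¬ ∀ l, DL (w' l) (n - 1) := by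
  classical
  have h1 : ∃ n : ℕ, ∃ w, P w ∧ ∀ l, DL (w l) (n - 1) := by
    obtain ⟨w, hw⟩ := h
    obtain ⟨M, hM⟩ := (Set.finite_range fun i => (w i).natDegree).bddAbove
    exact ⟨M + 1, w, hw, fun l => .inr (by have := hM ⟨l, rfl⟩; beta_reduce at this; omega)⟩
  obtain ⟨w, h2, h3⟩ := Nat.find_spec h1
  have h4 : Nat.find h1 ≠ 0 := fun h4 =>
    h0 ((funext fun l => (h3 l).zero (by omega) : w = 0) ▸ h2)
  refine ⟨_, w, by omega, h2, h3, fun w' h5 h6 =>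
    Nat.find_min h1 (m := Nat.find h1 - 1) (by omega) ⟨w', h5, fun l => (h6 l).mono (by omega)⟩⟩

theorem Tp.X : Tp (X : R[X]) 1 1 := ⟨.inr (by exact_mod_cast natDegree_X_le), by simp [tc]⟩

theorem DL.root [IsDomain R] {w : I → R[X]} {n : ℤ} (h : ∀ l, DL (w l) n) {t : R}
    (h' : ∀ l, (w l).eval t = 0) :
    ∃ w' : I → R[X], (∀ l, w l = (X - Polynomial.C t) * w' l) ∧ ∀ l, DL (w' l) (n - 1) := by
  have h1 := fun l => (mul_divByMonic_eq_iff_isRoot.2 (h' l)).symm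
  have h2 : Tp (X - Polynomial.C t) 1 1 :=
    ⟨.inr (by simp), by simp [tc, coeff_X]⟩
  exact ⟨_, h1, fun l => DL.of_mul h2 one_ne_zero (h1 l ▸ h l)⟩

theorem map_Ph' (φ : R →+* R') {e : ℕ} (ν : T → R[X]) (c : IX × Fin (e + 1)) :
    φ (Ph e ν c) = Ph e (fun t => (ν t).map φ) c := by
  rw [Ph, ← coeff_map, ← coe_mapRingHom, map_Zc]
  rfl

theorem chg1 {ν ν' : T → R} (α β γ δ c : R) (h : c * (α * δ - β * γ) = 1)
    (hs : ∀ l, sv ν l = α * sv ν' l + β * rv ν' l) (hr : ∀ l, rv ν l = γ * sv ν' l + δ * rv ν' l)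
    (hη : ∀ m, act (et ν) α β γ δ m = c * et ν' m) (b : IX) : Zc ν b = Zc ν' b := by
  rw [(chg hs hr hη).2.2, h, one_mul]

end

theorem strat {e : ℕ} {A : IX × Fin (e + 1) → ℂ} (hA : A ∈ MorSet z0 e) :
    ∃ (a b h : ℤ) (ν : T → ℂ[X]), 0 ≤ a ∧ a ≤ b ∧ (e : ℤ) = h + a + b ∧ St (wt a b h) ν ∧
      A = Ph e ν := by
  obtain ⟨ν', h1⟩ := (mor_pt hA).Zc
  obtain ⟨c₀, hc₀⟩ := (mor_pt hA).ex
  let ρ : ℂ[X] →ₐ[ℂ] RatFunc ℂ := aeval RatFunc.X
  have hρ : Function.Injective ρ := transcendental_iff_injective.1 RatFunc.transcendental_X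
  replace h1 : ∀ c, ρ (gp 1 A 0 c) = Zc ν' c := congrFun h1
  replace hc₀ : gp 1 A 0 c₀ ≠ 0 := fun h => hc₀ (by rw [h, map_zero])
  let N : (Fin 7 → ℂ[X]) → Prop := fun w => ∃ u v, ∀ l, ρ (w l) = u * sv ν' l + v * rv ν' l
  have hN : ∀ {w w' w'' : Fin 7 → ℂ[X]} {p q q' : ℂ[X]}, N w → N w' → p ≠ 0 →
      (∀ l, q * w l - q' * w' l = p * w'' l) → N w'' := by
    rintro w w' w'' p q q' ⟨u, v, h⟩ ⟨u', v', h'⟩ hp h2
    have h3 := (map_ne_zero_iff _ hρ).2 hp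
    refine ⟨(ρ q * u - ρ q' * u') / ρ p, (ρ q * v - ρ q' * v') / ρ p, fun l => ?_⟩
    have h4 := congrArg ρ (h2 l)
    rw [map_sub, map_mul, map_mul, map_mul, h, h'] at h4
    field_simp
    linear_combination -h4
  have h2 : N fun n => gp 1 A 0 (c₀.1, (n, c₀.2.2)) :=
    ⟨Ee ν' c₀.1 * rv ν' c₀.2.2, -(Ee ν' c₀.1 * sv ν' c₀.2.2), fun l => by rw [h1, Zc, Pl]; ring⟩
  have h3 : N fun n => gp 1 A 0 (c₀.1, (c₀.2.1, n)) :=
    ⟨-(Ee ν' c₀.1 * rv ν' c₀.2.1), Ee ν' c₀.1 * sv ν' c₀.2.1, fun l => by rw [h1, Zc, Pl]; ring⟩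
  obtain ⟨a, s, h4, ⟨h5, i, h6⟩, h7, h8⟩ := exists_min (P := fun w => N w ∧ ∃ i, w i ≠ 0)
    (by simp) ⟨_, h2, _, hc₀⟩
  obtain ⟨b, r, -, ⟨h9, k, l, h10⟩, h11, h12⟩ := exists_min
      (P := fun w => N w ∧ ∃ k l, s k * w l - s l * w k ≠ 0) (by simp) (by
    by_contra! h9
    have h10 : gp 1 A 0 (c₀.1, (c₀.2.2, c₀.2.2)) = 0 := hρ (by simp [h1, Zc, Pl_self])
    have h11 := h9 _ h2 c₀.2.1 c₀.2.2
    have h12 := h9 _ h3 i c₀.2.2
    simp only [h10] at h11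
    refine mul_ne_zero h6 (mul_ne_zero hc₀ hc₀) ?_
    linear_combination gp 1 A 0 c₀ * h12 - gp 1 A 0 (c₀.1, (c₀.2.1, i)) * h11)
  have hab : a ≤ b := not_lt.1 fun h => h8 r ⟨h9, by
    by_contra! h
    simp [h] at h10⟩ fun l => (h11 l).mono (by omega)
  let ν₀ : T → ℂ[X] := Sum.elim (Sum.elim s r) 0
  have h13 : St (wt a b (e - a - b)) ν₀ := by
    rintro ((l | l) | l)
    exacts [h7 l, h11 l, .inl rfl]
  have h14 : ∀ t, ∃ c, (Pl ν₀ c ^ 4).eval t ≠ 0 := fun t => by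
    by_contra! h14
    simp only [eval_pow, pow_eq_zero_iff (show 4 ≠ 0 by decide)] at h14
    by_cases h15 : ∀ l, (s l).eval t = 0
    · obtain ⟨w, h16, h17⟩ := DL.root h7 h15
      exact h8 w ⟨hN (q := 1) (q' := 0) h5 h5 (X_sub_C_ne_zero t) (by simpa using h16), i,
        right_ne_zero_of_mul (h16 i ▸ h6)⟩ h17
    obtain ⟨j, hj⟩ := not_forall.1 h15
    obtain ⟨w, h16, h17⟩ := DL.root (w := fun l => C ((s j).eval t) * r l - C ((r j).eval t) * s l)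
      (n := b) (t := t) (fun l => (((DL.C _).mul (h11 l)).mono (by omega)).sub
        (((DL.C _).mul (h7 l)).mono (by omega))) fun l => by
        simpa [Pl, ν₀, mul_comm] using h14 (j, l)
    refine h12 w ⟨hN h9 h5 (X_sub_C_ne_zero t) h16, k, l, fun h => mul_ne_zero (C_ne_zero.2 hj) h10
      ?_⟩ h17
    linear_combination (X - C t) * h + s k * h16 l - s l * h16 k
  obtain ⟨c, h15⟩ : ∃ c, Pl (tp (wt a b (e - a - b)) ν₀) c ≠ 0 := by
    by_contra! h15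
    by_cases h16 : ∀ l, tc (s l) a = 0
    · exact h8 s ⟨h5, i, h6⟩ fun l => (h7 l).drop (h16 l)
    obtain ⟨j, hj⟩ := not_forall.1 h16
    refine h12 (fun l => C (tc (s j) a) * r l - C (tc (r j) b) * X ^ (b - a).toNat * s l)
      ⟨hN h9 h5 one_ne_zero fun l => (one_mul _).symm, k, l, fun h =>
        mul_ne_zero (C_ne_zero.2 hj) h10 (by linear_combination h)⟩ fun l => ?_
    have h17 := ((Tp.C (tc (s j) a)).mul (h11 l).tp (zero_add b).symm).add
      (((Tp.C (tc (r j) b)).mul (Tp.X.pow (b - a).toNat) rfl).mul (h7 l).tp (by omega)).neg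
    rw [← sub_eq_add_neg] at h17
    refine h17.1.drop (h17.2.trans ?_)
    simpa [Pl, ν₀, tp, wt, mul_comm, sub_eq_add_neg] using h15 (j, l)
  obtain ⟨α, β, h16⟩ := h5
  obtain ⟨γ, δ, h17⟩ := h9
  have h18 : α * δ - β * γ ≠ 0 := fun h => h10 (hρ (by
    simp only [map_sub, map_mul, h16, h17, map_zero]
    linear_combination (sv ν' k * rv ν' l - sv ν' l * rv ν' k) * h))
  let ν₁ : T → RatFunc ℂ := Sum.elim (fun t => ρ (ν₀ (.inl t))) fun m =>
    ((α * δ - β * γ)⁻¹) ^ 4 * act (et ν') δ (-β) (-γ) α m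
  have h19 : ∀ b, Zc ν₁ b = ρ (gp 1 A 0 b) := fun b => by
    rw [(chg (ν := ν₁) (ν' := ν') (c := (α * δ - β * γ)⁻¹) h16 h17 fun m => ?_).2.2,
      inv_mul_cancel₀ h18, one_mul, h1]
    have h19 := act_inv (et ν') δ (-β) (-γ) α m
    rw [neg_neg, neg_neg] at h19
    refine (act_mul _ _ _ _ _ _ _).trans ?_
    rw [h19, mul_comm δ, neg_mul_neg]
    field_simp
  have h20 : ∀ c m, ρ (act (fun n => gp 1 A 0 ((c, n), c)) (r c.2) (-s c.2) (-r c.1) (s c.1) m) =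
      ρ (Pl ν₀ c ^ 4) * et ν₁ m := fun c m => by
    have h20 : ρ (Pl ν₀ c) = Pl ν₁ c := map_Pl ρ ν₀ c
    rw [map_act, map_pow, h20, pow_succ', mul_assoc, ← et_eq, ← act_mul]
    simp only [← h19, Zc, mul_comm, map_neg]
    rfl
  obtain ⟨u, hu⟩ := exists_bezout h14
  let η : Fin 4 → ℂ[X] := fun m => ∑ c, u c *
    act (fun n => gp 1 A 0 ((c, n), c)) (r c.2) (-s c.2) (-r c.1) (s c.1) m
  have h21 : ∀ m, ρ (η m) = et ν₁ m := fun m => by
    simp only [η, map_sum, map_mul, h20, ← mul_assoc]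
    simp only [← Finset.sum_mul, ← map_mul, ← map_sum, hu, map_one, one_mul]
  have h22 : St (wt a b (e - a - b)) (Sum.elim (Sum.elim s r) η) := by
    rintro ((l | l) | m)
    exacts [h7 l, h11 l, by
      have h22 := (Tp.act (x₁ := 0) (x₂ := 0) (h := e) (η := fun n => gp 1 A 0 ((c, n), c))
        (fun n => (DL.mono (.of_le (gp_deg 1 A 0 _)) (by simp)).tp)
        ((zero_add b).symm ▸ (h11 c.2).tp) ((zero_add a).symm ▸ (h7 c.2).tp.neg)
        ((zero_add b).symm ▸ (h11 c.1).tp.neg) ((zero_add a).symm ▸ (h7 c.1).tp) m).1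
      rw [hρ ((h20 c m).trans (by rw [← h21, ← map_mul]))] at h22
      exact (DL.of_mul ((h13.P c).pow 4) (pow_ne_zero _ h15) h22).mono (le_of_eq (by
        simp only [wt, Sum.elim_inr]; push_cast; ring))]
  refine ⟨a, b, _, _, h4, hab, by ring, h22, funext fun c => ?_⟩
  refine (coeff_gp A c.1 c.2).symm.trans (congrArg (coeff · _) (hρ ((h19 _).symm.trans ?_)))
  rw [map_Zc]
  congr 1
  funext t
  rcases t with (l | l) | m
  exacts [rfl, rfl, (h21 m).symm]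

theorem limit {e : ℕ} {G : MvPolynomial (IX × Fin (e + 1)) ℂ} (ν ν₁ ν₂ ν₃ : T → ℂ[X])
    (h : ∀ ε : ℂ, ε ≠ 0 → MvPolynomial.aeval
      (Ph e fun t => ν t + C ε * ν₁ t + C ε ^ 2 * ν₂ t + C ε ^ 3 * ν₃ t) G = 0) :
    MvPolynomial.aeval (Ph e ν) G = 0 := by
  let W : T → ℂ[X][X] := fun t => (ν t).map C + C X * (ν₁ t).map C + C X ^ 2 * (ν₂ t).map C +
    C X ^ 3 * (ν₃ t).map C
  have h1 : ∀ ε : ℂ, (MvPolynomial.aeval (Ph e W) G).eval ε = MvPolynomial.aeval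
      (Ph e fun t => ν t + C ε * ν₁ t + C ε ^ 2 * ν₂ t + C ε ^ 3 * ν₃ t) G := fun ε => by
    rw [eval_aev]
    congr 2
    funext c
    refine (map_Ph' (evalRingHom ε) W c).trans ?_
    simp [W, Polynomial.map_map, show (evalRingHom ε).comp C = .id ℂ from RingHom.ext (by simp)]
  have h2 : MvPolynomial.aeval (Ph e W) G = 0 := eq_zero_of_infinite_isRoot _
    ((Set.finite_singleton (0 : ℂ)).infinite_compl.mono fun ε hε => (h1 ε).trans (h ε hε))
  simpa [h2] using (h1 0).symm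

theorem degen {a b h : ℤ} {e : ℕ} (h1 : a + 2 ≤ b) (h0 : 0 ≤ a) (h2 : 3 * b - 1 ≤ h)
    {G : MvPolynomial (IX × Fin (e + 1)) ℂ} (hG : G ∈ PI (wt (a + 1) (b - 1) h) e) {ν : T → ℂ[X]}
    (hν : St (wt a b h) ν) : MvPolynomial.aeval (Ph e ν) G = 0 := by
  obtain ⟨k, hk⟩ : ∃ k : ℕ, b = a + k + 1 := ⟨(b - a - 1).toNat, by omega⟩
  choose r₀ r₁ h3 h4 h5 using fun l => (hν (.inl (.inr l))).split k
  obtain ⟨α₀₀, β₀, h6, g00, h7⟩ := (hν (.inr 0)).split k
  obtain ⟨α₀₁, β₁, rfl, g01, h7⟩ := h7.split k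
  obtain ⟨α₀₂, α₀₃, rfl, g02, g03⟩ := h7.split k
  obtain ⟨α₁₀, β₂, h7, g10, h8⟩ := (hν (.inr 1)).split k
  obtain ⟨α₁₁, α₁₂, rfl, g11, g12⟩ := h8.split k
  obtain ⟨α₂₀, α₂₁, h8, g20, g21⟩ := (hν (.inr 2)).split k
  have g30 := hν (.inr 3)
  have g := fun l => hν (.inl (.inl l))
  simp only [wt, Sum.elim_inl, Sum.elim_inr, Fin.val_zero, Fin.val_one, Fin.val_two,
    show (3 : Fin 4).1 = 3 from rfl] at h5 g03 g12 g21 g30 g
  have hτ : DL (X ^ k : ℂ[X]) k := .inr (by simp)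
  generalize (X ^ k : ℂ[X]) = τ at *
  refine limit ν (Sum.elim (Sum.elim (fun l => -r₁ l) 0) ![0, α₀₁ + 2 * τ * α₀₂ + 3 * τ ^ 2 * α₀₃,
    α₁₁ + 2 * τ * α₁₂, α₂₁]) (Sum.elim 0 ![0, 0, α₀₂ + 3 * τ * α₀₃, α₁₂])
    (Sum.elim 0 ![0, 0, 0, α₀₃]) fun ε hε => ?_
  let E : ℂ[X] := C ε
  let ν' : T → ℂ[X] := Sum.elim (Sum.elim (fun l => sv ν l - E * r₁ l) fun l =>
    τ * sv ν l + E * r₀ l) fun m => C (ε⁻¹ ^ 4) *
    ![E * (E * (E * α₀₀)) - E * (E * (τ * α₁₀)) + E * (τ * (τ * α₂₀)) - τ * (τ * (τ * et ν 3)),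
      E * (E * (E * α₀₁)) + E * (E * α₁₀) - E * (E * (τ * α₁₁)) - 2 * (E * (τ * α₂₀)) +
        E * (τ * (τ * α₂₁)) + 3 * (τ * (τ * et ν 3)),
      E * (E * (E * α₀₂)) + E * (E * α₁₁) - E * (E * (τ * α₁₂)) + E * α₂₀ - 2 * (E * (τ * α₂₁)) -
        3 * (τ * et ν 3),
      E * (E * (E * α₀₃)) + E * (E * α₁₂) + E * α₂₁ + et ν 3] m
  have h9 : ∀ {c p : ℂ[X]} {n : ℤ}, DL c 0 → DL p n → DL (c * p) n := fun h h' =>
    (h.mul h').mono (by omega)
  have hE : DL E 0 := .C _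
  have h10 : DL (2 : ℂ[X]) 0 := .C 2
  have h11 : DL (3 : ℂ[X]) 0 := .C 3
  have h12 : St (wt (a + 1) (b - 1) h) ν' := by
    rintro ((l | l) | m)
    · exact ((g l).mono (by simp [wt])).sub (h9 hE ((h5 l).mono (by simp [wt]; omega)))
    · exact ((hτ.mul (g l)).mono (by simp [wt]; omega)).add
        (h9 hE ((h4 l).mono (by simp [wt]; omega)))
    refine h9 (.C _) ?_
    fin_cases m <;> simp only [Fin.zero_eta, Fin.mk_one, Fin.reduceFinMk, Matrix.cons_val, wt,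
      Sum.elim_inr, Fin.val_zero, Fin.val_one, Fin.val_two, show (3 : Fin 4).1 = 3 from rfl] <;>
    repeat' first
      | with_reducible first
        | apply DL.add | apply DL.sub | apply h9 hE | apply h9 h10 | apply h9 h11
      | (apply DL.mono
         · with_reducible repeat' first | assumption | apply hτ.mul
         · omega)
  refine Eq.trans (congrArg (MvPolynomial.aeval · G) (funext fun c => ?_)) (PI_zero hG h12)
  refine congrArg (coeff · _) (chg1 1 0 τ E (C (ε⁻¹ ^ 4) * E ^ 3) ?_ (fun l => ?_) (fun l => ?_)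
    (fun m => ?_) _).symm
  · rw [one_mul, zero_mul, sub_zero, mul_assoc (C _), ← pow_succ, ← C_pow, ← C_mul, ← mul_pow,
      inv_mul_cancel₀ hε, one_pow, C_1]
  · simp [ν', E, sv, sub_eq_add_neg]
  · simp [ν', E, sv, rv, h3]
    ring
  · refine (act_mul _ _ _ _ _ _ _).trans ?_
    rw [mul_assoc]
    refine congrArg _ ?_
    fin_cases m <;>
      dsimp only [act, E, et, Matrix.cons_val, Sum.elim_inr, Fin.reduceFinMk, Fin.zero_eta,
        Fin.mk_one] <;> simp [h6, h7, h8] <;> ring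

end GMC
end

-- merged part: Pool.Agent.Work.MP_64a944_ag.N14
section
/-!
# Dimensions of the strata
-/

namespace GMC

open PR0 PR0.Z GM Polynomial

variable {F : Type} [Field F] {a b h : ℤ} {w : T → ℤ} {e : ℕ} {ν ν' : T → F[X]}

/-- The vector `x` lies in the plane spanned by the two vectors. -/
def Rel {R : Type} [CommRing R] (ν : T → R) (x : Fin 7 → R) : Prop :=
  ∀ i j k, x i * Pl ν (j, k) - x j * Pl ν (i, k) + x k * Pl ν (i, j) = 0

theorem rel_s {R : Type} [CommRing R] (ν : T → R) : Rel ν (sv ν) := fun i j k => by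
  simp only [Pl]
  ring

theorem rel_r {R : Type} [CommRing R] (ν : T → R) : Rel ν (rv ν) := fun i j k => by
  simp only [Pl]
  ring

theorem Good.P_ne (hν : Good a b h ν) : Pl ν (0, 1) ≠ 0 := fun h =>
  hν.top (by rw [← (hν.st.P _).2, h, tc_zero])

theorem Good.E_ne (hν : Good a b h ν) : ∃ c, Ee ν c ≠ 0 := by
  obtain ⟨c, hc⟩ := Function.ne_iff.1 hν.ne.2
  exact ⟨c.1, fun h => left_ne_zero_of_mul hc (by rw [← (hν.st.E _).2, h, tc_zero])⟩

theorem Good.span (hν : Good a b h ν) {x : Fin 7 → F[X]} (hx : Rel ν x) {n : ℤ}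
    (hn : ∀ l, DL (x l) n) : ∃ u v, (∀ l, x l = u * sv ν l + v * rv ν l) ∧ DL u (n - a) ∧
      DL v (n - b) := by
  obtain ⟨α, β, h1⟩ := hν.co
  obtain ⟨u, v, h2⟩ : ∃ u v, ∀ l, x l = u * sv ν l + v * rv ν l :=
    ⟨α * (x 0 * rv ν 1 - x 1 * rv ν 0) + β * (x 0 * rv ν 2 - x 2 * rv ν 0),
      α * (x 1 * sv ν 0 - x 0 * sv ν 1) + β * (x 2 * sv ν 0 - x 0 * sv ν 2), fun l => by
      have h2 := hx 0 1 l
      have h3 := hx 0 2 l
      simp only [Pl] at h1 h2 h3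
      linear_combination α * h2 + β * h3 - x l * h1⟩
  refine ⟨u, v, h2, ?_⟩
  have h3 : ∀ l, DL (sv ν l) a := fun l => hν.st _
  have h4 : ∀ l, DL (rv ν l) b := fun l => hν.st _
  have h5 : Pl ν (0, 1) * u = x 0 * rv ν 1 - x 1 * rv ν 0 := by rw [h2 0, h2 1, Pl]; ring
  have h6 : Pl ν (0, 1) * v = x 1 * sv ν 0 - x 0 * sv ν 1 := by rw [h2 0, h2 1, Pl]; ring
  have h7 := ((hn 0).mul (h4 1)).sub ((hn 1).mul (h4 0))
  have h8 := ((hn 1).mul (h3 0)).sub ((hn 0).mul (h3 1))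
  rw [← h5] at h7
  rw [← h6] at h8
  exact ⟨(DL.of_mul (hν.st.P _) hν.top h7).mono (by omega),
    (DL.of_mul (hν.st.P _) hν.top h8).mono (by omega)⟩

/-- The parameter with given position and degree. -/
def jj (t : T) (j : ℕ) (h : (j : ℤ) ≤ w t) : JJ w := ⟨t, j, by omega⟩

theorem coeff_jj (ξ : JJ w → F) (t : T) (j : ℕ) (h : (j : ℤ) ≤ w t) :
    (poly ξ t).coeff j = ξ (jj t j h) := by
  rw [coeff_poly, dif_pos]
  rfl

theorem tp_jj (ξ : JJ w → F) {t : T} (h : 0 ≤ w t) :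
    tp w (poly ξ) t = ξ (jj t (w t).toNat (by omega)) := by
  rw [tp, tc, if_pos h, coeff_jj]

/-- The parameters that can be normalised. -/
def fx (h0 : 0 ≤ a) (h1 : a ≤ b) : Fin ((b - a).toNat + 1) ⊕ Bool → JJ (wt a b h) :=
  Sum.elim (fun i => jj (.inl (.inr 0)) (a.toNat + i.1) (by have := i.2; change _ ≤ b; omega))
    fun o => cond o (jj (.inl (.inl 0)) a.toNat (by simp [wt, h0]))
      (jj (.inl (.inr 1)) b.toNat (by simp [wt, h0.trans h1]))

theorem fx_card (h0 : 0 ≤ a) (h1 : a ≤ b) :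
    (Set.range (fx (h := h) h0 h1)).encard = ((b - a).toNat + 3 : ℕ) := by
  rw [← Set.image_univ, Function.Injective.encard_image, Set.encard_univ]
  · simp
    rfl
  · rintro (i | _ | _) (j | _ | _) <;> simp [fx, jj, Fin.ext_iff]

variable [Algebra ℂ F]

theorem Ph_mem {S : IntermediateField ℂ F} {ξ : JJ w → F} (hξ : ∀ c, ξ c ∈ S)
    (c : IX × Fin (e + 1)) : Ph e (poly ξ) c ∈ S := by
  have h1 := map_Ph S.val.toRingHom (fun c => ⟨ξ c, hξ c⟩) c
  exact (show _ = Ph e (poly ξ) c from h1) ▸ Subtype.prop _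

theorem dm_up (h0 : 0 ≤ a) (h1 : a ≤ b) (hν : Good a b h ν)
    (h2 : sv (tp (wt a b h) ν) 0 ≠ 0) :
    dm ℂ (Ph e ν) + ((b - a).toNat + 3 : ℕ) ≤ Nat.card (JJ (wt a b h)) := by
  have h3 : ∀ l, Tp (sv ν l) a (sv (tp (wt a b h) ν) l) := fun l => (hν.st _).tp
  have h4 : ∀ l, Tp (rv ν l) b (rv (tp (wt a b h) ν) l) := fun l => (hν.st _).tp
  have h5 : sv ν 0 ≠ 0 := fun h => h2 (by rw [← (h3 0).2, h, tc_zero])
  have h6 := EuclideanDomain.mod_eq_sub_mul_div (rv ν 0) (sv ν 0)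
  have h7 : DL (rv ν 0 % sv ν 0) (a - 1) := or_iff_not_imp_left.2 fun h => by
    have h7 := natDegree_lt_natDegree h (EuclideanDomain.mod_lt _ h5)
    have h8 := (h3 0).1.le
    omega
  have h8 : DL (rv ν 0 / sv ν 0) (b - a) := DL.of_mul (h3 0) h2 (by
    rw [eq_sub_of_add_eq' (EuclideanDomain.mod_add_div (rv ν 0) (sv ν 0))]
    exact (h4 0).1.sub (h7.mono (by omega)))
  generalize rv ν 0 / sv ν 0 = q at h6 h8
  have h9 : ∀ l, Tp (rv ν l + -(q * sv ν l)) b _ := fun l =>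
    (h4 l).add (h8.tp.mul (h3 l) (by ring)).neg
  have h10 := (h9 0).2
  rw [← sub_eq_add_neg, mul_comm q, ← h6, tc, if_pos (h0.trans h1), h7.coeff (by omega)] at h10
  set σ := sv (tp (wt a b h) ν) 0
  set ρ := rv (tp (wt a b h) ν) 1 + -(tc q (b - a) * sv (tp (wt a b h) ν) 1)
  have h11 : ρ ≠ 0 := fun h => hν.top (by
    rw [Pl]
    linear_combination σ * h + sv (tp _ ν) 1 * h10)
  let ν' : T → F[X] := Sum.elim (Sum.elim (fun l => C σ⁻¹ * sv ν l) fun l =>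
    C ρ⁻¹ * (rv ν l + -(q * sv ν l))) fun m => C (σ * ρ) * act (et ν) (C σ) 0 (q * C σ) (C ρ) m
  have h12 : ∀ {c : F} {p : F[X]} {n : ℤ} {c' : F}, Tp p n c' → Tp (C c * p) n (c * c') :=
    fun h => (Tp.C _).mul h (zero_add _).symm
  have h13 : St (wt a b h) ν' := by
    rintro ((l | l) | m)
    exacts [(h12 (h3 l)).1, (h12 (h9 l)).1, (h12 (Tp.act (x₁ := a) (x₂ := b) (y₁ := -a) (y₂ := -b)
      (h := h) (fun m => (hν.st (.inr m)).tp) ((DL.C _).mono (by omega)).tp (DL.tp (.inl rfl))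
      ((h8.mul (.C _)).mono (by omega)).tp ((DL.C _).mono (by omega)).tp m)).1.mono
        (le_of_eq (by simp only [wt, Sum.elim_inr]; ring))]
  have h14 : ∀ {c : F}, c ≠ 0 → ∀ p : F[X], C c * (C c⁻¹ * p) = p := fun h p => by
    rw [← mul_assoc, ← C_mul, mul_inv_cancel₀ h, C_1, one_mul]
  have h15 : Ph e ν = Ph e ν' := funext fun c => congrArg (coeff · _) (chg1 (C σ) 0 (q * C σ) (C ρ)
    (C (σ * ρ)⁻¹) (by rw [zero_mul, sub_zero, ← C_mul, ← C_mul, inv_mul_cancel₀ (mul_ne_zero h2 h11),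
      C_1]) (fun l => by simp [ν', sv, h14 h2]) (fun l => by simp [ν', sv, rv, h14 h2, h14 h11,
        mul_assoc]) (fun m => by
          have h15 := h14 (inv_ne_zero (mul_ne_zero h2 h11)) (act (et ν) (C σ) 0 (q * C σ) (C ρ) m)
          rw [inv_inv] at h15
          exact h15.symm) _)
  rw [h15, ← h13.poly, ← fx_card (h := h) h0 h1, ← ENat.card_eq_coe_natCard, ← Set.encard_univ,
    ← Set.encard_add_encard_compl (Set.range (fx h0 h1)), add_comm]
  refine add_le_add_right ((rk_le_of_mem ?_).trans ((rk_le_encard _).trans (Set.encard_image_le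
    (fun c : JJ (wt a b h) => (ν' c.1).coeff c.2) _))) _
  rintro _ ⟨c, rfl⟩
  refine Ph_mem (fun c => ?_) c
  by_cases h16 : c ∈ Set.range (fx h0 h1)
  · obtain ⟨i | _ | _, rfl⟩ := h16
    · change (C ρ⁻¹ * (rv ν 0 + -(q * sv ν 0))).coeff (a.toNat + i) ∈ _
      rw [← sub_eq_add_neg, mul_comm q, ← h6, coeff_C_mul, h7.coeff (by omega), mul_zero]
      exact zero_mem _
    · have h16 := (h12 (c := ρ⁻¹) (h9 1)).2
      rw [tc, if_pos (h0.trans h1), inv_mul_cancel₀ h11] at h16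
      exact h16.symm ▸ one_mem _
    · have h16 := (h12 (c := σ⁻¹) (h3 0)).2
      rw [tc, if_pos h0, inv_mul_cancel₀ h2] at h16
      exact h16.symm ▸ one_mem _
  · exact IntermediateField.subset_adjoin _ _ ⟨c, h16, rfl⟩

theorem dm_low (h0 : 0 ≤ a) (h1 : a < b) (he : (e : ℤ) = h + a + b) {ξ : JJ (wt a b h) → F}
    (hν : Good a b h (poly ξ)) (h2 : sv (tp (wt a b h) (poly ξ)) 0 ≠ 0) :
    dm ℂ ξ ≤ dm ℂ (Ph e (poly ξ)) + ((b - a).toNat + 3 : ℕ) := by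
  have h3 := tan (k := ℂ) (Set.range (Ph e (poly ξ)) ∪ ξ '' Set.range (fx h0 h1.le)) ξ ⊥
    fun D hD => ?_
  · rw [finrank_bot, Nat.cast_zero, add_zero] at h3
    exact (rk_mono Set.subset_union_right).trans (h3.trans ((rk_union_le _ _).trans
      (add_le_add_right ((rk_le_encard _).trans ((Set.encard_image_le _ _).trans
        (fx_card h0 h1.le).le)) _)))
  have h4 : ∀ i, D (ξ (fx h0 h1.le i)) = 0 := fun i => hD _ (.inr ⟨_, ⟨i, rfl⟩, rfl⟩)
  suffices h : ∀ t, Dc D (poly ξ t) = 0 from funext fun c => by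
    have h5 := congrArg (coeff · c.2) (h c.1)
    simp only [coeff_Dc, coeff_poly, dif_pos c.2.2, coeff_zero] at h5
    exact h5
  have h5 : (∀ i : ℕ, a ≤ i → D ((rv (poly ξ) 0).coeff i) = 0) ∧
      D (sv (tp (wt a b h) (poly ξ)) 0) = 0 ∧ D (rv (tp (wt a b h) (poly ξ)) 1) = 0 := by
    refine ⟨fun i hi => ?_, (congrArg D (tp_jj ξ (t := .inl (.inl 0)) h0)).trans (h4 (.inr true)),
      (congrArg D (tp_jj ξ (t := .inl (.inr 1)) (h0.trans h1.le :))).trans (h4 (.inr false))⟩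
    by_cases h5 : i ≤ b
    · obtain ⟨j, rfl⟩ : ∃ j, i = a.toNat + j := ⟨i - a.toNat, by omega⟩
      exact (congrArg D (coeff_jj ξ _ _ h5)).trans (h4 (.inl ⟨j, by omega⟩))
    · rw [(hν.st _).coeff (not_le.1 h5), map_zero]
  replace hD : ∀ c, D (Ph e (poly ξ) c) = 0 := fun c => hD _ (.inl ⟨c, rfl⟩)
  generalize poly ξ = ν at *
  set d := Dc D
  have h6 : ∀ {p : F[X]} {n : ℤ}, DL p n → Tp (d p) n (D (tc p n)) := fun h =>
    ⟨.of_coeff fun j hj => by rw [coeff_Dc, h.coeff hj, map_zero], by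
      unfold tc; split_ifs; exacts [rfl, D.map_zero.symm]⟩
  have h7 : ∀ c : IX, Ee ν c.1 * d (Pl ν c.2) + Pl ν c.2 * d (Ee ν c.1) = 0 := fun c => by
    refine (d.leibniz _ _).symm.trans (Polynomial.ext fun j => ?_)
    by_cases hj : j < e + 1
    · exact hD (c, ⟨j, hj⟩)
    · exact (h6 (hν.st.Z he c).1).1.coeff (by omega)
  obtain ⟨c₀, h8⟩ := hν.E_ne
  have h9 : ∀ c, Pl ν (0, 1) * d (Pl ν c) = Pl ν c * d (Pl ν (0, 1)) := fun c =>
    mul_left_cancel₀ h8 (by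
      linear_combination Pl ν (0, 1) * h7 (c₀, c) - Pl ν c * h7 (c₀, (0, 1)))
  have h10 : ∀ x, Rel ν x → Rel ν fun l => d (x l) := fun x hx i j k =>
    mul_left_cancel₀ hν.P_ne (by
      have h10 := congrArg d (hx i j k)
      simp only [map_add, map_sub, Derivation.leibniz, smul_eq_mul, map_zero] at h10
      linear_combination Pl ν (0, 1) * h10 - x i * h9 (j, k) + x j * h9 (i, k) - x k * h9 (i, j) -
        d (Pl ν (0, 1)) * hx i j k)
  have h11 : ∀ l, Tp (sv ν l) a (sv (tp (wt a b h) ν) l) := fun l => (hν.st _).tp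
  have h12 : ∀ l, Tp (rv ν l) b (rv (tp (wt a b h) ν) l) := fun l => (hν.st _).tp
  have h13 : ∀ l, d (sv ν l) = 0 := by
    obtain ⟨u, v, h13, h14, h15⟩ := hν.span (h10 _ (rel_s ν)) fun l => (h6 (h11 l).1).1
    simp only [h15.zero (by omega), zero_mul, add_zero] at h13
    have h16 := (h14.tp.mul (h11 0) (sub_add_cancel a a).symm).2
    rw [← h13, (h6 (h11 0).1).2, (h11 0).2, h5.2.1] at h16
    simpa [(h14.drop ((mul_eq_zero.1 h16.symm).resolve_right h2)).zero (by omega)] using h13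
  have h14 : ∀ l, d (rv ν l) = 0 := by
    obtain ⟨u, v, h14, h15, h16⟩ := hν.span (h10 _ (rel_r ν)) fun l => (h6 (h12 l).1).1
    have h17 := fun l => ((h15.tp.mul (h11 l) (sub_add_cancel b a).symm).add
      (h16.tp.mul (h12 l) (sub_add_cancel b b).symm)).2
    simp only [← h14, (h6 (h12 _).1).2, (h12 _).2] at h17
    have h18 := h17 0
    have h19 := h17 1
    rw [show D (rv (tp (wt a b h) ν) 0) = 0 by
      rw [← (h12 0).2, tc, if_pos (h0.trans h1.le), h5.1 _ (by omega)]] at h18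
    rw [h5.2.2] at h19
    have h20 : tc v (b - b) * Pl (tp (wt a b h) ν) (0, 1) = 0 := by
      rw [Pl]
      linear_combination sv (tp _ ν) 1 * h18 - sv (tp _ ν) 0 * h19
    simp only [(h16.drop ((mul_eq_zero.1 h20).resolve_right hν.top)).zero (by omega), zero_mul,
      add_zero] at h14
    have h21 : DL (sv ν 0 * u) (a - 1) := .of_coeff fun j hj => by
      rw [mul_comm, ← h14, coeff_Dc, h5.1 _ (by omega)]
    simpa [(DL.of_mul (h11 0) h2 h21).zero (by omega)] using h14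
  have h15 : ∀ c, d (Pl ν c) = 0 := fun c => by simp [Pl, h13, h14]
  have h16 : ∀ c, d (Ee ν c) = 0 := fun c => by simpa [h15, hν.P_ne] using h7 (c, (0, 1))
  rintro ((l | l) | m)
  exacts [h13 l, h14 l, by
    have h17 := congrArg d (et_eq ν (0, 1) m)
    have h18 : d 2 = 0 := d.map_natCast 2
    have h19 : d 3 = 0 := d.map_natCast 3
    rw [Derivation.leibniz, Derivation.leibniz_pow, h15, smul_zero, smul_zero, smul_zero, add_zero,
      smul_eq_mul] at h17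
    refine (mul_eq_zero.1 (h17.symm.trans ?_)).resolve_left (pow_ne_zero _ hν.P_ne)
    fin_cases m <;>
      dsimp only [act, Matrix.cons_val, Fin.reduceFinMk, Fin.zero_eta, Fin.mk_one] <;>
      simp only [map_add, map_neg, Derivation.leibniz, h13, h14, h16, h18, h19, smul_zero,
        add_zero, neg_zero]]

theorem card_JJ (a b h : ℤ) : Nat.card (JJ (wt a b h)) = 7 * (a + 1).toNat + 7 * (b + 1).toNat +
    ((h - 3 * a + 1).toNat + (h - 2 * a - b + 1).toNat + (h - a - 2 * b + 1).toNat +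
      (h - 3 * b + 1).toNat) := by
  simp [Fintype.card_sigma, Fintype.sum_sum_type, Fin.sum_univ_four, wt]

theorem good_indep (h1 : 1 ≤ a) (h2 : a ≤ b) (h3 : 2 * a + b ≤ h) (h4 : 3 * a < h)
    {ξ : JJ (wt a b h) → F} (hξ : AlgebraicIndependent ℂ ξ) :
    Good a b h (poly ξ) ∧ sv (tp (wt a b h) (poly ξ)) 0 ≠ 0 := by
  obtain ⟨Γ, h5, h6⟩ := exists_gamma h1 h2 h3 h4
  exact ⟨h6 F ξ ((map_ne_zero_iff _ hξ).2 h5), (tp_jj ξ (t := .inl (.inl 0))
    (zero_le_one.trans h1 :)).trans_ne (hξ.linearIndependent.ne_zero _)⟩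

theorem ex_ind (σ : Type) : ∃ (F : Type) (_ : Field F) (_ : Algebra ℂ F) (ξ : σ → F),
    AlgebraicIndependent ℂ ξ := ⟨_, _, _, _, co_frac.1⟩

theorem gen_pt {ζ : IX × Fin (e + 1) → F} (h : Pt2_id ℂ ζ = PI w e) :
    ∃ (Ω : Type) (_ : Field Ω) (_ : Algebra ℂ Ω) (_ : IsAlgClosed Ω) (φ : F →ₐ[ℂ] Ω)
      (ξ : JJ w → Ω), AlgebraicIndependent ℂ ξ ∧ ∀ c, φ (ζ c) = Ph e (poly ξ) c := by
  obtain ⟨F', _, _, ξ, h1⟩ := ex_ind (JJ w)
  obtain ⟨Ω, _, _, _, φ, φ', h2⟩ := amalgam (k := ℂ) (h.trans (PI_eq h1).symm).le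
    (h.trans (PI_eq h1).symm).ge
  exact ⟨Ω, inferInstance, inferInstance, inferInstance, φ, _, h1.map' φ'.injective,
    fun c => (h2 c).trans (map_Ph φ'.toRingHom _ c)⟩

theorem dens (h1 : 1 ≤ a) (h2 : a ≤ b) (h3 : 2 * a + b ≤ h) (h4 : 3 * a < h)
    {G : MvPolynomial (IX × Fin (e + 1)) ℂ}
    (hG : ∀ ν : T → ℂ[X], Good a b h ν → MvPolynomial.aeval (Ph e ν) G = 0) :
    G ∈ PI (wt a b h) e := of_not_not fun h5 =>
  let ⟨ξ, h6, h7⟩ := exists_good h1 h2 h3 h4 h5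
  h6 ((aeval_Ph ξ G).trans (hG _ h7))

theorem dI_PI (h1 : 1 ≤ a) (h2 : a < b) (h3 : a + 2 * b ≤ h) (he : (e : ℤ) = h + a + b) :
    ∃ n : ℕ, dI (PI (wt a b h) e) = n ∧ n ≤ 4 * h + a + b + 14 ∧
      (b = a + 1 ∧ 3 * b ≤ h + 1 ∨ h = a + 2 * b → n = 4 * h + a + b + 14) := by
  obtain ⟨F, _, _, ξ, h4⟩ := ex_ind (JJ (wt a b h))
  obtain ⟨h5, h6⟩ := good_indep h1 h2.le (by omega) (by omega) h4
  have h7 := dm_up (e := e) (by omega) h2.le h5 h6
  have h8 := dm_low (by omega) h2 he h5 h6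
  rw [dm_indep h4] at h8
  rw [← PI_eq h4, dI_pt]
  obtain ⟨n, hn⟩ := ENat.ne_top_iff_exists.1 (FG.of_finite (k := ℂ) (Ph e (poly ξ))).dm_ne_top
  rw [← hn, ← Nat.cast_add, Nat.cast_le, card_JJ] at h7 h8
  exact ⟨n, hn.symm, by omega, by omega⟩

theorem PI_ne {a' b' : ℤ} (h1 : 1 ≤ a') (h2 : a' < a) (h3 : a ≤ b) (h4 : a' + b' = a + b)
    (h5 : 2 * a + b ≤ h) (h6 : 3 * a < h) (he : (e : ℤ) = h + a + b) :
    PI (wt a b h) e ≠ PI (wt a' b' h) e := fun h7 => by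
  obtain ⟨F, _, _, ζ, h8⟩ := ex_ind (JJ (wt a b h))
  obtain ⟨Ω, _, _, _, φ, ξ, h9, h10⟩ := gen_pt ((PI_eq h8).trans h7)
  have h11 := (good_indep (by omega) h3 h5 h6 (h8.map' φ.injective)).1
  have h12 := (good_indep h1 (by omega) (by omega) (by omega) h9).1
  have h13 := funext fun c => (map_Ph φ.toRingHom _ c).symm.trans (h10 c)
  have h14 := (h11.st.gp he).symm.trans ((congrArg (gp 1 · 0) h13).trans (h12.st.gp (by omega)))
  generalize poly ξ = ν' at h12 h14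
  generalize poly (w := wt a b h) (R := Ω) _ = ν at h11 h14
  obtain ⟨c₀, h15⟩ := h12.E_ne
  obtain ⟨c₁, h16⟩ := h11.E_ne
  have h17 : ∀ c, Pl ν' (0, 1) * Pl ν c = Pl ν (0, 1) * Pl ν' c := fun c => mul_left_cancel₀ h16 (by
    have h17 := congrFun h14 (c₁, c)
    have h18 := congrFun h14 (c₁, (0, 1))
    rw [Zc, Zc] at h17 h18
    linear_combination Pl ν' (0, 1) * h17 - Pl ν' c * h18)
  obtain ⟨u, v, h18, h19, h20⟩ := h11.span (x := sv ν') (n := a') (fun i j k =>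
    mul_left_cancel₀ h12.P_ne (by
      linear_combination sv ν' i * h17 (j, k) - sv ν' j * h17 (i, k) + sv ν' k * h17 (i, j) +
        Pl ν (0, 1) * rel_s ν' i j k)) fun l => h12.st _
  exact h12.P_ne (by simp [Pl, h18, h19.zero (by omega), h20.zero (by omega)])

/-- The discriminant of a binary cubic. -/
def disc {R : Type} [CommRing R] (y : Fin 4 → R) : R := y 1 ^ 2 * y 2 ^ 2 - 4 * y 0 * y 2 ^ 3 -
  4 * y 1 ^ 3 * y 3 - 27 * y 0 ^ 2 * y 3 ^ 2 + 18 * y 0 * y 1 * y 2 * y 3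

theorem aeval_disc {R : Type} [CommRing R] [Algebra ℂ R] (ν : T → R[X]) :
    MvPolynomial.aeval (Ph e ν) (disc fun m => MvPolynomial.X (R := ℂ)
      ((((0, 1), m), (0, 1)), (0 : Fin (e + 1)))) =
      disc fun m => Zc (fun t => (ν t).coeff 0) (((0, 1), m), (0, 1)) := by
  have h1 : ∀ c, Ph e ν (c, 0) = Zc (fun t => (ν t).coeff 0) c := map_Zc constantCoeff ν
  simp [disc, h1, map_ofNat]

theorem not_PI_le {a' b' : ℤ} (h1 : h < a + 2 * b) (h2 : a ≤ b) (h3 : 0 ≤ a') (h4 : a' ≤ b')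
    (h5 : a' + 2 * b' ≤ h) : ¬ PI (wt a b h) e ≤ PI (wt a' b' h) e := fun h6 => by
  have h7 := st_poly (w := wt a b h) (MvPolynomial.X (R := ℂ))
  have h8 := PI_zero (h6 (RingHom.mem_ker.2 ((aeval_disc _).trans ?_)))
    (ν := fun t => C (pk ![0, 0, 0, 0, 0, 0, 0, 0, 0, 0, 0, 1, (0 : ℂ)] t)) ?_
  · rw [aeval_disc] at h8
    simp [disc, Zc, Ee, Pl, act, pk, sv, rv, et] at h8
  · simp only [disc, Zc, Ee, act, et, (h7 (.inr 2)).zero (by simp [wt]; omega),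
      (h7 (.inr 3)).zero (by simp [wt]; omega), coeff_zero, Matrix.cons_val]
    ring
  · rintro ((l | l) | l) <;> fin_cases l <;> simp [DL, wt, pk] <;> omega

end GMC
end

-- merged part: Pool.Agent.Work.MP_64a944_ag.N15
section
/-!
# The covers to which the general curve of a stratum lifts
-/

namespace GMC

open PR0 PR0.Z GM Polynomial

variable {K L : Type} [Field K] [Field L] [Algebra ℂ K] [Algebra ℂ L] {I J : Type}

theorem agree {φ φ' : K →ₐ[ℂ] L} {s : Set K} (h : ∀ x ∈ s, φ x = φ' x) {x : K}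
    (hx : x ∈ IntermediateField.adjoin ℂ s) : φ x = φ' x := by
  induction hx using IntermediateField.adjoin_induction with
  | mem x hx => exact h x hx
  | algebraMap c => simp
  | add _ _ _ _ h h' => rw [map_add, map_add, h, h']
  | mul _ _ _ _ h h' => rw [map_mul, map_mul, h, h']
  | inv _ _ h => rw [map_inv₀, map_inv₀, h]

theorem alg_map {w : I → K} [Finite I] {θ : K} (hθ : IsAlgebraic (Algebra.adjoin ℂ (Set.range w)) θ)
    (Φ : K →ₐ[ℂ] L) : IsAlgebraic (Algebra.adjoin ℂ (Set.range fun i => Φ (w i))) (Φ θ) :=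
  alg_of_spc ((show (fun o => Φ (ext1 θ w o)) = ext1 (Φ θ) fun i => Φ (w i) from
    funext fun o => by cases o <;> rfl) ▸ Spc.map (ext1 θ w) Φ)
    (Spc.of_map w Φ Φ.injective).dm_le hθ

theorem mem_map_iff {w : I → K} {θ : K} (Φ : K →ₐ[ℂ] L) :
    Φ θ ∈ IntermediateField.adjoin ℂ (Set.range fun i => Φ (w i)) ↔
      θ ∈ IntermediateField.adjoin ℂ (Set.range w) := by
  simp only [IntermediateField.mem_adjoin_range_iff, ← MvPolynomial.comp_aeval_apply, ← map_div₀,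
    (show Function.Injective Φ from Φ.injective).eq_iff]

theorem dm_le_card [Finite I] (w : I → K) : dm ℂ w ≤ Nat.card I := (rk_le_encard _).trans (by
  rw [← Set.image_univ, ← ENat.card_eq_coe_natCard, ← Set.encard_univ]
  exact Set.encard_image_le _ _)

theorem nolift₀ [IsAlgClosed K] [Finite I] [Finite J] {ξ : J → K} (hξ : AlgebraicIndependent ℂ ξ)
    (A : Set J) {w : I → RatFunc K} {u₀ u₁ : I → K} (hw : ∀ i, w i ∈ IntermediateField.adjoin ℂ
      (insert RatFunc.X (Set.range fun c => algebraMap K (RatFunc K) (ξ c))))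
    (h0 : ∀ i, Vl RatFunc.X (w i) (u₀ i)) (h1 : ∀ i, Vl RatFunc.X⁻¹ (w i) (u₁ i))
    (d0 : dm ℂ w ≤ dm ℂ u₀) (d1 : dm ℂ w ≤ dm ℂ u₁)
    (a0 : ∀ i, u₀ i ∈ IntermediateField.adjoin ℂ (ξ '' A))
    (a1 : ∀ c, ξ c ∈ IntermediateField.adjoin ℂ (ξ '' A ∪ Set.range u₁))
    (hd : A.encard + dm ℂ w ≤ Nat.card J) {θ : RatFunc K}
    (hθ : IsAlgebraic (Algebra.adjoin ℂ (Set.range w)) θ) :
    θ ∈ IntermediateField.adjoin ℂ (Set.range w) := of_not_not fun h4 => by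
  have ht := RatFunc.transcendental_X (K := K)
  have ht' : ∀ (L : Type) [Field L], Transcendental L (RatFunc.X : RatFunc L)⁻¹ :=
    fun L _ h => RatFunc.transcendental_X (IsAlgebraic.inv_iff.1 h)
  obtain ⟨a, ha⟩ := Vl.ex ht h0 d0 hθ (RatFunc.adjoin_X (K := K) ▸ trivial)
  obtain ⟨b, hb⟩ := Vl.ex (ht' K) h1 d1 hθ (IntermediateField.adjoin_simple_le_iff.2
    (by simpa using inv_mem (IntermediateField.mem_adjoin_simple_self K (RatFunc.X : RatFunc K)⁻¹))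
    (RatFunc.adjoin_X (K := K) ▸ trivial : θ ∈ IntermediateField.adjoin K {RatFunc.X}))
  have ha1 := alg_of_spc (Vl.alg ht h0 d0 hθ ha).1 d0 hθ
  have hb1 := alg_of_spc (Vl.alg (ht' K) h1 d1 hθ hb).1 d1 hθ
  obtain ⟨b', hb2, hb3⟩ := exists_conj hb1 fun h => h4
    (mem_of_spc (Vl.alg (ht' K) h1 d1 hθ hb).2 (Vl.spc (ht' K) h1) h)
  have h5 : ∀ b, dm ℂ (ext1 a fun c : A => ξ c) + dm ℂ u₁ ≤
      dm ℂ (Sum.elim (ext1 a fun c : A => ξ c) (ext1 b u₁)) := fun b => by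
    refine (add_le_add ((rk_le_of_alg (s := Set.range u₀ ∪ ξ '' A) ?_).trans ((rk_le_of_mem ?_).trans
      ((rk_le_encard _).trans (Set.encard_image_le ξ A)))) (Vl.spc (ht' K) h1).dm_le).trans
      (hd.trans ((dm_indep hξ).ge.trans (rk_le_of_mem ?_)))
    · rintro _ ⟨_ | c, rfl⟩
      exacts [ha1.tower_top_of_subalgebra_le (Algebra.adjoin_mono Set.subset_union_left),
        isAlgebraic_algebraMap (⟨ξ c, Algebra.subset_adjoin (.inr ⟨c, c.2, rfl⟩)⟩ :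
          Algebra.adjoin ℂ (Set.range u₀ ∪ ξ '' A))]
    · rintro _ (⟨i, rfl⟩ | h)
      exacts [a0 i, IntermediateField.subset_adjoin _ _ h]
    · rintro _ ⟨c, rfl⟩
      refine IntermediateField.adjoin.mono _ _ _ ?_ (a1 c)
      rintro _ (⟨c, hc, rfl⟩ | ⟨i, rfl⟩)
      exacts [⟨.inl (some ⟨c, hc⟩), rfl⟩, ⟨.inr (some i), rfl⟩]
  have h6 := free_spc ((dm_ext1 hb1).symm ▸ h5 b) hb3
  obtain ⟨L, _, _, _, φ, φ', h7⟩ := amalgam h6 (h6.symm_of_dm (.of_finite _) (le_trans (by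
    rw [dm, Set.Sum.elim_range, ← dm_ext1 hb1]
    exact rk_union_le _ _) (h5 b')))
  have h6 : ∀ c, φ (ξ c) = φ' (ξ c) := fun c => agree (by
    rintro _ (⟨c, hc, rfl⟩ | ⟨i, rfl⟩)
    exacts [h7 (.inl (some ⟨c, hc⟩)), h7 (.inr (some i))]) (a1 c)
  obtain ⟨Φ, h8, h9⟩ := exists_ratFunc_map φ
  obtain ⟨Φ', h8', h9'⟩ := exists_ratFunc_map φ'
  have h10 : (fun i => Φ' (w i)) = fun i => Φ (w i) := funext fun i => agree (by
    rintro _ (rfl | ⟨c, rfl⟩)
    exacts [h9'.trans h9.symm, (RingHom.congr_fun h8' _).symm.trans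
      ((congrArg (algebraMap L _) (h6 c).symm).trans (RingHom.congr_fun h8 (ξ c)))]) (hw i)
  have h12 := (h9 ▸ ha.map h8 : Vl RatFunc.X (Φ θ) (φ a)).sub
    (h9' ▸ ha.map h8' : Vl RatFunc.X (Φ' θ) (φ' a))
  rw [show φ a = φ' a from h7 (.inl none), sub_self] at h12
  have h13 := Vl.inj RatFunc.transcendental_X (u := fun i => φ (u₀ i))
    (fun i => h9 ▸ (h0 i).map h8) ((Spc.map w Φ).dm_le.trans (d0.trans
      (Spc.of_map _ φ φ.injective).dm_le)) ((alg_map hθ Φ).sub (h10 ▸ alg_map hθ Φ')) h12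
  have h14 := hb.map h8
  have h15 := hb.map h8'
  rw [map_inv₀] at h14 h15
  have h16 := (h9 ▸ h14 : Vl RatFunc.X⁻¹ (Φ θ) (φ b)).sub (h9' ▸ h15 : Vl RatFunc.X⁻¹ (Φ' θ) (φ' b))
  rw [h13] at h16
  exact hb2 (φ'.injective ((sub_eq_zero.1 (h16.zero (ht' L))).symm.trans (h7 (.inr none))))

/-- The chart coordinates, with or without the distinguished root of the cubic. -/
def Wf (o : Bool) (ν : T → L) : Option (Fin 13) → L :=
  ext1 (cond o (sv ν 1 / sv ν 0) 0) (cc (Zc ν) 1)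

/-- The positions that can be recovered. -/
def Fr (o : Bool) (t : T) : Prop := t ≠ .inl (.inl 0) ∧ t ≠ .inl (.inr 0) ∧ t ≠ .inl (.inr 1) ∧
  t ≠ .inr 2 ∧ t ≠ cond o (.inr 3) (.inl (.inl 1))

instance (o : Bool) : DecidablePred (Fr o) := fun _ => inferInstanceAs (Decidable (_ ∧ _))

variable {o : Bool} {ν : T → L} {S : IntermediateField ℂ L}

theorem Wf_mem (h : ∀ t, ν t ∈ S) (i : Option (Fin 13)) : Wf o ν i ∈ S := by
  have h1 : ∀ b, Zc ν b ∈ S := fun b =>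
    mul_mem (act_mem S (fun _ => h _) (h _) (h _) (h _) (h _) _)
      (sub_mem (mul_mem (h _) (h _)) (mul_mem (h _) (h _)))
  rcases i with _ | k
  · cases o
    exacts [zero_mem _, div_mem (h _) (h _)]
  · exact div_mem (h1 _) (h1 _)

theorem recov (h0 : Zc ν (dg 1) ≠ 0) (h1 : et ν 2 ≠ 0) (h2 : sv ν 0 ≠ 0) (h3 : ∀ i, Wf o ν i ∈ S)
    (h4 : ∀ t, ¬ Fr o t → ν t ∈ S) (t : T) : ν t ∈ S := by
  have h5 : ∀ t, nz (Zc ν) (dg 1) t ∈ S := fun t => by
    have h5 : nz (Zc ν) (dg 1) t = _ := (show mT 1 t = t by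
      rcases t with (l | l) | l <;> rfl) ▸ nz_pk h0 t
    have h6 : ∀ k, cc (Zc ν) 1 k ∈ S := fun k => h3 (some k)
    rw [h5]
    rcases t with (l | l) | l <;> fin_cases l <;> simp [pk, h6]
  have h6 : sv ν 0 ∈ S := h4 _ (by cases o <;> decide)
  have h7 : sv ν 1 ∈ S := by
    cases o
    exacts [h4 _ (by decide), mul_div_cancel₀ (sv ν 1) h2 ▸ mul_mem h6 (h3 none)]
  have h8 : rv ν 0 ∈ S := h4 _ (by cases o <;> decide)
  have h9 : rv ν 1 ∈ S := h4 _ (by cases o <;> decide)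
  have h10 : Pl ν (0, 1) ∈ S := sub_mem (mul_mem h6 h9) (mul_mem h7 h8)
  have h11 : Pl ν (0, 1) ≠ 0 := right_ne_zero_of_mul h0
  have h12 : ∀ m, Ee ν ((0, 1), 0) * act (et (nz (Zc ν) (dg 1))) (rv ν 1) (-sv ν 1) (-rv ν 0)
      (sv ν 0) m = Pl ν (0, 1) ^ 3 * et ν m := fun m => by
    rw [← et_eq, ← act_mul]
    congr
    funext n
    rw [nz_e h0]
    exact mul_div_cancel₀ _ (left_ne_zero_of_mul h0)
  have h13 := act_mem S (η := et (nz (Zc ν) (dg 1))) (fun n => h5 _) h9 (neg_mem h7) (neg_mem h8) h6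
  have h14 : Ee ν ((0, 1), 0) ∈ S := by
    rw [eq_div_of_mul_eq (right_ne_zero_of_mul ((h12 2).trans_ne (mul_ne_zero (pow_ne_zero _ h11) h1)))
      (h12 2)]
    exact div_mem (mul_mem (pow_mem h10 _) (h4 _ (by cases o <;> decide))) (h13 _)
  rcases t with (l | l) | m
  · exact Set.mem_of_eq_of_mem (nz_sv h0 l) (add_mem (mul_mem h6 (h5 _)) (mul_mem h7 (h5 _)))
  · exact Set.mem_of_eq_of_mem (nz_rv h0 l) (add_mem (mul_mem h8 (h5 _)) (mul_mem h9 (h5 _)))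
  · have h15 := div_mem (mul_mem h14 (h13 m)) (pow_mem h10 3)
    rwa [h12, mul_div_cancel_left₀ _ (pow_ne_zero _ h11)] at h15

omit [Algebra ℂ L] in
theorem root (h0 : Zc ν (dg 1) ≠ 0) (h1 : et ν 3 = 0) (h2 : sv ν 0 ≠ 0) : cc (Zc ν) 1 12 =
    sv ν 1 / sv ν 0 * (cc (Zc ν) 1 11 - sv ν 1 / sv ν 0 * (cc (Zc ν) 1 10 - sv ν 1 / sv ν 0)) := by
  have h3 : Ee ν ((0, 1), 0) ≠ 0 := left_ne_zero_of_mul h0
  rw [show cc (Zc ν) 1 12 = Ee ν ((0, 1), 3) / Ee ν ((0, 1), 0) from nz_e h0 3,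
    show cc (Zc ν) 1 11 = Ee ν ((0, 1), 2) / Ee ν ((0, 1), 0) from nz_e h0 2,
    show cc (Zc ν) 1 10 = Ee ν ((0, 1), 1) / Ee ν ((0, 1), 0) from nz_e h0 1]
  field_simp
  simp only [Ee, act, h1, Matrix.cons_val]
  ring

variable {w : T → ℤ} {ξ : JJ w → L}

theorem recov_sel (hξ : AlgebraicIndependent ℂ ξ) {sel : T → ℕ}
    (h : ∀ t, t ≠ .inr 3 ∨ o = false → (sel t : ℤ) ≤ w t) (hν : ∀ t, ν t = (poly ξ t).coeff (sel t)) :
    (Zc ν (dg 1) ≠ 0 ∧ sv ν 0 ≠ 0) ∧ 13 ≤ dm ℂ (Wf o ν) ∧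
      {c : JJ w | ¬ (Fr o c.1 ∧ c.2 = sel c.1)}.encard + 13 ≤ Nat.card (JJ w) ∧ ∀ c, ξ c ∈
      IntermediateField.adjoin ℂ (ξ '' {c | ¬ (Fr o c.1 ∧ c.2 = sel c.1)} ∪ Set.range (Wf o ν)) := by
  have h1 : ∀ t (ht : t ≠ .inr 3), ν t ≠ 0 := fun t ht => by
    rw [hν, coeff_jj ξ t _ (h t (.inl ht))]
    exact hξ.linearIndependent.ne_zero _
  have h2 : Zc ν (dg 1) ≠ 0 := fun h2 => by
    have h3 : ∀ {F : Type} [Field F] [Algebra ℂ F] (ξ : JJ w → F), MvPolynomial.aeval ξ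
        (Zc (fun t => (poly (MvPolynomial.X (R := ℂ)) t).coeff (sel t)) (dg 1)) =
        Zc (fun t => (poly ξ t).coeff (sel t)) (dg 1) := fun ξ => by
      rw [map_Zc]
      congr
      funext t
      simpa using (coeff_map _ _).symm.trans (congrArg (coeff · (sel t))
        (map_poly (MvPolynomial.aeval (R := ℂ) ξ).toRingHom MvPolynomial.X t))
    have h4 := spc_indep hξ (fun c => pk (0 : Fin 13 → ℂ) c.1) _ ((h3 ξ).trans (funext hν ▸ h2))
    rw [h3, show (fun t => (poly (fun c : JJ w => pk (0 : Fin 13 → ℂ) c.1) t).coeff (sel t)) = pk 0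
      from funext fun t => ?_, Zc_pk] at h4
    · exact one_ne_zero h4
    by_cases ht : t = .inr 3
    · simp [ht, coeff_poly, pk]
    · exact coeff_jj _ _ _ (h t (.inl ht))
  have h3 : ∀ t, Fr o t → (sel t : ℤ) ≤ w t := fun t ht => h t (by
    cases o
    exacts [.inr rfl, .inl ht.2.2.2.2])
  have h4 : {c : JJ w | ¬ (Fr o c.1 ∧ c.2 = sel c.1)}.encard + 13 ≤ Nat.card (JJ w) := by
    rw [← ENat.card_eq_coe_natCard, ← Set.encard_univ, ← Set.encard_add_encard_compl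
      {c : JJ w | ¬ (Fr o c.1 ∧ c.2 = sel c.1)}]
    refine add_le_add_right (le_trans ?_ (Set.encard_le_encard_of_injOn (s := Set.univ)
      (t := {c : JJ w | ¬ (Fr o c.1 ∧ c.2 = sel c.1)}ᶜ)
      (f := fun t : {t // Fr o t} => jj t.1 _ (h3 _ t.2)) (fun t _ h => h ⟨t.2, rfl⟩)
      fun t _ t' _ h => Subtype.ext (congrArg Sigma.fst h))) _
    rw [Set.encard_univ, ENat.card_eq_coe_fintype_card]
    cases o <;> exact Nat.cast_le.2 (by decide : 13 ≤ _)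
  have h5 : ∀ c, ξ c ∈ IntermediateField.adjoin ℂ
      (ξ '' {c | ¬ (Fr o c.1 ∧ c.2 = sel c.1)} ∪ Set.range (Wf o ν)) := fun c => by
    by_cases h5 : Fr o c.1 ∧ c.2 = sel c.1
    · have h6 := recov (S := IntermediateField.adjoin ℂ
        (ξ '' {c | ¬ (Fr o c.1 ∧ c.2 = sel c.1)} ∪ Set.range (Wf o ν))) h2 (h1 _ (by decide))
        (h1 _ (by decide)) (fun i => IntermediateField.subset_adjoin _ _ (.inr ⟨i, rfl⟩))
        (fun t ht => ?_) c.1
      · rwa [hν, ← h5.2, coeff_poly, dif_pos c.2.2] at h6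
      rw [hν, coeff_poly]
      split_ifs
      exacts [IntermediateField.subset_adjoin _ _ (.inl ⟨_, fun h => ht h.1, rfl⟩), zero_mem _]
    · exact IntermediateField.subset_adjoin _ _ (.inl ⟨c, h5, rfl⟩)
  refine ⟨⟨h2, h1 _ (by decide)⟩, (ENat.add_le_add_iff_left (Set.toFinite _).encard_lt_top.ne).1
    (h4.trans ((dm_indep hξ).ge.trans ((rk_le_of_mem ?_).trans ((rk_union_le _ _).trans
      (add_le_add_left ((rk_le_encard _).trans (Set.encard_image_le ξ _)) _))))), h4, h5⟩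
  rintro _ ⟨c, rfl⟩
  exact h5 c

theorem cubic_alg {y : I → L} {i j k : I} {u : L} (h : y k = u * (y j - u * (y i - u))) :
    IsIntegral (IntermediateField.adjoin ℂ (Set.range y)) u ∧
      (minpoly (IntermediateField.adjoin ℂ (Set.range y)) u).natDegree ≤ 3 := by
  let y' : I → IntermediateField.adjoin ℂ (Set.range y) := fun i =>
    ⟨y i, IntermediateField.subset_adjoin _ _ ⟨i, rfl⟩⟩
  have h1 : (X ^ 3 - C (y' i) * X ^ 2 + C (y' j) * X - C (y' k)).Monic := by monicity!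
  have h2 : aeval u (X ^ 3 - C (y' i) * X ^ 2 + C (y' j) * X - C (y' k)) = 0 := by
    simp [y', h]
    ring
  exact ⟨⟨_, h1, h2⟩, (natDegree_le_of_dvd (minpoly.dvd _ _ h2) h1.ne_zero).trans
    (by compute_degree)⟩

theorem nolift [IsAlgClosed L] {a b h : ℤ} {e : ℕ} (he : (e : ℤ) = h + a + b) (h1 : 1 ≤ a)
    (h2 : a < b) (h3 : a + 2 * b ≤ h) (h4 : cond o (h < 3 * b) (3 * b < h))
    {ξ : JJ (wt a b h) → L} (hξ : AlgebraicIndependent ℂ ξ) {ν : T → RatFunc L}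
    (hν : ∀ t, ν t = aeval RatFunc.X (poly ξ t)) :
    Zc ν (dg 1) ≠ 0 ∧ AlgebraicIndependent ℂ (cc (Zc ν) 1) ∧ (o = true → cc (Zc ν) 1 12 =
      Wf o ν none * (cc (Zc ν) 1 11 - Wf o ν none * (cc (Zc ν) 1 10 - Wf o ν none))) ∧
      ∀ θ, IsAlgebraic (Algebra.adjoin ℂ (Set.range (cc (Zc ν) 1))) θ →
        θ ∈ IntermediateField.adjoin ℂ (Set.range (Wf o ν)) := by
  have ht := RatFunc.transcendental_X (K := L)
  have h5 : ∀ t, t ≠ .inr 3 ∨ o = false → 0 ≤ wt a b h t ∧ (Fr o t → 1 ≤ wt a b h t) := by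
    rintro ((l | l) | l)
    · simp [wt, h1, zero_le_one.trans h1]
    · simp only [wt, Sum.elim_inl, Sum.elim_inr]
      omega
    · cases o <;> fin_cases l <;> simp [wt, Fr] at h4 ⊢ <;> omega
  have h6 := st_poly ξ
  obtain ⟨⟨p1, p2⟩, p3, -⟩ := recov_sel (o := o) hξ (sel := 0) (fun t ht => (h5 t ht).1) fun _ => rfl
  obtain ⟨⟨q1, q2⟩, q3, q4, q5⟩ := recov_sel (o := o) (ν := tp (wt a b h) (poly ξ)) hξ
    (sel := fun t => (wt a b h t).toNat) (fun t ht => by have := (h5 t ht).1; omega) fun t => by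
      rw [tp, tc]
      split_ifs with h7
      exacts [rfl, by rw [(h6 t).zero (not_le.1 h7), coeff_zero]]
  have h7 : ∀ c, Zc ν c = aeval RatFunc.X (Zc (poly ξ) c) := fun c =>
    (congrArg (Zc · c) (funext hν)).trans (map_Zc _ _ c).symm
  have h8 : ∀ c, (Zc (poly ξ) c).coeff 0 = Zc (fun t => (poly ξ t).coeff 0) c :=
    map_Zc constantCoeff (poly ξ)
  have h9 : ∀ c, (Zc (poly ξ) c).coeff e = Zc (tp (wt a b h) (poly ξ)) c := fun c => by
    simpa [tc] using (h6.Z he c).2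
  have h10 : ∀ l, (sv (poly ξ) l).coeff a.toNat = sv (tp (wt a b h) (poly ξ)) l := fun l =>
    ((if_pos (zero_le_one.trans h1) : tc _ a = _).symm.trans (h6 (.inl (.inl l))).tp.2 :)
  have h11 : ∀ p : L[X], p.coeff 0 ≠ 0 → aeval (RatFunc.X : RatFunc L) p ≠ 0 := fun p hp h =>
    hp (by rw [transcendental_iff.1 ht p h, coeff_zero])
  have h12 : Zc ν (dg 1) ≠ 0 := h7 _ ▸ h11 _ ((h8 _).trans_ne p1)
  have h13 : o = true → cc (Zc ν) 1 12 =
      Wf o ν none * (cc (Zc ν) 1 11 - Wf o ν none * (cc (Zc ν) 1 10 - Wf o ν none)) := by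
    rintro rfl
    exact root h12 (by rw [et, hν, (h6 _).zero (by simpa [wt] using h4), map_zero])
      ((hν _).trans_ne (h11 _ p2))
  have h14 : dm ℂ (Wf o ν) = dm ℂ (cc (Zc ν) 1) := dm_ext1 (by
    cases o
    exacts [isAlgebraic_zero,
      IntermediateField.isAlgebraic_adjoin_iff.1 (cubic_alg (h13 rfl)).1.isAlgebraic])
  have h15 : dm ℂ (Wf o ν) ≤ 13 := h14.trans_le (by simpa using dm_le_card (cc (Zc ν) 1))
  have h17 : ∀ t : RatFunc L, Vl t 0 (0 : L) := fun t => by simpa using Vl.const t (0 : L)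
  have h16 : ∀ i, Vl RatFunc.X (Wf o ν i) (Wf o (fun t => (poly ξ t).coeff 0) i) := by
    rintro (_ | k)
    · cases o
      exacts [h17 _, by
        simpa only [Wf, ext1, Option.elim, cond, sv, hν] using Vl.div ht _ p2]
    · simpa only [Wf, ext1, Option.elim, cc, nz, h7, ← h8] using Vl.div ht _ ((h8 _).trans_ne p1)
  refine ⟨h12, indep_of_rk (le_trans (by simp) (p3.trans ((Vl.spc ht h16).dm_le.trans h14.le))), h13,
    fun θ hθ => nolift₀ hξ _ (Wf_mem fun t => ?_) h16 ?_ (h15.trans p3) (h15.trans q3)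
      (Wf_mem fun t => ?_) q5 ((add_le_add_right h15 _).trans q4) (hθ.tower_top_of_subalgebra_le
        (Algebra.adjoin_mono (Set.range_comp_subset_range some (Wf o ν))))⟩
  · rw [hν, poly, map_sum]
    refine sum_mem fun j _ => ?_
    rw [aeval_monomial]
    exact mul_mem (IntermediateField.subset_adjoin _ _ (.inr ⟨_, rfl⟩))
      (pow_mem (IntermediateField.subset_adjoin _ _ (.inl rfl)) _)
  · rintro (_ | k)
    · cases o
      exacts [h17 _, by
        simpa only [Wf, ext1, Option.elim, cond, sv, hν, h10] using Vl.top ht (n := a.toNat)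
          (h6 (.inl (.inl 1))).le (h6 (.inl (.inl 0))).le ((h10 0).trans_ne q2)]
    · simpa only [Wf, ext1, Option.elim, cc, nz, h7, ← h9] using Vl.top ht (n := e)
        (by simpa using (h6.Z he _).1.le) (by simpa using (h6.Z he _).1.le) ((h9 _).trans_ne q1)
  · rw [coeff_poly]
    split_ifs
    · refine IntermediateField.subset_adjoin _ _ ⟨_, fun h => ?_, rfl⟩
      have h17 := (h5 t (by cases o; exacts [.inr rfl, .inl h.1.2.2.2.2])).2 h.1
      have h18 : 0 = (wt a b _ t).toNat := h.2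
      omega
    · exact zero_mem _

end GMC
end

-- merged part: Pool.Agent.Work.MP_64a944_ag.N16
section
/-!
# The two Manin components
-/

namespace GMC

open PR0 PR0.Z GM Polynomial

theorem mid₀ {E L : Type} [Field E] [Field L] [Algebra E L] {u : L} (h : IsIntegral E u)
    (h' : (minpoly E u).natDegree ≤ 3) {F : IntermediateField E L}
    (h1 : F ≤ IntermediateField.adjoin E {u}) (h2 : F ≠ ⊥) : u ∈ F := by
  have := IntermediateField.adjoin.finiteDimensional h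
  have h3 := mt IntermediateField.finrank_eq_one_iff.1 h2
  have h4 := Module.finrank_pos (R := E) (M := IntermediateField.adjoin E {u})
  refine (IntermediateField.eq_of_le_of_finrank_eq h1 ?_).ge
    (IntermediateField.mem_adjoin_simple_self E u)
  rw [← IntermediateField.adjoin.finrank h] at h'
  obtain ⟨c, hc⟩ := IntermediateField.finrank_dvd_of_le_right h1
  generalize Module.finrank E F = m at *
  rw [hc] at h' h4 ⊢
  rcases c with _ | _ | c
  · simp at h4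
  · simp
  · rcases m with _ | _ | m
    · simp
    · exact absurd rfl h3
    · nlinarith

theorem mid {L : Type} [Field L] [Algebra ℂ L] {I : Type} {y : I → L} {i j k : I} {u : L}
    (h : y k = u * (y j - u * (y i - u))) {E : IntermediateField ℂ L} (h1 : ∀ i, y i ∈ E)
    (h2 : E ≤ IntermediateField.adjoin ℂ (Set.range (ext1 u y)))
    (h3 : ¬ E ≤ IntermediateField.adjoin ℂ (Set.range y)) : u ∈ E := by
  have h6 : IntermediateField.adjoin ℂ (Set.range y) ≤ E :=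
    IntermediateField.adjoin_le_iff.2 (Set.range_subset_iff.2 h1)
  refine mid₀ (F := IntermediateField.extendScalars h6) (cubic_alg h).1 (cubic_alg h).2
    (fun x hx => ?_) fun h7 => h3 fun x hx => ?_
  · have h7 := h2 hx
    rwa [Option.range_eq, Set.insert_eq, Set.union_comm, ← IntermediateField.adjoin_adjoin_left]
      at h7
  · obtain ⟨c, rfl⟩ := IntermediateField.mem_bot.1 (h7.le (show x ∈ _ from hx))
    exact c.2

variable {a b h : ℤ} {e : ℕ} {KX : (IX → ℂ) → K0}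

theorem not_accum {o : Bool} (hX : KXP KX) (hA : aInv X0 KX (-num X0 KX) = 1)
    (he : (e : ℤ) = h + a + b) (h1 : 1 ≤ a) (h2 : a < b) (h3 : a + 2 * b ≤ h)
    (h4 : cond o (h < 3 * b) (3 * b < h)) : ¬ Accum X0 KX e (PI (wt a b h) e) := by
  rintro ⟨Y, KY, f, hY, hK, ⟨hf, hm, hg⟩, hB, e', 𝔮, -, hS⟩
  have h5 : (PI (wt a b h) e).IsPrime := inferInstance
  rw [← hS] at h5
  obtain ⟨Ω, _, _, _, ζ, x, y, h5, hx, hy, h6⟩ := lift_curve hm (e' := e')
    (fun a ha => by exact ha.2.imp fun b hb => ⟨hb.1, hb.2.2⟩) h5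
  obtain ⟨L, _, _, _, φ, ξ, hξ, h7⟩ := gen_pt (h5.trans hS)
  obtain ⟨Φ, h8, h9⟩ := exists_ratFunc_map φ
  obtain ⟨ν, hν⟩ : ∃ ν : T → RatFunc L, ∀ t, ν t = aeval RatFunc.X (poly ξ t) := ⟨_, fun _ => rfl⟩
  obtain ⟨h10, h11, h12, h13⟩ := nolift he h1 h2 h3 h4 hξ hν
  have h14 : ∀ c, Φ (aeval RatFunc.X (gp 1 ζ 0 c)) = Zc ν c := fun c => by
    rw [funext hν, ← map_Zc, ← (st_poly ξ).gp he, ← funext h7]
    simp [gp, h9, show ∀ c, Φ (RatFunc.C c) = RatFunc.C (φ c) from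
      fun c => (RingHom.congr_fun h8 c).symm]
  have h15 : ∀ c, Φ (y c) = Φ (y (dg 1)) / Zc ν (dg 1) * Zc ν c := fun c => by
    rw [div_mul_eq_mul_div, eq_div_iff h10, ← h14, ← h14, ← map_mul, ← map_mul, h6]
  replace hx := hx.map Φ
  replace hy : Img Y.z f (fun i => Φ (x i)) fun c => Φ (y c) := ⟨fun h => hy.1 (funext fun c =>
    (map_eq_zero Φ).1 (congrFun h c)), hy.2.imp fun c h j => (h j).map Φ⟩
  have h16 : Φ (y (dg 1)) / Zc ν (dg 1) ≠ 0 := fun h => hy.1 (funext fun c => by simp [h15 c, h])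
  generalize Φ (y (dg 1)) / Zc ν (dg 1) = c₀ at h15 h16
  rw [funext h15] at hy
  have h17 := (gen_Zc h10 h11).smul' h16
  have hd := (hy.pt hx).trans h17
  obtain ⟨χ, hχ⟩ := exists_emb z0_gen hf hd
  obtain ⟨χ', hχ'⟩ := lift_emb Y.gen hg hx hy (h17.trans hf)
  have h18 : ∀ k, χ' (χ (y0 k)) = cc (Zc ν) 1 k := fun k => by
    have h18 := Val.ratio (hf.trans (hy.pt hx)) (mul_ne_zero h16 h10) (ix (dg 1) (mT 1 (emb k)))
    rw [mul_div_mul_left _ _ h16] at h18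
    exact (hχ' _).unique hx (hy.val' hf hχ hx ((congrFun (cc_pk y0) k :) ▸ h18))
  have h19 : ∀ c : IX × IX, f c.1 / f c.2 = χ (z0 c.1 / z0 c.2) := fun c => by
    by_cases h19 : f c.2 = 0
    · rw [h19, div_zero, of_not_not fun h => hd.ne' h h19, div_zero, map_zero]
    · exact (Val.ratio hf h19 _).unique hf (hχ _)
  have h20 : IntermediateField.adjoin ℂ (Set.range fun c : IX × IX => f c.1 / f c.2) =
      IntermediateField.adjoin ℂ (Set.range fun k => χ (y0 k)) := by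
    refine le_antisymm (IntermediateField.adjoin_le_iff.2 ?_) (IntermediateField.adjoin.mono _ _ _ ?_)
    · rintro _ ⟨c, rfl⟩
      exact Set.mem_of_eq_of_mem (h19 c) ((mem_map_iff χ).2 (co_y0.2.ge IntermediateField.mem_top))
    · rintro _ ⟨k, rfl⟩
      exact ⟨(_, dg 1), (h19 _).trans (congrArg χ (congrFun (cc_pk y0) k))⟩
  have h21 : Alg fun k => χ (y0 k) := fun θ =>
    IntermediateField.isAlgebraic_adjoin_iff.1 ((h20 ▸ hg).isAlgebraic θ)
  have h22 := fun θ => h13 _ (funext h18 ▸ alg_map (h21 θ) χ')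
  refine not_breaking hY hK hX hA hf hm hχ h21 (fun h23 => ?_) hB
  have h24 : ¬ χ'.fieldRange ≤ IntermediateField.adjoin ℂ (Set.range (cc (Zc ν) 1)) := fun h =>
    h23 (h20.trans (eq_top_iff.2 fun θ _ => (mem_map_iff χ').1 (funext h18 ▸ h ⟨θ, rfl⟩)))
  cases o
  · refine absurd ?_ h24
    rintro _ ⟨θ, rfl⟩
    refine IntermediateField.adjoin_le_iff.2 ?_ (h22 θ)
    rintro _ ⟨_ | k, rfl⟩
    exacts [zero_mem _, IntermediateField.subset_adjoin _ _ ⟨k, rfl⟩]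
  obtain ⟨u, hu⟩ := mid (h12 rfl) (E := χ'.fieldRange) (fun k => ⟨_, h18 k⟩)
    (by rintro _ ⟨θ, rfl⟩; exact h22 θ) h24
  refine ⟨u, χ'.injective (by simpa [h18, ← hu] using h12 rfl),
    eq_top_iff.2 fun θ _ => (mem_map_iff χ').1 ?_⟩
  convert h22 θ with o
  rcases o with _ | k
  exacts [hu, h18 k]

theorem pt_eval {A : IX × Fin (e + 1) → ℂ} (hA : A ∈ MorSet z0 e) (t : ℂ) :
    IsPt (form (fun c => RatFunc.C (A c)) 1 RatFunc.X) (form A 1 t) :=
  .of_spc (fun G hG => by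
    rw [form_eq, ← MvPolynomial.comp_aeval_apply] at hG
    simpa only [eval_aev, eval_gp, eval_zero] using congrArg (eval t)
      (transcendental_iff.1 RatFunc.transcendental_X _ hG)) (hA 1 t (by simp)).1

/-- The curve with given coefficients. -/
noncomputable def crv {A : IX × Fin (e + 1) → ℂ} (hA : A ∈ MorSet z0 e) : Crv X0 :=
  ⟨RatFunc ℂ, isFF_rat ℂ, form (fun c => RatFunc.C (A c)) 1 RatFunc.X, form_eq A ▸ mor_pt hA⟩

theorem exists_nef {g : ℤ} (h1 : 2 ≤ g) (h2 : 3 * g + 3 ≤ 2 * h) : ∃ C : Crv X0,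
    num X0 hE C = h ∧ num X0 hP C = g ∧ ∀ D, IsEff z0 D → 0 ≤ num X0 D C := by
  obtain ⟨a, b, rfl, h3, h4, h5⟩ : ∃ a b, g = a + b ∧ 1 ≤ a ∧ a ≤ b ∧ b ≤ a + 1 :=
    ⟨g / 2, g - g / 2, by omega⟩
  obtain ⟨e, he⟩ : ∃ e : ℕ, e = h + a + b := ⟨(h + a + b).toNat, by omega⟩
  have h6 : ∀ {ν : T → ℂ[X]} (hν : Good a b h ν), num X0 hE (crv (hν.mor he)) = h ∧
      num X0 hP (crv (hν.mor he)) = (a + b : ℤ) := fun hν =>
    (hν.st.deg he (hν.mor he)).imp (congrArg Int.cast) (congrArg Int.cast)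
  obtain ⟨ξ, -, hξ⟩ := exists_good (h := h) h3 h4 (by omega) (by omega) one_ne_zero
  refine ⟨_, (h6 hξ).1, (h6 hξ).2, fun D hD => ?_⟩
  obtain ⟨n₁, n₂, h7⟩ := pic_X hD.1
  have h8 := pt_Zc (Zc_pk_ne (0 : Fin 13 → ℂ))
  obtain ⟨n, H, h9, h10, h11⟩ := hD.1 _ h8
  obtain ⟨n', H', -, h12, h13⟩ := IsU.nhds ⟨_, hD.1.ne h8, Val.self X0.ne z0_gen _⟩
  have h14 : ∀ {F : Type} [Field F] [Algebra ℂ F] (ξ : JJ (wt a b h) → F), MvPolynomial.aeval ξ
      (MvPolynomial.aeval (Zc fun t => (poly (MvPolynomial.X (R := ℂ)) t).coeff 0) (H * H')) =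
      MvPolynomial.aeval (Zc fun t => (poly ξ t).coeff 0) (H * H') := fun ξ => by
    rw [MvPolynomial.comp_aeval_apply]
    congr 2
    funext c
    rw [map_Zc]
    congr
    funext t
    simpa using (coeff_map _ _).symm.trans (congrArg (coeff · 0)
      (map_poly (MvPolynomial.aeval (R := ℂ) ξ).toRingHom MvPolynomial.X t))
  obtain ⟨ξ', h15, hξ'⟩ := exists_good (h := h) h3 h4 (by omega) (by omega) (Q := MvPolynomial.aeval
      (Zc fun t => (poly (MvPolynomial.X (R := ℂ)) t).coeff 0) (H * H')) fun h15 => by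
    have h16 := h14 fun c => pk y0 c.1
    rw [h15, map_zero, show (fun t => (poly (fun c : JJ (wt a b h) => pk y0 c.1) t).coeff 0) = pk y0
      from funext fun t => coeff_jj _ _ _ ?_, map_mul] at h16
    · exact mul_ne_zero (h8.ne h9 h10) h12 h16.symm
    · rcases t with (l | l) | l <;> fin_cases l <;> simp [wt] <;> omega
  rw [h14] at h15
  simp only [coeff_zero_eq_eval_zero, ← (hξ'.st.form he).1, map_mul, mul_ne_zero_iff] at h15
  have h16 := (h11 _ (hξ'.mor he 1 0 (by simp)) h15.1).mul (h13 _ h15.2)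
  rw [div_mul_cancel₀ _ (hD.1.ne h8)] at h16
  have h17 : 0 ≤ num X0 D (crv (hξ'.mor he)) := Int.cast_nonneg (deg_nonneg hD (crv (hξ'.mor he)).pt
    (pt_eval (hξ'.mor he) 0) (h16.gen (pt_eval (hξ'.mor he) 0)))
  rw [h7, Pi.add_apply, Pi.smul_apply, Pi.smul_apply, (h6 hξ').1, (h6 hξ').2] at h17
  rwa [h7, Pi.add_apply, Pi.smul_apply, Pi.smul_apply, (h6 hξ).1, (h6 hξ).2]

theorem int_dot {α : Crv X0 →₀ ℝ} (hα : Integral α) (D : (IX → ℂ) → K0) :
    ∃ n : ℤ, dot (num X0 D) α = n := by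
  choose n hn using hα
  exact ⟨∑ C ∈ α.support, n C * deg z0 D C.x, by simp [dot, Finsupp.sum, hn, num]⟩

theorem exists_cl {α : Crv X0 →₀ ℝ} (hα : Integral α) : ∃ h₀ g₀ : ℤ, ∀ h g : ℤ, g₀ + 2 ≤ g →
    3 * (g - g₀) + 3 ≤ 2 * (h - h₀) → ∃ β, Integral β ∧ Nef (β - α) ∧ dot (num X0 hE) β = h ∧
      dot (num X0 hP) β = g := by
  obtain ⟨h₀, h1⟩ := int_dot hα hE
  obtain ⟨g₀, h2⟩ := int_dot hα hP
  refine ⟨h₀, g₀, fun h g h3 h4 => ?_⟩
  obtain ⟨C, h5, h6, h7⟩ := exists_nef (by omega) h4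
  refine ⟨α + Finsupp.single C 1, fun C' => ?_, fun D hD => ?_, ?_, ?_⟩
  · obtain ⟨n, hn⟩ := hα C'
    classical
    exact ⟨n + if C = C' then 1 else 0, by simp [hn, Finsupp.single_apply]⟩
  · rw [add_sub_cancel_left, dot_single]
    exact h7 D hD
  all_goals simp [dot_add', dot_single, *]

variable {β : Crv X0 →₀ ℝ} {g : ℤ}

theorem le_PI (hE' : dot (num X0 hE) β = h) (hP' : dot (num X0 hP) β = (a + b : ℤ))
    (he : (e : ℤ) = h + a + b) (h1 : 1 ≤ a) (h2 : a ≤ b) (h3 : 2 * a + b ≤ h) (h4 : 3 * a < h) :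
    MvPolynomial.vanishingIdeal ℂ (MorCl X0 β e) ≤ PI (wt a b h) e := fun G hG =>
  dens h1 h2 h3 h4 fun ν hν => hG _ ⟨hν.mor he, fun D hD => by
    obtain ⟨n₁, n₂, h5⟩ := pic_X hD
    have h6 := hν.st.deg he (hν.mor he)
    refine (congrFun h5 (crv (hν.mor he))).trans ?_
    rw [h5, dot_add, dot_smul, dot_smul, hE', hP']
    exact congrArg₂ (fun x y : ℤ => (n₁ : ℝ) * x + n₂ * y) h6.1 h6.2⟩

theorem PI_le (hE' : dot (num X0 hE) β = h) (hP' : dot (num X0 hP) β = g)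
    {𝔮 : Ideal (MvPolynomial (IX × Fin (e + 1)) ℂ)} (hq : 𝔮.IsPrime)
    (h1 : MvPolynomial.vanishingIdeal ℂ (MorCl X0 β e) ≤ 𝔮) :
    ∃ a b, 0 ≤ a ∧ a ≤ b ∧ a + b = g ∧ (e : ℤ) = h + g ∧ PI (wt a b h) e ≤ 𝔮 := by
  suffices h2 : (((Finset.Icc 0 g).filter fun a => a ≤ g - a ∧ (e : ℤ) = h + g).inf
      fun a => PI (wt a (g - a) h) e) ≤ MvPolynomial.vanishingIdeal ℂ (MorCl X0 β e) by
    obtain ⟨a, h2, h3⟩ := hq.inf_le'.1 (h2.trans h1)
    rw [Finset.mem_filter, Finset.mem_Icc] at h2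
    exact ⟨a, _, h2.1.1, h2.2.1, by ring, h2.2.2, h3⟩
  intro G hG A hA
  obtain ⟨a, b, h', ν, h2, h3, h4, h5, rfl⟩ := strat hA.1
  have h6 := h5.deg h4 hA.1
  obtain rfl : h' = h := Int.cast_injective (α := ℝ) (h6.1 ▸ (hA.2 _ div_E).trans hE')
  obtain rfl : a + b = g := Int.cast_injective (α := ℝ) (h6.2 ▸ (hA.2 _ div_P).trans hP')
  exact PI_zero (Submodule.mem_finsetInf.1 hG a (by simp; omega)) (by simpa using h5)

theorem one_comp (hX : KXP KX) (hA : aInv X0 KX (-num X0 KX) = 1) (hE' : dot (num X0 hE) β = h)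
    (hP' : dot (num X0 hP) β = (a + (a + 1) : ℤ)) (h1 : 1 ≤ a) (h2 : 6 * a + 3 ≤ h) :
    (Manin X0 KX β).encard = 1 := by
  have h3 : ∀ e n : ℕ, (n : ℤ) ≤ a → PI (wt a (a + 1) h) e ≤ PI (wt (a - n) (a + 1 + n) h) e :=
    fun e n => by
      induction n with
      | zero => simp
      | succ n ih =>
        refine fun h3 G hG => MvPolynomial.funext fun ξ => ?_
        refine (aeval_Ph ξ G).trans (degen (by omega) (by omega) (by omega) ?_ (st_poly ξ))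
        convert ih (by omega) hG using 3 <;> omega
  have h4 : ∀ (e : ℕ) (𝔮 : Ideal (MvPolynomial (IX × Fin (e + 1)) ℂ)), 𝔮.IsPrime ∧
      MvPolynomial.vanishingIdeal ℂ (MorCl X0 β e) ≤ 𝔮 →
      (e : ℤ) = h + a + (a + 1) ∧ PI (wt a (a + 1) h) e ≤ 𝔮 := fun e 𝔮 hq => by
    obtain ⟨a', b', h4, h5, h6, h7, h8⟩ := PI_le hE' hP' hq.1 hq.2
    obtain ⟨n, rfl, rfl⟩ : ∃ n : ℕ, a' = a - n ∧ b' = a + 1 + n := ⟨(a - a').toNat, by omega⟩
    exact ⟨by omega, (h3 _ n (by omega)).trans h8⟩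
  have h5 : ∀ e : ℕ, (e : ℤ) = h + a + (a + 1) → (PI (wt a (a + 1) h) e).IsPrime ∧
      MvPolynomial.vanishingIdeal ℂ (MorCl X0 β e) ≤ PI (wt a (a + 1) h) e := fun e he =>
    ⟨inferInstance, le_PI hE' hP' he h1 (by omega) (by omega) (by omega)⟩
  obtain ⟨e, he⟩ : ∃ e : ℕ, e = h + a + (a + 1) := ⟨(h + a + (a + 1)).toNat, by omega⟩
  refine Set.encard_eq_one.2 ⟨⟨e, PI (wt a (a + 1) h) e⟩, Set.eq_singleton_iff_unique_mem.2
    ⟨⟨⟨h5 e he, fun 𝔮 hq _ => (h4 e 𝔮 hq).2⟩, not_accum (o := false) hX hA he h1 (by omega)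
      (by omega) (by simp only [cond]; omega)⟩, fun ⟨e', p⟩ hp => ?_⟩⟩
  obtain ⟨h6, h7⟩ := h4 _ _ hp.1.1
  obtain rfl : e' = e := Nat.cast_injective (h6.trans he.symm)
  exact congrArg _ (le_antisymm (hp.1.2 (h5 _ he) h7) h7)

theorem manin {o : Bool} (hX : KXP KX) (hA : aInv X0 KX (-num X0 KX) = 1)
    (hE' : dot (num X0 hE) β = h) (hP' : dot (num X0 hP) β = (a + b : ℤ))
    (he : (e : ℤ) = h + a + b) (h1 : 1 ≤ a) (h2 : a < b) (h3 : a + 2 * b ≤ h)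
    (h4 : cond o (h < 3 * b) (3 * b < h)) (h5 : b = a + 1 ∧ 3 * b ≤ h + 1 ∨ h = a + 2 * b)
    (h6 : (a + b) % 2 = 1) (h7 : h < 2 * (a + b)) : ⟨e, PI (wt a b h) e⟩ ∈ Manin X0 KX β := by
  refine ⟨⟨⟨inferInstance, le_PI hE' hP' he h1 h2.le (by omega) (by omega)⟩, fun 𝔮 hq h8 => ?_⟩,
    not_accum hX hA he h1 h2 h3 h4⟩
  obtain ⟨a', b', h9, h10, h11, -, h12⟩ := PI_le hE' hP' hq.1 hq.2
  by_cases h13 : a' + 2 * b' ≤ h
  · obtain ⟨n, h14, -, h15⟩ := dI_PI h1 h2 h3 he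
    obtain ⟨n', h16, h17, -⟩ := dI_PI (a := a') (e := e) (by omega) (by omega) h13 (by omega)
    by_contra h18
    have h19 := dI_lt inferInstance inferInstance (h12.trans h8) fun h => h18 (h.trans h12)
    rw [h14, h16] at h19
    norm_cast at h19
    have := h15 h5
    omega
  · exact absurd (h12.trans h8) (not_PI_le (by omega) h10 (by omega) h2.le h3)

theorem main : ∃ (X : Var) (KX : (X.ι → ℂ) → X.K), X.Fano KX ∧
    ∀ α : Crv X →₀ ℝ, Integral α → Nef α → ∃ β₁ β₂ : Crv X →₀ ℝ, Integral β₁ ∧ Integral β₂ ∧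
      Nef (β₁ - α) ∧ Nef (β₂ - α) ∧ (Manin X KX β₁).encard = 1 ∧ 2 ≤ (Manin X KX β₂).encard := by
  obtain ⟨KX, δ, h1, h2, h3, h4, h5⟩ := exists_KX
  have hX : KXP KX := ⟨h1.2.1.1, h4, δ, h2, h3, h5⟩
  have hA : aInv X0 KX (-num X0 KX) = 1 := by
    obtain ⟨C, h6, h7, h8⟩ := exists_nef (g := 2) (h := 5) le_rfl (by norm_num)
    exact aInv_one C h8 (by simp [h4, h6, h7]; norm_num)
  refine ⟨X0, KX, h1, fun α hα _ => ?_⟩
  obtain ⟨h₀, g₀, h6⟩ := exists_cl hα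
  obtain ⟨m, hm⟩ : ∃ m : ℕ, 2 ≤ m ∧ g₀ ≤ m ∧ 2 * h₀ - 3 * g₀ + 2 ≤ m :=
    ⟨2 + g₀.toNat + (2 * h₀ - 3 * g₀ + 2).toNat, by omega⟩
  obtain ⟨β₁, h7, h8, h9, h10⟩ := h6 (6 * m + 3) (m + (m + 1)) (by omega) (by omega)
  obtain ⟨β₂, h11, h12, h13, h14⟩ := h6 (7 * m + 5) (2 * m + 1 + (2 * m + 2)) (by omega) (by omega)
  refine ⟨β₁, β₂, h7, h11, h8, h12, one_comp hX hA h9 h10 (by omega) le_rfl,
    Order.add_one_le_of_lt (Set.one_lt_encard_iff.2 ⟨_, _,
      manin (o := false) (e := 11 * m + 8) hX hA h13 h14 (by omega) (by omega) (by omega) (by omega)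
        (by simp only [cond]; omega) (by omega) (by omega) (by omega),
      manin (o := true) (e := 11 * m + 8) (a := m + 1) (b := 3 * m + 2) hX hA h13
        (h14.trans (by push_cast; ring)) (by omega) (by omega) (by omega) (by omega)
        (by simp only [cond]; omega) (by omega) (by omega) (by omega), fun h => ?_⟩)⟩
  exact PI_ne (by omega) (by omega) (by omega) (by omega) (by omega) (by omega) (by omega)
    (eq_of_heq (Sigma.mk.inj h).2)

end GMC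
end
end
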