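import Pool.Agent.Work.MP_64a944_ag.N1

/-!
# Degrees of divisors on curves, images of points, pull-backs
-/

namespace GMC

open MvPolynomial PR0 PR0.Z GM

variable {K K' L L' : Type} [Field K] [Field K'] [Field L] [Field L'] [Algebra ℂ K] [Algebra ℂ K']
  [Algebra ℂ L] [Algebra ℂ L'] {ι κ I : Type} {z : ι → K} {x : ι → L} {φ ψ : K} {a b : L}
  {D D' : (ι → ℂ) → K} {p : ι → ℂ} {f : κ → K} {w : κ → K'} {y y' : κ → L}

section
variable [hL : Fact (IsFF ℂ L)] (P : Place L)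

theorem ord_eq (h : a ≠ 0) : ord P a = PR0.Place.ord (K := ℂ) P a := by
  have h1 := PR0.Place.FF_spec (K := ℂ) P
  have h2 : ∀ g : L, P.1.valuation g < 1 →
      P.1.valuation g ≤ P.1.valuation (PR0.Place.unif (K := ℂ) P) := fun g hg => by
    simpa using (PR0.Place.FF_ge (K := ℂ) P).1 ((PR0.Place.valuation_lt_one_iff P).1 hg)
  obtain ⟨π, h3, h4, h5⟩ := Classical.epsilon_spec (p := fun n : ℤ => ∃ π : L, P.1.valuation π < 1 ∧
    (∀ g : L, P.1.valuation g < 1 → P.1.valuation g ≤ P.1.valuation π) ∧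
      P.1.valuation a = P.1.valuation π ^ n) ⟨_, _, h1.2.1, h2, PR0.Place.FF_eq P h⟩
  rw [le_antisymm (h2 π h3) (h4 _ h1.2.1)] at h5
  exact (PR0.Place.FF_ord P h5).symm

theorem ord_mul (h : a ≠ 0) (h' : b ≠ 0) : ord P (a * b) = ord P a + ord P b := by
  rw [ord_eq P h, ord_eq P h', ord_eq P (mul_ne_zero h h'), PR0.Place.ord_mul _ h h']

theorem ord_zpow (h : a ≠ 0) (n : ℤ) : ord P (a ^ n) = n * ord P a := by
  rw [ord_eq P h, ord_eq P (zpow_ne_zero _ h), PR0.Place.ord_zpow _ h]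

theorem ord_congr (h : a ≠ 0) (h' : P.1.valuation a = P.1.valuation b) : ord P a = ord P b := by
  have hb : b ≠ 0 := fun hb => h (by simpa [hb] using h')
  rw [ord_eq P h, ord_eq P hb]
  exact PR0.Place.FF_ord P (h'.trans (PR0.Place.FF_eq P hb))

theorem ord_unit (h : P.1.valuation a = 1) : ord P a = 0 := by
  rw [ord_eq P fun h0 => by simp [h0] at h]
  exact PR0.Place.FF_ord P (h.trans (zpow_zero _).symm)

theorem ord_nonneg (h : a ≠ 0) (h' : a ∈ P.1) : 0 ≤ ord P a :=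
  ord_eq P h ▸ ((PR0.Place.mem_iff (K := ℂ) P).1 h').resolve_left h

theorem ord_fin (h : a ≠ 0) : (Function.support fun P : Place L => ord P a).Finite :=
  (finite_ord (K := ℂ) h).subset fun P hP h' => hP ((ord_eq P h).trans h')

omit hL in
theorem finsum_dg (E : Dv ℂ L) : ∑ᶠ P : Place L, E P = dg E :=
  finsum_eq_sum_of_support_subset (s := E.support) _ fun _ h => Finsupp.mem_support_iff.2 h

theorem sum_ord (h : a ≠ 0) : ∑ᶠ P : Place L, ord P a = 0 := by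
  rw [← dg_dv (K := ℂ) a, ← finsum_dg]
  exact finsum_congr fun P => (ord_eq P h).trans (dv_apply h P).symm

theorem ctr_cen [Finite ι] (hx : x ≠ 0) : Cen P.1 x (ctr x P) := by
  obtain ⟨h1, c, h2⟩ := Classical.epsilon_spec (p := fun p : ι → ℂ => p ≠ 0 ∧ ∃ c : L, ∀ j,
      P.1.valuation (c * x j - algebraMap ℂ L (p j)) < 1) (by
    obtain ⟨i, h1, h2⟩ := exists_max P.1 hx
    refine ⟨fun j => PR0.Place.val (K := ℂ) P (x j / x i), Function.ne_iff.2 ⟨i, ?_⟩, (x i)⁻¹,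
      fun j => ?_⟩
    · have := PR0.Place.val_const (K := ℂ) (P := P) 1
      simp_all
    · rw [← div_eq_inv_mul]
      exact (PR0.Place.valuation_lt_one_iff (K := ℂ) P).2 (PR0.Place.ge_sub_val (h2 j)))
  change ∀ j, P.1.valuation (c * x j - algebraMap ℂ L (ctr x P j)) < 1 at h2
  have h3 : ∀ j, c * x j ∈ P.1 := fun j => by
    simpa using add_mem ((P.1.valuation_le_one_iff _).1 (h2 j).le) (P.2.2 (ctr x P j))
  have h4 : ∀ G : MvPolynomial ι ℂ, P.1.valuation (aeval (fun j => c * x j) G -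
      algebraMap ℂ L (aeval (ctr x P) G)) < 1 := fun G => by
    induction G using MvPolynomial.induction_on with
    | C c => simp
    | add p q hp hq =>
      rw [map_add, map_add, map_add, add_sub_add_comm]
      exact Valuation.map_add_lt _ hp hq
    | mul_X p i hp =>
      rw [map_mul, map_mul, map_mul, aeval_X, aeval_X, show ∀ a b c d : L,
        a * b - c * d = (a - c) * b + c * (b - d) from fun _ _ _ _ => by ring]
      refine Valuation.map_add_lt _ ?_ ?_ <;> rw [map_mul]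
      exacts [mul_lt_one_of_nonneg_of_lt_one_left zero_le hp ((P.1.valuation_le_one_iff _).2 (h3 i)),
        mul_lt_one_of_nonneg_of_lt_one_right ((P.1.valuation_le_one_iff _).2 (P.2.2 _)) zero_le
          (h2 i)]
  refine ⟨h1, P.2.2, c, h3, fun G => ⟨fun h => by simpa [h] using h4 G, fun h => of_not_not
    fun h5 => ?_⟩⟩
  have h6 := Valuation.map_sub_lt _ h (h4 G)
  rw [sub_sub_cancel, (FFA_triv (K := ℂ) P).eq_one _ h5] at h6
  exact lt_irrefl _ h6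

variable [Finite ι]

theorem deg_spec (hD : IsDiv z D) (hx : IsPt z x) {φ₀ : K} {u : Place L → L}
    (h : ∀ P, Val z x (D (ctr x P) / φ₀) (u P)) (h0 : ∀ P, u P ≠ 0) :
    (Function.support fun P => ord P (u P)).Finite ∧ deg z D x = ∑ᶠ P, ord P (u P) := by
  have hfin : (Function.support fun P => ord P (u P)).Finite := by
    obtain ⟨s, h1, h2⟩ := hD.fin
    refine (Set.Finite.biUnion (t := fun p => {P | ev z x (D p / φ₀) ≠ 0 ∧
      ord P (ev z x (D p / φ₀)) ≠ 0}) s.finite_toSet fun p _ => ?_).subset fun P hP => ?_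
    · by_cases h3 : ev z x (D p / φ₀) = 0
      · simp [h3]
      · exact (ord_fin h3).subset fun P h => h.2
    · have h3 := ctr_cen P hx.1
      obtain ⟨p, hp, c, h4, h5⟩ := h2 _ (hx.trans h3.pt)
      obtain ⟨b, h6, h7⟩ := h5.gen h3.pt
      have h8 := h7.ne h3.pt h4
      have h9 := (h P).div hx h6 h8
      rw [div_div_div_cancel_left' _ _ (hD.ne (hx.trans h3.pt))] at h9
      refine Set.mem_biUnion hp ?_
      rw [Set.mem_ofPred_eq, h9.ev_eq hx]
      refine ⟨div_ne_zero (h0 P) h8, ?_⟩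
      rwa [ord_congr P (div_ne_zero (h0 P) h8) (b := u P)
        (by rw [map_div₀, h3.unit ⟨c, h4, h7⟩, div_one])]
  refine ⟨hfin, ?_⟩
  have h1 := Classical.epsilon_spec (p := fun φ : K => ∀ Q : Place L, IsU z x (D (ctr x Q) / φ))
    ⟨φ₀, fun Q => ⟨_, h0 Q, h Q⟩⟩
  rw [deg]
  generalize (Classical.epsilon fun φ : K => ∀ Q : Place L, IsU z x (D (ctr x Q) / φ)) = φ₁ at h1
  have := infinite_place (K := ℂ) (L := L)
  obtain ⟨Q⟩ : Nonempty (PR0.Place ℂ L) := inferInstance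
  obtain ⟨c, h2, h3⟩ := h1 Q
  have h4 := h3.div hx (h Q) (h0 Q)
  rw [div_div_div_cancel_left' _ _ (hD.ne (hx.trans (ctr_cen Q hx.1).pt))] at h4
  have h5 := div_ne_zero h2 (h0 Q)
  have h6 : φ₀ ≠ 0 := fun h6 => (h Q).ne hx (h0 Q) (by simp [h6])
  rw [← add_zero (∑ᶠ P, ord P (u P)), ← sum_ord h5, ← finsum_add_distrib hfin (ord_fin h5)]
  refine finsum_congr fun P => ?_
  have h7 := (h P).mul h4
  rw [div_mul_div_cancel₀ h6] at h7
  rw [h7.ev_eq hx, ord_mul P (h0 P) h5]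

theorem deg_ex (hD : IsDiv z D) (hx : IsPt z x) : ∃ (φ₀ : K) (u : Place L → L),
    (∀ P, Val z x (D (ctr x P) / φ₀) (u P)) ∧ ∀ P, u P ≠ 0 := by
  have := infinite_place (K := ℂ) (L := L)
  obtain ⟨Q⟩ : Nonempty (PR0.Place ℂ L) := inferInstance
  choose u h1 h2 using fun P => hD.unit hx (ctr_cen P hx.1).pt (ctr_cen Q hx.1).pt
  exact ⟨_, u, h2, h1⟩

theorem deg_mul (hD : IsDiv z D) (hD' : IsDiv z D') (hx : IsPt z x) :
    deg z (fun p => D p * D' p) x = deg z D x + deg z D' x := by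
  obtain ⟨φ, u, h1, h2⟩ := deg_ex hD hx
  obtain ⟨φ', u', h3, h4⟩ := deg_ex hD' hx
  obtain ⟨h5, h6⟩ := deg_spec hD hx h1 h2
  obtain ⟨h7, h8⟩ := deg_spec hD' hx h3 h4
  rw [h6, h8, ← finsum_add_distrib h5 h7, (deg_spec (hD.mul hD') hx (φ₀ := φ * φ') (fun P => by
    simpa only [mul_div_mul_comm] using (h1 P).mul (h3 P)) fun P => mul_ne_zero (h2 P) (h4 P)).2]
  exact finsum_congr fun P => ord_mul P (h2 P) (h4 P)

theorem deg_zpow (hD : IsDiv z D) (hx : IsPt z x) (m : ℤ) :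
    deg z (fun p => D p ^ m) x = m * deg z D x := by
  obtain ⟨φ, u, h1, h2⟩ := deg_ex hD hx
  obtain ⟨h5, h6⟩ := deg_spec hD hx h1 h2
  rw [h6, mul_finsum' _ _ h5, (deg_spec (hD.zpow m) hx (φ₀ := φ ^ m) (fun P => by
    simpa only [div_zpow] using (h1 P).zpow hx (h2 P) m) fun P => zpow_ne_zero _ (h2 P)).2]
  exact finsum_congr fun P => ord_zpow P (h2 P) m

theorem deg_unit (hD : IsDiv z D) (hx : IsPt z x) (h : ∀ p, IsPt z p → IsU z p (D p / φ)) :
    deg z D x = 0 := by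
  have h1 := fun P => h _ (hx.trans (ctr_cen P hx.1).pt)
  choose c h2 h3 using h1
  choose u h4 h5 using fun P => (h3 P).gen (ctr_cen P hx.1).pt
  rw [(deg_spec hD hx h4 fun P => (h5 P).ne (ctr_cen P hx.1).pt (h2 P)).2]
  exact finsum_eq_zero_of_forall_eq_zero fun P =>
    ord_unit P ((ctr_cen P hx.1).unit ⟨_, h2 P, h5 P⟩)

theorem deg_nonneg (hD : IsEff z D) (hx : IsPt z x) (hp : IsPt x p) (h : IsU z x (D p)) :
    0 ≤ deg z D x := by
  have h1 := fun P => hD.2 _ (hx.trans (ctr_cen P hx.1).pt)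
  choose c h3 using h1
  choose u h4 h5 using fun P => (h3 P).gen (ctr_cen P hx.1).pt
  have h6 : ∀ P, u P ≠ 0 := fun P => by
    obtain ⟨a, h6, h7⟩ := (hD.1.unit hx (ctr_cen P hx.1).pt hp).mul h
    rw [div_mul_cancel₀ _ (h.ne hx)] at h7
    exact (h4 P).unique hx h7 ▸ h6
  rw [(deg_spec hD.1 hx (φ₀ := 1) (by simpa using h4) h6).2]
  exact finsum_nonneg fun P => ord_nonneg P (h6 P) ((ctr_cen P hx.1).val (h5 P)).1

end

/-! ### Images -/

theorem Img.gen {x' : ι → L'} {y' : κ → L'} (hx : IsPt x x') (h : Img z f x' y') :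
    ∃ y, Img z f x y ∧ ∀ j, Val x x' (y j) (y' j) := by
  obtain ⟨h0, c, h⟩ := h
  choose y h1 h2 using fun j => (h j).gen hx
  obtain ⟨j, hj⟩ := Function.ne_iff.1 h0
  exact ⟨y, ⟨Function.ne_iff.2 ⟨j, (h2 j).ne hx hj⟩, c, h1⟩, h2⟩

theorem IsMor.img [Finite ι] (hf : IsMor z f) (hx : IsPt z x) : Img z f x (img z f x) := by
  refine Classical.epsilon_spec (p := Img z f x) ?_
  obtain ⟨p, hp, -⟩ := IsPt.closed hx.1 (H := 1) (by simp)
  obtain ⟨i, h1, h2⟩ := hf p (hx.trans hp)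
  choose y hy using h2
  refine (Img.gen hp (y' := y) ⟨Function.ne_iff.2 ⟨i, ?_⟩, (f i)⁻¹, fun j => ?_⟩).imp fun _ h => h.1
  · have h3 := hy i
    rw [div_self h1] at h3
    exact (h3.unique (hx.trans hp) Val.one).trans_ne one_ne_zero
  · exact div_eq_inv_mul (f j) _ ▸ hy j

theorem Img.ne (hx : IsPt z x) (h : Img z f x y) {i : κ} (hi : y i ≠ 0) : f i ≠ 0 :=
  let ⟨_, _, h⟩ := h
  right_ne_zero_of_mul ((h i).ne hx hi)

theorem Img.ratio (hx : IsPt z x) (h : Img z f x y) {i : κ} (hi : y i ≠ 0) (j : κ) :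
    Val z x (f j / f i) (y j / y i) := by
  obtain ⟨-, c, h⟩ := h
  have h1 := (h j).div hx (h i) hi
  rwa [mul_div_mul_left _ _ (left_ne_zero_of_mul ((h i).ne hx hi))] at h1

theorem Img.prop (hx : IsPt z x) (h : Img z f x y) (h' : Img z f x y') :
    ∃ c : L, c ≠ 0 ∧ y' = fun j => c * y j := by
  obtain ⟨i, hi⟩ := Function.ne_iff.1 h.1
  obtain ⟨h0, c, h1⟩ := h'
  have h2 : y' = fun j => y' i / y i * y j := funext fun j => by
    have h2 := (h1 i).mul (h.ratio hx hi j)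
    rw [mul_assoc, mul_div_cancel₀ _ (h.ne hx hi)] at h2
    rw [(h1 j).unique hx h2]
    ring
  exact ⟨_, fun h3 => h0 (by rw [h2, h3]; simp; rfl), h2⟩

theorem Img.pt (hx : IsPt z x) (h : Img z f x y) : IsPt f y :=
  let ⟨h0, _, h⟩ := h
  IsPt.of_smul (.of_spc (Val.spc hx h) h0)

theorem Img.val (hx : IsPt z x) (h : Img z f x y) {φ : K'} (h1 : Val w y φ a) :
    ∃ φ', Val w f φ φ' ∧ Val z x φ' a := by
  obtain ⟨φ', h2, n, G, H, h3, h4, h5, h6, h7⟩ := h1.gen (h.pt hx)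
  obtain ⟨h0, c, h⟩ := h
  obtain ⟨i, hi⟩ := Function.ne_iff.1 h0
  have h8 := (Val.aev h G).div hx (Val.aev h H) h5
  rw [aeval_smul' h3, aeval_smul' h4, mul_div_mul_left _ _ (pow_ne_zero _ (left_ne_zero_of_mul
    ((h i).ne hx hi))), ← h6, ← h7, mul_div_cancel_right₀ _ h5, mul_div_cancel_right₀ _
      ((Img.pt hx ⟨h0, c, h⟩).ne h4 h5)] at h8
  exact ⟨φ', h2, h8⟩

theorem Img.cen {V : ValuationSubring L} {x' : ι → L'} {y' : κ → L'} (hx : IsPt z x)
    (hc : Cen V x x') (h : Img z f x y) (h' : Img z f x' y') : Cen V y y' := by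
  obtain ⟨y₁, h1, h2⟩ := h'.gen hc.pt
  obtain ⟨c, -, rfl⟩ := h.prop hx h1
  exact ⟨h'.1, hc.2.1, c, fun j => (hc.val (h2 j)).1, fun G => (hc.val (Val.aev h2 G)).2⟩

theorem Cen.rel {V : ValuationSubring L} {x' : ι → L'} {L'' : Type} [Field L''] [Algebra ℂ L'']
    {x'' : ι → L''} (h : Cen V x x') (h' : Cen V x x'') : IsPt x' x'' := by
  refine ⟨h'.1, fun n G hG h1 => ?_⟩
  obtain ⟨i, hi⟩ := h.pt.ex
  obtain ⟨j, hj⟩ := h'.pt.ex
  have h2 := (h'.val (Val.ratio h'.pt hj i)).1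
  have h3 := (h.val (Val.ratio h.pt hi j)).1
  have h4 := h.val (Val.hom h.pt hG (isHomogeneous_X_pow i n) (by simpa using pow_ne_zero n hi))
  have h5 := h'.val (Val.hom h'.pt hG (isHomogeneous_X_pow j n) (by simpa using pow_ne_zero n hj))
  simp only [map_pow, aeval_X] at h4 h5
  refine (div_eq_zero_iff.1 (h5.2.2 ?_)).resolve_right (pow_ne_zero _ hj)
  rw [← div_mul_div_cancel₀ (pow_ne_zero n (h.pt.ne' hi)), map_mul, ← div_pow]
  exact mul_lt_one_of_nonneg_of_lt_one_left zero_le (h4.2.1 (by rw [h1, zero_div]))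
    ((V.valuation_le_one_iff _).2 (pow_mem h2 n))

/-- The pull-back of functions along a dominant map. -/
theorem exists_emb (hw : Gen w) (hf : IsPt w f) (hd : IsPt f w) :
    ∃ χ : K' →ₐ[ℂ] K, ∀ φ, Val w f φ (χ φ) := by
  have h1 : ∀ φ, Val w f φ (ev w f φ) := fun φ => by
    obtain ⟨n, G, H, h1, h2, h3, h4, -⟩ := Val.self hd.1 hw φ
    have h5 : Val w f φ _ := ⟨n, G, H, h1, h2, hd.ne h2 h3, h4, div_mul_cancel₀ _ (hd.ne h2 h3)⟩
    rwa [h5.ev_eq hf]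
  exact ⟨⟨⟨⟨⟨ev w f, Val.one.ev_eq hf⟩, fun _ _ => ((h1 _).mul (h1 _)).ev_eq hf⟩,
    Val.zero.ev_eq hf, fun _ _ => ((h1 _).add (h1 _)).ev_eq hf⟩,
    fun c => (Val.const c).ev_eq hf⟩, h1⟩

section
variable [Finite ι] [Finite κ] {χ : K' →ₐ[ℂ] K} {E : (κ → ℂ) → K'}

omit [Finite ι] [Finite κ] in
theorem Img.val' (hf : IsPt w f) (hχ : ∀ φ, Val w f φ (χ φ)) (hx : IsPt z x) (h : Img z f x y)
    {φ : K'} (h1 : Val w y φ a) : Val z x (χ φ) a :=
  let ⟨_, h2, h3⟩ := h.val hx h1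
  h2.unique hf (hχ φ) ▸ h3

omit [Finite ι] [Finite κ] in
theorem pull_eq (hf : IsPt w f) (hχ : ∀ φ, Val w f φ (χ φ)) (E : (κ → ℂ) → K') :
    pull z w f E = fun p => χ (E (img z f p)) := funext fun _ => (hχ _).ev_eq hf

theorem IsDiv.pull (hf : IsPt w f) (hm : IsMor z f) (hχ : ∀ φ, Val w f φ (χ φ)) (hE : IsDiv w E) :
    IsDiv z fun p => χ (E (img z f p)) := by
  intro p hp
  obtain ⟨n, H, h1, h2, h3⟩ := hE _ (hf.trans ((hm.img hp).pt hp))
  obtain ⟨i, hi⟩ := ((hm.img hp).pt hp).ex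
  obtain ⟨h0, c, h4⟩ := hm.img hp
  obtain ⟨m, G, h5, h6, h7⟩ := IsU.nhds (IsU.mul ⟨_, h2, Val.aev h4 H⟩ ⟨_, hi, h4 i⟩)
  classical
  choose k A B h8 h9 h10 h11 h12 using fun j => (h4 j).nhds
  have := Fintype.ofFinite κ
  refine ⟨_, G * ∏ j, B j, h5.mul (IsHomogeneous.prod _ _ k fun j _ => h9 j), ?_, fun q hq h => ?_⟩
  · rw [map_mul, map_prod]
    exact mul_ne_zero h6 (Finset.prod_ne_zero_iff.2 fun j _ => h10 j)
  rw [map_mul, map_prod, mul_ne_zero_iff, Finset.prod_ne_zero_iff] at h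
  have h13 := fun j => h12 j q (h.2 j (Finset.mem_univ _))
  obtain ⟨b, h14, h15⟩ := h7 q h.1
  rw [h15.unique hq ((Val.aev h13 H).mul (h13 i)), mul_ne_zero_iff] at h14
  obtain ⟨c', h16, h17⟩ := Img.prop hq ⟨Function.ne_iff.2 ⟨i, h14.2⟩, c, h13⟩ (hm.img hq)
  obtain ⟨a, h18, h19⟩ := h3 _ (hf.trans ((hm.img hq).pt hq))
    (by rw [h17, aeval_smul' h1]; exact mul_ne_zero (pow_ne_zero _ h16) h14.1)
  exact ⟨a, h18, map_div₀ χ _ _ ▸ (hm.img hq).val' hf hχ hq h19⟩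

theorem IsEff.pull (hf : IsPt w f) (hm : IsMor z f) (hχ : ∀ φ, Val w f φ (χ φ)) (hE : IsEff w E) :
    IsEff z fun p => χ (E (img z f p)) :=
  ⟨hE.1.pull hf hm hχ, fun _ hp => (hE.2 _ (hf.trans ((hm.img hp).pt hp))).imp fun _ h =>
    (hm.img hp).val' hf hχ hp h⟩

theorem deg_pull [Fact (IsFF ℂ L)] (hf : IsPt w f) (hm : IsMor z f) (hχ : ∀ φ, Val w f φ (χ φ))
    (hE : IsDiv w E) (hx : IsPt z x) :
    deg z (fun p => χ (E (img z f p))) x = deg w E (img z f x) := by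
  have h1 := hm.img hx
  have h2 := hf.trans (h1.pt hx)
  obtain ⟨φ, u, h3, h4⟩ := deg_ex hE h2
  have h5 := fun P => h1.cen hx (ctr_cen P hx.1) (hm.img (hx.trans (ctr_cen P hx.1).pt))
  have h6 := fun P => hE.unit (h2.trans (h5 P).pt) (.refl (h5 P).1)
    ((h5 P).rel (ctr_cen P h2.1))
  choose c h7 h8 using h6
  choose b h9 h10 using fun P => (h8 P).gen (h5 P).pt
  have h11 := fun P => (h10 P).ne (h5 P).pt (h7 P)
  rw [(deg_spec hE h2 h3 h4).2, (deg_spec (hE.pull hf hm hχ) hx (φ₀ := χ φ) (fun P => by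
    have h12 := h1.val' hf hχ hx ((h9 P).mul (h3 P))
    rwa [div_mul_div_cancel₀ (hE.ne (h2.trans (ctr_cen P h2.1).pt)), map_div₀] at h12)
    fun P => mul_ne_zero (h11 P) (h4 P)).2]
  exact finsum_congr fun P => ord_congr P (mul_ne_zero (h11 P) (h4 P))
    (by rw [map_mul, (h5 P).unit ⟨_, h7 P, h10 P⟩, one_mul])

end

end GMC
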