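import Pool.Agent.Work.MP_64a944_ag.N2

/-!
# Hyperplane divisors, lifting of the generic curve
-/

namespace GMC

open MvPolynomial PR0 PR0.Z GM

variable {K K' L L' : Type} [Field K] [Field K'] [Field L] [Field L'] [Algebra ℂ K] [Algebra ℂ K']
  [Algebra ℂ L] [Algebra ℂ L'] {ι κ I : Type} {z : ι → K} {x : ι → L} {φ ψ : K} {a b : L}
  {p : ι → ℂ} {f : κ → K} {w : κ → K'} {y y' : κ → L}

theorem Reg.nhds [Finite I] {c : I → K} (h : ∀ j, Reg z x (c j)) :
    ∃ (n : ℕ) (H : MvPolynomial ι ℂ), H.IsHomogeneous n ∧ aeval x H ≠ 0 ∧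
      ∀ q : ι → ℂ, aeval q H ≠ 0 → ∀ j, Reg z q (c j) := by
  classical
  choose a h using h
  choose k A B h8 h9 h10 h11 h12 using fun j => (h j).nhds
  have := Fintype.ofFinite I
  refine ⟨_, ∏ j, B j, IsHomogeneous.prod _ _ k fun j _ => h9 j, ?_, fun q hq j => ⟨_, h12 j q ?_⟩⟩
  · rw [map_prod]
    exact Finset.prod_ne_zero_iff.2 fun j _ => h10 j
  · rw [map_prod] at hq
    exact Finset.prod_ne_zero_iff.1 hq j (Finset.mem_univ _)

/-- The hyperplane divisor of a morphism to projective space. -/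
noncomputable def hyp (z : ι → K) (f : κ → K) (p : ι → ℂ) : K :=
  Classical.epsilon fun φ => ∃ i, f i ≠ 0 ∧ (∀ j, Reg z p (f j / f i)) ∧ φ = (f i)⁻¹

theorem IsMor.hyp (hf : IsMor z f) (hp : IsPt z p) :
    ∃ i, f i ≠ 0 ∧ (∀ j, Reg z p (f j / f i)) ∧ hyp z f p = (f i)⁻¹ :=
  let ⟨i, h1, h2⟩ := hf p hp
  Classical.epsilon_spec (p := fun φ => ∃ i, f i ≠ 0 ∧ (∀ j, Reg z p (f j / f i)) ∧ φ = (f i)⁻¹)
    ⟨_, i, h1, h2, rfl⟩

theorem IsMor.unit (hf : IsMor z f) (hp : IsPt z p) {i : κ} (hi : f i ≠ 0)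
    (h : ∀ j, Reg z p (f j / f i)) : IsU z p (GMC.hyp z f p * f i) := by
  obtain ⟨j, h1, h2, h3⟩ := hf.hyp hp
  rw [h3, ← div_eq_inv_mul]
  exact .of_inv hp (div_ne_zero hi h1) (h2 i) (inv_div (f i) _ ▸ h j)

theorem IsMor.div [Finite κ] (hf : IsMor z f) : IsDiv z (GMC.hyp z f) := by
  intro p hp
  obtain ⟨i, h1, h2, h3⟩ := hf.hyp hp
  obtain ⟨n, H, h4, h5, h6⟩ := Reg.nhds h2
  exact ⟨n, H, h4, h5, fun q hq h => by rw [h3, div_inv_eq_mul]; exact hf.unit hq h1 (h6 q h)⟩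

theorem isFF_rat (k : Type) [Field k] : IsFF k (RatFunc k) :=
  ⟨_, RatFunc.transcendental_X, by
    rw [RatFunc.adjoin_X]
    exact Module.finite_of_finrank_pos (by rw [IntermediateField.finrank_top]; exact one_pos)⟩

theorem poly_val {V : ValuationSubring L} (hV : ∀ c : ℂ, c ≠ 0 → V.valuation (algebraMap ℂ L c) = 1)
    {τ : L} {c : ℂ} (h : V.valuation (τ - algebraMap ℂ L c) < 1) (g : Polynomial ℂ) :
    V.valuation (Polynomial.aeval τ g) ≤ 1 ∧
      (g.eval c ≠ 0 → V.valuation (Polynomial.aeval τ g) = 1) := by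
  have h0 : ∀ c : ℂ, algebraMap ℂ L c ∈ V := fun c => by
    by_cases hc : c = 0
    · simp [hc]
    · exact (V.valuation_le_one_iff _).1 (hV c hc).le
  have h1 : τ ∈ V := by simpa using add_mem ((V.valuation_le_one_iff _).1 h.le) (h0 c)
  have h2 : ∀ g : Polynomial ℂ, V.valuation (Polynomial.aeval τ g) ≤ 1 := fun g => by
    rw [V.valuation_le_one_iff, Polynomial.aeval_eq_sum_range]
    exact sum_mem fun i _ => Algebra.smul_def (g.coeff i) (τ ^ i) ▸ mul_mem (h0 _) (pow_mem h1 _)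
  refine ⟨h2 g, fun hg => ?_⟩
  rw [← Polynomial.modByMonic_add_div g (Polynomial.X - Polynomial.C c),
    Polynomial.modByMonic_X_sub_C_eq_C_eval, map_add, Polynomial.aeval_C, map_mul, map_sub,
    Polynomial.aeval_X, Polynomial.aeval_C, Valuation.map_add_eq_of_lt_left, hV _ hg]
  rw [hV _ hg, map_mul]
  exact mul_lt_one_of_nonneg_of_lt_one_left zero_le h (h2 _)

theorem deg_hyp [Finite ι] [Finite κ] (hf : IsMor z f) {x : ι → RatFunc ℂ} (hx : IsPt z x)
    {y : κ → Polynomial ℂ} {c₀ : RatFunc ℂ}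
    (h : Img z f x fun j => c₀ * Polynomial.aeval RatFunc.X (y j)) {n : ℕ}
    (h1 : ∀ j, (y j).natDegree ≤ n) (h2 : ∃ j, (y j).coeff n ≠ 0)
    (h3 : ∀ t, ∃ j, (y j).eval t ≠ 0) : deg z (hyp z f) x = n := by
  have : Fact (IsFF ℂ (RatFunc ℂ)) := ⟨isFF_rat ℂ⟩
  have h4 := fun P => ctr_cen P hx.1
  choose i h5 h6 h7 using fun P => hf.hyp (hx.trans (h4 P).pt)
  obtain ⟨h0, c, h8⟩ := id h
  beta_reduce at h8
  have h9' : ∀ P, c₀ * Polynomial.aeval RatFunc.X (y (i P)) ≠ (0 : RatFunc ℂ) := fun P h9 => by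
    obtain ⟨j, hj⟩ := Function.ne_iff.1 h0
    obtain ⟨b, h10⟩ := (h6 P j).gen (h4 P).pt
    have h11 := (h8 (i P)).mul h10
    rw [mul_assoc, mul_div_cancel₀ _ (h5 P), h9, zero_mul] at h11
    exact hj ((h8 j).unique hx h11)
  have h9 := fun P => right_ne_zero_of_mul (h9' P)
  have hc : c₀ ≠ 0 := fun h => h0 (by simp [h]; rfl)
  have h10 : ∀ (P : Place (RatFunc ℂ)) j, P.1.valuation (Polynomial.aeval RatFunc.X (y j)) ≤
      P.1.valuation (Polynomial.aeval RatFunc.X (y (i P))) := fun P j => by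
    obtain ⟨b, h10⟩ := h6 P j
    obtain ⟨b', h11, h12⟩ := h10.gen (h4 P).pt
    have h13 := (P.1.valuation_le_one_iff _).2 ((h4 P).val h12).1
    rwa [h11.unique hx (h.ratio hx (h9' P) j), mul_div_mul_left _ _ hc, map_div₀,
      div_le_one₀ ((Valuation.pos_iff _).2 (h9 P))] at h13
  rw [(deg_spec hf.div hx (φ₀ := c) (fun P => by
    have h11 := (h8 (i P)).inv hx (h9' P)
    rwa [mul_inv_rev, ← div_eq_mul_inv, ← h7] at h11) fun P => inv_ne_zero (h9' P)).2]
  have h11 := dg_dvInf (K := ℂ) (RatFunc.transcendental_X (K := ℂ))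
  rw [RatFunc.adjoin_X, IntermediateField.finrank_top, ← finsum_dg] at h11
  rw [← mul_one (n : ℤ), ← Nat.cast_one, ← h11, mul_finsum' (fun P : Place (RatFunc ℂ) => dvInf (K := ℂ) (RatFunc.X : RatFunc ℂ) P) _
    (dvInf (K := ℂ) (RatFunc.X : RatFunc ℂ)).hasFiniteSupport, ← zero_add (∑ᶠ P, (n : ℤ) * _),
    ← sum_ord (inv_ne_zero hc), ← finsum_add_distrib (ord_fin (inv_ne_zero hc))
      ((dvInf (K := ℂ) (RatFunc.X : RatFunc ℂ)).hasFiniteSupport.subset
        fun _ h => right_ne_zero_of_mul h)]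
  refine finsum_congr fun P => ?_
  rw [mul_inv, ord_mul P (inv_ne_zero hc) (inv_ne_zero (h9 P)), add_right_inj]
  have h12 := (FFA_triv (K := ℂ) P).eq_one
  rw [dvInf_apply RatFunc.X_ne_zero, ← ord_eq P RatFunc.X_ne_zero, ← zpow_neg_one,
    ord_zpow P (h9 P)]
  by_cases h13 : RatFunc.X ∈ P.1
  · obtain ⟨t, ht⟩ := FFA_res (isFF_rat ℂ) P h13
    obtain ⟨j, hj⟩ := h3 t
    rw [ord_unit P (le_antisymm (poly_val h12 ht _).1
      (((poly_val h12 ht _).2 hj).ge.trans (h10 P j))), max_eq_right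
        (neg_nonpos.2 (ord_nonneg P RatFunc.X_ne_zero h13))]
    simp
  · have h14 : P.1.valuation (RatFunc.X⁻¹ - algebraMap ℂ (RatFunc ℂ) 0) < 1 := by
      rw [map_zero, sub_zero, map_inv₀]
      exact inv_lt_one_of_one_lt₀ (not_le.1 fun h => h13 ((P.1.valuation_le_one_iff _).1 h))
    let _ := invertibleOfNonzero (RatFunc.X_ne_zero (K := ℂ))
    have h15 := fun j => Polynomial.eval₂_reflect_mul_pow (algebraMap ℂ (RatFunc ℂ)) RatFunc.X n _
      (h1 j)
    simp only [invOf_eq_inv, ← Polynomial.aeval_def] at h15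
    obtain ⟨j, hj⟩ := h2
    have h16 := h10 P j
    rw [← h15, ← h15, map_mul, map_mul, (poly_val h12 h14 _).2
      (by simpa [← Polynomial.coeff_zero_eq_eval_zero] using hj)] at h16
    have h17 := ord_nonneg P (inv_ne_zero RatFunc.X_ne_zero) ((P.1.valuation_le_one_iff _).1
      (by simpa using h14.le))
    rw [← zpow_neg_one, ord_zpow P RatFunc.X_ne_zero] at h17
    rw [ord_congr P (h9 P) (b := RatFunc.X ^ (n : ℤ)) (le_antisymm (by
      rw [← h15, map_mul, zpow_natCast]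
      exact mul_le_of_le_one_left zero_le (poly_val h12 h14 _).1)
      (by rw [← h15, map_mul, zpow_natCast]; exact (one_mul _).ge.trans h16)),
      ord_zpow P RatFunc.X_ne_zero, max_eq_left (by omega)]
    ring

theorem form_eq {Ω : Type} [Field Ω] {e : ℕ} (ξ : ι × Fin (e + 1) → Ω) :
    form (fun c => RatFunc.C (ξ c)) 1 RatFunc.X =
      fun i => Polynomial.aeval RatFunc.X (gp 1 ξ 0 i) := by
  funext i
  simp [form, gp]

theorem lift_curve [Fintype ι] [Fintype κ] (hf : IsMor z f) {e e' : ℕ}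
    {S : Set (κ × Fin (e + 1) → ℂ)} (hS : ∀ a ∈ S, ∃ b ∈ MorSet z e', ∀ s t : ℂ, (s, t) ≠ (0, 0) →
      Img z f (form b s t) (form a s t)) (hp : (vanishingIdeal ℂ S).IsPrime) :
    ∃ (Ω : Type) (_ : Field Ω) (_ : Algebra ℂ Ω) (_ : IsAlgClosed Ω) (ξ : κ × Fin (e + 1) → Ω)
      (x : ι → RatFunc Ω) (y : κ → RatFunc Ω), Pt2_id ℂ ξ = vanishingIdeal ℂ S ∧ IsPt z x ∧
      Img z f x y ∧ ∀ j l, y j * Polynomial.aeval RatFunc.X (gp 1 ξ 0 l) =
        y l * Polynomial.aeval RatFunc.X (gp 1 ξ 0 j) := by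
  let J := (κ × Fin (e + 1)) ⊕ (ι × Fin (e' + 1)) ⊕ ι × Fin (e' + 1)
  let Z : Set (J → ℂ) := {c | c ∘ .inl ∈ S ∧ c ∘ .inr ∘ .inl ∈ MorSet z e' ∧ (∀ t : ℂ,
    Img z f (form (c ∘ .inr ∘ .inl) 1 t) (form (c ∘ .inl) 1 t)) ∧
      ∑ i, c (.inr (.inl i)) * c (.inr (.inr i)) = 1}
  have h1 : ∀ g, rename (Sum.inl : _ → J) g ∈ vanishingIdeal ℂ Z ↔ g ∈ vanishingIdeal ℂ S := by
    refine fun g => ⟨fun h a ha => ?_, fun h c hc => (aeval_rename _ _ _).trans (h _ hc.1)⟩
    obtain ⟨b, h1, h2⟩ := hS a ha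
    obtain ⟨i, hi⟩ : ∃ i, b i ≠ 0 := Function.ne_iff.1 fun h0 =>
      (h1 1 0 (by simp)).1 (funext fun i => by simp [form, h0])
    classical
    have h3 := h (Sum.elim a (Sum.elim b (Pi.single i (b i)⁻¹)))
      ⟨ha, h1, fun t => h2 1 t (by simp), by simp [Pi.single_apply, hi]⟩
    rwa [aeval_rename] at h3
  obtain ⟨𝔯, h2, h3, h4⟩ := Ideal.exists_le_prime_disjoint (vanishingIdeal ℂ Z)
    ((vanishingIdeal ℂ S).primeCompl.map (rename (R := ℂ) (Sum.inl : _ → J)))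
    (Set.disjoint_left.2 fun _ h ⟨g, hg, h'⟩ => hg ((h1 g).1 (h' ▸ h)))
  obtain ⟨Ω, _, _, _, ζ, rfl⟩ := Pt2_pt 𝔯
  have h5 : ∀ q : Polynomial (MvPolynomial J ℂ), (∀ c ∈ Z, ∀ t,
      (q.map (S := ℂ) (aeval c : MvPolynomial J ℂ →ₐ[ℂ] ℂ)).eval t = 0) →
      q.map (aeval ζ : MvPolynomial J ℂ →ₐ[ℂ] Ω) = (0 : Polynomial Ω) := fun q h => Polynomial.ext fun n => by
    rw [Polynomial.coeff_map]
    refine h3 (x := q.coeff n) fun c hc => ?_
    have h5 := congrArg (Polynomial.coeff · n)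
      (Polynomial.funext (q := 0) fun t => (h c hc t).trans (Polynomial.eval_zero (x := t)).symm)
    simpa only [Polynomial.coeff_map, Polynomial.coeff_zero, RingHom.coe_coe] using h5
  let u : ι × Fin (e' + 1) → MvPolynomial J ℂ := fun i => X (.inr (.inl i))
  let v : κ × Fin (e + 1) → MvPolynomial J ℂ := fun i => X (.inl i)
  have h6 : ∀ {M : Type} [Field M] [Algebra ℂ M] (c : J → M) (G : MvPolynomial ι ℂ),
      (aeval (gp 1 u 0) G).map (S := M) (aeval c : MvPolynomial J ℂ →ₐ[ℂ] M) =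
        aeval (gp 1 (c ∘ .inr ∘ .inl) 0) G := fun c G => by
    simpa only [map_one, u, aeval_X, Function.comp_def] using gp_map (aeval c) 1 u 0 G
  have h7 : ∀ {M : Type} [Field M] [Algebra ℂ M] (c : J → M) (l : κ),
      (gp 1 v 0 l).map (S := M) (aeval c : MvPolynomial J ℂ →ₐ[ℂ] M) =
        gp 1 (c ∘ .inl) 0 l := fun c l => by
    simpa only [map_one, v, aeval_X, Function.comp_def] using gp_map (aeval c) 1 v 0 (X l)
  let ρ := (Polynomial.aeval (R := Ω) (RatFunc.X : RatFunc Ω)).restrictScalars ℂ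
  have h8 : IsPt z fun i => ρ (gp 1 (ζ ∘ .inr ∘ .inl) 0 i) := by
    refine ⟨fun h => ?_, fun n G hG h => ?_⟩
    · have h8 : aeval ζ (∑ i, X (.inr (.inl i)) * X (.inr (.inr i)) - 1 : MvPolynomial J ℂ) = 0 :=
        h3 fun c hc => by simpa [sub_eq_zero] using hc.2.2.2
      have h9 : ∀ i, ζ (.inr (.inl i)) = 0 := fun i => (coeff_gp (ζ ∘ .inr ∘ .inl) i.1 i.2).symm.trans
        (by rw [transcendental_iff.1 RatFunc.transcendental_X _ (congrFun h i.1)]; rfl)
      simp [h9] at h8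
    · rw [← comp_aeval_apply, ← h6, h5 _ fun c hc t => ?_, map_zero]
      rw [h6, eval_aev]
      simpa only [eval_gp] using (hc.2.1 1 t (by simp)).2 n G hG h
  refine ⟨Ω, inferInstance, inferInstance, inferInstance, ζ ∘ .inl, _, _, Ideal.ext fun g => ?_, h8,
    hf.img h8, fun j l => ?_⟩
  · exact ⟨fun h => of_not_not fun h' => Set.disjoint_left.1 h4
      ((aeval_rename _ _ _).trans h) ⟨g, h', rfl⟩,
      fun h => (aeval_rename _ _ _).symm.trans (h3 ((h1 g).2 h))⟩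
  obtain ⟨-, c, h9⟩ := hf.img h8
  obtain ⟨n, G, H, h10, h11, h12, h13, h14⟩ := h9 j
  obtain ⟨n', G', H', h15, h16, h17, h18, h19⟩ := h9 l
  have h20 := h5 (aeval (gp 1 u 0) (G * H') * gp 1 v 0 l - aeval (gp 1 u 0) (G' * H) *
      gp 1 v 0 j) fun c' hc t => by
    have h20 := hc.2.1 1 t (by simp)
    obtain ⟨i, hi⟩ := h20.ex
    obtain ⟨-, c₁, h21⟩ := hc.2.2.1 t
    have h22 := isHomogeneous_X_pow (R := ℂ) i (n + n')
    have h23 := (Val.hom h20 (h10.mul h16) h22 (by simpa using fun h => absurd h hi)).mul (h21 l)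
    have h24 := (Val.hom h20 (add_comm n' n ▸ h15.mul h11) h22
      (by simpa using fun h => absurd h hi)).mul (h21 j)
    rw [show aeval z (G' * H) / aeval z (X i ^ (n + n') : MvPolynomial ι ℂ) * (c₁ * f j) =
      aeval z (G * H') / aeval z (X i ^ (n + n') : MvPolynomial ι ℂ) * (c₁ * f l) by
        simp only [map_mul, ← h13, ← h18]; ring] at h24
    have h25 := h23.unique h20 h24
    rw [div_mul_eq_mul_div, div_mul_eq_mul_div, div_left_inj' (by simpa using fun h => absurd h hi)]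
      at h25
    simp only [Polynomial.map_sub, Polynomial.map_mul, h6, h7, Polynomial.eval_sub,
      Polynomial.eval_mul, eval_aev, eval_gp]
    exact sub_eq_zero.2 h25
  have h21 := congrArg ρ h20
  simp only [Polynomial.map_sub, Polynomial.map_mul, h6, h7, map_sub, map_mul, map_zero,
    comp_aeval_apply, ← h14, ← h19] at h21
  refine mul_right_cancel₀ (mul_ne_zero h12 h17) (sub_eq_zero.1 (Eq.trans ?_ h21))
  simp only [ρ, AlgHom.restrictScalars_apply]
  ring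

/-- A lift of a generic point along a generically finite map is generic. -/
theorem lift_emb [Fintype ι] [Fintype κ] (hg : Gen z) (ha : Algebra.IsAlgebraic
    (IntermediateField.adjoin ℂ (Set.range fun c : κ × κ => f c.1 / f c.2)) K) (hx : IsPt z x)
    (h : Img z f x y) (hy : IsPt y f) : ∃ χ : K →ₐ[ℂ] L, ∀ φ, Val z x φ (χ φ) := by
  obtain ⟨l, hl⟩ := Function.ne_iff.1 h.1
  have h0 := h.ne hx hl
  obtain ⟨i, hi⟩ := hx.ex
  refine exists_emb hg hx (.of_chart hi (hx.ne' hi) fun G hG => ?_)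
  have h1 : Spc ℂ (ext1 (aeval (fun j => z j / z i) G) fun j => f j / f l)
      (ext1 0 fun j => y j / y l) := Val.spc hx fun o => by
    rcases o with _ | j
    exacts [hG ▸ Val.aev (Val.ratio hx hi) G, h.ratio hx hl j]
  have h2 : IsAlgebraic (Algebra.adjoin ℂ (Set.range fun j => f j / f l))
      (aeval (fun j => z j / z i) G) := by
    refine alg_of_rk_insert (FG.of_finite _).dm_ne_top (le_trans (rk_le_of_alg
      (s := Set.range fun c : κ × κ => f c.1 / f c.2) fun θ _ => ?_) (rk_le_of_mem ?_))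
    · exact IntermediateField.isAlgebraic_adjoin_iff.1 (ha.isAlgebraic θ)
    · rintro _ ⟨c, rfl⟩
      beta_reduce
      rw [← div_div_div_cancel_right₀ h0]
      exact div_mem (IntermediateField.subset_adjoin _ _ ⟨c.1, rfl⟩)
        (IntermediateField.subset_adjoin _ _ ⟨c.2, rfl⟩)
  simpa [ext1] using h1.symm_of_dm (.of_finite _) ((dm_ext1 h2).trans_le
    ((hy.chart h0).dm_le.trans (rk_mono (Set.range_comp_subset_range some
      (ext1 0 fun j => y j / y l))))) (X none) (by simp [ext1])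

end GMC
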