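import Mathlib

/-!
# Normality of smooth domains and the algebraic Hartogs lemma
-/

namespace GMC.Hart

open TensorProduct in
theorem h_etale (P B : Type) [CommRing P] [IsDomain P] [IsIntegrallyClosed P] [CommRing B]
    [Algebra P B] [Algebra.Etale P B] :
    ∃ (T : Type) (_ : CommRing T) (_ : Algebra B T), IsIntegrallyClosedIn B T ∧
      IsSemisimpleRing T := by
  let F := FractionRing P
  refine ⟨B ⊗[P] F, inferInstance, inferInstance, isIntegrallyClosedIn_iff.2 ⟨?_, fun {t} ht => ?_⟩,
    ?_⟩
  · exact Algebra.TensorProduct.includeLeft_injective (S := P) (IsFractionRing.injective P F)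
  · obtain ⟨z, hz⟩ := (TensorProduct.toIntegralClosure_bijective_of_smooth (R := P) (S := B)
      (B := F)).2 ⟨t, ht⟩
    have e : t = Algebra.TensorProduct.map (AlgHom.id B B) (integralClosure P F).val z :=
      (congrArg Subtype.val hz).symm
    rw [e]
    clear e hz
    induction z using TensorProduct.induction_on with
    | zero => exact ⟨0, by rw [map_zero, map_zero]⟩
    | tmul b y =>
      obtain ⟨p, hp⟩ := IsIntegrallyClosed.isIntegral_iff.1 y.2
      refine ⟨p • b, ?_⟩
      change (p • b) ⊗ₜ[P] (1 : F) = b ⊗ₜ y.1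
      rw [← hp, Algebra.algebraMap_eq_smul_one, smul_tmul]
    | add y z hy hz =>
      obtain ⟨a, ha⟩ := hy
      obtain ⟨b, hb⟩ := hz
      exact ⟨a + b, by rw [map_add, map_add, ha, hb]⟩
  · have : Module.Finite F (F ⊗[P] B) := Algebra.FormallyUnramified.finite_of_free _ _
    have : IsArtinianRing (F ⊗[P] B) := IsArtinianRing.of_finite F _
    have : IsReduced (F ⊗[P] B) := Algebra.FormallyUnramified.isReduced_of_field F _
    have := IsArtinianRing.isSemisimpleRing_of_isReduced (F ⊗[P] B)
    exact (Algebra.TensorProduct.comm P F B).toRingEquiv.isSemisimpleRing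

theorem h_idem {B T : Type} [CommRing B] [CommRing T] [Algebra B T] [IsIntegrallyClosedIn B T]
    [IsSemisimpleRing T] (a : B) : ∃ (e : B) (c : T), IsIdempotentElem e ∧ a * e = a ∧
      algebraMap B T e = c * algebraMap B T a := by
  have hi : Function.Injective (algebraMap B T) := (isIntegrallyClosedIn_iff.1 inferInstance).1
  obtain ⟨e, he, h⟩ := IsSemisimpleRing.ideal_eq_span_idempotent (Ideal.span {algebraMap B T a})
  obtain ⟨e, rfl⟩ : ∃ y, algebraMap B T y = e := IsIntegrallyClosedIn.isIntegral_iff.1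
    ⟨Polynomial.X ^ 2 - Polynomial.X, Polynomial.monic_X_pow_sub
      (Polynomial.degree_X_le.trans_lt (by decide)), by
      rw [Polynomial.eval₂_sub, Polynomial.eval₂_X_pow, Polynomial.eval₂_X, sq, he.eq, sub_self]⟩
  obtain ⟨c, hc⟩ := Ideal.mem_span_singleton'.1 (h.ge (Ideal.mem_span_singleton_self _))
  obtain ⟨d, hd⟩ := Ideal.mem_span_singleton'.1 (h.le (Ideal.mem_span_singleton_self _))
  refine ⟨e, c, hi (by rw [map_mul, he.eq]), hi ?_, hc.symm⟩
  rw [map_mul, ← hd, mul_assoc, he.eq]

theorem h_closed {B T : Type} [CommRing B] [IsDomain B] [CommRing T] [Algebra B T]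
    [IsIntegrallyClosedIn B T] [IsSemisimpleRing T] : IsIntegrallyClosed B := by
  have hi : Function.Injective (algebraMap B T) := (isIntegrallyClosedIn_iff.1 inferInstance).1
  have := hi.nontrivial
  let φ : FractionRing B →ₐ[B] T :=
    IsLocalization.liftAlgHom (M := nonZeroDivisors B) (f := Algebra.ofId B T) fun b => by
      obtain ⟨e, c, h1, h2, h3⟩ := h_idem (T := T) b.1
      rcases IsIdempotentElem.iff_eq_zero_or_one.1 h1 with rfl | rfl
      · exact absurd (by rw [← h2, mul_zero]) (nonZeroDivisors.ne_zero b.2)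
      · exact IsUnit.of_mul_eq_one_right c (h3.symm.trans (map_one _))
  exact AlgHom.isIntegrallyClosedIn φ φ.toRingHom.injective inferInstance

theorem h_local (K : Type) {A : Type} [Field K] [CommRing A] [Algebra K A]
    [Algebra.Smooth K A] (m : Ideal A) [m.IsPrime] :
    ∃ f ∉ m, ∃ (T : Type) (_ : CommRing T) (_ : Algebra (Localization.Away f) T),
      IsIntegrallyClosedIn (Localization.Away f) T ∧ IsSemisimpleRing T := by
  obtain ⟨f, hf, n, _, -, _⟩ :=
    Algebra.IsSmoothAt.exists_isStandardEtale_mvPolynomial (R := K) (p := m)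
  exact ⟨f, hf, h_etale (MvPolynomial (Fin n) K) _⟩

theorem smooth_closed (K B : Type) [Field K] [CommRing B] [IsDomain B] [Algebra K B]
    [Algebra.Smooth K B] : IsIntegrallyClosed B := by
  refine IsIntegrallyClosed.of_localization_maximal fun m _ _ => ?_
  obtain ⟨f, hf, T, _, _, _, _⟩ := h_local K m
  have h0 : Submonoid.powers f ≤ nonZeroDivisors B :=
    powers_le_nonZeroDivisors_of_noZeroDivisors fun e => hf (e ▸ m.zero_mem)
  have := IsLocalization.isDomain_localization h0
  have := h_closed (B := Localization.Away f) (T := T)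
  have h1 : Submonoid.powers f ≤ m.primeCompl := Submonoid.powers_le.2 hf
  let _ := IsLocalization.localizationAlgebraOfSubmonoidLe (Localization.Away f)
    (Localization.AtPrime m) _ _ h1
  have := IsLocalization.localization_isScalarTower_of_submonoid_le (Localization.Away f)
    (Localization.AtPrime m) _ _ h1
  have := IsLocalization.isLocalization_of_submonoid_le (Localization.Away f)
    (Localization.AtPrime m) _ _ h1
  refine isIntegrallyClosed_of_isLocalization _
    (m.primeCompl.map (algebraMap B (Localization.Away f))) ?_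
  rintro _ ⟨a, ha, rfl⟩
  exact mem_nonZeroDivisors_of_ne_zero fun e => ha
    ((IsLocalization.injective (Localization.Away f) h0 (e.trans (map_zero _).symm)) ▸ m.zero_mem)

theorem krull {R F : Type} [CommRing R] [IsDomain R] [IsNoetherianRing R] [IsIntegrallyClosed R]
    [Field F] [Algebra R F] [IsFractionRing R F] {h : F} (hh : ∀ a : R, algebraMap R F a ≠ h) :
    ∃ (p : Ideal R) (t : R), p.IsPrime ∧ t ∈ p ∧ t ≠ 0 ∧
      (∀ s ∉ p, ∀ a : R, algebraMap R F a ≠ algebraMap R F s * h) ∧
      ∀ a : R, a ≠ 0 → ∃ (n : ℕ) (s s' : R), s ∉ p ∧ s' ∉ p ∧ s * a = s' * t ^ n := by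
  obtain ⟨a, b, hb0, rfl⟩ := IsFractionRing.div_surjective (A := R) h
  have inj := IsFractionRing.injective R F
  have hb : b ≠ 0 := nonZeroDivisors.ne_zero hb0
  have hb' : algebraMap R F b ≠ 0 := fun e => hb (inj (e.trans (map_zero _).symm))
  have h1 : Ideal.Quotient.mk (Ideal.span {b}) a ≠ 0 := fun h => by
    obtain ⟨c, rfl⟩ := Ideal.mem_span_singleton.mp (Ideal.Quotient.eq_zero_iff_mem.mp h)
    exact hh c (by rw [map_mul]; field_simp)
  obtain ⟨P, hP, hle⟩ := exists_le_isAssociatedPrime_of_isNoetherianRing R _ h1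
  obtain ⟨hP, y, hy⟩ := isAssociatedPrime_iff.mp hP
  obtain ⟨c, rfl⟩ := Ideal.Quotient.mk_surjective y
  have hm : ∀ {a n : R}, n ∈ (⊥ : Submodule R (R ⧸ Ideal.span {b})).colon
      {Ideal.Quotient.mk (Ideal.span {b}) a} ↔ b ∣ n * a := fun {a n} => by
    rw [Submodule.mem_colon_singleton, Submodule.mem_bot, ← Ideal.mem_span_singleton,
      ← Ideal.Quotient.eq_zero_iff_mem]
    rfl
  have hP' : ∀ {n}, n ∈ P ↔ b ∣ n * c := by rw [hy]; exact hm
  have hbP : b ∈ P := hP'.mpr (dvd_mul_right b c)
  have key : ∃ q ∈ P, ∃ d ∉ P, q * c = b * d := by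
    by_contra! h
    have h2 : IsIntegral R (algebraMap R F c / algebraMap R F b) :=
      isIntegral_of_smul_mem_submodule (M := F) (Submodule.map (Algebra.linearMap R F) P)
        ((Submodule.ne_bot_iff _).mpr ⟨_, Submodule.mem_map_of_mem hbP, hb'⟩)
        ((IsNoetherian.noetherian P).map _) _ (by
          rintro _ ⟨q, hq, rfl⟩
          obtain ⟨d, hd⟩ := hP'.mp hq
          refine ⟨d, by_contra fun h3 => h q hq d h3 hd, ?_⟩
          change algebraMap R F d = algebraMap R F c / algebraMap R F b * algebraMap R F q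
          rw [div_mul_eq_mul_div, eq_div_iff hb', ← map_mul, ← map_mul, mul_comm c, hd, mul_comm])
    obtain ⟨d, hd⟩ := IsIntegrallyClosed.isIntegral_iff.mp h2
    refine hP.ne_top ((Ideal.eq_top_iff_one _).mpr (hP'.mpr ⟨d, inj ?_⟩))
    rw [one_mul, map_mul, hd]
    field_simp
  obtain ⟨t, ht, d, hd, e⟩ := key
  have h3 : ∀ q ∈ P, ∃ d', q * d = t * d' := fun q hq => by
    obtain ⟨d', h⟩ := hP'.mp hq
    exact ⟨d', mul_left_cancel₀ hb (by linear_combination t * h - q * e)⟩
  refine ⟨P, t, hP, ht, ?_, fun s hs a' ha' => hs (hle (hm.mpr ⟨a', inj ?_⟩)), fun x hx => ?_⟩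
  · rintro rfl
    rw [zero_mul, eq_comm, mul_eq_zero] at e
    exact hd ((e.resolve_left hb) ▸ P.zero_mem)
  · rw [map_mul, map_mul, ha']
    field_simp
  · by_contra! hn
    have h4 : ∀ n : ℕ, ∃ s ∉ P, ∃ y, s * x = y * t ^ n := by
      intro n
      induction n with
      | zero => exact ⟨1, (Ideal.ne_top_iff_one _).1 hP.ne_top, x, by ring⟩
      | succ n ih =>
        obtain ⟨s, hs, y, hy⟩ := ih
        obtain ⟨d', hd'⟩ := h3 y (by_contra fun h5 => hn n s y hs h5 hy)
        exact ⟨s * d, fun h5 => (hP.mem_or_mem h5).elim hs hd, d',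
          by linear_combination d * hy + t ^ n * hd'⟩
    have h5 : ¬ IsUnit (algebraMap R (Localization.AtPrime P) t) := fun h5 =>
      (IsLocalization.AtPrime.isUnit_to_map_iff _ P t).1 h5 ht
    have h6 : algebraMap R (Localization.AtPrime P) x ≠ 0 := fun h6 =>
      hx (IsLocalization.injective (Localization.AtPrime P) P.primeCompl_le_nonZeroDivisors
        (h6.trans (map_zero _).symm))
    have := IsLocalization.isNoetherianRing P.primeCompl (Localization.AtPrime P) inferInstance
    obtain ⟨n, h7⟩ := FiniteMultiplicity.of_not_isUnit h5 h6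
    obtain ⟨s, hs, y, hy⟩ := h4 (n + 1)
    refine h7 (((IsLocalization.AtPrime.isUnit_to_map_iff _ P s).2 hs).dvd_mul_left.1 ?_)
    rw [← map_mul, hy, map_mul, map_pow]
    exact dvd_mul_left _ _

end GMC.Hart
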