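import Pool.Agent.Work.MP_64a944_ag.N3
import Pool.Agent.Work.MP_64a944_ag.N4

/-!
# Valuation rings centred at prime divisors of affine space
-/

namespace GMC

open MvPolynomial PR0 PR0.Z GM

variable {K L : Type} [Field K] [Field L] [Algebra ℂ K] [Algebra ℂ L] {ι σ τ : Type}
  {V V' : ValuationSubring K} {y : σ → K} {w : τ → K} {a b x : K} {q q' G : MvPolynomial σ ℂ}

omit [Algebra ℂ K] in
theorem val_one (h0 : x ≠ 0) (h : x ∈ V) (h' : x⁻¹ ∈ V) : V.valuation x = 1 :=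
  le_antisymm ((V.valuation_le_one_iff _).2 h) (by
    have h1 := (V.valuation_le_one_iff _).2 h'
    rwa [map_inv₀, inv_le_one₀ ((Valuation.pos_iff _).2 h0)] at h1)

omit [Algebra ℂ K] in
theorem mem_of_mul (hb : V.valuation b = 1) (h : x * b ∈ V) : x ∈ V := by
  rwa [← V.valuation_le_one_iff, map_mul, hb, mul_one, V.valuation_le_one_iff] at h

omit [Algebra ℂ K] in
theorem val_eq (h : x ∈ V) (h' : ¬ V.valuation x < 1) : V.valuation x = 1 :=
  le_antisymm ((V.valuation_le_one_iff _).2 h) (not_lt.1 h')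

omit [Algebra ℂ K] in
theorem val_mul_lt (ha : V.valuation a < 1) (hb : b ∈ V) : V.valuation (a * b) < 1 :=
  map_mul V.valuation a b ▸
    mul_lt_one_of_nonneg_of_lt_one_left zero_le ha ((V.valuation_le_one_iff _).2 hb)

theorem val_const (hV : ∀ c : ℂ, algebraMap ℂ K c ∈ V) {c : ℂ} (hc : c ≠ 0) :
    V.valuation (algebraMap ℂ K c) = 1 :=
  val_one ((map_ne_zero _).2 hc) (hV c) (map_inv₀ (algebraMap ℂ K) c ▸ hV _)

omit [Algebra ℂ K] in
theorem hartogs {R : Type} [CommRing R] [IsDomain R] [IsNoetherianRing R] [IsIntegrallyClosed R]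
    [Algebra R K] [IsFractionRing R K] (M : Submonoid R) (hM : M ≤ nonZeroDivisors R) {e : K}
    (he : ∀ s ∈ M, ∀ a : R, algebraMap R K a ≠ algebraMap R K s * e) :
    ∃ V : ValuationSubring K, e ∉ V ∧ (∀ a : R, algebraMap R K a ∈ V) ∧
      (∀ s ∈ M, V.valuation (algebraMap R K s) = 1) ∧ ∀ x ∈ V, ∃ a s : R,
        V.valuation (algebraMap R K s) = 1 ∧ x * algebraMap R K s = algebraMap R K a := by
  let B := Localization.subalgebra.ofField K M hM
  have := IsLocalization.isNoetherianRing M B inferInstance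
  have := isIntegrallyClosed_of_isLocalization B M hM
  have h0 : ∀ s ∈ M, algebraMap R K s ≠ 0 := fun s hs =>
    (map_ne_zero_iff _ (IsFractionRing.injective R K)).2 (nonZeroDivisors.ne_zero (hM hs))
  obtain ⟨P, t, hP, h1, h2, h3, h4⟩ := Hart.krull (R := B) (F := K) (h := e) fun a h => by
    obtain ⟨a, s, hs, h5⟩ := a.2
    exact he s hs a (by rw [← h, show algebraMap B K _ = _ from h5, mul_comm,
      inv_mul_cancel_right₀ (h0 s hs)])
  have h5 : (1 : B) ∉ P := (Ideal.ne_top_iff_one _).1 hP.ne_top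
  have h6 : ∀ {s s' : B}, s ∉ P → s' ∉ P → s * s' ∉ P := fun h h' h7 => (hP.mem_or_mem h7).elim h h'
  have h7 : ∀ {x : K} {a b s s' u u' : B} {m n : ℕ}, x * b = a → s * a = s' * t ^ (m + n) →
      u * b = u' * t ^ m → x * (s * u' : B) = (u * s' * t ^ n : B) := by
    intro x a b s s' u u' m n h7 h8 h9
    have h10 := congrArg Subtype.val h8
    have h11 := congrArg Subtype.val h9
    push_cast at h10 h11 ⊢
    refine mul_right_cancel₀ (pow_ne_zero m fun h => h2 (Subtype.ext h)) ?_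
    linear_combination (u : K) * h10 - x * s * h11 + (s * u : K) * h7
  let V : ValuationSubring K :=
    { carrier := {x | ∃ s ∉ P, ∃ a : B, x * s = a}
      mul_mem' := fun ⟨s, hs, a, h⟩ ⟨s', hs', a', h'⟩ =>
        ⟨_, h6 hs hs', a * a', by push_cast; rw [← h, ← h']; ring⟩
      one_mem' := ⟨1, h5, 1, one_mul _⟩
      add_mem' := fun ⟨s, hs, a, h⟩ ⟨s', hs', a', h'⟩ =>
        ⟨_, h6 hs hs', a * s' + a' * s, by push_cast; rw [← h, ← h']; ring⟩
      zero_mem' := ⟨1, h5, 0, zero_mul _⟩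
      neg_mem' := fun ⟨s, hs, a, h⟩ => ⟨s, hs, -a, by push_cast; rw [← h]; ring⟩
      mem_or_inv_mem' := fun x => by
        obtain ⟨a, b, hb, rfl⟩ := IsFractionRing.div_surjective (A := B) x
        by_cases ha : a = 0
        · exact .inl ⟨1, h5, 0, by simp [ha]⟩
        obtain ⟨n, s, s', h8, h9, h10⟩ := h4 a ha
        obtain ⟨m, u, u', h11, h12, h13⟩ := h4 b (nonZeroDivisors.ne_zero hb)
        rcases le_total m n with h | h <;> obtain ⟨k, rfl⟩ := Nat.exists_eq_add_of_le h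
        · exact .inl ⟨_, h6 h8 h12, _, h7 (div_mul_cancel₀ _ fun h =>
            nonZeroDivisors.ne_zero hb (Subtype.ext h)) h10 h13⟩
        · exact .inr ⟨_, h6 h11 h9, _, h7 (by
            rw [inv_div]; exact div_mul_cancel₀ _ fun h => ha (Subtype.ext h)) h13 h10⟩ }
  have h8 : ∀ s : B, s ∉ P → V.valuation s = 1 := fun s hs =>
    have h8 : (s : K) ≠ 0 := fun h => hs ((Subtype.ext h : s = 0) ▸ P.zero_mem)
    val_one h8 ⟨1, h5, s, mul_one _⟩ ⟨s, hs, 1, inv_mul_cancel₀ h8⟩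
  have h9 : ∀ s ∈ M, V.valuation (algebraMap R K s) = 1 := fun s hs =>
    h8 (algebraMap R B s) fun h => hP.ne_top
      (P.eq_top_of_isUnit_mem h (IsLocalization.map_units B ⟨s, hs⟩))
  refine ⟨V, fun ⟨s, hs, a, h⟩ => h3 s hs a (h.symm.trans (mul_comm _ _)),
    fun a => ⟨1, h5, algebraMap R B a, mul_one _⟩, h9, fun x ⟨s, hs, a, h⟩ => ?_⟩
  obtain ⟨a₀, m, hm, h10⟩ := a.2
  obtain ⟨s₀, m', hm', h11⟩ := s.2
  have h12 := h8 s hs
  rw [h11, map_mul, map_inv₀, h9 _ hm', inv_one, mul_one] at h12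
  refine ⟨a₀ * m', s₀ * m, by rw [map_mul, map_mul, h12, h9 _ hm, one_mul], ?_⟩
  rw [h10, h11] at h
  have h13 := h0 _ hm
  have h14 := h0 _ hm'
  rw [map_mul, map_mul]
  field_simp at h
  linear_combination h

/-- The local ring of affine space at the centre of `V`. -/
def Lc (V : ValuationSubring K) (y : σ → K) (x : K) : Prop :=
  ∃ A B : MvPolynomial σ ℂ, V.valuation (aeval y B) = 1 ∧ x * aeval y B = aeval y A

theorem Lc.poly (G : MvPolynomial σ ℂ) : Lc V y (aeval y G) := ⟨G, 1, by simp, by simp⟩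

theorem Lc.self (i : σ) : Lc V y (y i) := by simpa using Lc.poly (V := V) (y := y) (X i)

theorem Lc.const (c : ℂ) : Lc V y (algebraMap ℂ K c) := by
  simpa using Lc.poly (V := V) (y := y) (C c)

theorem Lc.add (h : Lc V y a) (h' : Lc V y b) : Lc V y (a + b) := by
  obtain ⟨A, B, h1, h2⟩ := h
  obtain ⟨A', B', h3, h4⟩ := h'
  exact ⟨A * B' + A' * B, B * B', by simp [h1, h3], by simp only [map_add, map_mul, ← h2, ← h4]; ring⟩

theorem Lc.mul (h : Lc V y a) (h' : Lc V y b) : Lc V y (a * b) := by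
  obtain ⟨A, B, h1, h2⟩ := h
  obtain ⟨A', B', h3, h4⟩ := h'
  exact ⟨A * A', B * B', by simp [h1, h3], by simp only [map_mul, ← h2, ← h4]; ring⟩

theorem Lc.div (h : Lc V y a) (h' : Lc V y b) (hb : V.valuation b = 1) : Lc V y (a / b) := by
  obtain ⟨A, B, h1, h2⟩ := h'
  have h0 : b ≠ 0 := fun h0 => by simp [h0] at hb
  exact div_eq_mul_inv a b ▸ h.mul ⟨B, A, by rw [← h2, map_mul, h1, hb, one_mul],
    by rw [← h2, inv_mul_cancel_left₀ h0]⟩

theorem Lc.aev (h : ∀ j, Lc V y (w j)) (G : MvPolynomial τ ℂ) : Lc V y (aeval w G) := by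
  induction G using MvPolynomial.induction_on with
  | C c => simpa using Lc.const c
  | add p q hp hq => simpa only [map_add] using hp.add hq
  | mul_X p i hp => simpa only [map_mul, aeval_X] using hp.mul (h i)

theorem Lc.trans (h : ∀ j, Lc V y (w j)) (hx : Lc V w x) : Lc V y x := by
  obtain ⟨A, B, h1, h2⟩ := hx
  rw [eq_div_of_mul_eq (fun h0 => by simp [h0] at h1) h2]
  exact (Lc.aev h A).div (Lc.aev h B) h1

/-- The centre of `V` has codimension at most one. -/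
def Big (V : ValuationSubring K) (y : σ → K) (n : ℕ) : Prop :=
  ∃ (τ : Type) (_ : Finite τ) (u : τ → K), n ≤ Nat.card τ + 1 ∧ (∀ i, Lc V y (u i)) ∧
    ∀ G : MvPolynomial τ ℂ, G ≠ 0 → V.valuation (aeval u G) = 1

theorem Big.trans {n : ℕ} (h : ∀ j, Lc V y (w j)) (hb : Big V w n) : Big V y n :=
  let ⟨τ, h1, u, h2, h3, h4⟩ := hb
  ⟨τ, h1, u, h2, fun i => Lc.trans h (h3 i), h4⟩

theorem ideal_bot {P : Ideal (MvPolynomial σ ℂ)} (hP : P ≠ ⊤)
    (h : ∀ f ∈ P, ∀ i, pderiv i f ∈ P) : P = ⊥ := by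
  have h1 : ∀ (n : ℕ), ∀ f ∈ P, (∀ μ : σ →₀ ℕ, n ≤ μ.degree → coeff μ f = 0) → f = 0 := by
    intro n
    induction n with
    | zero => exact fun f _ h1 => MvPolynomial.ext _ _ fun μ => h1 μ zero_le
    | succ n ih =>
      intro f hf h1
      have h2 : f = C (coeff 0 f) := MvPolynomial.ext _ _ fun μ => by
        classical
        rw [coeff_C]
        split_ifs with h2
        · rw [h2]
        obtain ⟨i, hi⟩ := Finsupp.ne_iff.1 (Ne.symm h2)
        have h3 := congrArg (coeff (μ - Finsupp.single i 1)) (ih _ (h f hf i) fun m hm => by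
          rw [coeff_pderiv, h1 _ (by simpa using hm), zero_mul])
        rw [coeff_pderiv, Finsupp.sub_add_single_one_cancel hi] at h3
        exact (mul_eq_zero.1 h3).resolve_right (Nat.cast_add_one_ne_zero _)
      by_contra h3
      exact hP (P.eq_top_of_isUnit_mem hf (h2 ▸ (IsUnit.mk0 _ fun h4 =>
        h3 (by rw [h2, h4, C_0])).map C))
  exact eq_bot_iff.2 fun f hf => h1 (f.totalDegree + 1) f hf fun μ hμ =>
    coeff_eq_zero_of_totalDegree_lt hμ

/-- The centre as an ideal. -/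
def cid (hV : ∀ c : ℂ, algebraMap ℂ K c ∈ V) (hy : ∀ i, y i ∈ V) : Ideal (MvPolynomial σ ℂ) where
  carrier := {G | V.valuation (aeval y G) < 1}
  add_mem' ha hb := by simpa only [Set.mem_ofPred_eq, map_add] using Valuation.map_add_lt _ ha hb
  zero_mem' := by simp
  smul_mem' c f hf := by
    simpa only [Set.mem_ofPred_eq, smul_eq_mul, map_mul (aeval y), mul_comm]
      using val_mul_lt hf (aev_mem hV hy c)

theorem der_pd [Fintype σ] [DecidableEq σ] {D : Derivation ℂ K K} {i : σ}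
    (h : ∀ j, D (y j) = if i = j then 1 else 0) (G : MvPolynomial σ ℂ) :
    D (aeval y G) = aeval y (pderiv i G) := by
  simp [der_aeval, h]

theorem big_of_der [Fintype σ] [DecidableEq σ] (hV : ∀ c : ℂ, algebraMap ℂ K c ∈ V)
    (hy : ∀ i, y i ∈ V) {δ : σ → Derivation ℂ K K} (hδ : ∀ i j, δ i (y j) = if i = j then 1 else 0)
    (hp : ∀ i, ∀ x ∈ V, δ i x ∈ V) : Big V y (Nat.card σ) := by
  have h0 : ∀ {τ : Type} {u : τ → K} (hu : ∀ i, u i ∈ V), (∀ f ∈ cid hV hu, ∀ i,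
      pderiv i f ∈ cid hV hu) → ∀ G, G ≠ 0 → V.valuation (aeval u G) = 1 := fun hu h G hG =>
    val_eq (aev_mem hV hu G) fun h1 => hG ((ideal_bot ((Ideal.ne_top_iff_one _).2 fun h => by
      simp [cid] at h) h).le h1)
  by_cases h1 : ∀ f ∈ cid hV hy, ∀ i, pderiv i f ∈ cid hV hy
  · exact ⟨σ, inferInstance, y, Nat.le_succ _, Lc.self, h0 hy h1⟩
  push Not at h1
  obtain ⟨f, h1, i, h2⟩ := h1
  have h3 := val_eq (aev_mem hV hy _) h2
  rw [← der_pd (hδ i)] at h3
  have h4 : aeval y f ≠ 0 := fun h => by simp [h] at h3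
  have h5 : ∀ x, V.valuation x < 1 → x / aeval y f ∈ V := fun x hx =>
    (V.mem_or_inv_mem _).elim id fun h5 => of_not_not fun h6 => by
      have h7 : x ≠ 0 := fun h => h6 (by simp [h])
      have h8 : V.valuation (x / aeval y f)⁻¹ < 1 := lt_of_not_ge fun h => h6
        ((V.valuation_le_one_iff _).1 (by rwa [map_inv₀, one_le_inv₀
          ((Valuation.pos_iff _).2 (div_ne_zero h7 h4))] at h))
      have h9 := Valuation.map_add_lt _ (val_mul_lt hx (hp i _ h5))
        (val_mul_lt h8 (hp i _ ((V.valuation_le_one_iff _).1 hx.le)))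
      rw [← smul_eq_mul, ← smul_eq_mul _ (δ i x), ← Derivation.leibniz, inv_div,
        mul_div_cancel₀ _ h7, h3] at h9
      exact lt_irrefl _ h9
  refine ⟨{l // l ≠ i}, inferInstance, fun l => y l, by simp; omega, fun l => Lc.self _,
    h0 (fun l => hy l) fun G hG l => ?_⟩
  let D : Derivation ℂ K K := δ l - (δ l (aeval y f) / δ i (aeval y f)) • δ i
  have h6 : ∀ x ∈ V, D x ∈ V := fun x hx => sub_mem (hp l x hx) (mul_mem (mem_of_mul h3 (by
    rw [div_mul_cancel₀ _ fun h => by simp [h] at h3]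
    exact hp l _ (aev_mem hV hy f))) (hp i x hx))
  have h7 : D (aeval y f) = 0 := by
    simp only [D, Derivation.sub_apply, Derivation.smul_apply, smul_eq_mul]
    rw [div_mul_cancel₀ _ fun h => by simp [h] at h3, sub_self]
  have h8 := val_mul_lt h1 (h6 _ (h5 _ hG))
  rw [← add_zero (_ * _), ← smul_zero (aeval (fun l : {l // l ≠ i} => y l) G / aeval y f), ← h7,
    ← smul_eq_mul, ← Derivation.leibniz, mul_div_cancel₀ _ h4,
    der_pd (i := l) fun j => by simp [D, hδ, j.2.symm, Subtype.ext_iff]] at h8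
  exact h8

/-- A system of coordinates of the field. -/
def Co (y : σ → K) : Prop :=
  AlgebraicIndependent ℂ y ∧ IntermediateField.adjoin ℂ (Set.range y) = ⊤

theorem Co.frac (hy : Co y) (x : K) : ∃ A B : MvPolynomial σ ℂ, IsRelPrime A B ∧ B ≠ 0 ∧
    x * aeval y B = aeval y A := by
  obtain ⟨A, B, h⟩ := (IntermediateField.mem_adjoin_range_iff _ _ _).1
    (hy.2 ▸ trivial : x ∈ IntermediateField.adjoin ℂ (Set.range y))
  by_cases h1 : B = 0
  · exact ⟨0, 1, isRelPrime_one_right, one_ne_zero, by simp [h, h1]⟩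
  obtain ⟨A', B', c, h2, rfl, rfl⟩ := UniqueFactorizationMonoid.exists_reduced_factors' A B h1
  have h3 := (map_ne_zero_iff _ hy.1).2 h1
  rw [map_mul, mul_ne_zero_iff] at h3
  refine ⟨A', B', h2, right_ne_zero_of_mul h1, ?_⟩
  rw [h, map_mul, map_mul, mul_div_mul_left _ _ h3.1, div_mul_cancel₀ _ h3.2]

/-- `V` is centred at the prime divisor `q = 0`. -/
structure Pr (V : ValuationSubring K) (y : σ → K) (q : MvPolynomial σ ℂ) : Prop where
  const : ∀ c : ℂ, algebraMap ℂ K c ∈ V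
  mem : ∀ i, y i ∈ V
  prime : Prime q
  lt : ∀ G, V.valuation (aeval y G) < 1 ↔ q ∣ G

theorem Pr.one (h : Pr V y q) (hG : ¬ q ∣ G) : V.valuation (aeval y G) = 1 :=
  val_eq (aev_mem h.const h.mem G) fun h' => hG ((h.lt G).1 h')

theorem exists_pr [Finite σ] (hy : Co y) (h0 : V ≠ ⊤) (hV : ∀ c : ℂ, algebraMap ℂ K c ∈ V)
    (hm : ∀ i, y i ∈ V) (hb : Big V y (Nat.card σ)) : ∃ q, Pr V y q := by
  obtain ⟨τ, _, u, h1, h2, h3⟩ := hb
  choose A B h4 h5 using h2
  have h6 : ∀ i, u i ∈ V := fun i => mem_of_mul (h4 i) (h5 i ▸ aev_mem hV hm _)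
  obtain ⟨Ω, _, _, c, hc⟩ := exists_res hV (w := Sum.elim y u) (by rintro (i | i) <;> simp [hm, h6])
  have h7 : ∀ G : MvPolynomial σ ℂ, aeval (c ∘ .inl) G = 0 ↔ V.valuation (aeval y G) < 1 := fun G => by
    rw [← aeval_rename, hc, aeval_rename]
    rfl
  have h8 : (Nat.card τ : ℕ∞) ≤ dm ℂ (c ∘ .inl) := by
    have h8 : AlgebraicIndependent ℂ (c ∘ .inr) := algebraicIndependent_iff.2 fun G hG => by
      rw [← aeval_rename, hc, aeval_rename] at hG
      exact of_not_not fun h => hG.ne (h3 G h)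
    let e := Finite.equivFin τ
    refine (rk_range_of_indep (h8.comp _ e.symm.injective)).ge.trans (rk_le_of_mem ?_)
    rintro _ ⟨i, rfl⟩
    refine (IntermediateField.mem_adjoin_range_iff _ _ _).2 ⟨A (e.symm i), B (e.symm i),
      eq_div_of_mul_eq (fun h => ((h7 _).1 h).ne (h4 _)) (sub_eq_zero.1 ?_)⟩
    have h9 := (hc (X (.inr (e.symm i)) * rename .inl (B (e.symm i)) -
      rename .inl (A (e.symm i)))).2 (by simp [aeval_rename, h5])
    rwa [map_sub, map_mul, aeval_rename, aeval_rename, aeval_X] at h9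
  obtain ⟨G, h9, h10⟩ : ∃ G ∈ Pt2_id ℂ (c ∘ .inl), G ≠ 0 := by
    by_contra! h
    refine h0 (eq_top_iff.2 fun x _ => ?_)
    obtain ⟨A, B, -, h9, h10⟩ := hy.frac x
    exact mem_of_mul (val_eq (aev_mem hV hm B) fun h' => h9 (h B ((h7 B).2 h')))
      (h10 ▸ aev_mem hV hm A)
  obtain ⟨q, h11, h12⟩ := Ideal.IsPrime.exists_mem_prime_of_ne_bot (I := Pt2_id ℂ (c ∘ .inl))
    inferInstance ((Submodule.ne_bot_iff _).2 ⟨G, h9, h10⟩)
  have h13 := (Ideal.span_singleton_prime h12.ne_zero).2 h12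
  have h14 := (Ideal.span_singleton_le_iff_mem _).2 h11
  refine ⟨q, hV, hm, h12, fun G => (h7 G).symm.trans ⟨fun h => Ideal.mem_span_singleton.1
    ((of_not_not fun h15 => ?_ : Pt2_id ℂ (c ∘ .inl) ≤ _) h),
      fun h => h14 (Ideal.mem_span_singleton.2 h)⟩⟩
  have h16 := dI_lt Ideal.isPrime_bot h13 bot_le fun h =>
    h12.ne_zero (h (Ideal.mem_span_singleton_self q))
  have h17 := dI_lt h13 inferInstance h14 h15
  rw [dI_pt] at h17
  rw [dI_bot] at h16
  have h18 := (add_le_add_left ((add_le_add_left h8 1).trans h17) 1).trans h16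
  norm_cast at h18
  omega

theorem Pr.lc (hy : Co y) (h : Pr V y q) (hx : x ∈ V) :
    ∃ A B : MvPolynomial σ ℂ, ¬ q ∣ B ∧ x * aeval y B = aeval y A := by
  obtain ⟨A, B, h1, -, h2⟩ := hy.frac x
  refine ⟨A, B, fun h3 => h.prime.not_isUnit (h1 ((h.lt A).1 ?_) h3), h2⟩
  rw [← h2, mul_comm]
  exact val_mul_lt ((h.lt B).2 h3) hx

theorem Pr.uniq (hy : Co y) (h : Pr V y q) (h' : Pr V' y q) : V = V' := by
  have h1 : ∀ {V V' : ValuationSubring K}, Pr V y q → Pr V' y q → V ≤ V' := fun h h' x hx =>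
    let ⟨A, _, h1, h2⟩ := h.lc hy hx
    mem_of_mul (h'.one h1) (h2 ▸ aev_mem h'.const h'.mem A)
  exact le_antisymm (h1 h h') (h1 h' h)

theorem Pr.of_lt (h : Pr V y q) (hq : Prime q') (h' : V.valuation (aeval y q') < 1) : Pr V y q' :=
  ⟨h.const, h.mem, hq, fun G => (h.lt G).trans
    (h.prime.associated_of_dvd hq ((h.lt _).1 h')).dvd_iff_dvd_left⟩

theorem Pr.var (h : Pr V y q) {i : σ} (h' : V.valuation (y i) < 1) : Pr V y (X i) :=
  h.of_lt X_prime (by simpa using h')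

theorem Pr.two (h : Pr V y q) {i j : σ} (hi : V.valuation (y i) < 1) (hj : j ≠ i) :
    V.valuation (y j) = 1 := by
  simpa using (h.var hi).one (G := X j) fun h' => hj (X_dvd_X.1 h').symm

theorem Pr.val (hy : Co y) (h : Pr V y q) (hx : x ≠ 0) :
    ∃ n : ℤ, V.valuation x = V.valuation (aeval y q) ^ n := by
  have h1 : ∀ G, G ≠ 0 → ∃ n : ℕ, V.valuation (aeval y G) = V.valuation (aeval y q) ^ n :=
    fun G hG => by
      obtain ⟨n, G', h1, rfl⟩ := WfDvdMonoid.max_power_factor hG h.prime.irreducible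
      exact ⟨n, by rw [map_mul, map_mul, h.one h1, mul_one, map_pow, map_pow]⟩
  obtain ⟨A, B, -, h2, h3⟩ := hy.frac x
  have h4 := (map_ne_zero_iff _ hy.1).2 h2
  obtain ⟨m, h5⟩ := h1 A fun h => mul_ne_zero hx h4 (by rw [h3, h, map_zero])
  obtain ⟨n, h6⟩ := h1 B h2
  refine ⟨m - n, ?_⟩
  rw [eq_div_of_mul_eq h4 h3, map_div₀, h5, h6, zpow_sub₀ (by
    simpa using (map_ne_zero_iff _ hy.1).2 h.prime.ne_zero), zpow_natCast, zpow_natCast]

theorem Co.one (hy : Co y) (S : Set (ValuationSubring K)) {D : ValuationSubring K → K}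
    (hD : ∀ V ∈ S, D V ≠ 0) (q : MvPolynomial σ ℂ) : ∃ n : ℤ, ∀ V ∈ S, Pr V y q →
      V.valuation (D V) = V.valuation (aeval y q) ^ n := by
  by_cases h : ∃ V ∈ S, Pr V y q
  · obtain ⟨V, h1, h2⟩ := h
    obtain ⟨n, h3⟩ := h2.val hy (hD V h1)
    exact ⟨n, fun V' _ h4 => h2.uniq hy h4 ▸ h3⟩
  · exact ⟨0, fun V h1 h2 => absurd ⟨V, h1, h2⟩ h⟩

theorem Co.cls (hy : Co y) {S : Set (ValuationSubring K)} (hS : ∀ V ∈ S, ∃ q, Pr V y q)
    (F : MvPolynomial σ ℂ) : F ≠ 0 → ∀ D : ValuationSubring K → K, (∀ V ∈ S, D V ≠ 0) →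
      (∀ V ∈ S, V.valuation (aeval y F) = 1 → V.valuation (D V) = 1) →
        ∃ ψ, ψ ≠ 0 ∧ ∀ V ∈ S, V.valuation (D V) = V.valuation ψ := by
  induction F using UniqueFactorizationMonoid.induction_on_prime with
  | h₁ => exact fun h => absurd rfl h
  | h₂ F hF =>
    exact fun _ D _ h => ⟨1, one_ne_zero, fun V hV => (hS V hV).elim fun q hq => (h V hV
      (hq.one fun h' => hq.prime.not_isUnit (isUnit_of_dvd_unit h' hF))).trans (map_one _).symm⟩
  | h₃ F q hF hq ih =>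
    intro _ D h1 h2
    obtain ⟨n, h3⟩ := hy.one S h1 q
    have h4 := zpow_ne_zero n ((map_ne_zero_iff _ hy.1).2 hq.ne_zero)
    obtain ⟨ψ, h5, h6⟩ := ih hF (fun V => D V / aeval y q ^ n)
      (fun V hV => div_ne_zero (h1 V hV) h4) fun V hV h => by
        obtain ⟨q', h5⟩ := hS V hV
        rw [map_div₀]
        by_cases h6 : V.valuation (aeval y q) < 1
        · rw [h3 V hV (h5.of_lt hq h6), ← map_zpow₀, div_self ((Valuation.ne_zero_iff _).2 h4)]
        · have h7 := val_eq (aev_mem h5.const h5.mem q) h6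
          rw [h2 V hV (by rw [map_mul, map_mul, h, h7, one_mul]), map_zpow₀, h7, one_zpow, div_one]
    exact ⟨ψ * aeval y q ^ n, mul_ne_zero h5 h4, fun V hV => by
      rw [map_mul, ← h6 V hV, ← map_mul, div_mul_cancel₀ _ h4]⟩

end GMC
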