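import Pool.Agent.Work.MP_64a944_ag.N5

/-!
# Hartogs extension on a smooth variety; divisors modulo the support of an effective divisor
-/

namespace GMC

open MvPolynomial PR0 PR0.Z GM

variable {K L : Type} [Field K] [Field L] [Algebra ℂ K] [Algebra ℂ L] {ι σ τ : Type}
  {V : ValuationSubring K} {z : ι → K} {p p' : ι → ℂ} {φ r e : K} {D E R : (ι → ℂ) → K}

/-- `V` is a localisation of the local ring at the closed point `p`. -/
structure LocV (z : ι → K) (V : ValuationSubring K) (p : ι → ℂ) : Prop where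
  pt : IsPt z p
  ne : V ≠ ⊤
  mem : ∀ φ, Reg z p φ → φ ∈ V
  loc : ∀ x ∈ V, ∃ a s, Reg z p a ∧ Reg z p s ∧ V.valuation s = 1 ∧ x * s = a

theorem unit_of_reg (hp : IsPt z p) (h : ∀ φ, Reg z p φ → φ ∈ V) (hφ : IsU z p φ) :
    V.valuation φ = 1 :=
  val_one (hφ.ne hp) (h _ hφ.reg) (h _ (hφ.inv hp).reg)

theorem LocV.const (h : LocV z V p) (c : ℂ) : algebraMap ℂ K c ∈ V := h.mem _ ⟨_, Val.const c⟩

theorem Cen.spc {y : ι → L} (hy : Cen V z y) (hp : IsPt z p) (h : ∀ φ, Reg z p φ → φ ∈ V) :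
    IsPt y p := by
  refine ⟨hp.1, fun n G hG h1 => of_not_not fun h2 => ?_⟩
  obtain ⟨i, hi⟩ := hp.ex
  obtain ⟨j, hj⟩ := hy.pt.ex
  have h3 := unit_of_reg hp h ⟨_, div_ne_zero h2 (by simpa using pow_ne_zero n hi),
    Val.hom hp hG (isHomogeneous_X_pow i n) (by simpa using pow_ne_zero n hi)⟩
  have h4 := (hy.val (Val.hom hy.pt hG (isHomogeneous_X_pow j n)
    (by simpa using pow_ne_zero n hj))).2.1 (by rw [h1, zero_div])
  have h5 := val_mul_lt h4 (pow_mem (h _ ⟨_, Val.ratio hp hi j⟩) n)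
  simp only [map_pow (aeval z), aeval_X] at h3 h5
  rw [div_pow, div_mul_div_cancel₀ (pow_ne_zero n (hy.pt.ne' hj))] at h5
  exact h5.ne h3

theorem LocV.congr [Finite ι] (h : LocV z V p) (h' : LocV z V p') (hD : IsDiv z D) :
    V.valuation (D p) = V.valuation (D p') := by
  obtain ⟨i, hi⟩ := h.pt.ex
  have h0 : z ≠ 0 := Function.ne_iff.2 ⟨i, h.pt.ne' hi⟩
  obtain ⟨Ω, _, _, y, hy⟩ := exists_cen h.const h0
  have h1 := hy.unit (hD.unit hy.pt (hy.spc h.pt h.mem) (hy.spc h'.pt h'.mem))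
  rwa [map_div₀, div_eq_one_iff_eq ((Valuation.ne_zero_iff _).2 (hD.ne h'.pt))] at h1

theorem Gen.chart (hg : Gen z) {i : ι} (hi : z i ≠ 0) :
    IntermediateField.adjoin ℂ (Set.range fun j => z j / z i) = ⊤ := by
  refine eq_top_iff.2 (hg.ge.trans (IntermediateField.adjoin_le_iff.2 ?_))
  rintro _ ⟨c, rfl⟩
  beta_reduce
  rw [← div_div_div_cancel_right₀ hi]
  exact div_mem (IntermediateField.subset_adjoin _ _ ⟨c.1, rfl⟩)
    (IntermediateField.subset_adjoin _ _ ⟨c.2, rfl⟩)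

theorem Reg.chart {p : ι → L} (hp : IsPt z p) {i : ι} (hi : p i ≠ 0) (h : Reg z p φ) :
    ∃ G H : MvPolynomial ι ℂ, IsU z p (aeval (fun j => z j / z i) H) ∧
      φ * aeval (fun j => z j / z i) H = aeval (fun j => z j / z i) G := by
  obtain ⟨a, n, G, H, h1, h2, h3, h4, -⟩ := h
  refine ⟨G, H, ⟨_, ?_, Val.aev (Val.ratio hp hi) H⟩, ?_⟩ <;> simp only [div_eq_inv_mul]
  · rw [aeval_smul' h2]
    exact mul_ne_zero (pow_ne_zero _ (inv_ne_zero hi)) h3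
  · rw [aeval_smul' h1, aeval_smul' h2, ← h4]
    ring

/-- Smoothness. -/
def Sm (z : ι → K) : Prop := ∀ p : ι → ℂ, IsPt z p → ∃ i, p i ≠ 0 ∧
  Algebra.Smooth ℂ (Algebra.adjoin ℂ (Set.range fun j => z j / z i))

theorem hart_pt (hg : Gen z) (hs : Sm z) (hp : IsPt z p) (hr : Reg z p r) (h0 : r ≠ 0)
    (he : ∀ V, LocV z V p → V.valuation r = 1 → e ∈ V) : ∃ j : ℕ, Reg z p (r ^ j * e) := by
  obtain ⟨i, hi, h1⟩ := hs p hp
  let A := Algebra.adjoin ℂ (Set.range fun j => z j / z i)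
  have h2 : ∀ G : MvPolynomial ι ℂ, aeval (fun j => z j / z i) G ∈ A := fun G =>
    (Algebra.adjoin_range_eq_range_aeval ℂ _).ge ⟨G, rfl⟩
  have h3 : ∀ a : A, Reg z p a := fun a => by
    obtain ⟨G, hG⟩ := (Algebra.adjoin_range_eq_range_aeval ℂ _).le a.2
    exact hG ▸ ⟨_, Val.aev (Val.ratio hp hi) G⟩
  have : IsFractionRing A K := IsFractionRing.of_field A K fun x => by
    obtain ⟨G, H, h⟩ := (IntermediateField.mem_adjoin_range_iff _ _ _).1
      ((hg.chart (hp.ne' hi)).ge IntermediateField.mem_top : x ∈ _)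
    exact ⟨⟨_, h2 G⟩, ⟨_, h2 H⟩, h⟩
  have := Hart.smooth_closed ℂ A
  have : IsNoetherianRing A := Algebra.FiniteType.isNoetherianRing ℂ A
  let M : Submonoid A :=
    { carrier := {m | ∃ j : ℕ, IsU z p (m / r ^ j)}
      mul_mem' := fun ⟨j, h⟩ ⟨k, h'⟩ => ⟨j + k, by
        simpa only [pow_add, mul_div_mul_comm, Subalgebra.coe_mul] using h.mul h'⟩
      one_mem' := ⟨0, by simpa using IsU.one⟩ }
  by_contra! h4
  obtain ⟨V, h5, h6, h7, h8⟩ := hartogs (K := K) M (fun m ⟨j, h⟩ => mem_nonZeroDivisors_of_ne_zero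
    fun h' => h.ne hp (by simp [h'])) (e := e) fun m ⟨j, h⟩ a h' => h4 j (by
      have h5 := (h3 a).mul (h.inv hp).reg
      rwa [show (a : K) = m * e from h', inv_div, mul_comm, ← mul_assoc,
        div_mul_cancel₀ _ fun h' => h.ne hp (by simp [h'])] at h5)
  have h9 : ∀ φ, Reg z p φ → φ ∈ V := fun φ h => by
    obtain ⟨G, H, h9, h10⟩ := h.chart hp hi
    exact mem_of_mul (h7 ⟨_, h2 H⟩ ⟨0, by simpa using h9⟩) (h10 ▸ h6 ⟨_, h2 G⟩)
  refine h5 (he V ⟨hp, fun h => h5 (h ▸ trivial), h9, fun x hx => ?_⟩ ?_)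
  · obtain ⟨a, s, h10, h11⟩ := h8 x hx
    exact ⟨a, s, h3 a, h3 s, h10, h11⟩
  · obtain ⟨G, H, h10, h11⟩ := hr.chart hp hi
    have h12 := h7 ⟨_, h2 G⟩ ⟨1, by
      rwa [Subtype.coe_mk, ← h11, pow_one, mul_div_cancel_left₀ _ h0]⟩
    rwa [show algebraMap A K _ = _ from h11.symm, map_mul, unit_of_reg hp h9 h10, mul_one] at h12

theorem hart_div [Finite ι] (hg : Gen z) (hs : Sm z) (hR : IsEff z R) (hE : IsDiv z E)
    (he : ∀ p V, LocV z V p → V.valuation (R p) = 1 → E p ∈ V) :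
    ∃ j : ℕ, IsEff z fun p => R p ^ (j : ℤ) * E p := by
  choose! j hj using fun p hp => hart_pt hg hs hp (hR.2 p hp) (hR.1.ne hp) (he p)
  have h1 : ∀ p, IsPt z p → ∃ H : MvPolynomial ι ℂ, aeval p H ≠ 0 ∧ ∀ q, IsPt z q →
      aeval q H ≠ 0 → Reg z q (R q ^ j p * E q) := fun p hp => by
    obtain ⟨n, H, -, h1, h2⟩ := ((hR.1.zpow (j p)).mul hE) p hp
    obtain ⟨m, G, -, h3, h4⟩ := Reg.nhds (c := fun _ : Unit => _) fun _ => hj p hp
    refine ⟨H * G, by rw [map_mul]; exact mul_ne_zero h1 h3, fun q hq h => ?_⟩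
    rw [map_mul, mul_ne_zero_iff] at h
    have h5 := (h2 q hq h.1).reg.mul (h4 q h.2 ())
    simp only [zpow_natCast] at h5
    rwa [div_mul_cancel₀ _ (mul_ne_zero (pow_ne_zero _ (hR.1.ne hp)) (hE.ne hp))] at h5
  choose! H h1 h2 using h1
  obtain ⟨s, h3, h4⟩ := cover H h1
  refine ⟨s.sup j, (hR.1.zpow _).mul hE, fun q hq => ?_⟩
  obtain ⟨p, h5, h6⟩ := h4 q hq
  obtain ⟨k, hk⟩ := Nat.exists_eq_add_of_le (Finset.le_sup (f := j) h5)
  beta_reduce
  rw [hk, zpow_natCast, add_comm, pow_add, mul_assoc]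
  exact ((hR.2 q hq).pow k).mul (h2 p (h3 p h5) q hq h6)

theorem pic [Finite ι] {ρ₁ ρ₂ : (ι → ℂ) → K} {σ₀ σ₁ σ₂ : Type} {y₀ : σ₀ → K}
    {y₁ : σ₁ → K} {y₂ : σ₂ → K} (h₀ : Co y₀) (h₁ : Co y₁) (h₂ : Co y₂) {i₁ : σ₁} {i₂ : σ₂}
    (h : ∀ p V, LocV z V p → V.valuation (R p) = 1 →
      ((∃ q, Pr V y₀ q) ∧ V.valuation (ρ₁ p) = 1 ∧ V.valuation (ρ₂ p) = 1) ∨
      (Pr V y₁ (X i₁) ∧ V.valuation (ρ₁ p) = V.valuation (y₁ i₁) ∧ V.valuation (ρ₂ p) = 1) ∨
      (Pr V y₂ (X i₂) ∧ V.valuation (ρ₁ p) = 1 ∧ V.valuation (ρ₂ p) = V.valuation (y₂ i₂)))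
    (hD : IsDiv z D) : ∃ (ψ : K) (n₁ n₂ : ℤ), ψ ≠ 0 ∧ ∀ p V, LocV z V p → V.valuation (R p) = 1 →
      V.valuation (D p) = V.valuation (ψ * ρ₁ p ^ n₁ * ρ₂ p ^ n₂) := by
  classical
  obtain ⟨S, hS⟩ : ∃ S : Set (ValuationSubring K), ∀ V, V ∈ S ↔
    ∃ p, LocV z V p ∧ V.valuation (R p) = 1 := ⟨{V | _}, fun _ => Iff.rfl⟩
  choose! π h1 h2 using fun V => (hS V).1
  have h3 : ∀ V ∈ S, D (π V) ≠ 0 := fun V hV => hD.ne (h1 V hV).pt
  obtain ⟨s, h4, h5⟩ := hD.fin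
  choose A B h6 h7 h8 using fun p => h₀.frac (D p)
  have h9 : ∀ p ∈ s, A p * B p ≠ 0 := fun p hp => mul_ne_zero (fun h => mul_ne_zero (hD.ne (h4 p hp))
    ((map_ne_zero_iff _ h₀.1).2 (h7 p)) (by rw [h8, h, map_zero])) (h7 p)
  obtain ⟨ψ, h10, h11⟩ := h₀.cls (S := {V ∈ S | ∃ q, Pr V y₀ q}) (fun V h => h.2)
    (∏ p ∈ s, A p * B p) (Finset.prod_ne_zero_iff.2 h9) (fun V => D (π V)) (fun V h => h3 V h.1)
    fun V ⟨hV, q, hq⟩ h => by
      obtain ⟨p, h10, h11⟩ := h5 _ (h1 V hV).pt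
      have h12 : ¬ q ∣ A p * B p := fun h' =>
        ((hq.lt _).2 (h'.trans (Finset.dvd_prod_of_mem (fun p => A p * B p) h10))).ne h
      have h13 := unit_of_reg (h1 V hV).pt (h1 V hV).mem h11
      have h14 := congrArg V.valuation (h8 p)
      rw [map_mul, hq.one fun h => h12 (h.mul_left _), hq.one fun h => h12 (h.mul_right _),
        mul_one] at h14
      rwa [map_div₀, h14, div_one] at h13
  obtain ⟨n₁, h12⟩ := h₁.one S (D := fun V => D (π V) / ψ) (fun V h => div_ne_zero (h3 V h) h10)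
    (X i₁)
  obtain ⟨n₂, h13⟩ := h₂.one S (D := fun V => D (π V) / ψ) (fun V h => div_ne_zero (h3 V h) h10)
    (X i₂)
  refine ⟨ψ, n₁, n₂, h10, fun p V hV h14 => ?_⟩
  have h15 := (hS V).2 ⟨p, hV, h14⟩
  rw [hV.congr (h1 V h15) hD, map_mul, map_mul, map_zpow₀, map_zpow₀]
  rcases h p V hV h14 with ⟨h16, h17, h18⟩ | ⟨h16, h17, h18⟩ | ⟨h16, h17, h18⟩ <;>
    rw [h17, h18] <;> simp only [one_zpow, mul_one]
  · exact h11 V ⟨h15, h16⟩
  · have h19 := h12 V h15 h16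
    rw [aeval_X] at h19
    rw [← h19, ← map_mul, mul_div_cancel₀ _ h10]
  · have h19 := h13 V h15 h16
    rw [aeval_X] at h19
    rw [← h19, ← map_mul, mul_div_cancel₀ _ h10]

/-! ### Numerical classes -/

variable {X : Var} {D E R : (X.ι → ℂ) → X.K} {γ : Crv X →₀ ℝ} {ν ν' : Crv X → ℝ}

instance (C : Crv X) : Fact (IsFF ℂ C.L) := ⟨C.ff⟩

theorem num_mul (hD : IsDiv X.z D) (hE : IsDiv X.z E) :
    num X (fun p => D p * E p) = num X D + num X E := funext fun C => by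
  simp only [num, Pi.add_apply, deg_mul hD hE C.pt, Int.cast_add]

theorem num_zpow (hD : IsDiv X.z D) (m : ℤ) : num X (fun p => D p ^ m) = (m : ℝ) • num X D :=
  funext fun C => by simp only [num, Pi.smul_apply, deg_zpow hD C.pt, Int.cast_mul, smul_eq_mul]

theorem num_const {φ : X.K} (h : φ ≠ 0) : num X (fun _ => φ) = 0 := funext fun C => by
  simp only [num, deg_unit (IsDiv.const h) C.pt (φ := φ) fun p _ => by simpa [h] using IsU.one,
    Int.cast_zero, Pi.zero_apply]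

theorem dot_add : dot (ν + ν') γ = dot ν γ + dot ν' γ := by
  simp [dot, Finsupp.sum, mul_add, Finset.sum_add_distrib]

theorem dot_smul (c : ℝ) : dot (c • ν) γ = c * dot ν γ := by
  simp [dot, Finsupp.sum, Finset.mul_sum, mul_left_comm]

theorem dot_zero : dot 0 γ = 0 := by simp [dot]

theorem dot_single (C : Crv X) : dot ν (Finsupp.single C 1) = ν C := by simp [dot]

theorem dot_add' {γ' : Crv X →₀ ℝ} : dot ν (γ + γ') = dot ν γ + dot ν γ' :=
  Finsupp.sum_add_index' (by simp) fun _ _ _ => add_mul _ _ _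

theorem dot_congr (hs : X.Smooth) (hR : IsEff X.z R) (hD : IsDiv X.z D) (hE : IsDiv X.z E)
    (h : ∀ p V, LocV X.z V p → V.valuation (R p) = 1 → V.valuation (D p) = V.valuation (E p))
    (hγ : ∀ j : ℕ, ∀ F, IsDiv X.z F → IsEff X.z (fun p => R p ^ (j : ℤ) * F p) →
      0 ≤ dot (num X F) γ) : dot (num X D) γ = dot (num X E) γ := by
  have h1 : ∀ {D E : (X.ι → ℂ) → X.K}, IsDiv X.z D → IsDiv X.z E → (∀ p V, LocV X.z V p →
      V.valuation (R p) = 1 → V.valuation (D p) = V.valuation (E p)) →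
      dot (num X E) γ ≤ dot (num X D) γ := fun hD hE h => by
    have h1 := hD.mul (hE.zpow (-1))
    obtain ⟨j, h2⟩ := hart_div X.gen hs hR h1 fun p V hV h' => (V.valuation_le_one_iff _).1 (by
      rw [map_mul, h p V hV h', ← map_mul, zpow_neg_one, mul_inv_cancel₀ (hE.ne hV.pt), map_one])
    have h3 := hγ j _ h1 h2
    rw [num_mul hD (hE.zpow _), num_zpow hE, dot_add, dot_smul] at h3
    push_cast at h3
    linarith
  exact le_antisymm (h1 hE hD fun p V h1 h2 => (h p V h1 h2).symm) (h1 hD hE h)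

theorem nef_face (hR : IsDiv X.z R) (h : Nef γ) (h' : dot (num X R) γ = 0) (j : ℕ) (F)
    (hF : IsDiv X.z F) (hE : IsEff X.z fun p => R p ^ (j : ℤ) * F p) : 0 ≤ dot (num X F) γ := by
  have h1 := h _ hE
  rwa [num_mul (hR.zpow _) hF, num_zpow hR, dot_add, dot_smul, h', mul_zero, zero_add] at h1

end GMC
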