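import Pool.Agent.Work.MP_64a944_ag.Defs

/-!
# Geometric Manin's conjecture: the definitions

A projective variety over the complex numbers is given by its function field `K` and the
homogeneous coordinates `z : ι → K` of its generic point: it is the closed subvariety of projective
space cut out by the forms that vanish at `z`.
-/

namespace GMC

open MvPolynomial

section
variable {K L : Type} [Field K] [Field L] [Algebra ℂ K] [Algebra ℂ L] {ι κ : Type}

/-- `x` is (a vector of homogeneous coordinates of) an `L`-valued point of the projective variety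
with generic point `z`.  For `L = ℂ` these are the closed points. -/
def IsPt (z : ι → K) (x : ι → L) : Prop :=
  x ≠ 0 ∧ ∀ (n : ℕ) (G : MvPolynomial ι ℂ), G.IsHomogeneous n → aeval z G = 0 → aeval x G = 0

/-- The rational function `φ` is regular at the point `x`, with value `a`. -/
def Val (z : ι → K) (x : ι → L) (φ : K) (a : L) : Prop :=
  ∃ (n : ℕ) (G H : MvPolynomial ι ℂ), G.IsHomogeneous n ∧ H.IsHomogeneous n ∧ aeval x H ≠ 0 ∧
    φ * aeval z H = aeval z G ∧ a * aeval x H = aeval x G

/-- `φ` is regular at `x`. -/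
def Reg (z : ι → K) (x : ι → L) (φ : K) : Prop := ∃ a, Val z x φ a

/-- `φ` is a unit of the local ring at `x`. -/
def IsU (z : ι → K) (x : ι → L) (φ : K) : Prop := ∃ a, a ≠ 0 ∧ Val z x φ a

/-- The value at `x` of a function regular at `x`. -/
noncomputable def ev (z : ι → K) (x : ι → L) (φ : K) : L := Classical.epsilon (Val z x φ)

/-- The ratios of the coordinates generate the field. -/
def Gen (z : ι → K) : Prop :=
  IntermediateField.adjoin ℂ (Set.range fun c : ι × ι => z c.1 / z c.2) = ⊤

/-- The rational map `(f j)` to projective space is a morphism. -/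
def IsMor (z : ι → K) (f : κ → K) : Prop :=
  ∀ p : ι → ℂ, IsPt z p → ∃ i, f i ≠ 0 ∧ ∀ j, Reg z p (f j / f i)

/-- The map `(f j)` sends the point `x` to the point `y`. -/
def Img (z : ι → K) (f : κ → K) (x : ι → L) (y : κ → L) : Prop :=
  y ≠ 0 ∧ ∃ c : K, ∀ j, Val z x (c * f j) (y j)

/-- The image of the point `x`. -/
noncomputable def img (z : ι → K) (f : κ → K) (x : ι → L) : κ → L :=
  Classical.epsilon (Img z f x)

/-- A Cartier divisor: a local equation `D p` at every closed point `p`, which is also a local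
equation at all points of a neighbourhood of `p`. -/
def IsDiv (z : ι → K) (D : (ι → ℂ) → K) : Prop :=
  ∀ p, IsPt z p → ∃ (n : ℕ) (H : MvPolynomial ι ℂ), H.IsHomogeneous n ∧ aeval p H ≠ 0 ∧
    ∀ q, IsPt z q → aeval q H ≠ 0 → IsU z q (D q / D p)

/-- An effective Cartier divisor. -/
def IsEff (z : ι → K) (D : (ι → ℂ) → K) : Prop := IsDiv z D ∧ ∀ p, IsPt z p → Reg z p (D p)

/-- `φ` is a global section of the line bundle of `m D`: the divisor of `φ` plus `m D` is
effective, or `φ = 0`. -/
def IsSec (z : ι → K) (D : (ι → ℂ) → K) (m : ℕ) (φ : K) : Prop :=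
  ∀ p, IsPt z p → Reg z p (φ * D p ^ m)

/-- `D` is ample: for some `m > 0` finitely many sections of `m D` without common zero define an
isomorphism onto a closed subvariety of projective space. -/
def Ample (z : ι → K) (D : (ι → ℂ) → K) : Prop :=
  ∃ (m : ℕ) (κ : Type) (_ : Fintype κ) (φ : κ → K), 0 < m ∧ (∀ j, IsSec z D m (φ j)) ∧
    (∀ p, IsPt z p → ∃ j, IsU z p (φ j * D p ^ m)) ∧ Gen φ ∧ IsMor φ z

/-- The Iitaka dimension of `D` is positive: some `m D` has two independent sections. -/
def KappaPos (z : ι → K) (D : (ι → ℂ) → K) : Prop :=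
  ∃ (m : ℕ) (φ ψ : K), 0 < m ∧ IsSec z D m φ ∧ IsSec z D m ψ ∧ LinearIndependent ℂ ![φ, ψ]

/-- `D` is a canonical divisor: the divisor of the rational top form `ω` dual to a basis `δ` of
the derivations of the function field.  One has `dφ₁ ∧ ⋯ ∧ dφₙ = det (δ i (φ j)) ω`, and these
forms, for `φ j` regular at `p`, generate the canonical sheaf at `p`. -/
def IsCanonical (z : ι → K) (D : (ι → ℂ) → K) : Prop :=
  IsDiv z D ∧ ∃ (n : ℕ) (δ : Module.Basis (Fin n) K (Derivation ℂ K K)), ∀ p, IsPt z p →
    (∀ φ : Fin n → K, (∀ j, Reg z p (φ j)) →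
      Reg z p ((Matrix.of fun i j => δ i (φ j)).det * D p)) ∧
    ∃ φ : Fin n → K, (∀ j, Reg z p (φ j)) ∧ IsU z p ((Matrix.of fun i j => δ i (φ j)).det * D p)

/-- The pull-back of a Cartier divisor `D` of the variety with generic point `w` along a dominant
morphism `f`. -/
noncomputable def pull (z : ι → K) {K' : Type} [Field K'] [Algebra ℂ K'] (w : κ → K')
    (f : κ → K) (D : (κ → ℂ) → K') : (ι → ℂ) → K :=
  fun p => ev w f (D (img z f p))

/-- The places of `L`: for a function field of one variable, the points of its smooth projective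
curve. -/
def Place (L : Type) [Field L] [Algebra ℂ L] : Type :=
  {P : ValuationSubring L // P ≠ ⊤ ∧ ∀ c : ℂ, algebraMap ℂ L c ∈ P}

/-- The order of vanishing: the exponent of a generator `π` of the maximal ideal. -/
noncomputable def ord (P : Place L) (f : L) : ℤ :=
  Classical.epsilon fun n : ℤ => ∃ π : L, P.1.valuation π < 1 ∧
    (∀ g : L, P.1.valuation g < 1 → P.1.valuation g ≤ P.1.valuation π) ∧
      P.1.valuation f = P.1.valuation π ^ n

/-- The closed point to which the place `P` is sent by the curve `x`. -/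
noncomputable def ctr (x : ι → L) (P : Place L) : ι → ℂ :=
  Classical.epsilon fun p : ι → ℂ =>
    p ≠ 0 ∧ ∃ c : L, ∀ j, P.1.valuation (c * x j - algebraMap ℂ L (p j)) < 1

/-- The degree of the pull-back of the line bundle of `D` along the curve `x`.  Here `φ` is a
local equation of `D` at the image of the generic point of the curve, so that the functions
`D p / φ` restrict to the curve and are local equations of a divisor on it. -/
noncomputable def deg (z : ι → K) (D : (ι → ℂ) → K) (x : ι → L) : ℤ :=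
  ∑ᶠ P : Place L, ord P (ev z x (D (ctr x P) /
    Classical.epsilon fun φ : K => ∀ Q : Place L, IsU z x (D (ctr x Q) / φ)))

/-- Coefficient arrays of the morphisms of degree `e` from the projective line: the affine cone
over the space of such morphisms. -/
def MorSet (z : ι → K) (e : ℕ) : Set (ι × Fin (e + 1) → ℂ) :=
  {a | ∀ s t : ℂ, (s, t) ≠ (0, 0) → IsPt z (GM.form a s t)}

end

/-- A projective variety over the complex numbers. -/
structure Var : Type 1 where
  K : Type
  [field : Field K]
  [algebra : Algebra ℂ K]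
  ι : Type
  [fintype : Fintype ι]
  z : ι → K
  ne : z ≠ 0
  gen : Gen z

attribute [instance] Var.field Var.algebra Var.fintype

/-- Every closed point lies in a standard affine chart that is smooth. -/
def Var.Smooth (X : Var) : Prop :=
  ∀ p : X.ι → ℂ, IsPt X.z p → ∃ i, p i ≠ 0 ∧
    Algebra.Smooth ℂ (Algebra.adjoin ℂ (Set.range fun j => X.z j / X.z i))

/-- A smooth Fano variety with a canonical divisor. -/
def Var.Fano (X : Var) (KX : (X.ι → ℂ) → X.K) : Prop :=
  X.Smooth ∧ IsCanonical X.z KX ∧ Ample X.z fun p => (KX p)⁻¹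

/-- A morphism from a smooth projective curve with function field `L`. -/
structure Crv (X : Var) : Type 1 where
  L : Type
  [field : Field L]
  [algebra : Algebra ℂ L]
  ff : ∃ t : L, Transcendental ℂ t ∧ FiniteDimensional (IntermediateField.adjoin ℂ {t}) L
  x : X.ι → L
  pt : IsPt X.z x

attribute [instance] Crv.field Crv.algebra

section
variable {X Y : Var}

/-- The numerical class of a divisor: its degrees on all curves. -/
noncomputable def num (X : Var) (D : (X.ι → ℂ) → X.K) : Crv X → ℝ := fun C => deg X.z D C.x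

/-- The numerical class of the pull-back of the line bundle of `D` along any morphism `f`. -/
noncomputable def pullNum (Y X : Var) (f : X.ι → Y.K) (D : (X.ι → ℂ) → X.K) : Crv Y → ℝ :=
  fun C => deg X.z D (img Y.z f C.x)

/-- The intersection number of a divisor class with a real one-cycle. -/
noncomputable def dot (ν : Crv X → ℝ) (γ : Crv X →₀ ℝ) : ℝ := γ.sum fun C r => r * ν C

/-- Numerical equivalence of one-cycles. -/
def NumEq (γ γ' : Crv X →₀ ℝ) : Prop := ∀ D, IsDiv X.z D → dot (num X D) γ = dot (num X D) γ'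

/-- Integral one-cycles. -/
def Integral (γ : Crv X →₀ ℝ) : Prop := ∀ C, ∃ n : ℤ, γ C = n

/-- Nef curve classes. -/
def Nef (γ : Crv X →₀ ℝ) : Prop := ∀ D, IsEff X.z D → 0 ≤ dot (num X D) γ

/-- The pseudo-effective cone: the closure of the cone of effective divisor classes. -/
def Psef (X : Var) : Set (Crv X → ℝ) :=
  closure (AddSubmonoid.closure {ν | ∃ (r : ℝ) (D : (X.ι → ℂ) → X.K),
    0 ≤ r ∧ IsEff X.z D ∧ ν = r • num X D} : Set (Crv X → ℝ))

/-- The `a`-invariant of the class `ν`; `KX` is a canonical divisor. -/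
noncomputable def aInv (X : Var) (KX : (X.ι → ℂ) → X.K) (ν : Crv X → ℝ) : EReal :=
  sInf ((fun t : ℝ => (t : EReal)) '' {t | num X KX + t • ν ∈ Psef X})

/-- The cone `F(X, ν)`. -/
def Face (X : Var) (KX : (X.ι → ℂ) → X.K) (ν : Crv X → ℝ) : Set (Crv X →₀ ℝ) :=
  {γ | Nef γ ∧ dot (num X KX + (aInv X KX ν).toReal • ν) γ = 0}

/-- A generically finite morphism `f : Y → X`, given by the image of the generic point. -/
def GenFin (Y X : Var) (f : X.ι → Y.K) : Prop :=
  IsPt X.z f ∧ IsMor Y.z f ∧ Algebra.IsAlgebraic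
    (IntermediateField.adjoin ℂ (Set.range fun c : X.ι × X.ι => f c.1 / f c.2)) Y.K

/-- An `a`-cover: dominant (the generic point goes to the generic point), not birational, same
`a`-invariant. -/
def ACover (Y X : Var) (KY : (Y.ι → ℂ) → Y.K) (KX : (X.ι → ℂ) → X.K) (f : X.ι → Y.K) : Prop :=
  IsPt f X.z ∧ ¬ Gen f ∧ aInv Y KY (-pullNum Y X f KX) = aInv X KX (-num X KX)

/-- Breaking morphisms. -/
def Breaking (Y X : Var) (KY : (Y.ι → ℂ) → Y.K) (KX : (X.ι → ℂ) → X.K) (f : X.ι → Y.K) : Prop :=
  aInv X KX (-num X KX) < aInv Y KY (-pullNum Y X f KX) ∨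
  (ACover Y X KY KX f ∧ KappaPos Y.z fun p => KY p / pull Y.z X.z f KX p) ∨
  (ACover Y X KY KX f ∧ ∃ γ ∈ Face Y KY (-pullNum Y X f KX), ∃ γ' ∈ Face Y KY (-pullNum Y X f KX),
    ¬ NumEq γ γ' ∧ ∀ D, IsDiv X.z D → dot (pullNum Y X f D) γ = dot (pullNum Y X f D) γ')

/-- The morphisms of degree `e` from the projective line whose class is `β`. -/
def MorCl (X : Var) (β : Crv X →₀ ℝ) (e : ℕ) : Set (X.ι × Fin (e + 1) → ℂ) :=
  {a ∈ MorSet X.z e | ∀ D, IsDiv X.z D →
    (deg X.z D (GM.form (fun c => RatFunc.C (a c)) 1 RatFunc.X) : ℝ) = dot (num X D) β}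

/-- The irreducible closed set with prime ideal `𝔭` is accumulating: it is the closure of the image
of a component `𝔮` of the space of rational curves on some `Y`, under composition with a breaking
morphism. -/
def Accum (X : Var) (KX : (X.ι → ℂ) → X.K) (e : ℕ)
    (𝔭 : Ideal (MvPolynomial (X.ι × Fin (e + 1)) ℂ)) : Prop :=
  ∃ (Y : Var) (KY : (Y.ι → ℂ) → Y.K) (f : X.ι → Y.K), Y.Smooth ∧ IsCanonical Y.z KY ∧
    GenFin Y X f ∧ Breaking Y X KY KX f ∧
    ∃ (e' : ℕ) (𝔮 : Ideal (MvPolynomial (Y.ι × Fin (e' + 1)) ℂ)),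
      𝔮 ∈ (vanishingIdeal ℂ (MorSet Y.z e')).minimalPrimes ∧
      vanishingIdeal ℂ {a ∈ MorSet X.z e | ∃ b ∈ MorSet Y.z e', b ∈ zeroLocus ℂ 𝔮 ∧
        ∀ s t : ℂ, (s, t) ≠ (0, 0) → Img Y.z f (GM.form b s t) (GM.form a s t)} = 𝔭

/-- The Manin components of the space of rational curves of class `β`, as prime ideals. -/
def Manin (X : Var) (KX : (X.ι → ℂ) → X.K) (β : Crv X →₀ ℝ) :
    Set (Σ e : ℕ, Ideal (MvPolynomial (X.ι × Fin (e + 1)) ℂ)) :=
  {M | M.2 ∈ (vanishingIdeal ℂ (MorCl X β M.1)).minimalPrimes ∧ ¬ Accum X KX M.1 M.2}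

end

end GMC
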